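import Pool.Agent.Lib.MP_12eb66_co.Defs

/-! The group ring of G = ZMod q x ZMod w and its basic facts (proved). -/

set_option linter.unusedSectionVars false

namespace Ry
open AddMonoidAlgebra

/-- the group ring -/
abbrev AA (q w : ℕ) : Type := AddMonoidAlgebra ℤ (ZMod q × ZMod w)

section
variable {p q w : ℕ} [NeZero q] [NeZero w]

/-- element of the group ring with given coefficients -/
noncomputable def el (d : ZMod q × ZMod w → ℤ) : AA q w := ∑ g, single g (d g)

/-- sum of the subgroup P1 x 0 -/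
noncomputable def N1 (p q w : ℕ) [NeZero q] : AA q w := ∑ c ∈ P1 p q, single (c, 0) 1

/-- sum of all elements of G -/
noncomputable def JJ (q w : ℕ) [NeZero q] [NeZero w] : AA q w := ∑ g, single g 1

/-- p - N1 -/
noncomputable def pi1 (p q w : ℕ) [NeZero q] : AA q w := (p : AA q w) - N1 p q w

/-- the involution -/
noncomputable def bar : AA q w →+* AA q w := mapDomainRingHom ℤ (-AddMonoidHom.id (ZMod q × ZMod w))

/-- multiplication by t on the first component -/
noncomputable def mu (t : ZMod q) : AA q w →+* AA q w :=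
  mapDomainRingHom ℤ ((AddMonoidHom.mulLeft t).prodMap (AddMonoidHom.id (ZMod w)))

theorem AA.ext {x y : AA q w} (h : ∀ g, x.coeff g = y.coeff g) : x = y := by
  apply AddMonoidAlgebra.ext
  exact Finsupp.ext h

theorem coeff_sum' {ι : Type*} (s : Finset ι) (f : ι → AA q w) (g : ZMod q × ZMod w) :
    (∑ i ∈ s, f i).coeff g = ∑ i ∈ s, (f i).coeff g := by
  rw [AddMonoidAlgebra.coeff_sum, Finsupp.finsetSum_apply]

theorem coeff_single' (a g : ZMod q × ZMod w) (r : ℤ) : (single a r : AA q w).coeff g = if g = a then r else 0 := by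
  rw [AddMonoidAlgebra.coeff_single, Finsupp.single_apply]
  simp only [eq_comm]

@[simp] theorem coeff_el (d : ZMod q × ZMod w → ℤ) (g : ZMod q × ZMod w) : (el d).coeff g = d g := by
  rw [el, coeff_sum']
  simp only [coeff_single']
  simp

theorem eq_el (x : AA q w) : x = el fun g => x.coeff g := by
  apply AA.ext
  intro g
  simp

theorem mem_P1 {c : ZMod q} : c ∈ P1 p q ↔ (p : ZMod q) * c = 0 := by simp [P1]

theorem single_mul_coeff (a g : ZMod q × ZMod w) (r : ℤ) (x : AA q w) :
    (single a r * x).coeff g = r * x.coeff (g - a) := by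
  rw [AddMonoidAlgebra.coeff_single_mul_apply]
  congr 2
  abel

theorem coeff_mul' (x y : AA q w) (g : ZMod q × ZMod w) :
    (x * y).coeff g = ∑ h, x.coeff h * y.coeff (g - h) := by
  conv_lhs => rw [eq_el x, el, Finset.sum_mul, coeff_sum']
  exact Finset.sum_congr rfl fun h _ => single_mul_coeff _ _ _ _

theorem intCast_eq (k : ℤ) : (k : AA q w) = single 0 k := by
  rw [AddMonoidAlgebra.intCast_def]; simp

theorem natCast_eq (k : ℕ) : (k : AA q w) = single 0 (k : ℤ) := by
  rw [← Int.cast_natCast, intCast_eq]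

theorem coeff_natCast_mul (k : ℕ) (x : AA q w) (g : ZMod q × ZMod w) :
    ((k : AA q w) * x).coeff g = k * x.coeff g := by
  rw [natCast_eq, single_mul_coeff, sub_zero]

theorem coeff_intCast_mul (k : ℤ) (x : AA q w) (g : ZMod q × ZMod w) :
    ((k : AA q w) * x).coeff g = k * x.coeff g := by
  rw [intCast_eq, single_mul_coeff, sub_zero]

theorem coeff_sub' (x y : AA q w) (g : ZMod q × ZMod w) : (x - y).coeff g = x.coeff g - y.coeff g := by
  rw [AddMonoidAlgebra.coeff_sub, Finsupp.sub_apply]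

theorem coeff_add' (x y : AA q w) (g : ZMod q × ZMod w) : (x + y).coeff g = x.coeff g + y.coeff g := by
  rw [AddMonoidAlgebra.coeff_add, Finsupp.add_apply]

theorem coeff_zero' (g : ZMod q × ZMod w) : (0 : AA q w).coeff g = 0 := rfl

theorem coeff_one' (g : ZMod q × ZMod w) : (1 : AA q w).coeff g = if g = 0 then 1 else 0 := by
  rw [AddMonoidAlgebra.one_def, coeff_single']

theorem coeff_intCast' (k : ℤ) (g : ZMod q × ZMod w) : (k : AA q w).coeff g = if g = 0 then k else 0 := by
  rw [intCast_eq, coeff_single']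

theorem coeff_natCast' (k : ℕ) (g : ZMod q × ZMod w) : (k : AA q w).coeff g = if g = 0 then (k : ℤ) else 0 := by
  rw [natCast_eq, coeff_single']

/-- the group ring has no torsion -/
theorem intCast_mul_cancel {k : ℤ} (hk : k ≠ 0) {x y : AA q w} (h : (k : AA q w) * x = k * y) : x = y := by
  apply AA.ext
  intro g
  have h1 := congrArg (fun z : AA q w => z.coeff g) h
  simp only [coeff_intCast_mul] at h1
  exact mul_left_cancel₀ hk h1

theorem natCast_mul_cancel {k : ℕ} (hk : k ≠ 0) {x y : AA q w} (h : (k : AA q w) * x = k * y) : x = y := by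
  apply intCast_mul_cancel (k := k) (by exact_mod_cast hk)
  simpa using h

theorem bar_single (a : ZMod q × ZMod w) (r : ℤ) : bar (single a r : AA q w) = single (-a) r := by
  simp [bar]

theorem mu_single (t : ZMod q) (a : ZMod q × ZMod w) (r : ℤ) :
    mu t (single a r : AA q w) = single (t * a.1, a.2) r := by
  simp only [mu, mapDomainRingHom_apply, mapDomain_single]
  rfl

theorem coeff_bar (x : AA q w) (g : ZMod q × ZMod w) : (bar x).coeff g = x.coeff (-g) := by
  conv_lhs => rw [eq_el x, el, map_sum, coeff_sum']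
  simp only [bar_single, coeff_single']
  rw [Finset.sum_eq_single (-g)]
  · simp
  · intro b _ hb
    rw [if_neg]
    rintro rfl
    simp at hb
  · intro h
    exact absurd (Finset.mem_univ _) h

theorem coeff_mu (t : (ZMod q)ˣ) (x : AA q w) (g : ZMod q × ZMod w) :
    (mu (t : ZMod q) x).coeff (t * g.1, g.2) = x.coeff g := by
  conv_lhs => rw [eq_el x, el, map_sum, coeff_sum']
  simp only [mu_single, coeff_single']
  rw [Finset.sum_eq_single g]
  · simp
  · intro b _ hb
    rw [if_neg]
    intro h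
    apply hb
    have h1 := congrArg Prod.fst h
    have h2 := congrArg Prod.snd h
    simp only at h1 h2
    exact Prod.ext (t.isUnit.mul_left_cancel h1.symm) h2.symm
  · intro h
    exact absurd (Finset.mem_univ _) h

theorem mu_mu (t u : ZMod q) (x : AA q w) : mu t (mu u x) = mu (t * u) x := by
  rw [eq_el x, el, map_sum, map_sum, map_sum]
  refine Finset.sum_congr rfl fun g _ => ?_
  rw [mu_single, mu_single, mu_single, mul_assoc]

theorem mu_one (x : AA q w) : mu (1 : ZMod q) x = x := by
  rw [eq_el x, el, map_sum]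
  refine Finset.sum_congr rfl fun g _ => ?_
  rw [mu_single, one_mul]

theorem bar_bar (x : AA q w) : bar (bar x) = x := by
  apply AA.ext
  intro g
  rw [coeff_bar, coeff_bar, neg_neg]

theorem coeff_mul_bar (x y : AA q w) (g : ZMod q × ZMod w) :
    (x * bar y).coeff g = ∑ h, x.coeff h * y.coeff (h - g) := by
  rw [coeff_mul']
  refine Finset.sum_congr rfl fun h _ => ?_
  rw [coeff_bar, neg_sub]

theorem coeff_N1_mul (x : AA q w) (g : ZMod q × ZMod w) :
    (N1 p q w * x).coeff g = ∑ c ∈ P1 p q, x.coeff (g.1 + c, g.2) := by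
  rw [N1, Finset.sum_mul, coeff_sum']
  refine Finset.sum_nbij' (fun c => -c) (fun c => -c) ?_ ?_ ?_ ?_ ?_
  · intro c hc
    rw [mem_P1] at hc ⊢
    rw [mul_neg, hc, neg_zero]
  · intro c hc
    rw [mem_P1] at hc ⊢
    rw [mul_neg, hc, neg_zero]
  · intro c _; exact neg_neg c
  · intro c _; exact neg_neg c
  · intro c _
    rw [single_mul_coeff, one_mul]
    congr 1
    ext
    · simp [sub_eq_add_neg]
    · simp

theorem coeff_pi1_mul (x : AA q w) (g : ZMod q × ZMod w) :
    (pi1 p q w * x).coeff g = p * x.coeff g - ∑ c ∈ P1 p q, x.coeff (g.1 + c, g.2) := by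
  rw [pi1, sub_mul, coeff_sub', coeff_natCast_mul, coeff_N1_mul]

theorem del_eq (d : ZMod q × ZMod w → ℤ) (g : ZMod q × ZMod w) : del p d g = (pi1 p q w * el d).coeff g := by
  rw [coeff_pi1_mul, del, bet]
  simp

theorem coeff_JJ (g : ZMod q × ZMod w) : (JJ q w).coeff g = 1 := by
  rw [JJ, coeff_sum']
  simp only [coeff_single']
  simp

theorem JJ_mul (x : AA q w) : JJ q w * x = ((∑ g, x.coeff g : ℤ) : AA q w) * JJ q w := by
  apply AA.ext
  intro g
  rw [coeff_mul', coeff_intCast_mul, coeff_JJ, mul_one]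
  simp only [coeff_JJ, one_mul]
  exact Fintype.sum_equiv (Equiv.subLeft g) _ _ fun h => rfl

end

section
variable {p s q w : ℕ} [NeZero q] [NeZero w]

/-- P1 consists of the multiples of p^(s-1) -/
theorem P1_eq_image (hp : p.Prime) (hs : 0 < s) (hq : q = p ^ s) :
    P1 p q = (Finset.range p).image (fun j : ℕ => ((j * p ^ (s - 1) : ℕ) : ZMod q)) := by
  have hqq : q = p * p ^ (s - 1) := by rw [hq, ← pow_succ']; congr 1; omega
  ext c
  rw [mem_P1, Finset.mem_image]
  constructor
  · intro h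
    have h1 : q ∣ p * c.val := by
      rw [← ZMod.natCast_eq_zero_iff]
      push_cast
      rw [ZMod.natCast_zmod_val]
      exact h
    have h2 : p ^ (s - 1) ∣ c.val := by
      have h1' : p * p ^ (s - 1) ∣ p * c.val := hqq ▸ h1
      exact (Nat.mul_dvd_mul_iff_left hp.pos).1 h1'
    obtain ⟨j, hj⟩ := h2
    refine ⟨j, ?_, ?_⟩
    · rw [Finset.mem_range]
      have h3 := c.val_lt
      rw [hj] at h3
      have h4 : p ^ (s - 1) * j < p ^ (s - 1) * p := by rw [mul_comm (p ^ (s - 1)) p, ← hqq]; exact h3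
      exact lt_of_mul_lt_mul_left h4 (Nat.zero_le _)
    · rw [mul_comm, ← hj, ZMod.natCast_zmod_val]
  · rintro ⟨j, -, rfl⟩
    rw [← Nat.cast_mul, ZMod.natCast_eq_zero_iff]
    nth_rewrite 1 [hqq]
    exact ⟨j, by ring⟩

theorem card_P1 (hp : p.Prime) (hs : 0 < s) (hq : q = p ^ s) : (P1 p q).card = p := by
  have hqq : q = p * p ^ (s - 1) := by rw [hq, ← pow_succ']; congr 1; omega
  have hpos : 0 < p ^ (s - 1) := pow_pos hp.pos _
  rw [P1_eq_image hp hs hq, Finset.card_image_of_injOn, Finset.card_range]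
  intro i hi j hj hij
  rw [Finset.mem_coe, Finset.mem_range] at hi hj
  simp only at hij
  have hlt : ∀ i, i < p → i * p ^ (s - 1) < q := by
    intro i hi
    rw [hqq]
    exact Nat.mul_lt_mul_of_pos_right hi hpos
  have h1 := congrArg ZMod.val hij
  rw [ZMod.val_natCast_of_lt (hlt i hi), ZMod.val_natCast_of_lt (hlt j hj)] at h1
  exact Nat.eq_of_mul_eq_mul_right hpos h1

theorem add_mem_P1 {c c' : ZMod q} (h : c ∈ P1 p q) (h' : c' ∈ P1 p q) : c + c' ∈ P1 p q := by
  rw [mem_P1] at *
  rw [mul_add, h, h', add_zero]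

theorem neg_mem_P1 {c : ZMod q} (h : c ∈ P1 p q) : -c ∈ P1 p q := by
  rw [mem_P1] at *
  rw [mul_neg, h, neg_zero]

theorem zero_mem_P1 : (0 : ZMod q) ∈ P1 p q := by
  rw [mem_P1, mul_zero]

theorem mul_mem_P1 {c : ZMod q} (t : ZMod q) (h : c ∈ P1 p q) : t * c ∈ P1 p q := by
  rw [mem_P1] at *
  rw [mul_left_comm, h, mul_zero]

/-- sums over P1 can be translated -/
theorem sum_P1_add {B : Type*} [AddCommMonoid B] (f : ZMod q → B) {c : ZMod q} (hc : c ∈ P1 p q) :
    ∑ c' ∈ P1 p q, f (c' + c) = ∑ c' ∈ P1 p q, f c' := by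
  refine Finset.sum_nbij' (fun x => x + c) (fun x => x + -c) ?_ ?_ ?_ ?_ ?_
  · intro x hx; exact add_mem_P1 hx hc
  · intro x hx; exact add_mem_P1 hx (neg_mem_P1 hc)
  · intro x _; simp
  · intro x _; simp
  · intro x _; rfl

theorem coeff_N1_mul_add (x : AA q w) (g : ZMod q × ZMod w) {c : ZMod q} (hc : c ∈ P1 p q) :
    (N1 p q w * x).coeff (g.1 + c, g.2) = (N1 p q w * x).coeff g := by
  rw [coeff_N1_mul, coeff_N1_mul]
  have := sum_P1_add (p := p) (fun c' => x.coeff (g.1 + c', g.2)) hc
  rw [← this]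
  refine Finset.sum_congr rfl fun c' _ => ?_
  congr 2
  ring

theorem N1_mul_N1_mul (hp : p.Prime) (hs : 0 < s) (hq : q = p ^ s) (x : AA q w) :
    N1 p q w * (N1 p q w * x) = (p : AA q w) * (N1 p q w * x) := by
  apply AA.ext
  intro g
  rw [coeff_N1_mul, coeff_natCast_mul, Finset.sum_congr rfl (fun c hc => coeff_N1_mul_add x g hc)]
  rw [Finset.sum_const, card_P1 hp hs hq]
  simp

theorem N1_mul_N1 (hp : p.Prime) (hs : 0 < s) (hq : q = p ^ s) :
    N1 p q w * N1 p q w = (p : AA q w) * N1 p q w := by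
  have := N1_mul_N1_mul hp hs hq (1 : AA q w)
  simpa using this

theorem pi1_mul_pi1 (hp : p.Prime) (hs : 0 < s) (hq : q = p ^ s) :
    pi1 p q w * pi1 p q w = (p : AA q w) * pi1 p q w := by
  have := N1_mul_N1 (w := w) hp hs hq
  unfold pi1
  linear_combination this

theorem N1_mul_pi1 (hp : p.Prime) (hs : 0 < s) (hq : q = p ^ s) : N1 p q w * pi1 p q w = 0 := by
  have := N1_mul_N1 (w := w) hp hs hq
  unfold pi1
  linear_combination -this

theorem bar_pi1 : bar (pi1 p q w) = pi1 p q w := by
  have h : bar (N1 p q w) = N1 p q w := by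
    apply AA.ext
    intro g
    have h1 : ∀ g : ZMod q × ZMod w, (N1 p q w).coeff g = if g.1 ∈ P1 p q ∧ g.2 = 0 then 1 else 0 := by
      intro g
      rw [N1, coeff_sum']
      simp only [coeff_single']
      by_cases hg : g.1 ∈ P1 p q ∧ g.2 = 0
      · rw [if_pos hg, Finset.sum_eq_single g.1]
        · rw [if_pos]
          ext
          · rfl
          · exact hg.2
        · intro b _ hb
          rw [if_neg]
          rintro rfl
          exact hb rfl
        · intro h; exact absurd hg.1 h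
      · rw [if_neg hg]
        apply Finset.sum_eq_zero
        intro c hc
        rw [if_neg]
        rintro rfl
        exact hg ⟨hc, rfl⟩
    rw [coeff_bar, h1, h1]
    congr 1
    apply propext
    constructor
    · rintro ⟨h2, h3⟩
      refine ⟨?_, ?_⟩
      · have := neg_mem_P1 h2
        simpa using this
      · simpa using h3
    · rintro ⟨h2, h3⟩
      refine ⟨neg_mem_P1 h2, ?_⟩
      simpa using h3
  unfold pi1
  rw [map_sub, h, map_natCast]

theorem mu_pi1 (t : (ZMod q)ˣ) : mu (t : ZMod q) (pi1 p q w) = pi1 p q w := by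
  have h : mu (t : ZMod q) (N1 p q w) = N1 p q w := by
    unfold N1
    rw [map_sum]
    simp only [mu_single]
    refine Finset.sum_nbij' (fun c => (t : ZMod q) * c) (fun c => ((t⁻¹ : (ZMod q)ˣ) : ZMod q) * c) ?_ ?_ ?_ ?_ ?_
    · intro x hx; exact mul_mem_P1 _ hx
    · intro x hx; exact mul_mem_P1 _ hx
    · intro x _; simp
    · intro x _; simp
    · intro x _; rfl
  unfold pi1
  rw [map_sub, h, map_natCast]

theorem mu_JJ (t : (ZMod q)ˣ) : mu (t : ZMod q) (JJ q w) = JJ q w := by
  apply AA.ext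
  intro g
  have := coeff_mu t (JJ q w) (((t⁻¹ : (ZMod q)ˣ) : ZMod q) * g.1, g.2)
  simp only [Units.mul_inv_cancel_left] at this
  rw [show g = (g.1, g.2) from rfl, this, coeff_JJ, coeff_JJ]

theorem sum_pi1 (hp : p.Prime) (hs : 0 < s) (hq : q = p ^ s) : JJ q w * pi1 p q w = 0 := by
  apply AA.ext
  intro g
  rw [mul_comm, coeff_pi1_mul, coeff_zero', coeff_JJ]
  simp only [coeff_JJ]
  rw [Finset.sum_const, card_P1 hp hs hq]
  simp

/-- the difference set equation -/
theorem Co.eq {d : ZMod q × ZMod w → ℤ} {lam n : ℤ} (h : Co d lam n) :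
    el d * bar (el d) = (n : AA q w) + (lam : AA q w) * JJ q w := by
  apply AA.ext
  intro g
  rw [coeff_mul_bar, coeff_add', coeff_intCast', coeff_intCast_mul, coeff_JJ, mul_one, add_comm]
  have := h.corr (-g)
  simp only [coeff_el, sub_eq_add_neg]
  rw [this]
  simp only [neg_eq_zero]

/-- D D^* (p - N1) = n (p - N1) -/
theorem Co.eq_pi1 {d : ZMod q × ZMod w → ℤ} {lam n : ℤ} (h : Co d lam n) (hp : p.Prime) (hs : 0 < s)
    (hq : q = p ^ s) : el d * bar (el d) * pi1 p q w = (n : AA q w) * pi1 p q w := by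
  rw [h.eq, add_mul, mul_assoc, sum_pi1 hp hs hq, mul_zero, add_zero]

/-- an element with N1 z = p z is constant on the cosets of P1 -/
theorem inv_of_pi1_mul (hp : p.Prime) {z : AA q w} (hz : pi1 p q w * z = 0)
    (g : ZMod q × ZMod w) {c : ZMod q} (hc : c ∈ P1 p q) : z.coeff (g.1 + c, g.2) = z.coeff g := by
  have h1 : (p : AA q w) * z = N1 p q w * z := by
    rw [pi1, sub_mul, sub_eq_zero] at hz
    exact hz
  have h2 := congrArg (fun y : AA q w => y.coeff g) h1
  have h3 := congrArg (fun y : AA q w => y.coeff (g.1 + c, g.2)) h1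
  simp only [coeff_natCast_mul] at h2 h3
  rw [coeff_N1_mul_add z g hc, ← h2] at h3
  exact mul_left_cancel₀ (by exact_mod_cast hp.ne_zero) h3

end

end Ry
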