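import Pool.Agent.Lib.MP_12eb66_co.Alg

/-! Row ry-B1. Proof. F = mu t D * bar D (D = el d). (pi1 * F).coeff g = ∑_{c in P1} (F g - F (g + c)) (coeff_pi1_mul, card_P1), divisible by p^a; f = el of the
quotients. f (g + c) - f g = p (F (g + c) - F g) / p^a by coeff_N1_mul_add; N1 * f = 0 since N1 * pi1 = 0 and no torsion. f * bar f:
p^(2a) f bar f = (pi1 F)(bar pi1 bar F) = pi1^2 (mu t D)(bar (mu t D)) D bar D (commutative, bar_bar, bar_pi1); pi1^2 = p pi1; D bar D pi1 = n pi1 (Co.eq_pi1);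
mu t D bar (mu t D) pi1 = mu t (D bar D pi1) = mu t (n pi1) = n pi1 (bar and mu commute: check on single or coefficients; mu_pi1); so p^(2a) f bar f = p n^2 pi1, n = p^a m. -/

namespace Ry

private theorem bar_mu {q w : ℕ} [NeZero q] [NeZero w] (t : ZMod q) (x : AA q w) :
    bar (mu t x) = mu t (bar x) := by
  rw [eq_el x, el, map_sum, map_sum, map_sum, map_sum]
  refine Finset.sum_congr rfl fun g _ => ?_
  rw [mu_single, bar_single, bar_single, mu_single]
  simp

theorem exists_f {p s q w : ℕ} [NeZero q] [NeZero w] (hp : p.Prime) (hs : 0 < s) (hq : q = p ^ s)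
    {d : ZMod q × ZMod w → ℤ} {lam n : ℤ} (h : Co d lam n) {a m : ℕ} (hn : n = (p : ℤ) ^ a * m) (t : (ZMod q)ˣ)
    (hF : ∀ g : ZMod q × ZMod w, ∀ c ∈ P1 p q, (p : ℤ) ^ a ∣
      (mu (t : ZMod q) (el d) * bar (el d)).coeff (g.1 + c, g.2) - (mu (t : ZMod q) (el d) * bar (el d)).coeff g) :
    ∃ f : AA q w, pi1 p q w * (mu (t : ZMod q) (el d) * bar (el d)) = (p : AA q w) ^ a * f ∧
      (∀ g : ZMod q × ZMod w, ∀ c ∈ P1 p q, (p : ℤ) ∣ f.coeff (g.1 + c, g.2) - f.coeff g) ∧
      N1 p q w * f = 0 ∧ f * bar f = (m : AA q w) ^ 2 * ((p : AA q w) * pi1 p q w) := by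
  have hpa : (p : ℤ) ^ a ≠ 0 := pow_ne_zero _ (by exact_mod_cast hp.ne_zero)
  have hpaN : p ^ a ≠ 0 := pow_ne_zero _ hp.ne_zero
  have hcast : ∀ x : AA q w, (p : AA q w) ^ a * x = ((p ^ a : ℕ) : AA q w) * x := by
    intro x; rw [Nat.cast_pow]
  have hdiv : ∀ g, (p : ℤ) ^ a ∣ (pi1 p q w * (mu (t : ZMod q) (el d) * bar (el d))).coeff g := by
    intro g
    rw [coeff_pi1_mul]
    have h1 : (p : ℤ) * (mu (t : ZMod q) (el d) * bar (el d)).coeff g
        = ∑ _c ∈ P1 p q, (mu (t : ZMod q) (el d) * bar (el d)).coeff g := by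
      rw [Finset.sum_const, card_P1 hp hs hq, nsmul_eq_mul]
    rw [h1, ← Finset.sum_sub_distrib]
    apply Finset.dvd_sum
    intro c hc
    have h2 := hF g c hc
    rw [← dvd_neg, neg_sub] at h2
    exact h2
  refine ⟨el fun g => (pi1 p q w * (mu (t : ZMod q) (el d) * bar (el d))).coeff g / (p : ℤ) ^ a, ?_, ?_, ?_, ?_⟩
  · apply AA.ext
    intro g
    rw [hcast, coeff_natCast_mul, coeff_el, Nat.cast_pow, Int.mul_ediv_cancel' (hdiv g)]
  · intro g c hc
    rw [coeff_el, coeff_el]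
    obtain ⟨k, hk⟩ := hF g c hc
    have h1 : (pi1 p q w * (mu (t : ZMod q) (el d) * bar (el d))).coeff (g.1 + c, g.2)
        - (pi1 p q w * (mu (t : ZMod q) (el d) * bar (el d))).coeff g = (p : ℤ) ^ a * (p * k) := by
      have e1 : ∀ g', (pi1 p q w * (mu (t : ZMod q) (el d) * bar (el d))).coeff g'
          = p * (mu (t : ZMod q) (el d) * bar (el d)).coeff g'
            - (N1 p q w * (mu (t : ZMod q) (el d) * bar (el d))).coeff g' := by
        intro g'
        rw [pi1, sub_mul, coeff_sub', coeff_natCast_mul]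
      rw [e1, e1, coeff_N1_mul_add _ g hc]
      linear_combination (p : ℤ) * hk
    obtain ⟨u, hu⟩ := hdiv (g.1 + c, g.2)
    obtain ⟨v, hv⟩ := hdiv g
    rw [hu, hv] at h1
    rw [hu, hv, Int.mul_ediv_cancel_left _ hpa, Int.mul_ediv_cancel_left _ hpa]
    refine ⟨k, ?_⟩
    apply mul_left_cancel₀ hpa
    linear_combination h1
  all_goals
    have hf : pi1 p q w * (mu (t : ZMod q) (el d) * bar (el d)) = (p : AA q w) ^ a *
        el (fun g => (pi1 p q w * (mu (t : ZMod q) (el d) * bar (el d))).coeff g / (p : ℤ) ^ a) := by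
      apply AA.ext
      intro g
      rw [hcast, coeff_natCast_mul, coeff_el, Nat.cast_pow, Int.mul_ediv_cancel' (hdiv g)]
    generalize hff : el (fun g => (pi1 p q w * (mu (t : ZMod q) (el d) * bar (el d))).coeff g / (p : ℤ) ^ a) = f at *
  · apply natCast_mul_cancel hpaN
    rw [← hcast, mul_left_comm, ← hf, ← mul_assoc, N1_mul_pi1 hp hs hq, zero_mul, mul_zero]
  · have h1 := h.eq_pi1 hp hs hq
    have h2 := congrArg (mu (t : ZMod q)) h1
    rw [map_mul, map_mul, map_mul, mu_pi1, map_intCast, ← bar_mu] at h2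
    have h3 := congrArg bar hf
    rw [map_mul, map_mul, map_mul, bar_pi1, bar_bar, map_pow, map_natCast] at h3
    have h4 := pi1_mul_pi1 (w := w) hp hs hq
    have hnA : (n : AA q w) = (p : AA q w) ^ a * (m : AA q w) := by
      rw [hn]; push_cast; ring
    rw [hnA] at h1 h2
    apply natCast_mul_cancel hpaN
    apply natCast_mul_cancel hpaN
    rw [Nat.cast_pow]
    generalize (mu (t : ZMod q)) (el d) = X at *
    generalize bar (el d) = Y at *
    generalize bar X = X' at *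
    generalize bar f = f' at *
    generalize el d = Y' at *
    generalize pi1 p q w = P at *
    generalize (p : AA q w) = pp at *
    -- hf : P * (X*Y) = pp^a * f ; h3 : P * (X' * Y') = pp^a * f'
    -- h1 : Y' * Y * P = pp^a*m*P ; h2 : X * X' * P = pp^a*m*P ; h4 : P*P = pp*P
    calc pp ^ a * (pp ^ a * (f * f')) = (pp ^ a * f) * (pp ^ a * f') := by ring
      _ = (P * (X * Y)) * (P * (X' * Y')) := by rw [← hf, ← h3]
      _ = (P * P) * (X * X') * (Y' * Y) := by ring
      _ = pp * (X * X' * P) * (Y' * Y) := by rw [h4]; ring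
      _ = pp * (pp ^ a * m) * (Y' * Y * P) := by rw [h2]; ring
      _ = pp ^ a * (pp ^ a * ((m : AA q w) ^ 2 * (pp * P))) := by rw [h1]; ring

end Ry
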