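import Pool.Agent.Lib.MP_12eb66_co.Alg

/-! Normalisation of e: on every coset of P1 the value 0 is a most frequent one. -/

set_option linter.unusedSectionVars false

namespace Ry

section
variable {p q w : ℕ} [NeZero q] [NeZero w]

private def cnt (p : ℕ) (f : ZMod q × ZMod w → ℤ) (g : ZMod q × ZMod w) (r : ℤ) : ℕ :=
  ((P1 p q).filter fun c => f (g.1 + c, g.2) = r).card

private theorem cnt_add (f : ZMod q × ZMod w → ℤ) (g : ZMod q × ZMod w) {c : ZMod q} (hc : c ∈ P1 p q) :
    cnt p f (g.1 + c, g.2) = cnt p f g := by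
  funext r
  unfold cnt
  have h1 := sum_P1_add (p := p) (fun c' => if f (g.1 + c', g.2) = r then 1 else 0) hc
  rw [Finset.card_filter, Finset.card_filter, ← h1]
  refine Finset.sum_congr rfl fun c' _ => ?_
  simp only
  rw [add_assoc, add_comm c c']

private theorem exists_mode (f : ZMod q × ZMod w → ℤ) (g : ZMod q × ZMod w) :
    ∃ r, ∀ r', cnt p f g r' ≤ cnt p f g r := by
  classical
  have hne : ((P1 p q).image fun c => f (g.1 + c, g.2)).Nonempty :=
    ⟨f (g.1 + 0, g.2), Finset.mem_image_of_mem _ zero_mem_P1⟩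
  obtain ⟨r, -, hr⟩ := Finset.exists_max_image _ (cnt p f g) hne
  refine ⟨r, fun r' => ?_⟩
  by_cases h : r' ∈ (P1 p q).image fun c => f (g.1 + c, g.2)
  · exact hr r' h
  · have h0 : cnt p f g r' = 0 := by
      unfold cnt
      rw [Finset.card_eq_zero, Finset.filter_eq_empty_iff]
      intro c hc h1
      exact h (Finset.mem_image.2 ⟨c, hc, h1⟩)
    rw [h0]
    exact Nat.zero_le _

open Classical in
private noncomputable def argmax (k : ℤ → ℕ) : ℤ :=
  if h : ∃ r, ∀ r', k r' ≤ k r then h.choose else 0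

private theorem argmax_spec {k : ℤ → ℕ} (h : ∃ r, ∀ r', k r' ≤ k r) (r' : ℤ) : k r' ≤ k (argmax k) := by
  unfold argmax
  rw [dif_pos h]
  exact h.choose_spec r'

end

theorem exists_e {p s q w : ℕ} [NeZero q] [NeZero w] (hp : p.Prime) (hs : 0 < s) (hq : q = p ^ s) (f : AA q w)
    (hf1 : ∀ g : ZMod q × ZMod w, ∀ c ∈ P1 p q, (p : ℤ) ∣ f.coeff (g.1 + c, g.2) - f.coeff g)
    (hf2 : N1 p q w * f = 0) :
    ∃ e : AA q w, f = pi1 p q w * e ∧ ∀ g : ZMod q × ZMod w, ∀ r : ℤ,
      ((P1 p q).filter fun c => e.coeff (g.1 + c, g.2) = r).card ≤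
        ((P1 p q).filter fun c => e.coeff (g.1 + c, g.2) = 0).card := by
  have hp0 : (p : ℤ) ≠ 0 := by exact_mod_cast hp.ne_zero
  set F : ZMod q × ZMod w → ℤ := fun g => f.coeff g with hF
  set φ : ZMod q × ZMod w → ℤ := fun g => argmax (cnt p F g) with hφ
  have hφc : ∀ (g : ZMod q × ZMod w) (c : ZMod q), c ∈ P1 p q → φ (g.1 + c, g.2) = φ g := by
    intro g c hc
    simp only [hφ]
    rw [cnt_add F g hc]
  have hmax : ∀ g r', cnt p F g r' ≤ cnt p F g (φ g) := fun g r' => argmax_spec (exists_mode F g) r'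
  have hdiv : ∀ g, (p : ℤ) ∣ F g - φ g := by
    intro g
    have h1 : 0 < cnt p F g (φ g) := by
      refine lt_of_lt_of_le ?_ (hmax g (F g))
      unfold cnt
      apply Finset.card_pos.2
      exact ⟨0, Finset.mem_filter.2 ⟨zero_mem_P1, by rw [add_zero]⟩⟩
    obtain ⟨c, hc⟩ := Finset.card_pos.1 h1
    rw [Finset.mem_filter] at hc
    have h2 := hf1 g c hc.1
    have h3 : f.coeff (g.1 + c, g.2) = φ g := hc.2
    rw [h3] at h2
    rw [← neg_sub]
    exact (dvd_neg).2 h2
  choose e he using hdiv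
  have hsum0 : ∀ g : ZMod q × ZMod w, ∑ c ∈ P1 p q, F (g.1 + c, g.2) = 0 := by
    intro g
    have h1 := congrArg (fun z : AA q w => z.coeff g) hf2
    simp only [coeff_N1_mul, coeff_zero'] at h1
    exact h1
  refine ⟨el e, ?_, ?_⟩
  · apply AA.ext
    intro g
    rw [coeff_pi1_mul]
    simp only [coeff_el]
    apply mul_left_cancel₀ hp0
    rw [mul_sub, Finset.mul_sum]
    have h1 : ∀ c ∈ P1 p q, (p : ℤ) * e (g.1 + c, g.2) = F (g.1 + c, g.2) - φ g := by
      intro c hc
      rw [← he, hφc g c hc]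
    rw [Finset.sum_congr rfl h1, Finset.sum_sub_distrib, hsum0, Finset.sum_const, card_P1 hp hs hq, ← he g]
    simp only [hF, nsmul_eq_mul]
    ring
  · intro g r
    simp only [coeff_el]
    have h1 : ∀ r : ℤ, ((P1 p q).filter fun c => e (g.1 + c, g.2) = r).card = cnt p F g (φ g + p * r) := by
      intro r
      unfold cnt
      congr 1
      apply Finset.filter_congr
      intro c hc
      have h2 := he (g.1 + c, g.2)
      rw [hφc g c hc] at h2
      constructor
      · intro h3
        rw [h3] at h2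
        linarith
      · intro h3
        rw [h3] at h2
        have h4 : (p : ℤ) * r = p * e (g.1 + c, g.2) := by linarith
        exact (mul_left_cancel₀ hp0 h4).symm
    rw [h1, h1, mul_zero, add_zero]
    exact hmax g _

end Ry
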