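import Pool.Agent.Lib.MP_12eb66_co.Alg

/-! Row ry-B3. Proof. The coefficient at 0 of he: ∑_g ∑_{c in P1} (e g^2 - e g e (g + c)) = m^2 (p - 1), hence (symmetrise, reindex by g -> g + c, c -> -c)
Q := ∑_g ∑_{c in P1} (e (g + c) - e g)^2 = 2 m^2 (p - 1). Let S = {g | e g ≠ 0}, X g = number of c in P1 with e (g + c) ≠ 0. (1) For every g:
∑_c (e (g + c) - e g)^2 >= number of c with e (g + c) ≠ e g >= X g (mode property with r = e g: the number of c with e (g + c) = e g is at most p - X g). Sum over g: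
∑_g X g = p |S|. So p |S| <= 2 m^2 (p - 1), |S| < 2 m^2, |S| <= 2 m^2 - 1. (2) For g in S: ∑_c (..)^2 >= number of c with e (g + c) = 0, = p - X g >= p - |S| >= p - (2 m^2 - 1); for g not in S:
∑_c (..)^2 >= X g; and ∑_{g not in S} X g = number of pairs (g, c) with e g = 0, e (g + c) ≠ 0 = (g + c, -c) number of pairs with e g ≠ 0, e (g + c) = 0 = ∑_{g in S} (p - X g). So
2 |S| (p - 2 m^2 + 1) <= Q = 2 m^2 (p - 1). If |S| >= m^2 + 1: (m^2 + 1)(p - 2 m^2 + 1) <= m^2 (p - 1), so p <= 2 m^4 - 1, contradiction. -/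

namespace Ry

set_option linter.unusedSectionVars false

section
variable {p q w : ℕ} [NeZero q] [NeZero w]

theorem B3_swap (F : ZMod q × ZMod w → ZMod q × ZMod w → ℤ) :
    ∑ g, ∑ c ∈ P1 p q, F g (g.1 + c, g.2) = ∑ g, ∑ c ∈ P1 p q, F (g.1 + c, g.2) g := by
  rw [Finset.sum_comm, Finset.sum_comm (s := Finset.univ) (t := P1 p q)
    (f := fun g c => F (g.1 + c, g.2) g)]
  refine Finset.sum_nbij' (fun c => -c) (fun c => -c) (fun c hc => neg_mem_P1 hc)
    (fun c hc => neg_mem_P1 hc) (fun c _ => neg_neg c) (fun c _ => neg_neg c) ?_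
  intro c _
  refine Fintype.sum_equiv (Equiv.addRight ((c, 0) : ZMod q × ZMod w)) _ _ fun g => ?_
  have h1 : (Equiv.addRight ((c, 0) : ZMod q × ZMod w)) g = (g.1 + c, g.2) := by
    rw [Equiv.coe_addRight]
    ext
    · rfl
    · simp
  rw [h1]
  congr 1
  ext
  · simp
  · rfl

/-- sum of the squares of the differences -/
def B3_D (p : ℕ) (f : ZMod q × ZMod w → ℤ) (g : ZMod q × ZMod w) : ℤ :=
  ∑ c ∈ P1 p q, (f (g.1 + c, g.2) - f g) ^ 2

/-- number of zeros in a coset -/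
def B3_Z (p : ℕ) (f : ZMod q × ZMod w → ℤ) (g : ZMod q × ZMod w) : ℤ :=
  ∑ c ∈ P1 p q, if f (g.1 + c, g.2) = 0 then 1 else 0

/-- number of nonzero values in a coset -/
def B3_X (p : ℕ) (f : ZMod q × ZMod w → ℤ) (g : ZMod q × ZMod w) : ℤ :=
  ∑ c ∈ P1 p q, if f (g.1 + c, g.2) = 0 then 0 else 1

theorem B3_sq (a b : ℤ) : (if a = b then (0 : ℤ) else 1) ≤ (a - b) ^ 2 := by
  by_cases h : a = b
  · rw [if_pos h]; positivity
  · rw [if_neg h]
    have h1 : a - b ≠ 0 := sub_ne_zero.2 h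
    have h2 : 0 < (a - b) ^ 2 := by positivity
    linarith [Int.add_one_le_iff.2 h2]

theorem B3_XZ (f : ZMod q × ZMod w → ℤ) (g : ZMod q × ZMod w) :
    B3_X p f g + B3_Z p f g = (P1 p q).card := by
  unfold B3_X B3_Z
  rw [← Finset.sum_add_distrib, Finset.card_eq_sum_ones]
  push_cast
  refine Finset.sum_congr rfl fun c _ => ?_
  split_ifs <;> rfl

theorem B3_sumX (f : ZMod q × ZMod w → ℤ) :
    ∑ g, B3_X p f g = (P1 p q).card * (Finset.univ.filter fun g => f g ≠ 0).card := by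
  unfold B3_X
  rw [B3_swap (fun _ h => if f h = 0 then (0 : ℤ) else 1)]
  simp only [Finset.sum_const, nsmul_eq_mul]
  rw [← Finset.mul_sum]
  congr 1
  rw [Finset.card_filter]
  push_cast
  refine Finset.sum_congr rfl fun g _ => ?_
  by_cases h : f g = 0
  · simp [h]
  · simp [h]

theorem B3_one (f : ZMod q × ZMod w → ℤ)
    (hmode : ∀ g : ZMod q × ZMod w, ∀ r : ℤ,
      ((P1 p q).filter fun c => f (g.1 + c, g.2) = r).card ≤
        ((P1 p q).filter fun c => f (g.1 + c, g.2) = 0).card) (g : ZMod q × ZMod w) :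
    B3_X p f g ≤ B3_D p f g := by
  have h1 : ∑ c ∈ P1 p q, (if f (g.1 + c, g.2) = f g then (0 : ℤ) else 1) ≤ B3_D p f g :=
    Finset.sum_le_sum fun c _ => B3_sq _ _
  have h2 : ∑ c ∈ P1 p q, (if f (g.1 + c, g.2) = f g then (0 : ℤ) else 1) +
      ((P1 p q).filter fun c => f (g.1 + c, g.2) = f g).card = (P1 p q).card := by
    rw [Finset.card_filter, Finset.card_eq_sum_ones]
    push_cast
    rw [← Finset.sum_add_distrib]
    refine Finset.sum_congr rfl fun c _ => ?_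
    split_ifs <;> rfl
  have h3 : B3_Z p f g = ((P1 p q).filter fun c => f (g.1 + c, g.2) = 0).card := by
    unfold B3_Z
    rw [Finset.card_filter]
    push_cast
    rfl
  have h4 := B3_XZ (p := p) f g
  have h5 : (((P1 p q).filter fun c => f (g.1 + c, g.2) = f g).card : ℤ) ≤
      ((P1 p q).filter fun c => f (g.1 + c, g.2) = 0).card := by exact_mod_cast hmode g (f g)
  linarith

/-- part (2) -/
theorem B3_two (f : ZMod q × ZMod w → ℤ) :
    2 * ∑ g ∈ Finset.univ.filter (fun g => f g ≠ 0), B3_Z p f g ≤ ∑ g, B3_D p f g := by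
  have h1 : ∑ g, B3_D p f g = ∑ g ∈ Finset.univ.filter (fun g => f g ≠ 0), B3_D p f g +
      ∑ g ∈ Finset.univ.filter (fun g => ¬ (f g ≠ 0)), B3_D p f g :=
    (Finset.sum_filter_add_sum_filter_not _ _ _).symm
  have h2 : ∑ g ∈ Finset.univ.filter (fun g => f g ≠ 0), B3_Z p f g ≤
      ∑ g ∈ Finset.univ.filter (fun g => f g ≠ 0), B3_D p f g := by
    refine Finset.sum_le_sum fun g hg => Finset.sum_le_sum fun c _ => ?_
    rw [Finset.mem_filter] at hg
    refine le_trans ?_ (B3_sq _ _)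
    by_cases h : f (g.1 + c, g.2) = 0
    · rw [if_pos h, if_neg]
      rw [h]
      exact fun h' => hg.2 h'.symm
    · rw [if_neg h]
      split_ifs <;> norm_num
  have h3 : ∑ g ∈ Finset.univ.filter (fun g => f g ≠ 0), B3_Z p f g ≤
      ∑ g ∈ Finset.univ.filter (fun g => ¬ (f g ≠ 0)), B3_D p f g := by
    have h4 : ∑ g ∈ Finset.univ.filter (fun g => f g ≠ 0), B3_Z p f g =
        ∑ g ∈ Finset.univ.filter (fun g => ¬ (f g ≠ 0)), B3_X p f g := by
      rw [Finset.sum_filter, Finset.sum_filter]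
      have e1 : ∀ g, (if f g ≠ 0 then B3_Z p f g else 0) =
          ∑ c ∈ P1 p q, (if f g ≠ 0 then (if f (g.1 + c, g.2) = 0 then (1 : ℤ) else 0) else 0) := by
        intro g
        by_cases h : f g ≠ 0
        · simp only [if_pos h]; rfl
        · simp only [if_neg h, Finset.sum_const_zero]
      have e2 : ∀ g, (if ¬ (f g ≠ 0) then B3_X p f g else 0) =
          ∑ c ∈ P1 p q, (if f (g.1 + c, g.2) ≠ 0 then (if f g = 0 then (1 : ℤ) else 0) else 0) := by
        intro g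
        by_cases h : f g = 0
        · rw [if_pos (not_not.2 h)]
          unfold B3_X
          refine Finset.sum_congr rfl fun c _ => ?_
          by_cases h' : f (g.1 + c, g.2) = 0
          · simp [h']
          · simp [h', h]
        · rw [if_neg (not_not.2 h)]
          symm
          refine Finset.sum_eq_zero fun c _ => ?_
          simp [h]
      simp only [e1, e2]
      exact B3_swap (fun g h => if f g ≠ 0 then (if f h = 0 then (1 : ℤ) else 0) else 0)
    rw [h4]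
    refine Finset.sum_le_sum fun g hg => Finset.sum_le_sum fun c _ => ?_
    rw [Finset.mem_filter, not_not] at hg
    rw [hg.2]
    exact B3_sq _ _
  rw [h1]
  linarith

theorem B3_Xle (f : ZMod q × ZMod w → ℤ) (g : ZMod q × ZMod w) :
    B3_X p f g ≤ (Finset.univ.filter fun g => f g ≠ 0).card := by
  have h1 : B3_X p f g = ((P1 p q).filter fun c => f (g.1 + c, g.2) ≠ 0).card := by
    unfold B3_X
    rw [Finset.card_filter]
    push_cast
    refine Finset.sum_congr rfl fun c _ => ?_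
    by_cases h : f (g.1 + c, g.2) = 0
    · simp [h]
    · simp [h]
  rw [h1]
  have h2 : ((P1 p q).filter fun c => f (g.1 + c, g.2) ≠ 0).card ≤
      (Finset.univ.filter fun g => f g ≠ 0).card := by
    refine Finset.card_le_card_of_injOn (fun c => ((g.1 + c, g.2) : ZMod q × ZMod w)) ?_ ?_
    · intro c hc
      rw [Finset.mem_coe, Finset.mem_filter] at hc
      rw [Finset.mem_coe, Finset.mem_filter]
      exact ⟨Finset.mem_univ _, hc.2⟩
    · intro c _ c' _ h
      exact add_left_cancel (congrArg Prod.fst h)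
  exact_mod_cast h2

theorem B3_Q (hcard : (P1 p q).card = p) (e : AA q w) {m : ℕ}
    (he : pi1 p q w * (e * bar e) = (m : AA q w) ^ 2 * pi1 p q w) :
    ∑ g, B3_D p e.coeff g = 2 * (m : ℤ) ^ 2 * (p - 1) := by
  have h0 : (pi1 p q w * (e * bar e)).coeff 0 = ((m : AA q w) ^ 2 * pi1 p q w).coeff 0 :=
    congrArg (fun z : AA q w => z.coeff 0) he
  have hpi : (pi1 p q w).coeff 0 = (p : ℤ) - 1 := by
    have h1 := coeff_pi1_mul (p := p) (1 : AA q w) 0
    rw [mul_one] at h1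
    rw [h1, coeff_one', if_pos rfl, mul_one]
    congr 1
    rw [Finset.sum_eq_single 0]
    · rw [coeff_one', if_pos]
      ext
      · simp
      · simp
    · intro c _ hc
      rw [coeff_one', if_neg]
      intro h
      apply hc
      have := congrArg Prod.fst h
      simpa using this
    · intro h
      exact absurd zero_mem_P1 h
  have hR : ((m : AA q w) ^ 2 * pi1 p q w).coeff 0 = (m : ℤ) ^ 2 * (p - 1) := by
    rw [← Nat.cast_pow, coeff_natCast_mul, hpi]
    push_cast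
    ring
  rw [hR, coeff_pi1_mul] at h0
  simp only [coeff_mul_bar] at h0
  have h1 : ∑ c ∈ P1 p q, ∑ h : ZMod q × ZMod w,
      e.coeff h * e.coeff (h - ((0 : ZMod q × ZMod w).1 + c, (0 : ZMod q × ZMod w).2)) =
      ∑ g, ∑ c ∈ P1 p q, e.coeff g * e.coeff (g.1 + c, g.2) := by
    rw [Finset.sum_comm]
    refine Finset.sum_congr rfl fun g _ => ?_
    refine Finset.sum_nbij' (fun c => -c) (fun c => -c) (fun c hc => neg_mem_P1 hc)
      (fun c hc => neg_mem_P1 hc) (fun c _ => neg_neg c) (fun c _ => neg_neg c) ?_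
    intro c _
    congr 2
    ext
    · simp [sub_eq_add_neg]
    · simp
  rw [h1] at h0
  have h2 : ∑ g, B3_D p e.coeff g =
      ∑ g : ZMod q × ZMod w, ∑ c ∈ P1 p q, (e.coeff (g.1 + c, g.2)) ^ 2 +
      ∑ g : ZMod q × ZMod w, ∑ c ∈ P1 p q, (e.coeff g) ^ 2 -
      2 * ∑ g : ZMod q × ZMod w, ∑ c ∈ P1 p q, e.coeff g * e.coeff (g.1 + c, g.2) := by
    unfold B3_D
    rw [Finset.mul_sum, ← Finset.sum_add_distrib, ← Finset.sum_sub_distrib]
    refine Finset.sum_congr rfl fun g _ => ?_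
    rw [Finset.mul_sum, ← Finset.sum_add_distrib, ← Finset.sum_sub_distrib]
    refine Finset.sum_congr rfl fun c _ => ?_
    ring
  have h3 : ∑ g : ZMod q × ZMod w, ∑ c ∈ P1 p q, (e.coeff (g.1 + c, g.2)) ^ 2 =
      ∑ g : ZMod q × ZMod w, ∑ c ∈ P1 p q, (e.coeff g) ^ 2 :=
    B3_swap (p := p) (fun _ h => (e.coeff h) ^ 2)
  have h4 : ∑ g : ZMod q × ZMod w, ∑ c ∈ P1 p q, (e.coeff g) ^ 2 =
      p * ∑ g : ZMod q × ZMod w, e.coeff g * e.coeff (g - 0) := by
    rw [Finset.mul_sum]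
    refine Finset.sum_congr rfl fun g _ => ?_
    rw [Finset.sum_const, hcard, nsmul_eq_mul, sub_zero]
    ring
  rw [h2, h3, h4]
  linarith

end

theorem supp_bound {p s q w : ℕ} [NeZero q] [NeZero w] (hp : p.Prime) (hs : 0 < s) (hq : q = p ^ s) (e : AA q w)
    {m : ℕ} (hm : 0 < m) (he : pi1 p q w * (e * bar e) = (m : AA q w) ^ 2 * pi1 p q w)
    (hmode : ∀ g : ZMod q × ZMod w, ∀ r : ℤ,
      ((P1 p q).filter fun c => e.coeff (g.1 + c, g.2) = r).card ≤
        ((P1 p q).filter fun c => e.coeff (g.1 + c, g.2) = 0).card)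
    (hpm : 2 * m ^ 4 ≤ p) : (Finset.univ.filter fun g => e.coeff g ≠ 0).card ≤ m ^ 2 := by
  have hcard := card_P1 (q := q) hp hs hq
  have hQ := B3_Q hcard e he
  set N : ℕ := (Finset.univ.filter fun g => e.coeff g ≠ 0).card with hN
  have hp0 : (0 : ℤ) < p := by exact_mod_cast hp.pos
  have hm1 : (1 : ℤ) ≤ m := by exact_mod_cast hm
  have hm2 : (1 : ℤ) ≤ (m : ℤ) ^ 2 := one_le_pow₀ hm1
  -- (1)
  have h1 : (p : ℤ) * N ≤ 2 * (m : ℤ) ^ 2 * (p - 1) := by
    have h2 := B3_sumX (p := p) e.coeff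
    rw [hcard] at h2
    rw [← h2, ← hQ]
    exact Finset.sum_le_sum fun g _ => B3_one e.coeff hmode g
  have h3 : (N : ℤ) ≤ 2 * (m : ℤ) ^ 2 - 1 := by
    by_contra h
    rw [not_le] at h
    have h4 : 2 * (m : ℤ) ^ 2 ≤ N := by omega
    have h5 : (p : ℤ) * (2 * (m : ℤ) ^ 2) ≤ p * N := mul_le_mul_of_nonneg_left h4 hp0.le
    have h6 : 2 * (m : ℤ) ^ 2 * ((p : ℤ) - 1) = p * (2 * (m : ℤ) ^ 2) - 2 * (m : ℤ) ^ 2 := by ring
    linarith
  -- (2)
  have h7 : (N : ℤ) * (p - N) ≤ (m : ℤ) ^ 2 * (p - 1) := by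
    have h8 := B3_two (p := p) e.coeff
    have h9 : (N : ℤ) * (p - N) ≤
        ∑ g ∈ Finset.univ.filter (fun g => e.coeff g ≠ 0), B3_Z p e.coeff g := by
      rw [← nsmul_eq_mul, hN, ← Finset.sum_const]
      refine Finset.sum_le_sum fun g _ => ?_
      have h10 := B3_XZ (p := p) e.coeff g
      have h11 := B3_Xle (p := p) e.coeff g
      rw [hcard] at h10
      linarith
    rw [hQ] at h8
    linarith
  by_contra hcon
  rw [not_le] at hcon
  have h12 : (m : ℤ) ^ 2 + 1 ≤ N := by exact_mod_cast hcon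
  have hpm' : 2 * (m : ℤ) ^ 4 ≤ p := by exact_mod_cast hpm
  have hm4 : (m : ℤ) ^ 2 ≤ (m : ℤ) ^ 4 := by
    have : (m : ℤ) ^ 4 = (m : ℤ) ^ 2 * (m : ℤ) ^ 2 := by ring
    rw [this]
    exact le_mul_of_one_le_left (by positivity) hm2
  have h13 : 0 ≤ (p : ℤ) - 2 * (m : ℤ) ^ 2 + 1 := by linarith
  have h14 : ((m : ℤ) ^ 2 + 1) * (p - 2 * (m : ℤ) ^ 2 + 1) ≤ N * (p - 2 * (m : ℤ) ^ 2 + 1) :=
    mul_le_mul_of_nonneg_right h12 h13
  have h15 : (N : ℤ) * (p - 2 * (m : ℤ) ^ 2 + 1) ≤ N * (p - N) :=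
    mul_le_mul_of_nonneg_left (by linarith) (by positivity)
  have h16 : ((m : ℤ) ^ 2 + 1) * (p - 2 * (m : ℤ) ^ 2 + 1) =
      (m : ℤ) ^ 2 * (p - 1) + p - 2 * (m : ℤ) ^ 4 + 1 := by ring
  linarith

end Ry
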