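import Pool.Agent.Lib.MP_12eb66_co.Alg

/-! Exactness and the relation for D. -/

namespace Ry

theorem norm_e {p s q w : ℕ} [NeZero q] [NeZero w] (hp : p.Prime) (hs : 0 < s) (hq : q = p ^ s) (e : AA q w)
    {m : ℕ} (he0 : (pi1 p q w * e) * bar (pi1 p q w * e) = (m : AA q w) ^ 2 * ((p : AA q w) * pi1 p q w)) :
    pi1 p q w * (e * bar e) = (m : AA q w) ^ 2 * pi1 p q w := by
  apply natCast_mul_cancel (k := p) hp.ne_zero
  have h1 := pi1_mul_pi1 (w := w) hp hs hq
  rw [map_mul, bar_pi1] at he0
  linear_combination he0 - (e * bar e) * h1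

theorem exact {p s q w : ℕ} [NeZero q] [NeZero w] (hp : p.Prime) (hs : 0 < s) (hq : q = p ^ s) (e : AA q w)
    {m : ℕ} (hm : 0 < m) (he : pi1 p q w * (e * bar e) = (m : AA q w) ^ 2 * pi1 p q w)
    (hsupp : (Finset.univ.filter fun g => e.coeff g ≠ 0).card ≤ m ^ 2) (hpm : 2 * m ^ 4 ≤ p) :
    e * bar e = (m : AA q w) ^ 2 := by
  classical
  have hz : pi1 p q w * (e * bar e - (m : AA q w) ^ 2) = 0 := by
    rw [mul_sub, he]
    ring
  by_contra hne
  have hex : ∃ g, (e * bar e - (m : AA q w) ^ 2).coeff g ≠ 0 := by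
    by_contra hall
    push Not at hall
    apply hne
    rw [← sub_eq_zero]
    exact AA.ext fun g => by rw [hall g, coeff_zero']
  obtain ⟨g, hg⟩ := hex
  set S : Finset (ZMod q × ZMod w) := Finset.univ.filter fun g => e.coeff g ≠ 0 with hS
  set T : Finset (ZMod q × ZMod w) := insert 0 ((S ×ˢ S).image fun r => r.1 - r.2) with hT
  have hsub : ∀ g', (e * bar e - (m : AA q w) ^ 2).coeff g' ≠ 0 → g' ∈ T := by
    intro g' hg'
    by_contra hnot
    rw [hT, Finset.mem_insert, not_or] at hnot
    apply hg'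
    rw [coeff_sub', ← Nat.cast_pow, coeff_natCast', if_neg hnot.1, sub_zero, coeff_mul_bar]
    apply Finset.sum_eq_zero
    intro h _
    by_contra h1
    apply hnot.2
    have h2 : e.coeff h ≠ 0 := left_ne_zero_of_mul h1
    have h3 : e.coeff (h - g') ≠ 0 := right_ne_zero_of_mul h1
    refine Finset.mem_image.2 ⟨(h, h - g'), ?_, by simp⟩
    rw [Finset.mem_product]
    exact ⟨by simp [hS, h2], by simp [hS, h3]⟩
  have hTcard : T.card ≤ m ^ 4 + 1 := by
    rw [hT]
    refine (Finset.card_insert_le _ _).trans ?_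
    have h1 : ((S ×ˢ S).image fun r => r.1 - r.2).card ≤ S.card * S.card := by
      rw [← Finset.card_product]
      exact Finset.card_image_le
    have h2 : S.card * S.card ≤ m ^ 2 * m ^ 2 := Nat.mul_le_mul hsupp hsupp
    have h3 : m ^ 2 * m ^ 2 = m ^ 4 := by ring
    omega
  have hple : p ≤ T.card := by
    have h1 : ((P1 p q).image fun c => (g.1 + c, g.2)) ⊆ T := by
      intro x hx
      obtain ⟨c, hc, rfl⟩ := Finset.mem_image.1 hx
      apply hsub
      rw [inv_of_pi1_mul hp hz g hc]
      exact hg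
    have h2 : ((P1 p q).image fun c => (g.1 + c, g.2)).card = p := by
      rw [Finset.card_image_of_injective, card_P1 hp hs hq]
      intro a b hab
      simpa using hab
    rw [← h2]
    exact Finset.card_le_card h1
  have hm4 : 1 ≤ m ^ 4 := Nat.one_le_pow _ _ hm
  rcases Nat.lt_or_ge 1 (m ^ 4) with h1 | h1
  · omega
  · -- m = 1: the support of e has at most one element
    have hm1 : m ^ 4 = 1 := by omega
    have hm' : m = 1 := by
      have := (Nat.pow_eq_one).1 hm1
      omega
    subst hm'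
    have hS1 : S.card ≤ 1 := by simpa using hsupp
    have hT1 : T.card ≤ 1 := by
      have h2 : T ⊆ {0} := by
        intro x hx
        rw [hT, Finset.mem_insert] at hx
        rw [Finset.mem_singleton]
        rcases hx with rfl | hx
        · rfl
        · obtain ⟨⟨a, b⟩, hr, rfl⟩ := Finset.mem_image.1 hx
          rw [Finset.mem_product] at hr
          have : a = b := Finset.card_le_one.1 hS1 a hr.1 b hr.2
          simp [this]
      exact (Finset.card_le_card h2).trans (by simp)
    have := hp.one_lt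
    omega

theorem rel_D {p s q w : ℕ} [NeZero q] [NeZero w] (hp : p.Prime) (hs : 0 < s) (hq : q = p ^ s)
    {d : ZMod q × ZMod w → ℤ} {lam n : ℤ} (h : Co d lam n) {a m : ℕ} (hn : n = (p : ℤ) ^ a * m) (t : (ZMod q)ˣ)
    (e : AA q w) (hf : pi1 p q w * (mu (t : ZMod q) (el d) * bar (el d)) = (p : AA q w) ^ a * (pi1 p q w * e)) :
    (m : AA q w) * (pi1 p q w * mu (t : ZMod q) (el d)) = pi1 p q w * (e * el d) := by
  have h1 := h.eq_pi1 hp hs hq
  have h2 : (n : AA q w) = (p : AA q w) ^ a * m := by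
    rw [hn]
    push_cast
    ring
  rw [h2] at h1
  have h3 : ((p ^ a : ℕ) : AA q w) * ((m : AA q w) * (pi1 p q w * mu (t : ZMod q) (el d))) =
      ((p ^ a : ℕ) : AA q w) * (pi1 p q w * (e * el d)) := by
    push_cast
    linear_combination el d * hf - mu (t : ZMod q) (el d) * h1
  exact natCast_mul_cancel (pow_ne_zero a hp.ne_zero) h3

end Ry
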