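import Pool.Agent.Lib.MP_12eb66_co.Alg

/-! Row ry-B6. Proof. Let E x = ∑ y, e (x,y) ψ y. Suppose E x ≠ 0 and E x' ≠ 0 with x ≠ x'. All x with E x ≠ 0 are in S. Let x1 be one with L x1 maximal, x2 one with L x2 minimal
(Finset.exists_max_image / exists_min_image); L is injective on S and there are two of them, so x1 ≠ x2. Put a = x1 - x2 ≠ 0. From he (coeff_mul_bar at (a, b), a ≠ 0): ∑_{x,y} e (x,y) e (x - a, y - b) = 0 for all b; multiply by ψ b and sum over b: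
∑_x E x conj (E (x - a)) = 0 (conj (ψ z) = ψ (-z): AddChar.map_neg_eq_conj). A term with E x ≠ 0 and E (x - a) ≠ 0: x - (x - a) = x1 - x2, so L x - L (x - a) = L x1 - L x2, with L x <= L x1, L (x - a) >= L x2: so L x = L x1, x = x1.
The sum is E x1 conj (E x2) ≠ 0: contradiction. -/

namespace Ry

theorem b6_key {q w : ℕ} [NeZero q] [NeZero w] (e : AA q w) {m : ℕ} (he : e * bar e = (m : AA q w) ^ 2)
    (ψ : AddChar (ZMod w) ℂ) {a : ZMod q} (ha : a ≠ 0) :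
    ∑ x, (∑ y, (e.coeff (x, y) : ℂ) * ψ y) *
      (∑ z, (e.coeff (x - a, z) : ℂ) * ψ (-z)) = 0 := by
  have h1 : ∀ x, (∑ y, (e.coeff (x, y) : ℂ) * ψ y) * (∑ z, (e.coeff (x - a, z) : ℂ) * ψ (-z)) =
      ∑ b, ψ b * ∑ y, (e.coeff (x, y) : ℂ) * (e.coeff (x - a, y - b) : ℂ) := by
    intro x
    rw [Finset.sum_mul_sum]
    have h2 : ∀ y, ∑ z, (e.coeff (x, y) : ℂ) * ψ y * ((e.coeff (x - a, z) : ℂ) * ψ (-z)) =
        ∑ b, ψ b * ((e.coeff (x, y) : ℂ) * (e.coeff (x - a, y - b) : ℂ)) := by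
      intro y
      rw [← Equiv.sum_comp (Equiv.subLeft y)]
      refine Finset.sum_congr rfl fun b _ => ?_
      rw [Equiv.subLeft_apply]
      have h3 : ψ b = ψ y * ψ (-(y - b)) := by
        rw [← AddChar.map_add_eq_mul]
        congr 1
        abel
      rw [h3]
      ring
    rw [Finset.sum_congr rfl fun y _ => h2 y, Finset.sum_comm]
    refine Finset.sum_congr rfl fun b _ => ?_
    rw [Finset.mul_sum]
  rw [Finset.sum_congr rfl fun x _ => h1 x, Finset.sum_comm]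
  refine Finset.sum_eq_zero fun b _ => ?_
  rw [← Finset.mul_sum]
  have h4 : ∑ h, e.coeff h * e.coeff (h - (a, b)) = 0 := by
    rw [← coeff_mul_bar, he, ← Nat.cast_pow, coeff_natCast', if_neg]
    intro h
    exact ha (congrArg Prod.fst h)
  have h5 : ∑ x, ∑ y, (e.coeff (x, y) : ℂ) * (e.coeff (x - a, y - b) : ℂ) = 0 := by
    rw [← Fintype.sum_prod_type' (fun x y => (e.coeff (x, y) : ℂ) * (e.coeff (x - a, y - b) : ℂ))]
    have h6 := congrArg (fun k : ℤ => (k : ℂ)) h4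
    simp only [Int.cast_sum, Int.cast_mul, Int.cast_zero] at h6
    exact h6
  rw [h5, mul_zero]

theorem b6_mem {q w : ℕ} [NeZero q] [NeZero w] (e : AA q w)
    (S : Finset (ZMod q)) (hS : ∀ g, e.coeff g ≠ 0 → g.1 ∈ S)
    (ψ : AddChar (ZMod w) ℂ) {x : ZMod q} (hx : ∑ y, (e.coeff (x, y) : ℂ) * ψ y ≠ 0) : x ∈ S := by
  obtain ⟨y, -, hy⟩ := Finset.exists_ne_zero_of_sum_ne_zero hx
  refine hS (x, y) fun h => hy ?_
  rw [h, Int.cast_zero, zero_mul]

theorem psi_single {q w : ℕ} [NeZero q] [NeZero w] (e : AA q w) {m : ℕ} (he : e * bar e = (m : AA q w) ^ 2)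
    (S : Finset (ZMod q)) (hS : ∀ g, e.coeff g ≠ 0 → g.1 ∈ S) (L : ZMod q → ℤ) (hL : Set.InjOn L S)
    (hL2 : ∀ x ∈ S, ∀ y ∈ S, ∀ x' ∈ S, ∀ y' ∈ S, x - y = x' - y' → L x - L y = L x' - L y')
    (ψ : AddChar (ZMod w) ℂ) {x x' : ZMod q} (hx : ∑ y, (e.coeff (x, y) : ℂ) * ψ y ≠ 0)
    (hx' : ∑ y, (e.coeff (x', y) : ℂ) * ψ y ≠ 0) : x = x' := by
  classical
  by_contra hne
  set T : Finset (ZMod q) := Finset.univ.filter fun x => ∑ y, (e.coeff (x, y) : ℂ) * ψ y ≠ 0 with hT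
  have hm : ∀ z, z ∈ T ↔ ∑ y, (e.coeff (z, y) : ℂ) * ψ y ≠ 0 := by
    intro z
    rw [hT, Finset.mem_filter]
    exact ⟨fun h => h.2, fun h => ⟨Finset.mem_univ _, h⟩⟩
  have hTS : ∀ z ∈ T, z ∈ S := fun z hz => b6_mem e S hS ψ ((hm z).1 hz)
  have hxT := (hm x).2 hx
  have hxT' := (hm x').2 hx'
  obtain ⟨x1, h1, hmax⟩ := Finset.exists_max_image T L ⟨x, hxT⟩
  obtain ⟨x2, h2, hmin⟩ := Finset.exists_min_image T L ⟨x, hxT⟩
  have hLne : L x ≠ L x' := fun h => hne (hL (hTS x hxT) (hTS x' hxT') h)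
  have h12 : x1 ≠ x2 := by
    intro h
    have a1 := hmax x hxT
    have a2 := hmax x' hxT'
    have a3 := hmin x hxT
    have a4 := hmin x' hxT'
    rw [← h] at a3 a4
    apply hLne
    omega
  have hconj : ∀ z, ∑ y, (e.coeff (z, y) : ℂ) * ψ (-y) =
      (starRingEnd ℂ) (∑ y, (e.coeff (z, y) : ℂ) * ψ y) := by
    intro z
    rw [map_sum]
    refine Finset.sum_congr rfl fun y _ => ?_
    rw [map_mul, AddChar.map_neg_eq_conj, map_intCast]
  have hkey := b6_key e he ψ (sub_ne_zero.2 h12)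
  rw [Finset.sum_eq_single x1] at hkey
  · rw [sub_sub_cancel, hconj] at hkey
    rcases mul_eq_zero.1 hkey with h | h
    · exact (hm x1).1 h1 h
    · exact (hm x2).1 h2 ((map_eq_zero _).1 h)
  · intro z _ hz
    by_contra hcon
    have hz1 : z ∈ T := (hm z).2 fun h => hcon (by rw [h, zero_mul])
    have hz2 : z - (x1 - x2) ∈ T := (hm _).2 fun h => hcon (by rw [hconj, h, map_zero, mul_zero])
    have h3 := hL2 z (hTS _ hz1) (z - (x1 - x2)) (hTS _ hz2) x1 (hTS _ h1) x2 (hTS _ h2)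
      (sub_sub_cancel _ _)
    have h4 := hmax z hz1
    have h5 := hmin _ hz2
    exact hz (hL (hTS _ hz1) (hTS _ h1) (by omega))
  · intro h
    exact absurd (Finset.mem_univ _) h

end Ry
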