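import Pool.Agent.Lib.MP_12eb66_co.B5
import Pool.Agent.Lib.MP_12eb66_co.B6

/-! Row ry-B7. Proof. S = image of the support of e under the first projection, |S| <= m^2; S is not empty (coefficient of he at 0: ∑ e^2 = m^2 > 0). dirichlet and psi_single: for every additive character ψ of ZMod w there is at most one x with
E_ψ x := ∑ y, e (x,y) ψ y ≠ 0. ∑_x |E_ψ x|^2 = ∑_b ψ b ∑_{x,y} e (x,y) e (x, y - b) = m^2 (coefficients of he at (0, b)), so |E_ψ x|^2 is 0 or m^2 for every x. Parseval: ∑_ψ |E_ψ x|^2 = w ∑_y e (x,y)^2 (AddChar.sum_apply_eq_ite and |AddChar (ZMod w) ℂ| = w), so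
m^2 divides w ∑_y e (x,y)^2 (as integers), so m^2 divides N x := ∑_y e (x,y)^2 (m coprime to w). ∑_x N x = m^2: if N x ≠ 0 then N x >= m^2, so all the other N x' are 0. -/

namespace Ry
open scoped ComplexConjugate

private theorem corr_eq {q w m : ℕ} [NeZero q] [NeZero w] (e : AA q w) (he : e * bar e = (m : AA q w) ^ 2)
    (a : ZMod q × ZMod w) : ∑ h, e.coeff h * e.coeff (h - a) = if a = 0 then (m : ℤ) ^ 2 else 0 := by
  rw [← coeff_mul_bar, he, ← Nat.cast_pow, coeff_natCast']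
  push_cast
  rfl

private theorem norm_expand {q w : ℕ} [NeZero q] [NeZero w] (e : AA q w) (ψ : AddChar (ZMod w) ℂ) (x : ZMod q) :
    (∑ y, (e.coeff (x, y) : ℂ) * ψ y) * conj (∑ y, (e.coeff (x, y) : ℂ) * ψ y)
      = ∑ y, ∑ b, (e.coeff (x, y) : ℂ) * (e.coeff (x, y - b) : ℂ) * ψ b := by
  rw [map_sum, Finset.sum_mul_sum]
  refine Finset.sum_congr rfl fun y _ => ?_
  refine Fintype.sum_equiv (Equiv.subLeft y) _ _ fun y' => ?_
  simp only [map_mul, Equiv.subLeft_apply, sub_sub_cancel]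
  rw [← AddChar.map_neg_eq_conj, sub_eq_add_neg y y', AddChar.map_add_eq_mul]
  have h1 : conj ((e.coeff (x, y') : ℤ) : ℂ) = ((e.coeff (x, y') : ℤ) : ℂ) := by simp
  rw [h1]
  ring

private theorem sum_norm {q w m : ℕ} [NeZero q] [NeZero w] (e : AA q w) (he : e * bar e = (m : AA q w) ^ 2)
    (ψ : AddChar (ZMod w) ℂ) :
    ∑ x, (∑ y, (e.coeff (x, y) : ℂ) * ψ y) * conj (∑ y, (e.coeff (x, y) : ℂ) * ψ y) = (m : ℂ) ^ 2 := by
  have h1 : ∀ b : ZMod w, ∑ x, ∑ y, (e.coeff (x, y) : ℂ) * (e.coeff (x, y - b) : ℂ) = if b = 0 then (m : ℂ) ^ 2 else 0 := by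
    intro b
    have h2 := corr_eq e he (0, b)
    rw [Fintype.sum_prod_type] at h2
    have h3 := congrArg (fun z : ℤ => (z : ℂ)) h2
    simp only [Int.cast_sum, Int.cast_mul] at h3
    simp only [Prod.mk_sub_mk, sub_zero] at h3
    rw [h3]
    by_cases hb : b = 0
    · rw [if_pos hb, if_pos (by rw [hb]; rfl)]
      push_cast
      rfl
    · rw [if_neg hb, if_neg (fun h => hb (congrArg Prod.snd h))]
      simp
  calc ∑ x, (∑ y, (e.coeff (x, y) : ℂ) * ψ y) * conj (∑ y, (e.coeff (x, y) : ℂ) * ψ y)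
      = ∑ x, ∑ y, ∑ b, (e.coeff (x, y) : ℂ) * (e.coeff (x, y - b) : ℂ) * ψ b :=
        Finset.sum_congr rfl fun x _ => norm_expand e ψ x
    _ = ∑ b, (∑ x, ∑ y, (e.coeff (x, y) : ℂ) * (e.coeff (x, y - b) : ℂ)) * ψ b := by
        rw [Finset.sum_congr rfl fun x _ => Finset.sum_comm, Finset.sum_comm]
        refine Finset.sum_congr rfl fun b _ => ?_
        rw [Finset.sum_mul]
        refine Finset.sum_congr rfl fun x _ => ?_
        rw [Finset.sum_mul]
    _ = (m : ℂ) ^ 2 := by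
        simp only [h1]
        rw [Finset.sum_eq_single 0]
        · simp
        · intro b _ hb
          rw [if_neg hb, zero_mul]
        · intro h; exact absurd (Finset.mem_univ _) h

private theorem parseval {q w : ℕ} [NeZero q] [NeZero w] (e : AA q w) (x : ZMod q) :
    ∑ ψ : AddChar (ZMod w) ℂ, (∑ y, (e.coeff (x, y) : ℂ) * ψ y) * conj (∑ y, (e.coeff (x, y) : ℂ) * ψ y)
      = w * ∑ y, (e.coeff (x, y) : ℂ) ^ 2 := by
  rw [Finset.sum_congr rfl fun ψ _ => norm_expand e ψ x, Finset.sum_comm, Finset.mul_sum]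
  refine Finset.sum_congr rfl fun y _ => ?_
  rw [Finset.sum_comm, Finset.sum_eq_single 0]
  · rw [← Finset.mul_sum, AddChar.sum_apply_eq_ite, if_pos rfl, sub_zero, ZMod.card]
    ring
  · intro b _ hb
    rw [← Finset.mul_sum, AddChar.sum_apply_eq_ite, if_neg hb, mul_zero]
  · intro h; exact absurd (Finset.mem_univ _) h

theorem single_exponent {p s q w m : ℕ} [NeZero q] [NeZero w] (hp : p.Prime) (hs : 0 < s) (hq : q = p ^ s)
    (hm : 0 < m) (hmw : m.Coprime w) (hpm : 4 ^ (m ^ 2 - 1) < p) (e : AA q w) (he : e * bar e = (m : AA q w) ^ 2)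
    (hsupp : (Finset.univ.filter fun g => e.coeff g ≠ 0).card ≤ m ^ 2) :
    ∃ x0, ∀ g, e.coeff g ≠ 0 → g.1 = x0 := by
  classical
  set S : Finset (ZMod q) := (Finset.univ.filter fun g => e.coeff g ≠ 0).image Prod.fst with hSdef
  have hScard : S.card ≤ m ^ 2 := Finset.card_image_le.trans hsupp
  have hSmem : ∀ g, e.coeff g ≠ 0 → g.1 ∈ S := fun g hg =>
    Finset.mem_image_of_mem _ (Finset.mem_filter.2 ⟨Finset.mem_univ _, hg⟩)
  have hm2 : (0 : ℤ) < (m : ℤ) ^ 2 := by positivity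
  have h0 : ∑ h, e.coeff h * e.coeff h = (m : ℤ) ^ 2 := by
    have := corr_eq e he 0
    simpa using this
  obtain ⟨g0, hg0⟩ : ∃ g, e.coeff g ≠ 0 := by
    by_contra hne
    push Not at hne
    rw [Finset.sum_eq_zero (fun h _ => by rw [hne h, mul_zero])] at h0
    exact hm2.ne h0
  obtain ⟨L, hL, hL2⟩ := dirichlet hp hs hq S (hSmem g0 hg0)
    (lt_of_le_of_lt (Nat.pow_le_pow_right (by norm_num) (Nat.sub_le_sub_right hScard 1)) hpm)
  have key : ∀ ψ : AddChar (ZMod w) ℂ, ∀ x, (∑ y, (e.coeff (x, y) : ℂ) * ψ y) * conj (∑ y, (e.coeff (x, y) : ℂ) * ψ y)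
      = if (∑ y, (e.coeff (x, y) : ℂ) * ψ y) ≠ 0 then (m : ℂ) ^ 2 else 0 := by
    intro ψ x
    by_cases hx : (∑ y, (e.coeff (x, y) : ℂ) * ψ y) ≠ 0
    · rw [if_pos hx, ← sum_norm e he ψ, Finset.sum_eq_single x]
      · intro x' _ hx'
        by_contra hne
        have h2 : (∑ y, (e.coeff (x', y) : ℂ) * ψ y) ≠ 0 := fun h => hne (by rw [h, zero_mul])
        exact hx' (psi_single e he S hSmem L hL hL2 ψ h2 hx)
      · intro h; exact absurd (Finset.mem_univ _) h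
    · rw [if_neg hx]
      rw [not_not] at hx
      rw [hx, zero_mul]
  have hdvd : ∀ x, (m : ℤ) ^ 2 ∣ ∑ y, e.coeff (x, y) ^ 2 := by
    intro x
    have h1 := parseval e x
    rw [Finset.sum_congr rfl fun ψ _ => key ψ x, Finset.sum_ite, Finset.sum_const_zero, add_zero, Finset.sum_const,
      nsmul_eq_mul] at h1
    have h2 : (((Finset.univ.filter fun ψ : AddChar (ZMod w) ℂ => (∑ y, (e.coeff (x, y) : ℂ) * ψ y) ≠ 0).card : ℤ)
        * (m : ℤ) ^ 2) = w * ∑ y, e.coeff (x, y) ^ 2 := by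
      exact_mod_cast h1
    have h3 : (m : ℤ) ^ 2 ∣ w * ∑ y, e.coeff (x, y) ^ 2 := ⟨_, by rw [← h2]; ring⟩
    have h4 : IsCoprime ((m : ℤ) ^ 2) (w : ℤ) := by
      apply IsCoprime.pow_left
      exact Nat.isCoprime_iff_coprime.2 hmw
    exact h4.dvd_of_dvd_mul_left h3
  have hnn : ∀ x, 0 ≤ ∑ y, e.coeff (x, y) ^ 2 := fun x => Finset.sum_nonneg fun y _ => sq_nonneg _
  have hpos : ∀ g, e.coeff g ≠ 0 → (m : ℤ) ^ 2 ≤ ∑ y, e.coeff (g.1, y) ^ 2 := by
    intro g hg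
    apply Int.le_of_dvd _ (hdvd g.1)
    have h1 : 0 < e.coeff (g.1, g.2) ^ 2 := by
      have : e.coeff (g.1, g.2) ≠ 0 := hg
      positivity
    exact lt_of_lt_of_le h1 (Finset.single_le_sum (f := fun y => e.coeff (g.1, y) ^ 2)
      (fun y _ => sq_nonneg _) (Finset.mem_univ g.2))
  have htot : ∑ x, ∑ y, e.coeff (x, y) ^ 2 = (m : ℤ) ^ 2 := by
    rw [← h0, Fintype.sum_prod_type]
    exact Finset.sum_congr rfl fun x _ => Finset.sum_congr rfl fun y _ => by ring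
  refine ⟨g0.1, fun g hg => ?_⟩
  by_contra hne
  have h1 : ∑ x ∈ ({g.1, g0.1} : Finset (ZMod q)), ∑ y, e.coeff (x, y) ^ 2 ≤ ∑ x, ∑ y, e.coeff (x, y) ^ 2 :=
    Finset.sum_le_sum_of_subset_of_nonneg (Finset.subset_univ _) fun x _ _ => hnn x
  rw [Finset.sum_pair hne, htot] at h1
  have h2 := hpos g hg
  have h3 := hpos g0 hg0
  linarith only [h1, h2, h3, hm2]

end Ry
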