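import Pool.Agent.Lib.MP_12eb66_co.Alg

/-! Row ry-B8. Proof. Let D = el d, E = single (-x0, 0) 1 * e: supported on {0} x ZMod w, so mu u E = E for every u; e = single (x0, 0) 1 * E. By induction on i there is c with
m^i (pi1 * mu (t^i) D) = pi1 * (single (c, 0) 1 * E^i * D): apply mu t to the induction hypothesis (mu_mu, mu_pi1, mu_single), multiply by m and use hrel. For i = N = Fintype.card (ZMod q)ˣ (t^N = 1, mu_one):
m^N pi1 D = pi1 single (c,0) E^N D. Multiply by bar D (Co.eq_pi1, n ≠ 0, no torsion): pi1 * z = 0 for z = m^N - single (c,0) 1 * E^N. z is constant on the cosets of P1 (inv_of_pi1_mul) and its coefficients at (x,y) vanish unless x = 0 or x = c; a coset of P1 has p >= 3 different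
first coordinates, so z = 0. Then e^N = single (N x0, 0) * E^N = single (N x0 - c, 0) m^N. -/

namespace Ry
open AddMonoidAlgebra

/-- supported on the second factor -/
private def Sup0 {q w : ℕ} (E : AA q w) : Prop := ∀ g, E.coeff g ≠ 0 → g.1 = 0

private theorem Sup0.mul {q w : ℕ} [NeZero q] [NeZero w] {E E' : AA q w} (h : Sup0 E) (h' : Sup0 E') : Sup0 (E * E') := by
  intro g hg
  rw [coeff_mul'] at hg
  obtain ⟨k, -, hk⟩ := Finset.exists_ne_zero_of_sum_ne_zero hg
  have h1 := h k (left_ne_zero_of_mul hk)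
  have h2 := h' (g - k) (right_ne_zero_of_mul hk)
  rw [Prod.fst_sub, h1, sub_zero] at h2
  exact h2

private theorem Sup0.one {q w : ℕ} [NeZero q] [NeZero w] : Sup0 (1 : AA q w) := by
  intro g hg
  rw [coeff_one'] at hg
  by_contra hne
  apply hg
  rw [if_neg]
  rintro rfl
  exact hne rfl

private theorem Sup0.pow {q w : ℕ} [NeZero q] [NeZero w] {E : AA q w} (h : Sup0 E) (i : ℕ) : Sup0 (E ^ i) := by
  induction i with
  | zero => rw [pow_zero]; exact Sup0.one
  | succ i ih => rw [pow_succ]; exact ih.mul h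

private theorem Sup0.mu {q w : ℕ} [NeZero q] [NeZero w] {E : AA q w} (h : Sup0 E) (u : (ZMod q)ˣ) :
    mu (u : ZMod q) E = E := by
  apply AA.ext
  intro g
  have h1 := coeff_mu u E (((u⁻¹ : (ZMod q)ˣ) : ZMod q) * g.1, g.2)
  simp only [Units.mul_inv_cancel_left] at h1
  rw [show g = (g.1, g.2) from rfl, h1]
  by_cases hg : g.1 = 0
  · rw [hg, mul_zero]
  · have e1 : E.coeff (g.1, g.2) = 0 := by
      by_contra hne
      exact hg (h _ hne)
    have e2 : E.coeff (((u⁻¹ : (ZMod q)ˣ) : ZMod q) * g.1, g.2) = 0 := by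
      by_contra hne
      have h2 := h _ hne
      simp only at h2
      apply hg
      exact (u⁻¹).isUnit.mul_right_eq_zero.1 h2
    rw [e1, e2]

theorem e_pow {p s q w : ℕ} [NeZero q] [NeZero w] (hp : p.Prime) (hp3 : 3 ≤ p) (hs : 0 < s) (hq : q = p ^ s)
    {d : ZMod q × ZMod w → ℤ} {lam n : ℤ} (h : Co d lam n) (hn : n ≠ 0) {m : ℕ} (t : (ZMod q)ˣ) (e : AA q w)
    {x0 : ZMod q} (hx0 : ∀ g, e.coeff g ≠ 0 → g.1 = x0)
    (hrel : (m : AA q w) * (pi1 p q w * mu (t : ZMod q) (el d)) = pi1 p q w * (e * el d)) :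
    ∃ N : ℕ, 0 < N ∧ ∃ g1 : ZMod q × ZMod w, e ^ N = (m : AA q w) ^ N * single g1 1 := by
  obtain ⟨E, hE⟩ : ∃ E : AA q w, E = single (-x0, 0) 1 * e := ⟨_, rfl⟩
  have hss : (single (x0, 0) 1 : AA q w) * single (-x0, 0) 1 = 1 := by
    rw [AddMonoidAlgebra.single_mul_single, AddMonoidAlgebra.one_def, Prod.mk_add_mk, add_neg_cancel, add_zero, one_mul]
    rfl
  have heE : e = single (x0, 0) 1 * E := by
    rw [hE, ← mul_assoc, hss, one_mul]
  have hE0 : Sup0 E := by
    intro g hg
    rw [hE, single_mul_coeff, one_mul] at hg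
    have := hx0 _ hg
    simp only [Prod.fst_sub, sub_neg_eq_add] at this
    simpa using this
  have hind : ∀ i : ℕ, ∃ c : ZMod q, (m : AA q w) ^ i * (pi1 p q w * mu ((t : ZMod q) ^ i) (el d))
      = pi1 p q w * (single (c, 0) 1 * E ^ i * el d) := by
    intro i
    induction i with
    | zero =>
      refine ⟨0, ?_⟩
      rw [pow_zero, pow_zero, pow_zero, mu_one, one_mul, mul_one]
      have : (single ((0 : ZMod q), (0 : ZMod w)) 1 : AA q w) = 1 := by
        rw [AddMonoidAlgebra.one_def]; rfl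
      rw [this, one_mul]
    | succ i ih =>
      obtain ⟨c, hc⟩ := ih
      have h1 := congrArg (mu (t : ZMod q)) hc
      rw [map_mul, map_mul, map_mul, map_mul, map_mul, map_pow, map_natCast, mu_pi1, mu_mu, mu_single,
        (hE0.pow i).mu t, ← pow_succ'] at h1
      simp only at h1
      refine ⟨t * c + x0, ?_⟩
      have h2 : (single ((t : ZMod q) * c + x0, 0) 1 : AA q w) = single ((t : ZMod q) * c, 0) 1 * single (x0, 0) 1 := by
        rw [AddMonoidAlgebra.single_mul_single]
        simp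
      rw [h2]
      rw [heE] at hrel
      generalize (single ((t : ZMod q) * c, 0) 1 : AA q w) = S at *
      generalize (single (x0, 0) 1 : AA q w) = S' at *
      generalize pi1 p q w = P at *
      generalize (mu ((t : ZMod q) ^ (i + 1))) (el d) = Z at *
      generalize (mu (t : ZMod q)) (el d) = X at *
      calc (m : AA q w) ^ (i + 1) * (P * Z) = m * (m ^ i * (P * Z)) := by ring
        _ = (S * E ^ i) * (m * (P * X)) := by rw [h1]; ring
        _ = P * (S * S' * E ^ (i + 1) * el d) := by rw [hrel]; ring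
  obtain ⟨c, hc⟩ := hind (Fintype.card (ZMod q)ˣ)
  have hcard : (t : ZMod q) ^ Fintype.card (ZMod q)ˣ = 1 := by
    rw [← Units.val_pow_eq_pow_val, pow_card_eq_one, Units.val_one]
  rw [hcard, mu_one] at hc
  have hNpos : 0 < Fintype.card (ZMod q)ˣ := Fintype.card_pos
  generalize Fintype.card (ZMod q)ˣ = N at *
  have hz : pi1 p q w * ((m : AA q w) ^ N - single (c, 0) 1 * E ^ N) = 0 := by
    apply intCast_mul_cancel hn
    have h1 := h.eq_pi1 hp hs hq
    rw [mul_zero]
    generalize (single (c, 0) 1 : AA q w) = S at *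
    generalize pi1 p q w = P at *
    calc (n : AA q w) * (P * ((m : AA q w) ^ N - S * E ^ N)) = ((n : AA q w) * P) * ((m : AA q w) ^ N - S * E ^ N) := by ring
      _ = (m : AA q w) ^ N * (P * el d) * bar (el d) - P * (S * E ^ N * el d) * bar (el d) := by rw [← h1]; ring
      _ = 0 := by rw [hc]; ring
  have hsupp : ∀ g : ZMod q × ZMod w, ((m : AA q w) ^ N - single (c, 0) 1 * E ^ N).coeff g ≠ 0 → g.1 = 0 ∨ g.1 = c := by
    intro g hg
    rw [coeff_sub', single_mul_coeff, one_mul, ← Nat.cast_pow, coeff_natCast'] at hg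
    by_cases h1 : g = 0
    · left; rw [h1]; rfl
    · right
      rw [if_neg h1, zero_sub, neg_ne_zero] at hg
      have := hE0.pow N _ hg
      rw [Prod.fst_sub] at this
      exact sub_eq_zero.1 this
  have hz0 : (m : AA q w) ^ N - single (c, 0) 1 * E ^ N = 0 := by
    apply AA.ext
    intro g
    rw [coeff_zero']
    by_contra hne
    have h1 : ∀ b ∈ P1 p q, g.1 + b = 0 ∨ g.1 + b = c := by
      intro b hb
      have h2 := inv_of_pi1_mul hp hz g hb
      exact hsupp (g.1 + b, g.2) (by rw [h2]; exact hne)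
    have h3 : P1 p q ⊆ {-g.1, c - g.1} := by
      intro b hb
      rw [Finset.mem_insert, Finset.mem_singleton]
      rcases h1 b hb with h2 | h2
      · left; linear_combination h2
      · right; linear_combination h2
    have h4 := Finset.card_le_card h3
    rw [card_P1 hp hs hq] at h4
    have h5 : ({-g.1, c - g.1} : Finset (ZMod q)).card ≤ 2 := Finset.card_le_two
    omega
  refine ⟨N, hNpos, (N • x0 - c, 0), ?_⟩
  have h6 : (m : AA q w) ^ N = single (c, 0) 1 * E ^ N := sub_eq_zero.1 hz0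
  rw [heE, mul_pow, AddMonoidAlgebra.single_pow, h6]
  rw [one_pow, mul_comm (single (c, 0) 1 * E ^ N), ← mul_assoc, AddMonoidAlgebra.single_mul_single]
  simp
end Ry
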