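import Pool.Agent.Lib.MP_12eb66_co.Alg

/-! Row ry-B9. Proof of dvd_of_pow_eq: strong induction on m. m = 1: e' = e. m > 1: let l be a prime factor of m. Map to R = AddMonoidAlgebra (ZMod l) (ZMod q × ZMod w) (mapRingHom with Int.castRingHom): the image x of e has x^N = 0. In R (characteristic l, commutative) x^l is the image of x under
the map g -> l • g of the group, which is injective because l does not divide q w; so x^l = 0 implies x = 0, hence x^(l^k) = 0 implies x = 0 (induction on k), and x = 0. So all coefficients of e are divisible by l: e = l e1,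
e1^N = (m / l)^N single g1 1 (no torsion), and the induction hypothesis gives e1 = (m / l) e'. Proof of unit_single: coefficient at 0: ∑ e g^2 = 1, so exactly one coefficient is ± 1 and the others are 0. -/

namespace Ry
open AddMonoidAlgebra

/-- the Frobenius of the group ring modulo `l` is induced by multiplication by `l` on the group -/
theorem b9_frob {q w l : ℕ} [NeZero q] [NeZero w] [Fact l.Prime]
    (x : AddMonoidAlgebra (ZMod l) (ZMod q × ZMod w)) :
    x ^ l = mapDomainRingHom (ZMod l) (nsmulAddMonoidHom (α := ZMod q × ZMod w) l) x := by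
  have : CharP (AddMonoidAlgebra (ZMod l) (ZMod q × ZMod w)) l :=
    charP_of_injective_algebraMap
      (algebraMap (ZMod l) (AddMonoidAlgebra (ZMod l) (ZMod q × ZMod w))).injective l
  have h : frobenius (AddMonoidAlgebra (ZMod l) (ZMod q × ZMod w)) l =
      mapDomainRingHom (ZMod l) (nsmulAddMonoidHom (α := ZMod q × ZMod w) l) := by
    apply AddMonoidAlgebra.ringHom_ext
    · intro r
      rw [frobenius_def, AddMonoidAlgebra.single_pow, ZMod.pow_card, smul_zero]
      simp [mapDomainRingHom_apply, mapDomain_single]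
    · intro a
      rw [frobenius_def, AddMonoidAlgebra.single_pow, one_pow]
      simp [mapDomainRingHom_apply, mapDomain_single]
  have h1 := congrArg (fun f => f x) h
  simpa [frobenius_def] using h1

theorem b9_inj {q w l : ℕ} [NeZero q] [NeZero w] (hl : l.Coprime (q * w)) :
    Function.Injective (nsmulAddMonoidHom (α := ZMod q × ZMod w) l) := by
  rw [injective_iff_map_eq_zero]
  intro a ha
  have h1 : l • a = 0 := ha
  have hq : (l : ZMod q) * a.1 = 0 := by
    have := congrArg Prod.fst h1
    simpa [nsmul_eq_mul] using this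
  have hw : (l : ZMod w) * a.2 = 0 := by
    have := congrArg Prod.snd h1
    simpa [nsmul_eq_mul] using this
  have u1 : IsUnit (l : ZMod q) := by
    rw [ZMod.isUnit_iff_coprime]
    exact Nat.Coprime.coprime_mul_right_right hl
  have u2 : IsUnit (l : ZMod w) := by
    rw [ZMod.isUnit_iff_coprime]
    exact Nat.Coprime.coprime_mul_left_right hl
  refine Prod.ext ?_ ?_
  · exact (u1.mul_right_eq_zero).1 hq
  · exact (u2.mul_right_eq_zero).1 hw

theorem b9_reduced {q w l : ℕ} [NeZero q] [NeZero w] [Fact l.Prime] (hl : l.Coprime (q * w))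
    {N : ℕ} (x : AddMonoidAlgebra (ZMod l) (ZMod q × ZMod w)) (hx : x ^ N = 0) : x = 0 := by
  have h1 : ∀ y : AddMonoidAlgebra (ZMod l) (ZMod q × ZMod w), y ^ l = 0 → y = 0 := by
    intro y hy
    rw [b9_frob] at hy
    have hinj : Function.Injective (mapDomainRingHom (ZMod l)
        (nsmulAddMonoidHom (α := ZMod q × ZMod w) l)) := by
      rw [show (⇑(mapDomainRingHom (ZMod l) (nsmulAddMonoidHom (α := ZMod q × ZMod w) l))) =
        mapDomain (nsmulAddMonoidHom (α := ZMod q × ZMod w) l) from rfl]
      exact AddMonoidAlgebra.mapDomain_injective (b9_inj hl)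
    exact hinj (hy.trans (map_zero _).symm)
  have h2 : ∀ k : ℕ, x ^ (l ^ k) = 0 → x = 0 := by
    intro k
    induction k with
    | zero => intro h; simpa using h
    | succ k ih =>
      intro h
      rw [pow_succ, pow_mul] at h
      exact ih (h1 _ h)
  have hlt : N ≤ l ^ N := (Nat.lt_pow_self (Fact.out : l.Prime).one_lt).le
  exact h2 N (pow_eq_zero_of_le hlt hx)

theorem dvd_of_pow_eq {q w N m : ℕ} [NeZero q] [NeZero w] (hN : 0 < N) (hm : m.Coprime (q * w)) (hm0 : 0 < m) (e : AA q w)
    (g1 : ZMod q × ZMod w) (h : e ^ N = (m : AA q w) ^ N * single g1 1) : ∃ e' : AA q w, e = (m : AA q w) * e' := by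
  induction m using Nat.strong_induction_on generalizing e with
  | _ m ih =>
    by_cases hm1 : m = 1
    · exact ⟨e, by rw [hm1]; simp⟩
    · obtain ⟨l, hlp, m', rfl⟩ := Nat.exists_prime_and_dvd hm1
      have hl0 : 0 < l := hlp.pos
      have hm'0 : 0 < m' := by
        rcases Nat.eq_zero_or_pos m' with h0 | h0
        · rw [h0] at hm0; simp at hm0
        · exact h0
      have : Fact l.Prime := ⟨hlp⟩
      have hlc : l.Coprime (q * w) := Nat.Coprime.coprime_mul_right hm
      have hmc : m'.Coprime (q * w) := Nat.Coprime.coprime_mul_left hm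
      -- reduction modulo l
      have hx : (mapRingHom (ZMod q × ZMod w) (Int.castRingHom (ZMod l)) e) ^ N = 0 := by
        rw [← map_pow, h, map_mul, map_pow, map_natCast]
        have h0 : ((l * m' : ℕ) : AddMonoidAlgebra (ZMod l) (ZMod q × ZMod w)) = 0 := by
          rw [Nat.cast_mul]
          have h00 : ((l : ℕ) : AddMonoidAlgebra (ZMod l) (ZMod q × ZMod w)) = 0 := by
            rw [← map_natCast (algebraMap (ZMod l) (AddMonoidAlgebra (ZMod l) (ZMod q × ZMod w))) l,
              ZMod.natCast_self, map_zero]
          rw [h00, zero_mul]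
        rw [h0, zero_pow hN.ne', zero_mul]
      have hz := b9_reduced hlc _ hx
      have hdiv : ∀ g, (l : ℤ) ∣ e.coeff g := by
        intro g
        have h1 := congrArg (fun y : AddMonoidAlgebra (ZMod l) (ZMod q × ZMod w) => y.coeff g) hz
        have h2 : ((e.coeff g : ℤ) : ZMod l) = 0 := by
          simpa [coeff_mapRingHom] using h1
        exact (ZMod.intCast_zmod_eq_zero_iff_dvd _ _).1 h2
      have he : e = (l : AA q w) * el (fun g => e.coeff g / l) := by
        apply AA.ext
        intro g
        rw [coeff_natCast_mul, coeff_el]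
        exact (Int.mul_ediv_cancel' (hdiv g)).symm
      set e1 : AA q w := el (fun g => e.coeff g / l) with he1
      have h3 : e1 ^ N = (m' : AA q w) ^ N * single g1 1 := by
        apply natCast_mul_cancel (k := l ^ N) (pow_ne_zero _ hl0.ne')
        rw [Nat.cast_pow, ← mul_pow, ← he, h, Nat.cast_mul, mul_pow]
        ring
      have hlt : m' < l * m' := by
        have := hlp.one_lt
        nlinarith
      obtain ⟨e', he'⟩ := ih m' hlt hmc hm'0 e1 h3
      refine ⟨e', ?_⟩
      rw [he, he', Nat.cast_mul, mul_assoc]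

theorem unit_single {q w : ℕ} [NeZero q] [NeZero w] (e : AA q w) (h : e * bar e = 1) :
    ∃ g0 : ZMod q × ZMod w, e = single g0 1 ∨ e = single g0 (-1) := by
  have h1 : ∑ g, e.coeff g * e.coeff g = 1 := by
    have h2 := congrArg (fun y : AA q w => y.coeff 0) h
    simp only [coeff_mul_bar, coeff_one', sub_zero, if_true] at h2
    exact h2
  obtain ⟨g0, hg0⟩ : ∃ g0, e.coeff g0 ≠ 0 := by
    by_contra hcon
    push Not at hcon
    simp only [hcon, mul_zero, Finset.sum_const_zero] at h1
    exact zero_ne_one h1
  have h3 : ∀ g, g ≠ g0 → e.coeff g = 0 := by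
    intro g hg
    by_contra hne
    have h4 : e.coeff g0 * e.coeff g0 + e.coeff g * e.coeff g ≤ ∑ g, e.coeff g * e.coeff g := by
      rw [← Finset.sum_pair (f := fun g => e.coeff g * e.coeff g) (Ne.symm hg)]
      exact Finset.sum_le_sum_of_subset_of_nonneg (Finset.subset_univ _)
        fun i _ _ => mul_self_nonneg _
    have h5 : 0 < e.coeff g0 * e.coeff g0 := mul_self_pos.2 hg0
    have h6 : 0 < e.coeff g * e.coeff g := mul_self_pos.2 hne
    omega
  have h7 : e.coeff g0 * e.coeff g0 = 1 := by
    rw [← h1]
    symm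
    refine Finset.sum_eq_single g0 (fun g _ hg => ?_) (fun hn => absurd (Finset.mem_univ _) hn)
    rw [h3 g hg, mul_zero]
  have h8 : e = single g0 (e.coeff g0) := by
    apply AA.ext
    intro g
    rw [coeff_single']
    by_cases hg : g = g0
    · rw [if_pos hg, hg]
    · rw [if_neg hg, h3 g hg]
  refine ⟨g0, ?_⟩
  rcases mul_self_eq_one_iff.1 h7 with h9 | h9
  · left; rw [h9] at h8; exact h8
  · right; rw [h9] at h8; exact h8

end Ry
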