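import Pool.Agent.Lib.MP_12eb66_co.NA5
import Pool.Agent.Lib.MP_12eb66_co.B1
import Pool.Agent.Lib.MP_12eb66_co.B2
import Pool.Agent.Lib.MP_12eb66_co.B3
import Pool.Agent.Lib.MP_12eb66_co.B4
import Pool.Agent.Lib.MP_12eb66_co.B7
import Pool.Agent.Lib.MP_12eb66_co.B8
import Pool.Agent.Lib.MP_12eb66_co.B9

/-! Row ry-B10 (structure theorem). Proof. 2 m^4 <= p follows from 4^(m^2-1) < p (m = 1: p >= 2; m >= 2: 2 m^4 <= 4^(m^2-1), induction or 2^n estimates). nt, exists_f, exists_e (f = pi1 e), norm_e, supp_bound, exact: e bar e = m^2, rel_D: m pi1 mu t D = pi1 e D.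
If m = 1: unit_single gives e = ± single g0. If m >= 2: p > 4^3, so p >= 3; single_exponent, e_pow, dvd_of_pow_eq (m coprime to q w) give e = m e', e' bar e' = 1 (no torsion), unit_single. In both cases m pi1 mu t D = ± m single g0 pi1 D, so pi1 mu t D = ± single g0 pi1 D. Coefficient at (t x, y):
the left side is mu t (pi1 D) at (t x, y) = (pi1 D) (x, y) = del p d (x,y) (coeff_mu, mu_pi1, del_eq), the right side ± del p d (t x - g0.1, y - g0.2) (single_mul_coeff). -/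

namespace Ry
open AddMonoidAlgebra

private theorem two_mul_sq_le {k : ℕ} (hk : 4 ≤ k) : 2 * k ^ 2 ≤ 4 ^ (k - 1) := by
  induction k, hk using Nat.le_induction with
  | base => norm_num
  | succ k hk ih =>
    have e1 : k + 1 - 1 = (k - 1) + 1 := by omega
    have h2 : 2 * (k + 1) ^ 2 ≤ 4 * (2 * k ^ 2) := by nlinarith
    rw [e1, pow_succ]
    calc 2 * (k + 1) ^ 2 ≤ 4 * (2 * k ^ 2) := h2
      _ ≤ 4 * 4 ^ (k - 1) := Nat.mul_le_mul_left 4 ih
      _ = 4 ^ (k - 1) * 4 := mul_comm _ _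

private theorem two_mul_pow_le {p m : ℕ} (hm : 0 < m) (hpb : 4 ^ (m ^ 2 - 1) < p) : 2 * m ^ 4 ≤ p := by
  rcases Nat.lt_or_ge 1 m with h1 | h1
  · have h2 : 4 ≤ m ^ 2 := by nlinarith
    have h3 := two_mul_sq_le h2
    have e : (m ^ 2) ^ 2 = m ^ 4 := by ring
    rw [e] at h3
    omega
  · have : m = 1 := by omega
    subst this
    simp at hpb
    omega

private theorem final {p q w : ℕ} [NeZero q] [NeZero w] {d : ZMod q × ZMod w → ℤ} {m : ℕ} (hm : 0 < m)
    (t : (ZMod q)ˣ) (e : AA q w)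
    (hrel : (m : AA q w) * (pi1 p q w * mu (t : ZMod q) (el d)) = pi1 p q w * (e * el d))
    {g0 : ZMod q × ZMod w} {ε : ℤ} (he : e = (m : AA q w) * single g0 ε) :
    ∀ x y, del p d (x, y) = ε * del p d (t * x - g0.1, y - g0.2) := by
  have h1 : pi1 p q w * mu (t : ZMod q) (el d) = single g0 ε * (pi1 p q w * el d) := by
    apply natCast_mul_cancel (k := m) hm.ne'
    rw [hrel, he]
    ring
  intro x y
  rw [del_eq, del_eq, ← coeff_mu t, map_mul, mu_pi1, h1, single_mul_coeff]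
  rfl

theorem structure_thm {p s q w : ℕ} [NeZero q] [NeZero w] (hp : p.Prime) (hs : 0 < s) (hq : q = p ^ s) (hpw : ¬ p ∣ w)
    {d : ZMod q × ZMod w → ℤ} {lam n : ℤ} (h : Co d lam n) {a m : ℕ} (hn : n = (p : ℤ) ^ a * m) (hm : 0 < m)
    (hmw : m.Coprime w) (hpm : ¬ p ∣ m) (hpb : 4 ^ (m ^ 2 - 1) < p) (t : (ZMod q)ˣ) :
    ∃ ε : ℤ, (ε = 1 ∨ ε = -1) ∧ ∃ x0 y0, ∀ x y, del p d (x, y) = ε * del p d (t * x - x0, y - y0) := by
  have hpm4 : 2 * m ^ 4 ≤ p := two_mul_pow_le hm hpb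
  obtain ⟨f, hf0, hf1, hf2, hf3⟩ := exists_f hp hs hq h hn t
    (fun g c hc => nt hp hs hq hpw h hn t g hc)
  obtain ⟨e, rfl, hmode⟩ := exists_e hp hs hq f hf1 hf2
  have hne := norm_e hp hs hq e hf3
  have hsupp := supp_bound hp hs hq e hm hne hmode hpm4
  have hex := exact hp hs hq e hm hne hsupp hpm4
  have hrel := rel_D hp hs hq h hn t e hf0
  have key : ∃ g0 : ZMod q × ZMod w, ∃ ε : ℤ, (ε = 1 ∨ ε = -1) ∧ e = (m : AA q w) * single g0 ε := by
    have fin : ∀ e' : AA q w, e = (m : AA q w) * e' →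
        ∃ g0 : ZMod q × ZMod w, ∃ ε : ℤ, (ε = 1 ∨ ε = -1) ∧ e = (m : AA q w) * single g0 ε := by
      intro e' he'
      have h1 : e' * bar e' = 1 := by
        apply natCast_mul_cancel (k := m ^ 2) (pow_pos hm 2).ne'
        push_cast
        have h2 : (m : AA q w) ^ 2 * (e' * bar e') = e * bar e := by
          rw [he', map_mul, map_natCast]
          ring
        rw [mul_one, h2, hex]
      obtain ⟨g0, h2 | h2⟩ := unit_single e' h1
      · exact ⟨g0, 1, Or.inl rfl, by rw [he', h2]⟩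
      · exact ⟨g0, -1, Or.inr rfl, by rw [he', h2]⟩
    rcases Nat.lt_or_ge 1 m with hm1 | hm1
    · have h64 : 4 ^ 3 ≤ 4 ^ (m ^ 2 - 1) := by
        apply Nat.pow_le_pow_right (by norm_num)
        have : 4 ≤ m ^ 2 := by nlinarith
        omega
      have hp3 : 3 ≤ p := by omega
      have hn0 : n ≠ 0 := by
        rw [hn]
        have := hp.pos
        positivity
      obtain ⟨x0, hx0⟩ := single_exponent hp hs hq hm hmw hpb e hex hsupp
      obtain ⟨N, hN, g1, hg1⟩ := e_pow hp hp3 hs hq h hn0 t e hx0 hrel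
      have hcop : m.Coprime (q * w) := by
        rw [hq]
        exact Nat.Coprime.mul_right (Nat.Coprime.pow_right s ((Nat.Prime.coprime_iff_not_dvd hp).2 hpm).symm) hmw
      obtain ⟨e', he'⟩ := dvd_of_pow_eq hN hcop hm e g1 hg1
      exact fin e' he'
    · have : m = 1 := by omega
      subst this
      exact fin e (by simp)
  obtain ⟨g0, ε, hε, he⟩ := key
  exact ⟨ε, hε, g0.1, g0.2, final hm t e hrel he⟩

end Ry
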