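import Pool.Agent.Lib.MP_12eb66_co.Alg

/-! Row ry-B5 (Dirichlet). Proof. Pigeonhole: for j in {0, ..., 4^(|S|-1)} the function S \ {x0} -> Fin 4, x -> floor (4 (j (x - x0)).val / q): there are 4^(|S|-1) functions, so two values
j < j' give the same one (Finset.exists_ne_map_eq_of_card_lt_of_maps_to or Fintype.exists_ne_map_eq_of_card_lt). u = j' - j, 1 <= u <= 4^(|S|-1) < p, so u is a unit of ZMod q, q = p^s. L x = ((j' (x - x0)).val : ℤ) - (j (x - x0)).val. For x in S:
|4 L x| < q (same cell; for x = x0 it is 0), and (L x : ZMod q) = u (x - x0). Injective on S: L x = L y -> u (x - y) = 0 -> x = y. If x - y = x' - y' then L x - L y - (L x' - L y') is divisible by q and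
has absolute value < q (4 times it is < 4 q), so it is 0. -/

namespace Ry

/-- the cell of a residue -/
private def b5_cell {q : ℕ} [NeZero q] (z : ZMod q) : Fin 4 :=
  ⟨4 * z.val / q, by
    rw [Nat.div_lt_iff_lt_mul (Nat.pos_of_ne_zero (NeZero.ne q))]
    exact Nat.mul_lt_mul_of_pos_left z.val_lt (by norm_num)⟩

private theorem b5_close {q : ℕ} [NeZero q] {z z' : ZMod q} (h : b5_cell z = b5_cell z') :
    4 * ((z.val : ℤ) - z'.val) < q := by
  have hq : 0 < q := Nat.pos_of_ne_zero (NeZero.ne q)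
  have h1 : 4 * z.val / q = 4 * z'.val / q := congrArg Fin.val h
  have h2 : 4 * z.val < q * (4 * z.val / q) + q := Nat.lt_mul_div_succ _ hq
  have h3 : q * (4 * z'.val / q) ≤ 4 * z'.val := Nat.mul_div_le _ _
  rw [h1] at h2
  have h4 : 4 * z.val < 4 * z'.val + q := lt_of_lt_of_le h2 (Nat.add_le_add_right h3 q)
  have h5 : (4 * z.val : ℤ) < 4 * z'.val + q := by exact_mod_cast h4
  linarith

theorem dirichlet {p s q : ℕ} [NeZero q] (hp : p.Prime) (hs : 0 < s) (hq : q = p ^ s) (S : Finset (ZMod q))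
    {x0 : ZMod q} (hx0 : x0 ∈ S) (hS : 4 ^ (S.card - 1) < p) :
    ∃ L : ZMod q → ℤ, Set.InjOn L S ∧ ∀ x ∈ S, ∀ y ∈ S, ∀ x' ∈ S, ∀ y' ∈ S, x - y = x' - y' → L x - L y = L x' - L y' := by
  have hq0 : 0 < q := Nat.pos_of_ne_zero (NeZero.ne q)
  -- pigeonhole
  obtain ⟨j, j', hjj, hcell⟩ : ∃ j j' : ℕ, (j < j' ∧ j' ≤ 4 ^ (S.card - 1)) ∧ ∀ x ∈ S, x ≠ x0 →
      b5_cell ((j : ZMod q) * (x - x0)) = b5_cell ((j' : ZMod q) * (x - x0)) := by
    obtain ⟨a, b, hab, h⟩ := Fintype.exists_ne_map_eq_of_card_lt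
      (fun (j : Fin (4 ^ (S.card - 1) + 1)) (x : {x // x ∈ S.erase x0}) =>
        b5_cell ((j.1 : ZMod q) * (x.1 - x0)))
      (by
        rw [Fintype.card_fun, Fintype.card_fin, Fintype.card_fin, Fintype.card_coe,
          Finset.card_erase_of_mem hx0]
        exact Nat.lt_succ_self _)
    rcases lt_or_gt_of_ne hab with h1 | h1
    · refine ⟨a.1, b.1, ⟨h1, Nat.lt_succ_iff.1 b.2⟩, fun x hx hne => ?_⟩
      exact congrFun h ⟨x, Finset.mem_erase.2 ⟨hne, hx⟩⟩
    · refine ⟨b.1, a.1, ⟨h1, Nat.lt_succ_iff.1 a.2⟩, fun x hx hne => ?_⟩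
      exact (congrFun h ⟨x, Finset.mem_erase.2 ⟨hne, hx⟩⟩).symm
  -- the unit
  have hu : IsUnit (((j' - j : ℕ) : ZMod q)) := by
    rw [ZMod.isUnit_iff_coprime, hq]
    apply Nat.Coprime.pow_right
    apply Nat.Coprime.symm
    rw [hp.coprime_iff_not_dvd]
    intro hd
    have h1 := Nat.le_of_dvd (by omega) hd
    omega
  set L : ZMod q → ℤ := fun x =>
    (((j' : ZMod q) * (x - x0)).val : ℤ) - (((j : ZMod q) * (x - x0)).val : ℤ) with hL
  have hLcast : ∀ x, ((L x : ℤ) : ZMod q) = ((j' - j : ℕ) : ZMod q) * (x - x0) := by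
    intro x
    simp only [hL]
    rw [Nat.cast_sub hjj.1.le]
    push_cast
    rw [ZMod.natCast_zmod_val, ZMod.natCast_zmod_val]
    ring
  have hLabs : ∀ x ∈ S, 4 * L x < q ∧ -(q : ℤ) < 4 * L x := by
    intro x hx
    by_cases hne : x = x0
    · have h0 : L x = 0 := by simp [hL, hne]
      rw [h0]
      constructor <;> simp [hq0]
    · have h1 := b5_close (hcell x hx hne)
      have h2 := b5_close (hcell x hx hne).symm
      simp only [hL]
      constructor <;> linarith
  refine ⟨L, ?_, ?_⟩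
  · intro x hx y hy hxy
    have h1 : ((L x : ℤ) : ZMod q) = ((L y : ℤ) : ZMod q) := by rw [hxy]
    rw [hLcast, hLcast] at h1
    have h2 := hu.mul_left_cancel h1
    exact sub_left_injective h2
  · intro x hx y hy x' hx' y' hy' h
    have h1 : (((L x - L y - (L x' - L y') : ℤ)) : ZMod q) = 0 := by
      push_cast
      rw [hLcast, hLcast, hLcast, hLcast]
      linear_combination ((j' - j : ℕ) : ZMod q) * h
    rw [ZMod.intCast_zmod_eq_zero_iff_dvd] at h1
    have h2 : |L x - L y - (L x' - L y')| < (q : ℤ) := by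
      have a1 := hLabs x hx
      have a2 := hLabs y hy
      have a3 := hLabs x' hx'
      have a4 := hLabs y' hy'
      rw [abs_lt]
      constructor <;> linarith [a1.1, a1.2, a2.1, a2.2, a3.1, a3.2, a4.1, a4.2]
    have h3 := Int.eq_zero_of_abs_lt_dvd h1 h2
    linarith

end Ry
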