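import Pool.Agent.Lib.MP_12eb66_co.Alg

/-! Elementary facts (proved). -/

set_option linter.unusedSectionVars false

namespace Ry

section gen
variable {G : Type} [AddCommGroup G] [Fintype G] [DecidableEq G] {d : G → ℤ} {lam n : ℤ}

theorem Co.sum_sq (h : Co d lam n) : (∑ g, d g) ^ 2 = lam * Fintype.card G + n := by
  have h1 : ∑ a, ∑ g, d g * d (g + a) = (∑ g, d g) ^ 2 := by
    rw [Finset.sum_comm, sq, Finset.sum_mul]
    refine Finset.sum_congr rfl fun g _ => ?_
    rw [← Finset.mul_sum]
    congr 1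
    exact Fintype.sum_equiv (Equiv.addLeft g) _ _ fun a => rfl
  rw [← h1]
  simp only [h.corr, Finset.sum_add_distrib]
  simp [mul_comm]

theorem Co.sum_self (h : Co d lam n) : ∑ g, d g ^ 2 = lam + n := by
  have h1 := h.corr 0
  simp only [add_zero, if_true] at h1
  rw [← h1]
  exact Finset.sum_congr rfl fun g _ => sq _

theorem Co.sum_d (hzo : ∀ g, d g = 0 ∨ d g = 1) (h : Co d lam n) : ∑ g, d g = lam + n := by
  rw [← h.sum_self]
  refine Finset.sum_congr rfl fun g _ => ?_
  rcases hzo g with h1 | h1 <;> rw [h1] <;> norm_num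

theorem Co.prod (hzo : ∀ g, d g = 0 ∨ d g = 1) (h : Co d lam n) :
    lam * (Fintype.card G - lam - 2 * n) = n ^ 2 - n := by
  have h1 := h.sum_sq
  rw [h.sum_d hzo] at h1
  linear_combination -h1

theorem sum_shift (f : G → ℤ) (b : G) : ∑ g, f (g + b) = ∑ g, f g :=
  Fintype.sum_equiv (Equiv.addRight b) _ _ fun _ => rfl

theorem Co.translate (h : Co d lam n) (b : G) : Co (fun g => d (g + b)) lam n := by
  constructor
  intro a
  rw [← h.corr a, ← sum_shift (fun g => d g * d (g + a)) b]
  refine Finset.sum_congr rfl fun g _ => ?_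
  rw [add_right_comm]

theorem Co.compl (hzo : ∀ g, d g = 0 ∨ d g = 1) (h : Co d lam n) :
    Co (fun g => 1 - d g) (Fintype.card G - lam - 2 * n) n := by
  constructor
  intro a
  have h1 : ∀ g, (1 - d g) * (1 - d (g + a)) = 1 - d g - d (g + a) + d g * d (g + a) := fun g => by ring
  simp only [h1]
  rw [Finset.sum_add_distrib, Finset.sum_sub_distrib, Finset.sum_sub_distrib, sum_shift d a, h.corr a, h.sum_d hzo]
  simp only [Finset.sum_const, Finset.card_univ, nsmul_eq_mul, mul_one]
  ring

end gen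

section
variable {p s q w : ℕ} [NeZero q] [NeZero w] {d : ZMod q × ZMod w → ℤ} {lam n : ℤ}

theorem bet_add (g : ZMod q × ZMod w) {c : ZMod q} (h : c ∈ P1 p q) :
    bet p d (g.1 + c, g.2) = bet p d g := by
  unfold bet
  have := sum_P1_add (p := p) (fun c' => d (g.1 + c', g.2)) h
  rw [← this]
  refine Finset.sum_congr rfl fun c' _ => ?_
  congr 2
  ring

theorem bet_nonneg (hzo : ∀ g, d g = 0 ∨ d g = 1) (g : ZMod q × ZMod w) : 0 ≤ bet p d g := by
  apply Finset.sum_nonneg
  intro c _
  rcases hzo (g.1 + c, g.2) with h | h <;> rw [h]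
  norm_num

theorem bet_le (hp : p.Prime) (hs : 0 < s) (hq : q = p ^ s) (hzo : ∀ g, d g = 0 ∨ d g = 1)
    (g : ZMod q × ZMod w) : bet p d g ≤ p := by
  have h1 : bet p d g ≤ ∑ c ∈ P1 p q, 1 := by
    apply Finset.sum_le_sum
    intro c _
    rcases hzo (g.1 + c, g.2) with h | h <;> rw [h]
    norm_num
  rw [Finset.sum_const, card_P1 hp hs hq] at h1
  simpa using h1

theorem sum_del_coset (hp : p.Prime) (hs : 0 < s) (hq : q = p ^ s) (g : ZMod q × ZMod w) :
    ∑ c ∈ P1 p q, del p d (g.1 + c, g.2) = 0 := by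
  unfold del
  rw [Finset.sum_sub_distrib, ← Finset.mul_sum, Finset.sum_congr rfl (fun c hc => bet_add (d := d) g hc),
    Finset.sum_const, card_P1 hp hs hq]
  unfold bet
  simp

/-- correlation of the deviation with d -/
theorem Co.del_d (hp : p.Prime) (hs : 0 < s) (hq : q = p ^ s) (h : Co d lam n) (a : ZMod q × ZMod w) :
    ∑ g, del p d g * d (g + a) = (if a = 0 then p * n else 0) - if a.1 ∈ P1 p q ∧ a.2 = 0 then n else 0 := by
  have h1 : ∀ g, del p d g * d (g + a) = p * (d g * d (g + a)) - ∑ c ∈ P1 p q, d (g + (c, 0)) * d (g + a) := by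
    intro g
    unfold del bet
    rw [sub_mul, Finset.sum_mul, mul_assoc]
    congr 1
    refine Finset.sum_congr rfl fun c _ => ?_
    congr 2
    ext <;> simp
  simp only [h1]
  rw [Finset.sum_sub_distrib, ← Finset.mul_sum, h.corr, Finset.sum_comm]
  have h2 : ∀ c ∈ P1 p q, ∑ g, d (g + (c, 0)) * d (g + a) = lam + if a = (c, 0) then n else 0 := by
    intro c _
    have h3 := h.corr (a - (c, 0))
    rw [← sum_shift _ ((c, 0) : ZMod q × ZMod w)] at h3
    have h5 : (if a = (c, 0) then n else 0) = if a - (c, 0) = 0 then n else 0 := by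
      simp only [sub_eq_zero]
    rw [h5, ← h3]
    refine Finset.sum_congr rfl fun g _ => ?_
    congr 2
    abel
  rw [Finset.sum_congr rfl h2, Finset.sum_add_distrib, Finset.sum_const, card_P1 hp hs hq]
  have h3 : (∑ c ∈ P1 p q, if a = (c, 0) then n else 0) = if a.1 ∈ P1 p q ∧ a.2 = 0 then n else 0 := by
    by_cases ha : a.1 ∈ P1 p q ∧ a.2 = 0
    · rw [if_pos ha, Finset.sum_eq_single a.1]
      · rw [if_pos]
        ext
        · rfl
        · exact ha.2
      · intro c _ hc
        rw [if_neg]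
        rintro rfl
        exact hc rfl
      · intro h4; exact absurd ha.1 h4
    · rw [if_neg ha]
      apply Finset.sum_eq_zero
      intro c hc
      rw [if_neg]
      rintro rfl
      exact ha ⟨hc, rfl⟩
  rw [h3]
  split_ifs <;> simp <;> ring

/-- autocorrelation of the coset numbers -/
theorem Co.bet_bet (hp : p.Prime) (hs : 0 < s) (hq : q = p ^ s) (h : Co d lam n) (a : ZMod q × ZMod w) :
    ∑ g, bet p d g * bet p d (g + a) = p ^ 2 * lam + if a.1 ∈ P1 p q ∧ a.2 = 0 then p * n else 0 := by
  -- bet g * bet (g + a) = ∑ c, d (g + (c, 0)) * bet (g + a) ; shift by (c,0)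
  have h1 : ∑ g, bet p d g * bet p d (g + a) = p * ∑ g, d g * bet p d (g + a) := by
    have h2 : ∀ g : ZMod q × ZMod w, bet p d g * bet p d (g + a) =
        ∑ c ∈ P1 p q, d (g + (c, 0)) * bet p d (g + (c, 0) + a) := by
      intro g
      conv_lhs => rw [bet, Finset.sum_mul]
      refine Finset.sum_congr rfl fun c hc => ?_
      have h3 := bet_add (p := p) (d := d) (g + a) hc
      have e1 : (g + (c, 0) : ZMod q × ZMod w) = (g.1 + c, g.2) := by ext <;> simp
      have e2 : (g + (c, 0) + a : ZMod q × ZMod w) = ((g + a).1 + c, (g + a).2) := by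
        ext <;> simp; ring
      rw [e2, h3, e1]
    simp only [h2]
    rw [Finset.sum_comm]
    have h4 : ∀ c ∈ P1 p q, ∑ g, d (g + (c, 0)) * bet p d (g + (c, 0) + a) = ∑ g, d g * bet p d (g + a) := by
      intro c _
      exact sum_shift (fun g => d g * bet p d (g + a)) ((c, 0) : ZMod q × ZMod w)
    rw [Finset.sum_congr rfl h4, Finset.sum_const, card_P1 hp hs hq]
    simp
  have h2 : ∑ g, d g * bet p d (g + a) = p * lam + if a.1 ∈ P1 p q ∧ a.2 = 0 then n else 0 := by
    have h3 : ∀ g : ZMod q × ZMod w, d g * bet p d (g + a) = ∑ c ∈ P1 p q, d g * d (g + (a + (c, 0))) := by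
      intro g
      rw [bet, Finset.mul_sum]
      refine Finset.sum_congr rfl fun c _ => ?_
      congr 2
      ext <;> simp
      ring
    simp only [h3]
    rw [Finset.sum_comm]
    simp only [h.corr]
    rw [Finset.sum_add_distrib, Finset.sum_const, card_P1 hp hs hq]
    have h4 : (∑ c ∈ P1 p q, if a + (c, 0) = 0 then n else 0) = if a.1 ∈ P1 p q ∧ a.2 = 0 then n else 0 := by
      by_cases ha : a.1 ∈ P1 p q ∧ a.2 = 0
      · rw [if_pos ha, Finset.sum_eq_single (-a.1)]
        · rw [if_pos]
          ext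
          · simp
          · simp [ha.2]
        · intro c _ hc
          rw [if_neg]
          intro h5
          apply hc
          have := congrArg Prod.fst h5
          simp only [Prod.fst_add, Prod.fst_zero] at this
          exact eq_neg_of_add_eq_zero_right this
        · intro h4; exact absurd (neg_mem_P1 ha.1) h4
      · rw [if_neg ha]
        apply Finset.sum_eq_zero
        intro c hc
        rw [if_neg]
        intro h5
        apply ha
        have e1 := congrArg Prod.fst h5
        have e2 := congrArg Prod.snd h5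
        simp only [Prod.fst_add, Prod.fst_zero, Prod.snd_add, Prod.snd_zero, add_zero] at e1 e2
        refine ⟨?_, e2⟩
        rw [eq_neg_of_add_eq_zero_left e1]
        exact neg_mem_P1 hc
    rw [h4]
    simp
  rw [h1, h2]
  split_ifs <;> ring

theorem sum_bet (hp : p.Prime) (hs : 0 < s) (hq : q = p ^ s) : ∑ g, bet p d g = p * ∑ g, d g := by
  unfold bet
  rw [Finset.sum_comm]
  have h4 : ∀ c ∈ P1 p q, ∑ g : ZMod q × ZMod w, d (g.1 + c, g.2) = ∑ g, d g := by
    intro c _
    rw [← sum_shift d ((c, 0) : ZMod q × ZMod w)]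
    refine Finset.sum_congr rfl fun g _ => ?_
    congr 1
    ext <;> simp
  rw [Finset.sum_congr rfl h4, Finset.sum_const, card_P1 hp hs hq]
  simp

end

end Ry
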