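import Pool.Agent.Lib.MP_12eb66_co.C0

/-! For s >= 2 the deviation vanishes outside P1 x W. -/

namespace Ry

private theorem iter {p q w : ℕ} [NeZero q] [NeZero w] {d : ZMod q × ZMod w → ℤ} {t : (ZMod q)ˣ} {ε : ℤ}
    {y0 : ZMod w} (hrel : ∀ x y, del p d (x, y) = ε * del p d (t * x, y - y0)) (i : ℕ) (x : ZMod q) (y : ZMod w) :
    del p d (x, y) = ε ^ i * del p d (((t ^ i : (ZMod q)ˣ) : ZMod q) * x, y - i • y0) := by
  induction i with
  | zero => simp
  | succ i ih =>
    rw [ih, hrel (((t ^ i : (ZMod q)ˣ) : ZMod q) * x), pow_succ, mul_assoc]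
    have e1 : (t : ZMod q) * (((t ^ i : (ZMod q)ˣ) : ZMod q) * x) = ((t ^ (i + 1) : (ZMod q)ˣ) : ZMod q) * x := by
      push_cast
      ring
    have e2 : y - i • y0 - y0 = y - (i + 1) • y0 := by
      rw [succ_nsmul]
      abel
    rw [e1, e2]

theorem del_zero_of {p s q w : ℕ} [NeZero q] [NeZero w] (hp : p.Prime) (hp2 : p ≠ 2) (hs : 0 < s) (hq : q = p ^ s)
    (hpw : ¬ p ∣ w) {d : ZMod q × ZMod w → ℤ} {t : (ZMod q)ˣ} (ht : ∀ u : (ZMod q)ˣ, ∃ i : ℕ, t ^ i = u) {ε : ℤ}
    (hε : ε = 1 ∨ ε = -1) {y0 : ZMod w} (hrel : ∀ x y, del p d (x, y) = ε * del p d (t * x, y - y0)) {x : ZMod q}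
    (hx : (p : ZMod q) * x ≠ 0) (y : ZMod w) : del p d (x, y) = 0 := by
  -- (a)
  have ha : ∀ τ : (ZMod q)ˣ, τ ^ (p ^ (s - 1)) = 1 → del p d ((τ : ZMod q) * x, y) = del p d (x, y) := by
    intro τ hτ
    have hcop : Nat.Coprime (2 * w) (orderOf τ) := by
      have h1 : orderOf τ ∣ p ^ (s - 1) := orderOf_dvd_of_pow_eq_one hτ
      refine Nat.Coprime.coprime_dvd_right h1 (Nat.Coprime.pow_right _ ?_)
      refine Nat.Coprime.mul_left ?_ ?_
      · exact (Nat.coprime_primes Nat.prime_two hp).2 hp2.symm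
      · exact ((Nat.Prime.coprime_iff_not_dvd hp).2 hpw).symm
    obtain ⟨c, hc⟩ := exists_pow_eq_self_of_coprime hcop
    obtain ⟨i, hi⟩ := ht (τ ^ c)
    have h1 : t ^ (i * (2 * w)) = τ := by
      rw [pow_mul, hi, ← pow_mul, mul_comm c, pow_mul, hc]
    have h2 := iter hrel (i * (2 * w)) x y
    rw [h1] at h2
    have h3 : ε ^ (i * (2 * w)) = 1 := by
      rw [show i * (2 * w) = 2 * (i * w) by ring, pow_mul]
      have : ε ^ 2 = 1 := by rcases hε with rfl | rfl <;> norm_num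
      rw [this, one_pow]
    have h4 : (i * (2 * w)) • y0 = 0 := by
      rw [show i * (2 * w) = (i * 2) * w by ring, mul_smul, nsmul_eq_mul w y0, ZMod.natCast_self, zero_mul, smul_zero]
    rw [h3, h4, sub_zero, one_mul] at h2
    exact h2.symm
  -- (b)
  have hqq : q = p * p ^ (s - 1) := by rw [hq, ← pow_succ']; congr 1; omega
  have hb : ∀ c ∈ P1 p q, ∃ τ : (ZMod q)ˣ, τ ^ (p ^ (s - 1)) = 1 ∧ (τ : ZMod q) * x = x + c := by
    intro c hc
    obtain ⟨k, hk⟩ : ∃ k : ZMod q, c = k * (p * x) := by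
      have hg : Nat.gcd (p * x.val) (p ^ s) ∣ p ^ s := Nat.gcd_dvd_right _ _
      obtain ⟨j, hj, hgj⟩ := (Nat.dvd_prime_pow hp).1 hg
      have hjs : j < s := by
        rcases Nat.lt_or_ge j s with h1 | h1
        · exact h1
        · exfalso
          have h2 : j = s := le_antisymm hj h1
          rw [h2] at hgj
          have h3 : p ^ s ∣ p * x.val := by
            rw [← hgj]
            exact Nat.gcd_dvd_left _ _
          apply hx
          rw [← hq, ← ZMod.natCast_eq_zero_iff] at h3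
          push_cast at h3
          rwa [ZMod.natCast_zmod_val] at h3
      have hbez := Nat.gcd_eq_gcd_ab (p * x.val) (p ^ s)
      rw [hgj] at hbez
      have hbez2 : ((p ^ j : ℕ) : ZMod q) = (p * x) * (((p * x.val).gcdA (p ^ s) : ℤ) : ZMod q) := by
        have h1 := congrArg (fun z : ℤ => (z : ZMod q)) hbez
        simp only [Int.cast_natCast, Int.cast_add, Int.cast_mul] at h1
        have h2 : ((p ^ s : ℕ) : ZMod q) = 0 := by rw [← hq]; exact ZMod.natCast_self q
        rw [h2, zero_mul, add_zero] at h1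
        rw [h1]
        push_cast
        rw [ZMod.natCast_zmod_val]
      rw [P1_eq_image hp hs hq] at hc
      obtain ⟨i, -, rfl⟩ := Finset.mem_image.1 hc
      refine ⟨((i * p ^ (s - 1 - j) : ℕ) : ZMod q) * (((p * x.val).gcdA (p ^ s) : ℤ) : ZMod q), ?_⟩
      have h1 : i * p ^ (s - 1) = (i * p ^ (s - 1 - j)) * p ^ j := by
        rw [mul_assoc, ← pow_add]
        congr 2
        omega
      rw [h1, Nat.cast_mul, hbez2]
      ring
    have hpow : (1 + k * (p : ZMod q)) ^ (p ^ (s - 1)) = 1 := by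
      have h1 : (p : ZMod q) ∣ (1 + k * p) - 1 := ⟨k, by ring⟩
      have h2 := dvd_sub_pow_of_dvd_sub h1 (s - 1)
      rw [one_pow] at h2
      have h3 : (p : ZMod q) ^ (s - 1 + 1) = 0 := by
        rw [Nat.sub_add_cancel hs, ← Nat.cast_pow, ← hq]
        exact ZMod.natCast_self q
      rw [h3, zero_dvd_iff, sub_eq_zero] at h2
      exact h2
    obtain ⟨τ, hτ⟩ := IsUnit.of_pow_eq_one hpow (pow_pos hp.pos _).ne'
    refine ⟨τ, ?_, ?_⟩
    · apply Units.ext
      push_cast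
      rw [hτ, hpow]
    · rw [hτ, hk]
      ring
  -- (c)
  have hc : ∀ c ∈ P1 p q, del p d (x + c, y) = del p d (x, y) := by
    intro c hc
    obtain ⟨τ, h1, h2⟩ := hb c hc
    rw [← h2]
    exact ha τ h1
  have h1 := sum_del_coset (d := d) hp hs hq (x, y)
  simp only at h1
  rw [Finset.sum_congr rfl hc, Finset.sum_const, card_P1 hp hs hq, nsmul_eq_mul] at h1
  rcases mul_eq_zero.1 h1 with h2 | h2
  · exact absurd (by exact_mod_cast h2) hp.ne_zero
  · exact h2

end Ry
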