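import Pool.Agent.Lib.MP_12eb66_co.C0

/-! Row ry-C1b. Proof of unit_sub: if p divides t - 1 (in the sense that the image of t under ZMod.castHom to ZMod p is 1) then every power of t has image 1, but -1 = t^i has image -1 ≠ 1 (p odd). So the image of 1 - t
in ZMod p is not 0, and an element x of ZMod (p^s) with non-zero image in ZMod p is a unit (ZMod.isUnit_iff_coprime for x.val, Nat.Coprime.pow_right, p does not divide x.val).
Proof of normal: take ξ with (t - 1) ξ = x0 and d' g = d (g + (ξ, 0)): del p d' (x,y) = del p d (x + ξ, y) (unfold; bet p d' (x,y) = bet p d (x + ξ, y)) = ε del p d (t x + t ξ - x0, y - y0) and t ξ - x0 = ξ. -/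

namespace Ry

theorem unit_sub {p s q : ℕ} [NeZero q] (hp : p.Prime) (hp2 : p ≠ 2) (hs : 0 < s) (hq : q = p ^ s) {t : (ZMod q)ˣ}
    (ht : ∀ u : (ZMod q)ˣ, ∃ i : ℕ, t ^ i = u) : IsUnit ((t : ZMod q) - 1) := by
  have hpq : p ∣ q := by rw [hq]; exact dvd_pow_self p hs.ne'
  have : Fact p.Prime := ⟨hp⟩
  obtain ⟨f, hf⟩ : ∃ f : ZMod q →+* ZMod p, f = ZMod.castHom hpq (ZMod p) := ⟨_, rfl⟩
  have hft : f ((t : ZMod q) - 1) ≠ 0 := by
    intro h
    rw [map_sub, map_one, sub_eq_zero] at h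
    obtain ⟨i, hi⟩ := ht (-1)
    have h1 : ((t : ZMod q)) ^ i = -1 := by
      have := congrArg (fun u : (ZMod q)ˣ => (u : ZMod q)) hi
      simpa using this
    have h2 : f ((t : ZMod q) ^ i) = -1 := by rw [h1, map_neg, map_one]
    rw [map_pow, h, one_pow] at h2
    have h3 : ((2 : ℕ) : ZMod p) = 0 := by
      push_cast
      linear_combination h2
    rw [ZMod.natCast_eq_zero_iff] at h3
    exact hp2 ((Nat.prime_dvd_prime_iff_eq hp Nat.prime_two).1 h3)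
  obtain ⟨x, hx⟩ : ∃ x : ZMod q, x = (t : ZMod q) - 1 := ⟨_, rfl⟩
  rw [← hx] at hft ⊢
  obtain ⟨n, hn⟩ : ∃ n : ℕ, n = x.val := ⟨_, rfl⟩
  have hcop : n.Coprime q := by
    rw [hq]
    apply Nat.Coprime.pow_right
    rw [Nat.coprime_comm, Nat.Prime.coprime_iff_not_dvd hp, hn]
    intro hd
    apply hft
    have h4 : ((x.val : ℕ) : ZMod q) = x := ZMod.natCast_zmod_val x
    rw [← h4, map_natCast]
    exact (ZMod.natCast_eq_zero_iff _ _).2 hd
  have h5 := (ZMod.isUnit_iff_coprime n q).2 hcop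
  rwa [hn, ZMod.natCast_zmod_val x] at h5

theorem normal {p s q w : ℕ} [NeZero q] [NeZero w] (hp : p.Prime) (hp2 : p ≠ 2) (hs : 0 < s) (hq : q = p ^ s)
    {d : ZMod q × ZMod w → ℤ} {t : (ZMod q)ˣ} (ht : ∀ u : (ZMod q)ˣ, ∃ i : ℕ, t ^ i = u) {ε : ℤ} {x0 : ZMod q} {y0 : ZMod w}
    (hrel : ∀ x y, del p d (x, y) = ε * del p d (t * x - x0, y - y0)) :
    ∃ b : ZMod q × ZMod w, ∀ (x : ZMod q) (y : ZMod w),
      del p (fun g => d (g + b)) (x, y) = ε * del p (fun g => d (g + b)) ((t : ZMod q) * x, y - y0) := by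
  obtain ⟨u, hu⟩ := unit_sub hp hp2 hs hq ht
  have hξ : ((t : ZMod q) - 1) * ((↑u⁻¹ : ZMod q) * x0) = x0 := by
    rw [← hu, ← mul_assoc, Units.mul_inv, one_mul]
  obtain ⟨ξ, hξd⟩ : ∃ ξ : ZMod q, ξ = (↑u⁻¹ : ZMod q) * x0 := ⟨_, rfl⟩
  rw [← hξd] at hξ
  have hdel : ∀ (x : ZMod q) (y : ZMod w), del p (fun g => d (g + (ξ, 0))) (x, y) = del p d (x + ξ, y) := by
    intro x y
    unfold del bet
    simp only [Prod.mk_add_mk, add_zero]
    congr 1
    refine Finset.sum_congr rfl fun c _ => ?_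
    rw [add_right_comm]
  refine ⟨(ξ, 0), fun x y => ?_⟩
  rw [hdel, hdel, hrel]
  have h1 : (t : ZMod q) * (x + ξ) - x0 = t * x + ξ := by linear_combination hξ
  rw [h1]

theorem exists_gen {p s q : ℕ} [NeZero q] (hp : p.Prime) (hp2 : p ≠ 2) (hq : q = p ^ s) :
    ∃ t : (ZMod q)ˣ, ∀ u : (ZMod q)ˣ, ∃ i : ℕ, t ^ i = u := by
  have : IsCyclic (ZMod q)ˣ := by
    subst hq
    exact ZMod.isCyclic_units_of_prime_pow p hp hp2 s
  obtain ⟨t, ht⟩ := IsCyclic.exists_generator (α := (ZMod q)ˣ)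
  refine ⟨t, fun u => ?_⟩
  have h := ht u
  rw [← mem_powers_iff_mem_zpowers] at h
  exact h

end Ry
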