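import Pool.Agent.Lib.MP_12eb66_co.S1

/-! Row ry-C2. Write k = ∑ d = lam + n (Co.sum_d), β g = bet p d g (0 <= β <= p, bet_nonneg, bet_le), b y = β (0,y) = β (c,y) for c ∈ P1 (bet_add). By h0, β g = p d g ∈ {0, p} if g.1 ∉ P1 (mem_P1).
Proof of classify. For a ∉ P1: ∑_g β g (p - β (g + (a,0))) = p (p k) - p^2 lam = p^2 n (sum_bet, Co.bet_bet). All terms are >= 0; keep those with g.1 ∈ P1 (they give p ∑_y b y (p - β (a,y))) and those with g.1 + a ∈ P1 (they give p ∑_y β (-a,y) (p - b y));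
the two sets are disjoint since a ∉ P1. So ∑_y [b y (p - β (a,y)) + β (-a,y) (p - b y)] <= p n. The same for -a; add: ∑_y [φ (b y) (β (a,y)) + φ (b y) (β (-a,y))] <= 2 p n with φ b β = b (p - β) + β (p - b) = p b if β = 0, p (p - b) if β = p.
On the other hand (p - 1) φ b β >= p b (p - b) for every integer 0 <= b <= p and β ∈ {0, p}, and ∑_y b y (p - b y) = (p - 1) n (this is hbb: Co.del_d at a = 0: ∑ del d = (p-1) n; del = 0 outside P1 x W, and ∑_{c ∈ P1} del (c,y) d (c,y) = (p - b) b by hzo).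
So all the inequalities (p - 1) φ (b y) (β (a,y)) >= p b (p - b) are equalities: β (a,y) = 0 and b y ∈ {0, 1}, or β (a,y) = p and b y ∈ {p - 1, p}. -/

set_option linter.unusedVariables false

namespace Ry

private theorem bet_c {p q w : ℕ} [NeZero q] [NeZero w] {d : ZMod q × ZMod w → ℤ} (x : ZMod q) (y : ZMod w)
    {c : ZMod q} (hc : c ∈ P1 p q) : bet p d (x + c, y) = bet p d (x, y) :=
  bet_add (p := p) (d := d) (x, y) hc

theorem sum_bb {p s q w : ℕ} [NeZero q] [NeZero w] (hp : p.Prime) (hs : 0 < s) (hq : q = p ^ s)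
    {d : ZMod q × ZMod w → ℤ} {lam n : ℤ} (hzo : ∀ g, d g = 0 ∨ d g = 1) (h : Co d lam n)
    (h0 : ∀ x y, (p : ZMod q) * x ≠ 0 → del p d (x, y) = 0) :
    ∑ y : ZMod w, bet p d (0, y) * (p - bet p d (0, y)) = (p - 1) * n := by
  have h1 := h.del_d hp hs hq 0
  have h2 : ((0 : ZMod q × ZMod w).1 ∈ P1 p q ∧ (0 : ZMod q × ZMod w).2 = 0) := ⟨zero_mem_P1, rfl⟩
  rw [if_pos rfl, if_pos h2, Fintype.sum_prod_type_right] at h1
  have h3 : ∀ y : ZMod w, ∑ x : ZMod q, del p d (x, y) * d ((x, y) + 0) =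
      bet p d (0, y) * (p - bet p d (0, y)) := by
    intro y
    have h4 : ∑ x : ZMod q, del p d (x, y) * d ((x, y) + 0) =
        ∑ x ∈ P1 p q, del p d (x, y) * d (x, y) := by
      symm
      rw [Finset.sum_subset (Finset.subset_univ (P1 p q))]
      · simp only [add_zero]
      · intro x _ hx
        rw [mem_P1] at hx
        rw [h0 x y hx, zero_mul]
    rw [h4]
    have h5 : ∀ x ∈ P1 p q, del p d (x, y) * d (x, y) =
        p * d (0 + x, y) - bet p d (0, y) * d (0 + x, y) := by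
      intro x hx
      have h6 : bet p d (x, y) = bet p d (0, y) := by
        have := bet_c (d := d) (0 : ZMod q) y hx
        rwa [zero_add] at this
      have h7 : d (x, y) * d (x, y) = d (x, y) := by
        rcases hzo (x, y) with h | h <;> rw [h] <;> norm_num
      rw [zero_add, del, h6, sub_mul, mul_assoc, h7]
    rw [Finset.sum_congr rfl h5, Finset.sum_sub_distrib, ← Finset.mul_sum, ← Finset.mul_sum]
    have h8 : ∑ x ∈ P1 p q, d (0 + x, y) = bet p d (0, y) := rfl
    rw [h8]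
    ring
  rw [Finset.sum_congr rfl (fun y _ => h3 y)] at h1
  rw [h1]
  ring

private theorem half {p s q w : ℕ} [NeZero q] [NeZero w] (hp : p.Prime) (hs : 0 < s) (hq : q = p ^ s)
    {d : ZMod q × ZMod w → ℤ} {lam n : ℤ} (hzo : ∀ g, d g = 0 ∨ d g = 1) (h : Co d lam n)
    {a : ZMod q} (ha : (p : ZMod q) * a ≠ 0) :
    ∑ y : ZMod w, (bet p d (0, y) * (p - bet p d (a, y)) + bet p d (-a, y) * (p - bet p d (0, y))) ≤ p * n := by
  have hpp : (0 : ℤ) < p := by exact_mod_cast hp.pos
  have haP : a ∉ P1 p q := by rw [mem_P1]; exact ha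
  have T : ∑ g, bet p d g * (p - bet p d (g + (a, 0))) = p ^ 2 * n := by
    have e1 : ∀ g, bet p d g * (p - bet p d (g + (a, 0))) =
        p * bet p d g - bet p d g * bet p d (g + (a, 0)) := fun g => by ring
    have e2 := h.bet_bet hp hs hq (a, 0)
    have e3 : ¬ ((a, (0 : ZMod w)).1 ∈ P1 p q ∧ (a, (0 : ZMod w)).2 = 0) := fun h => haP h.1
    rw [if_neg e3] at e2
    rw [Finset.sum_congr rfl (fun g _ => e1 g), Finset.sum_sub_distrib, ← Finset.mul_sum, e2,
      sum_bet hp hs hq, h.sum_d hzo]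
    ring
  set H : ZMod q → ℤ := fun x => ∑ y : ZMod w, bet p d (x, y) * (p - bet p d ((x, y) + (a, 0))) with hH
  have T' : ∑ x, H x = p ^ 2 * n := by rw [← T, Fintype.sum_prod_type]
  have Hn : ∀ x, 0 ≤ H x := by
    intro x
    apply Finset.sum_nonneg
    intro y _
    apply mul_nonneg (bet_nonneg hzo _)
    have := bet_le hp hs hq hzo ((x, y) + ((a, 0) : ZMod q × ZMod w))
    linarith
  have H1 : ∀ c ∈ P1 p q, H c = ∑ y : ZMod w, bet p d (0, y) * (p - bet p d (a, y)) := by
    intro c hc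
    refine Finset.sum_congr rfl fun y _ => ?_
    have e1 := bet_c (d := d) (0 : ZMod q) y hc
    have e2 := bet_c (d := d) a y hc
    rw [zero_add] at e1
    have e3 : ((c, y) + (a, 0) : ZMod q × ZMod w) = (a + c, y) := by
      ext
      · simp [add_comm]
      · simp
    rw [e3, e1, e2]
  have H2 : ∀ c ∈ P1 p q, H (-a + c) = ∑ y : ZMod w, bet p d (-a, y) * (p - bet p d (0, y)) := by
    intro c hc
    refine Finset.sum_congr rfl fun y _ => ?_
    have e1 := bet_c (d := d) (0 : ZMod q) y hc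
    have e2 := bet_c (d := d) (-a) y hc
    rw [zero_add] at e1
    have e3 : ((-a + c, y) + (a, 0) : ZMod q × ZMod w) = (c, y) := by
      ext
      · simp
      · simp
    rw [e3, e1, e2]
  have hinj : Function.Injective (fun c : ZMod q => -a + c) := add_right_injective (-a)
  have hdis : Disjoint (P1 p q) ((P1 p q).image (fun c => -a + c)) := by
    rw [Finset.disjoint_left]
    intro x hx hx'
    rw [Finset.mem_image] at hx'
    obtain ⟨c, hc, rfl⟩ := hx'
    apply haP
    have := add_mem_P1 hc (neg_mem_P1 hx)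
    have e : c + -(-a + c) = a := by ring
    rwa [e] at this
  have hle : ∑ x ∈ P1 p q ∪ (P1 p q).image (fun c => -a + c), H x ≤ ∑ x, H x :=
    Finset.sum_le_sum_of_subset_of_nonneg (Finset.subset_univ _) fun x _ _ => Hn x
  rw [Finset.sum_union hdis, Finset.sum_image (fun x _ y _ hxy => hinj hxy), T',
    Finset.sum_congr rfl H1, Finset.sum_congr rfl H2, Finset.sum_const, Finset.sum_const,
    card_P1 hp hs hq, ← smul_add, ← Finset.sum_add_distrib, nsmul_eq_mul] at hle
  have h9 : (p : ℤ) * (∑ y : ZMod w, (bet p d (0, y) * (p - bet p d (a, y)) +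
      bet p d (-a, y) * (p - bet p d (0, y)))) ≤ p * (p * n) := by
    calc _ ≤ (p : ℤ) ^ 2 * n := hle
      _ = _ := by ring
  exact le_of_mul_le_mul_left h9 hpp

private theorem phi_le {p b β : ℤ} (hb : 0 ≤ b) (hbp : b ≤ p) (hp : 1 < p) (hβ : β = 0 ∨ β = p) :
    p * (b * (p - b)) ≤ (p - 1) * (b * (p - β) + β * (p - b)) := by
  rcases hβ with rfl | rfl
  · have h1 : 0 ≤ b * (b - 1) := by
      rcases eq_or_lt_of_le hb with h | h
      · rw [← h]; simp
      · exact mul_nonneg hb (by linarith)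
    nlinarith
  · have h1 : 0 ≤ (β - b) * (β - 1 - b) := by
      rcases eq_or_lt_of_le hbp with h | h
      · rw [← h]; simp
      · exact mul_nonneg (by linarith) (by linarith)
    nlinarith

private theorem phi_eq {p b β : ℤ} (hp : 1 < p) (hβ : β = 0 ∨ β = p)
    (he : p * (b * (p - b)) = (p - 1) * (b * (p - β) + β * (p - b))) :
    (β = 0 ∧ (b = 0 ∨ b = 1)) ∨ (β = p ∧ (b = p - 1 ∨ b = p)) := by
  rcases hβ with rfl | rfl
  · left
    refine ⟨rfl, ?_⟩
    have h1 : p * (b * (b - 1)) = 0 := by linear_combination -he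
    rcases mul_eq_zero.1 h1 with h | h
    · omega
    · rcases mul_eq_zero.1 h with h | h
      · left; exact h
      · right; linarith
  · right
    refine ⟨rfl, ?_⟩
    have h1 : β * ((β - b) * (β - 1 - b)) = 0 := by linear_combination -he
    rcases mul_eq_zero.1 h1 with h | h
    · omega
    · rcases mul_eq_zero.1 h with h | h
      · right; linarith
      · left; linarith

theorem classify {p s q w : ℕ} [NeZero q] [NeZero w] (hp : p.Prime) (hp2 : p ≠ 2) (hs : 0 < s) (hq : q = p ^ s)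
    {d : ZMod q × ZMod w → ℤ} {lam n : ℤ} (hzo : ∀ g, d g = 0 ∨ d g = 1) (h : Co d lam n)
    (h0 : ∀ x y, (p : ZMod q) * x ≠ 0 → del p d (x, y) = 0) {a : ZMod q} (ha : (p : ZMod q) * a ≠ 0) (y : ZMod w) :
    (bet p d (a, y) = 0 ∧ (bet p d (0, y) = 0 ∨ bet p d (0, y) = 1)) ∨
      (bet p d (a, y) = p ∧ (bet p d (0, y) = p - 1 ∨ bet p d (0, y) = p)) := by
  have hp1 : (1 : ℤ) < p := by exact_mod_cast hp.one_lt
  have ha' : (p : ZMod q) * (-a) ≠ 0 := by rw [mul_neg]; exact neg_ne_zero.2 ha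
  have hval : ∀ x : ZMod q, (p : ZMod q) * x ≠ 0 → ∀ y, bet p d (x, y) = 0 ∨ bet p d (x, y) = p := by
    intro x hx y
    have h1 := h0 x y hx
    rw [del, sub_eq_zero] at h1
    rcases hzo (x, y) with h2 | h2
    · left; rw [← h1, h2, mul_zero]
    · right; rw [← h1, h2, mul_one]
  have s1 := half hp hs hq hzo h ha
  have s2 := half hp hs hq hzo h ha'
  rw [neg_neg] at s2
  have s3 := sum_bb hp hs hq hzo h h0
  set E : ZMod w → ℤ := fun y => ((p - 1) * (bet p d (0, y) * (p - bet p d (a, y)) +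
    bet p d (a, y) * (p - bet p d (0, y))) - p * (bet p d (0, y) * (p - bet p d (0, y)))) +
    ((p - 1) * (bet p d (0, y) * (p - bet p d (-a, y)) +
    bet p d (-a, y) * (p - bet p d (0, y))) - p * (bet p d (0, y) * (p - bet p d (0, y)))) with hE
  have hE1 : ∀ y, 0 ≤ ((p : ℤ) - 1) * (bet p d (0, y) * (p - bet p d (a, y)) +
    bet p d (a, y) * (p - bet p d (0, y))) - p * (bet p d (0, y) * (p - bet p d (0, y))) := fun y =>
    sub_nonneg.2 (phi_le (bet_nonneg hzo _) (bet_le hp hs hq hzo _) hp1 (hval a ha y))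
  have hE2 : ∀ y, 0 ≤ ((p : ℤ) - 1) * (bet p d (0, y) * (p - bet p d (-a, y)) +
    bet p d (-a, y) * (p - bet p d (0, y))) - p * (bet p d (0, y) * (p - bet p d (0, y))) := fun y =>
    sub_nonneg.2 (phi_le (bet_nonneg hzo _) (bet_le hp hs hq hzo _) hp1 (hval (-a) ha' y))
  have hEn : ∀ y ∈ (Finset.univ : Finset (ZMod w)), 0 ≤ E y := fun y _ => add_nonneg (hE1 y) (hE2 y)
  have hsum : ∑ y, E y = ((p : ℤ) - 1) * (∑ y : ZMod w, (bet p d (0, y) * (p - bet p d (a, y)) +
      bet p d (-a, y) * (p - bet p d (0, y))) + ∑ y : ZMod w, (bet p d (0, y) * (p - bet p d (-a, y)) +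
      bet p d (a, y) * (p - bet p d (0, y)))) - 2 * p * ∑ y : ZMod w, bet p d (0, y) * (p - bet p d (0, y)) := by
    rw [← Finset.sum_add_distrib, Finset.mul_sum, Finset.mul_sum, ← Finset.sum_sub_distrib]
    refine Finset.sum_congr rfl fun y _ => ?_
    simp only [hE]
    ring
  have hle : ∑ y, E y ≤ 0 := by
    rw [hsum, s3]
    nlinarith
  have hzero : ∑ y, E y = 0 := le_antisymm hle (Finset.sum_nonneg hEn)
  have hy := (Finset.sum_eq_zero_iff_of_nonneg hEn).1 hzero y (Finset.mem_univ y)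
  have hy1 := hE1 y
  have hy2 := hE2 y
  have hy3 : ((p : ℤ) - 1) * (bet p d (0, y) * (p - bet p d (a, y)) +
    bet p d (a, y) * (p - bet p d (0, y))) - p * (bet p d (0, y) * (p - bet p d (0, y))) = 0 := by
    simp only [hE] at hy
    linarith
  exact phi_eq hp1 (hval a ha y) (by linarith)

end Ry
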