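import Pool.Agent.Lib.MP_12eb66_co.C2

/-! Row ry-C3. Proof. β g = bet p d g, b y = β (0,y), k = ∑ d = lam + n, a := 1 (p * 1 ≠ 0 in ZMod q as s >= 2). By classify every y has exactly one of the types b y = 0, 1, p - 1, p (p >= 3), and for all x with p x ≠ 0: β (x,y) = 0 in the first two cases and p in the
last two, so β (x,y) = β (1,y). Let z, n1, n0, f be the numbers of y of these types (as sums of indicators). M x = ∑_y β (x,y) is M0 = n1 + (p-1) n0 + p f for x ∈ P1 (bet_add) and M1 = p (n0 + f) for x ∉ P1.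
Then: w = z + n1 + n0 + f; sum_bb: n = n0 + n1; p k = ∑ β = p M0 + (q - p) M1 (card_P1), so k = n1 + (q-1) n0 + q f, lam = k - n = (q-2) n0 + q f, lam' := q w - lam - 2 n = (q-2) n1 + q z.
Correlation: sum Co.bet_bet over a = (c, y), y ∈ ZMod w, for c = 0 and c = 1: ∑_x M x M x = w p^2 lam + p n and ∑_x M x M (x+1) = w p^2 lam. With N x = M x - M1 (supported on P1, equal to M0 - M1 there): ∑ N x N x - ∑ N x N (x+1) = p n, the second sum is 0
(x ∈ P1 and x + 1 ∈ P1 is impossible), so p (M0 - M1)^2 = p n, (n1 - n0)^2 = n. Co.prod: lam lam' = n^2 - n = (n0+n1)^2 - (n1-n0)^2 = 4 n0 n1, but lam lam' >= (q-2)^2 n0 n1 >= 49 n0 n1 (q >= 9). So n0 n1 = 0 and n^2 = n: contradiction to n >= 2. -/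

namespace Ry

section
variable {p s q w : ℕ} [NeZero q] [NeZero w] {d : ZMod q × ZMod w → ℤ} {lam n : ℤ}

/-- correlation of the row sums of the coset numbers -/
private theorem C3_corr (hp : p.Prime) (hs : 0 < s) (hq : q = p ^ s) (h : Co d lam n) (c : ZMod q) :
    ∑ x : ZMod q, (∑ y : ZMod w, bet p d (x, y)) * (∑ y : ZMod w, bet p d (x + c, y)) =
      w * (p ^ 2 * lam) + if c ∈ P1 p q then p * n else 0 := by
  have h1 : ∀ y' : ZMod w, ∑ x : ZMod q, ∑ y : ZMod w, bet p d (x, y) * bet p d (x + c, y + y') =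
      p ^ 2 * lam + if c ∈ P1 p q ∧ y' = 0 then p * n else 0 := by
    intro y'
    rw [← Co.bet_bet hp hs hq h (c, y'), Fintype.sum_prod_type]
    rfl
  have h2 : ∑ x : ZMod q, (∑ y : ZMod w, bet p d (x, y)) * (∑ y : ZMod w, bet p d (x + c, y)) =
      ∑ y' : ZMod w, ∑ x : ZMod q, ∑ y : ZMod w, bet p d (x, y) * bet p d (x + c, y + y') := by
    rw [Finset.sum_comm]
    refine Finset.sum_congr rfl fun x _ => ?_
    rw [Finset.sum_comm, Finset.sum_mul]
    refine Finset.sum_congr rfl fun y _ => ?_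
    rw [← Finset.mul_sum]
    congr 1
    exact (Fintype.sum_equiv (Equiv.addLeft y) _ _ (fun _ => rfl)).symm
  rw [h2, Finset.sum_congr rfl (fun y' _ => h1 y'), Finset.sum_add_distrib, Finset.sum_const,
    Finset.card_univ, ZMod.card, nsmul_eq_mul]
  congr 1
  by_cases hc : c ∈ P1 p q
  · simp [hc]
  · simp [hc]

/-- the final computation -/
private theorem C3_arith {q w Z N1 N0 F n lam D : ℤ} (hq : 9 ≤ q) (hZ : 0 ≤ Z) (hN1 : 0 ≤ N1)
    (hN0 : 0 ≤ N0) (hF : 0 ≤ F) (hw : w = Z + N1 + N0 + F) (hn : n = N1 + N0) (hn2 : 2 ≤ n)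
    (hlam : lam = (q - 2) * N0 + q * F) (hD : D = N1 - N0) (hDn : D ^ 2 = n)
    (hprod : lam * (q * w - lam - 2 * n) = n ^ 2 - n) : False := by
  have h1 : q * w - lam - 2 * n = (q - 2) * N1 + q * Z := by
    rw [hw, hlam, hn]
    ring
  rw [h1] at hprod
  have h2 : n ^ 2 - n = 4 * (N0 * N1) := by
    rw [hD] at hDn
    linear_combination (n + N1 + N0) * hn + hDn
  have h3 : (q - 2) * N0 ≤ lam := by
    rw [hlam]
    have := mul_nonneg (by linarith : (0 : ℤ) ≤ q) hF
    linarith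
  have h4 : (q - 2) * N1 ≤ (q - 2) * N1 + q * Z := by
    have := mul_nonneg (by linarith : (0 : ℤ) ≤ q) hZ
    linarith
  have h5 : 7 * N0 ≤ lam := by nlinarith
  have h6 : 7 * N1 ≤ (q - 2) * N1 + q * Z := by nlinarith
  have h7 : (7 * N0) * (7 * N1) ≤ lam * ((q - 2) * N1 + q * Z) :=
    mul_le_mul h5 h6 (by linarith) (by linarith)
  have h8 : 0 ≤ N0 * N1 := mul_nonneg hN0 hN1
  have h9 : N0 * N1 = 0 := by nlinarith
  rw [h9] at h2
  nlinarith

end

theorem s_two_false {p s q w : ℕ} [NeZero q] [NeZero w] (hp : p.Prime) (hp2 : p ≠ 2) (hs : 2 ≤ s) (hq : q = p ^ s)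
    {d : ZMod q × ZMod w → ℤ} {lam n : ℤ} (hzo : ∀ g, d g = 0 ∨ d g = 1) (h : Co d lam n) (hn : 2 ≤ n)
    (h0 : ∀ x y, (p : ZMod q) * x ≠ 0 → del p d (x, y) = 0) : False := by
  have hs0 : 0 < s := by omega
  have hp3 : 3 ≤ p := by
    have := hp.two_le
    omega
  have hp3' : (3 : ℤ) ≤ p := by exact_mod_cast hp3
  have hpsq : p ^ 2 ≤ q := by
    rw [hq]
    exact Nat.pow_le_pow_right (by omega) hs
  have hq9 : (9 : ℤ) ≤ q := by
    have h1 : 9 ≤ q := by nlinarith
    exact_mod_cast h1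
  have h1P : (p : ZMod q) * 1 ≠ 0 := by
    rw [mul_one]
    intro h1
    rw [ZMod.natCast_eq_zero_iff] at h1
    have h2 := Nat.le_of_dvd (by omega) h1
    nlinarith
  have h1P' : (1 : ZMod q) ∉ P1 p q := by
    rw [mem_P1]
    exact h1P
  have hty : ∀ y : ZMod w, ∃ z n1 n0 f : ℤ, 0 ≤ z ∧ 0 ≤ n1 ∧ 0 ≤ n0 ∧ 0 ≤ f ∧ z + n1 + n0 + f = 1 ∧
      bet p d (0, y) = n1 + (p - 1) * n0 + p * f ∧ bet p d (1, y) = p * (n0 + f) ∧
      bet p d (0, y) * (p - bet p d (0, y)) = (p - 1) * (n1 + n0) := by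
    intro y
    rcases classify hp hp2 hs0 hq hzo h h0 h1P y with ⟨he, hb | hb⟩ | ⟨he, hb | hb⟩
    · refine ⟨1, 0, 0, 0, by norm_num, by norm_num, by norm_num, by norm_num, by norm_num, ?_, ?_, ?_⟩
      · rw [hb]; ring
      · rw [he]; ring
      · rw [hb]; ring
    · refine ⟨0, 1, 0, 0, by norm_num, by norm_num, by norm_num, by norm_num, by norm_num, ?_, ?_, ?_⟩
      · rw [hb]; ring
      · rw [he]; ring
      · rw [hb]; ring
    · refine ⟨0, 0, 1, 0, by norm_num, by norm_num, by norm_num, by norm_num, by norm_num, ?_, ?_, ?_⟩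
      · rw [hb]; ring
      · rw [he]; ring
      · rw [hb]; ring
    · refine ⟨0, 0, 0, 1, by norm_num, by norm_num, by norm_num, by norm_num, by norm_num, ?_, ?_, ?_⟩
      · rw [hb]; ring
      · rw [he]; ring
      · rw [hb]; ring
  choose z n1 n0 f hz hn1 hn0 hf hsum hb he hbb using hty
  -- the values outside P1
  have hout : ∀ x : ZMod q, x ∉ P1 p q → ∀ y : ZMod w, bet p d (x, y) = bet p d (1, y) := by
    intro x hx y
    have hx' : (p : ZMod q) * x ≠ 0 := by rwa [mem_P1] at hx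
    rcases classify hp hp2 hs0 hq hzo h h0 hx' y with ⟨e1, b1⟩ | ⟨e1, b1⟩ <;>
      rcases classify hp hp2 hs0 hq hzo h h0 h1P y with ⟨e2, b2⟩ | ⟨e2, b2⟩
    · rw [e1, e2]
    · exfalso
      rcases b1 with b1 | b1 <;> rcases b2 with b2 | b2 <;> omega
    · exfalso
      rcases b1 with b1 | b1 <;> rcases b2 with b2 | b2 <;> omega
    · rw [e1, e2]
  have hin : ∀ x : ZMod q, x ∈ P1 p q → ∀ y : ZMod w, bet p d (x, y) = bet p d (0, y) := by
    intro x hx y
    have h1 := bet_add (p := p) (d := d) ((0, y) : ZMod q × ZMod w) hx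
    simp only [zero_add] at h1
    exact h1
  obtain ⟨M0, hM0⟩ : ∃ M0, M0 = ∑ y : ZMod w, bet p d (0, y) := ⟨_, rfl⟩
  obtain ⟨M1, hM1⟩ : ∃ M1, M1 = ∑ y : ZMod w, bet p d (1, y) := ⟨_, rfl⟩
  obtain ⟨I, hI⟩ : ∃ I : ZMod q → ℤ, I = fun x => if x ∈ P1 p q then 1 else 0 := ⟨_, rfl⟩
  have hMx : ∀ x : ZMod q, ∑ y : ZMod w, bet p d (x, y) = M1 + (M0 - M1) * I x := by
    intro x
    rw [hI]
    by_cases hx : x ∈ P1 p q
    · simp only [hx, if_true]
      rw [Finset.sum_congr rfl (fun y _ => hin x hx y), ← hM0]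
      ring
    · simp only [hx, if_false]
      rw [Finset.sum_congr rfl (fun y _ => hout x hx y), ← hM1]
      ring
  have hIs : ∑ x : ZMod q, I x = p := by
    rw [hI]
    simp only [Finset.sum_ite_mem, Finset.univ_inter, Finset.sum_const, card_P1 hp hs0 hq]
    simp
  have hIs1 : ∑ x : ZMod q, I (x + 1) = p := by rw [sum_shift I 1, hIs]
  have hII : ∀ x : ZMod q, I x * I x = I x := by
    intro x
    rw [hI]
    by_cases hx : x ∈ P1 p q <;> simp [hx]
  have hII1 : ∀ x : ZMod q, I x * I (x + 1) = 0 := by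
    intro x
    rw [hI]
    by_cases hx : x ∈ P1 p q
    · by_cases hx1 : x + 1 ∈ P1 p q
      · exfalso
        apply h1P'
        have h2 := add_mem_P1 hx1 (neg_mem_P1 hx)
        have h3 : x + 1 + -x = 1 := by ring
        rwa [h3] at h2
      · simp [hx1]
    · simp [hx]
  have hc0 := C3_corr hp hs0 hq h (0 : ZMod q)
  have hc1 := C3_corr hp hs0 hq h (1 : ZMod q)
  rw [if_pos zero_mem_P1] at hc0
  rw [if_neg h1P'] at hc1
  simp only [add_zero, hMx] at hc0
  simp only [add_zero, hMx] at hc1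
  have e0 : ∀ x : ZMod q, (M1 + (M0 - M1) * I x) * (M1 + (M0 - M1) * I x) =
      M1 ^ 2 + (2 * M1 * (M0 - M1) + (M0 - M1) ^ 2) * I x := by
    intro x
    linear_combination (M0 - M1) ^ 2 * hII x
  have e1 : ∀ x : ZMod q, (M1 + (M0 - M1) * I x) * (M1 + (M0 - M1) * I (x + 1)) =
      M1 ^ 2 + (M1 * (M0 - M1)) * I x + (M1 * (M0 - M1)) * I (x + 1) := by
    intro x
    linear_combination (M0 - M1) ^ 2 * hII1 x
  simp only [e0] at hc0
  simp only [e1] at hc1
  rw [Finset.sum_add_distrib, ← Finset.mul_sum, hIs, Finset.sum_const, Finset.card_univ, ZMod.card,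
    nsmul_eq_mul] at hc0
  rw [Finset.sum_add_distrib, Finset.sum_add_distrib, ← Finset.mul_sum, ← Finset.mul_sum, hIs, hIs1,
    Finset.sum_const, Finset.card_univ, ZMod.card, nsmul_eq_mul] at hc1
  have hp0 : (p : ℤ) ≠ 0 := by linarith
  have hDn : (M0 - M1) ^ 2 = n := by
    have h1 : (p : ℤ) * (M0 - M1) ^ 2 = p * n := by linarith
    exact mul_left_cancel₀ hp0 h1
  -- sums of the types
  have sM0 : M0 = ∑ y, n1 y + (p - 1) * ∑ y, n0 y + p * ∑ y, f y := by
    rw [hM0, Finset.mul_sum, Finset.mul_sum, ← Finset.sum_add_distrib, ← Finset.sum_add_distrib]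
    exact Finset.sum_congr rfl fun y _ => hb y
  have sM1 : M1 = p * (∑ y, n0 y + ∑ y, f y) := by
    rw [hM1, ← Finset.sum_add_distrib, Finset.mul_sum]
    exact Finset.sum_congr rfl fun y _ => he y
  have sw : (w : ℤ) = ∑ y, z y + ∑ y, n1 y + ∑ y, n0 y + ∑ y, f y := by
    rw [← Finset.sum_add_distrib, ← Finset.sum_add_distrib, ← Finset.sum_add_distrib]
    simp only [hsum]
    rw [Finset.sum_const, Finset.card_univ, ZMod.card]
    simp
  have sn : n = ∑ y, n1 y + ∑ y, n0 y := by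
    have h1 := sum_bb hp hs0 hq hzo h h0
    simp only [hbb] at h1
    rw [← Finset.mul_sum, Finset.sum_add_distrib] at h1
    exact (mul_left_cancel₀ (by linarith : (p : ℤ) - 1 ≠ 0) h1).symm
  have stot : (q : ℤ) * M1 + (M0 - M1) * p = p * (lam + n) := by
    have h1 := sum_bet (d := d) hp hs0 hq
    rw [h.sum_d hzo, Fintype.sum_prod_type] at h1
    simp only [hMx] at h1
    rw [Finset.sum_add_distrib, ← Finset.mul_sum, hIs, Finset.sum_const, Finset.card_univ, ZMod.card,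
      nsmul_eq_mul] at h1
    exact h1
  have slam : lam = (q - 2) * ∑ y, n0 y + q * ∑ y, f y := by
    have h1 : (p : ℤ) * lam = p * ((q - 2) * ∑ y, n0 y + q * ∑ y, f y) := by
      rw [sM0, sM1] at stot
      rw [sn] at stot
      linear_combination -stot
    exact mul_left_cancel₀ hp0 h1
  have hprod := h.prod hzo
  rw [Fintype.card_prod, ZMod.card, ZMod.card] at hprod
  push_cast at hprod
  refine C3_arith hq9 (Finset.sum_nonneg fun y _ => hz y) (Finset.sum_nonneg fun y _ => hn1 y)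
    (Finset.sum_nonneg fun y _ => hn0 y) (Finset.sum_nonneg fun y _ => hf y) sw sn hn slam ?_ hDn hprod
  rw [sM0, sM1]
  ring

end Ry
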