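import Mathlib

/-! Definitions. G = ZMod q x ZMod w, q = p^s, p not dividing w. -/

namespace Ry

/-- the autocorrelation of d is lam, plus n at 0 (for a 0/1 function: d is the indicator of a difference set of G with n = k - lam) -/
structure Co {G : Type} [AddCommGroup G] [Fintype G] [DecidableEq G] (d : G → ℤ) (lam n : ℤ) : Prop where
  corr : ∀ a, ∑ g, d g * d (g + a) = lam + if a = 0 then n else 0

section
variable (p q w : ℕ) [NeZero q] [NeZero w]

/-- the subgroup of order p of ZMod q -/
def P1 : Finset (ZMod q) := Finset.univ.filter fun c => (p : ZMod q) * c = 0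

variable {q w}

/-- number of elements of D in the coset of P1 -/
def bet (d : ZMod q × ZMod w → ℤ) (g : ZMod q × ZMod w) : ℤ := ∑ c ∈ P1 p q, d (g.1 + c, g.2)

/-- deviation of d from its mean on the coset of P1, times p -/
def del (d : ZMod q × ZMod w → ℤ) (g : ZMod q × ZMod w) : ℤ := p * d g - bet p d g

end

end Ry
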