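import Pool.Agent.Lib.MP_12eb66_co.Alg

/-! Row ry-E1. Here w = 1 and q = p (s = 1; P1 p p is everything). Proof. f g - f 0 is divisible by p (hf1; every (x, y) is (0 + x, 0), ZMod 1 is a singleton). e0 g = (f g - f 0)/p (as el of a function); pi1 * e0 = f: its coefficient at g is p e0 g - ∑ e0 = f g - f 0 - (1/p)(∑ f - p f 0) = f g since ∑ f = 0
(hf2 and coeff_N1_mul). For an integer j let e = e0 + j * JJ; pi1 * e = f as pi1 * JJ = 0 (sum_pi1, mul_comm). z = e * bar e - m^2 satisfies pi1 * z = 0: (pi1 e) bar (pi1 e) = pi1^2 e bar e = p pi1 e bar e (pi1_mul_pi1, bar_pi1), hff, no torsion. So z is constant (inv_of_pi1_mul), z = c JJ; applying the sum of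
coefficients (augmentation: a ring homomorphism; or JJ_mul: JJ * x = (∑ x) JJ) σ^2 - m^2 = p c where σ = ∑ e = ∑ e0 + p j. In particular p ∣ (∑ e0)^2 - m^2 (case j = 0), so ∑ e0 = ± m mod p and j can be chosen with σ = ± m; then c = 0. -/

namespace Ry

set_option linter.unusedSectionVars false

section
variable {p : ℕ} [NeZero p]

theorem sum_bar_h18 (x : AA p 1) : ∑ g, (bar x).coeff g = ∑ g, x.coeff g := by
  simp only [coeff_bar]
  exact Fintype.sum_equiv (Equiv.neg _) _ _ fun g => rfl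

theorem sum_mul_h18 (x y : AA p 1) :
    ∑ g, (x * y).coeff g = (∑ g, x.coeff g) * ∑ g, y.coeff g := by
  have h1 : JJ p 1 * (x * y) =
      (((∑ g, x.coeff g) * ∑ g, y.coeff g : ℤ) : AA p 1) * JJ p 1 := by
    rw [← mul_assoc, JJ_mul, mul_assoc, JJ_mul, ← mul_assoc, ← Int.cast_mul]
  rw [JJ_mul] at h1
  have h2 := congrArg (fun z : AA p 1 => z.coeff 0) h1
  simp only [coeff_intCast_mul, coeff_JJ, mul_one] at h2
  exact h2

theorem sum_P1_h18 (k : ZMod p × ZMod 1 → ℤ) (g : ZMod p × ZMod 1) :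
    ∑ c ∈ P1 p p, k (g.1 + c, g.2) = ∑ h, k h := by
  have hP : P1 p p = Finset.univ := by
    ext c
    rw [mem_P1]
    simp
  rw [hP]
  rw [Fintype.sum_prod_type]
  refine Fintype.sum_equiv (Equiv.addLeft g.1) _ _ fun c => ?_
  rw [Fintype.sum_unique]
  congr 1
  exact Prod.ext rfl (Subsingleton.elim _ _)

theorem key_h18 {m : ℕ} (hp : p.Prime) (f e : AA p 1)
    (hff : f * bar f = (m : AA p 1) ^ 2 * ((p : AA p 1) * pi1 p p 1)) (he : f = pi1 p p 1 * e) :
    ∃ c : ℤ, e * bar e - (m : AA p 1) ^ 2 = (c : AA p 1) * JJ p 1 ∧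
      (∑ g, e.coeff g) ^ 2 - (m : ℤ) ^ 2 = p * c := by
  have hq : p = p ^ 1 := (pow_one p).symm
  have h1 : pi1 p p 1 * (e * bar e - (m : AA p 1) ^ 2) = 0 := by
    apply natCast_mul_cancel (k := p) hp.ne_zero
    rw [he, map_mul, bar_pi1] at hff
    have h2 := pi1_mul_pi1 (w := 1) hp one_pos hq
    linear_combination hff - e * bar e * h2
  have h2 : e * bar e - (m : AA p 1) ^ 2 =
      (((e * bar e - (m : AA p 1) ^ 2).coeff 0 : ℤ) : AA p 1) * JJ p 1 := by
    apply AA.ext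
    intro g
    rw [coeff_intCast_mul, coeff_JJ, mul_one]
    have hg : g.1 ∈ P1 p p := by
      rw [mem_P1]
      simp
    have h3 := inv_of_pi1_mul hp h1 0 hg
    rw [← h3]
    congr 1
    exact Prod.ext (zero_add _).symm (Subsingleton.elim _ _)
  refine ⟨(e * bar e - (m : AA p 1) ^ 2).coeff 0, h2, ?_⟩
  have h3 : ∑ g, (e * bar e - (m : AA p 1) ^ 2).coeff g = (∑ g, e.coeff g) ^ 2 - (m : ℤ) ^ 2 := by
    simp only [coeff_sub']
    rw [Finset.sum_sub_distrib, sum_mul_h18, sum_bar_h18, ← pow_two]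
    congr 1
    rw [← Nat.cast_pow]
    simp only [coeff_natCast']
    rw [Finset.sum_ite_eq' Finset.univ (0 : ZMod p × ZMod 1) (fun _ => ((m ^ 2 : ℕ) : ℤ))]
    simp
  rw [← h3]
  conv_lhs => rw [h2]
  simp only [coeff_intCast_mul, coeff_JJ, mul_one]
  rw [Finset.sum_const]
  simp [Fintype.card_prod, ZMod.card]

end

theorem exists_e_one {p m : ℕ} [NeZero p] (hp : p.Prime) (f : AA p 1)
    (hf1 : ∀ g : ZMod p × ZMod 1, ∀ c ∈ P1 p p, (p : ℤ) ∣ f.coeff (g.1 + c, g.2) - f.coeff g)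
    (hf2 : N1 p p 1 * f = 0) (hff : f * bar f = (m : AA p 1) ^ 2 * ((p : AA p 1) * pi1 p p 1)) :
    ∃ e : AA p 1, f = pi1 p p 1 * e ∧ e * bar e = (m : AA p 1) ^ 2 := by
  have hq : p = p ^ 1 := (pow_one p).symm
  have hp0 : (p : ℤ) ≠ 0 := by exact_mod_cast hp.ne_zero
  have h1 : ∀ g : ZMod p × ZMod 1, ∃ k : ℤ, f.coeff g - f.coeff 0 = p * k := by
    intro g
    have hg : g.1 ∈ P1 p p := by
      rw [mem_P1]
      simp
    obtain ⟨k, hk⟩ := hf1 0 g.1 hg
    refine ⟨k, ?_⟩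
    rw [← hk]
    congr 2
    exact Prod.ext (zero_add _).symm (Subsingleton.elim _ _)
  choose k hk using h1
  have hf0 : ∑ g, f.coeff g = 0 := by
    have h2 := congrArg (fun z : AA p 1 => z.coeff 0) hf2
    simp only [coeff_N1_mul, coeff_zero'] at h2
    rw [← h2]
    exact (sum_P1_h18 (fun g => f.coeff g) 0).symm
  have hcard : Fintype.card (ZMod p × ZMod 1) = p := by
    simp [Fintype.card_prod, ZMod.card]
  have hS : ∑ g, k g = -f.coeff 0 := by
    apply mul_left_cancel₀ hp0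
    rw [Finset.mul_sum, Finset.sum_congr rfl fun g _ => (hk g).symm, Finset.sum_sub_distrib, hf0,
      Finset.sum_const, Finset.card_univ, hcard]
    simp
  have he0 : f = pi1 p p 1 * el k := by
    apply AA.ext
    intro g
    rw [coeff_pi1_mul]
    simp only [coeff_el]
    rw [sum_P1_h18, hS, ← hk g]
    ring
  have hej : ∀ j : ℤ, f = pi1 p p 1 * (el k + (j : AA p 1) * JJ p 1) := by
    intro j
    have h3 := sum_pi1 (w := 1) hp one_pos hq
    rw [mul_add, ← he0]
    linear_combination -(j : AA p 1) * h3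
  have hsum : ∀ j : ℤ, ∑ g, (el k + (j : AA p 1) * JJ p 1).coeff g = ∑ g, k g + p * j := by
    intro j
    simp only [coeff_add', coeff_el, coeff_intCast_mul, coeff_JJ, mul_one]
    rw [Finset.sum_add_distrib, Finset.sum_const, Finset.card_univ, hcard]
    simp
  obtain ⟨c0, -, hc0⟩ := key_h18 hp f (el k) hff he0
  simp only [coeff_el] at hc0
  have hdvd : (p : ℤ) ∣ (∑ g, k g - m) * (∑ g, k g + m) := by
    refine ⟨c0, ?_⟩
    rw [← hc0]
    ring
  have hfin : ∃ j : ℤ, (∑ g, k g + p * j) ^ 2 = (m : ℤ) ^ 2 := by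
    rcases (Nat.prime_iff_prime_int.1 hp).dvd_or_dvd hdvd with ⟨j, hj⟩ | ⟨j, hj⟩
    · refine ⟨-j, ?_⟩
      have : ∑ g, k g + p * (-j) = m := by linear_combination hj
      rw [this]
    · refine ⟨-j, ?_⟩
      have : ∑ g, k g + p * (-j) = -m := by linear_combination hj
      rw [this, neg_sq]
  obtain ⟨j, hj⟩ := hfin
  obtain ⟨c, hc1, hc2⟩ := key_h18 hp f _ hff (hej j)
  rw [hsum, hj, sub_self] at hc2
  have hc : c = 0 := by
    rcases mul_eq_zero.1 hc2.symm with h | h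
    · exact absurd h hp0
    · exact h
  refine ⟨_, hej j, ?_⟩
  rw [hc, Int.cast_zero, zero_mul, sub_eq_zero] at hc1
  exact hc1

end Ry
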