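import Pool.Agent.Lib.MP_12eb66_co.S1

/-! The first marginal when the deviation is an eigenfunction of a generator of the units mod p (proved). -/

set_option linter.unusedSectionVars false

namespace Ry

section
variable {p w : ℕ} [NeZero p] [NeZero w] {d : ZMod p × ZMod w → ℤ} {lam n : ℤ}

/-- sum of the deviation over a row -/
theorem row_sum (d : ZMod p × ZMod w → ℤ) (x : ZMod p) :
    ∑ y, del p d (x, y) = p * ∑ y, d (x, y) - ∑ g, d g := by
  simp only [del_one]
  rw [Finset.sum_sub_distrib, ← Finset.mul_sum]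
  congr 1
  rw [Fintype.sum_prod_type_right]

theorem row_sum_total (d : ZMod p × ZMod w → ℤ) : ∑ x, ∑ y, del p d (x, y) = 0 := by
  rw [Finset.sum_comm]
  exact Finset.sum_eq_zero fun y _ => sum_del_one d y

theorem row_sum_sq (hp : p.Prime) (h : Co d lam n) :
    ∑ x, (∑ y, del p d (x, y)) ^ 2 = p * (p - 1) * n := by
  have h1 : ∀ x : ZMod p, (∑ y, del p d (x, y)) ^ 2 = ∑ b : ZMod w, ∑ y, del p d (x, y) * del p d (x, y + b) := by
    intro x
    rw [Finset.sum_comm, sq, Finset.sum_mul]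
    refine Finset.sum_congr rfl fun y _ => ?_
    rw [← Finset.mul_sum]
    congr 1
    exact (Fintype.sum_equiv (Equiv.addLeft y) _ _ fun _ => rfl).symm
  simp only [h1]
  rw [Finset.sum_comm]
  have h2 : ∀ b : ZMod w, ∑ x, ∑ y, del p d (x, y) * del p d (x, y + b) =
      if b = 0 then p * (p - 1) * n else 0 := by
    intro b
    have h3 := h.del_del_one hp (0, b)
    rw [Fintype.sum_prod_type] at h3
    simp only [Prod.mk_add_mk, add_zero] at h3
    rw [h3]
    by_cases hb : b = 0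
    · subst hb
      simp only [Prod.mk_zero_zero, if_true]
      ring
    · rw [if_neg hb, if_neg hb, if_neg]
      · simp
      · intro h4
        exact hb (congrArg Prod.snd h4)
  simp only [h2]
  simp

section
variable {t : (ZMod p)ˣ} {ε : ℤ} {y0 : ZMod w}

theorem row_rel (hrel : ∀ x y, del p d (x, y) = ε * del p d (t * x, y - y0)) (x : ZMod p) :
    ∑ y, del p d (x, y) = ε * ∑ y, del p d (t * x, y) := by
  rw [Finset.sum_congr rfl (fun y _ => hrel x y), ← Finset.mul_sum]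
  congr 1
  exact Fintype.sum_equiv (Equiv.subRight y0) _ _ fun _ => rfl

theorem row_pow (hrel : ∀ x y, del p d (x, y) = ε * del p d (t * x, y - y0)) (i : ℕ) :
    ∑ y, del p d (1, y) = ε ^ i * ∑ y, del p d (((t ^ i : (ZMod p)ˣ) : ZMod p), y) := by
  induction i with
  | zero => simp
  | succ i ih =>
    rw [ih, row_rel hrel, pow_succ, mul_assoc, pow_succ']
    push_cast
    rfl

theorem unit_of_ne (hp : p.Prime) {x : ZMod p} (hx : x ≠ 0) : ∃ u : (ZMod p)ˣ, (u : ZMod p) = x := by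
  have := Fact.mk hp
  exact ⟨Units.mk0 x hx, rfl⟩

theorem sum_split (hp : p.Prime) (f : ZMod p → ℤ) {c : ℤ} (hf : ∀ x, x ≠ 0 → f x = c) :
    ∑ x, f x = f 0 + (p - 1) * c := by
  classical
  rw [← Finset.add_sum_erase _ _ (Finset.mem_univ (0 : ZMod p))]
  congr 1
  rw [Finset.sum_congr rfl (fun x hx => hf x (Finset.ne_of_mem_erase hx)), Finset.sum_const,
    Finset.card_erase_of_mem (Finset.mem_univ _), Finset.card_univ, ZMod.card, nsmul_eq_mul,
    Nat.cast_sub hp.one_lt.le]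
  simp

/-- the case of eigenvalue 1 -/
theorem sq_pos (hp : p.Prime) (h : Co d lam n) (ht : ∀ u : (ZMod p)ˣ, ∃ i : ℕ, t ^ i = u)
    (hrel : ∀ x y, del p d (x, y) = 1 * del p d (t * x, y - y0)) :
    (∀ x, x ≠ 0 → ∑ y, d (x, y) = ∑ y, d (1, y)) ∧ (∑ y, d (0, y) - ∑ y, d (1, y)) ^ 2 = n ∧
      ∑ y, del p d (0, y) = (p - 1) * (∑ y, d (0, y) - ∑ y, d (1, y)) := by
  have hp0 : (p : ℤ) ≠ 0 := by exact_mod_cast hp.ne_zero
  have hp1 : (p : ℤ) - 1 ≠ 0 := by
    have := hp.one_lt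
    have h2 : (1 : ℤ) < p := by exact_mod_cast this
    omega
  have h1 : ∀ x : ZMod p, x ≠ 0 → ∑ y, del p d (x, y) = ∑ y, del p d (1, y) := by
    intro x hx
    obtain ⟨u, rfl⟩ := unit_of_ne hp hx
    obtain ⟨i, rfl⟩ := ht u
    rw [row_pow hrel i, one_pow, one_mul]
  have h2 := row_sum_total d
  rw [sum_split hp _ h1] at h2
  have h3 := row_sum_sq hp h
  rw [sum_split hp _ (c := (∑ y, del p d (1, y)) ^ 2) (fun x hx => by rw [h1 x hx])] at h3
  have h4 : (∑ y, del p d (1, y)) ^ 2 = n := by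
    have e1 : ∑ y, del p d (0, y) = -((p - 1) * ∑ y, del p d (1, y)) := by linarith
    rw [e1] at h3
    have e2 : ((p : ℤ) * (p - 1)) * (∑ y, del p d (1, y)) ^ 2 = (p * (p - 1)) * n := by linear_combination h3
    exact mul_left_cancel₀ (mul_ne_zero hp0 hp1) e2
  have h5 : ∀ x, ∑ y, del p d (x, y) = p * ∑ y, d (x, y) - ∑ g, d g := row_sum d
  have h6 : ∑ y, d (0, y) - ∑ y, d (1, y) = -∑ y, del p d (1, y) := by
    have e1 := h5 0
    have e2 := h5 1
    apply mul_left_cancel₀ hp0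
    linear_combination e2 - e1 + h2
  refine ⟨?_, ?_, ?_⟩
  · intro x hx
    have e1 := h5 x
    have e2 := h5 1
    rw [h1 x hx, e2] at e1
    apply mul_left_cancel₀ hp0
    linarith
  · rw [h6, neg_sq, h4]
  · rw [h6]; linear_combination h2

/-- the case of eigenvalue -1 -/
theorem sq_neg (hp : p.Prime) (h : Co d lam n) (ht : ∀ u : (ZMod p)ˣ, ∃ i : ℕ, t ^ i = u)
    (hrel : ∀ x y, del p d (x, y) = (-1) * del p d (t * x, y - y0)) :
    ∃ z : ℤ, z ^ 2 = p * n := by
  have hp1 : (p : ℤ) - 1 ≠ 0 := by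
    have := hp.one_lt
    have h2 : (1 : ℤ) < p := by exact_mod_cast this
    omega
  have h1 : ∀ x : ZMod p, x ≠ 0 → (∑ y, del p d (x, y)) ^ 2 = (∑ y, del p d (1, y)) ^ 2 := by
    intro x hx
    obtain ⟨u, rfl⟩ := unit_of_ne hp hx
    obtain ⟨i, rfl⟩ := ht u
    rw [row_pow hrel i, mul_pow, ← pow_mul, mul_comm i 2, pow_mul]
    norm_num
  have h0 : ∑ y, del p d (0, y) = 0 := by
    have := row_rel hrel 0
    rw [mul_zero] at this
    linarith
  have h3 := row_sum_sq hp h
  rw [sum_split hp _ h1, h0] at h3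
  refine ⟨∑ y, del p d (1, y), ?_⟩
  apply mul_left_cancel₀ hp1
  linear_combination h3

end

end

end Ry
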