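import Pool.Agent.Lib.MP_12eb66_co.NA5
import Pool.Agent.Lib.MP_12eb66_co.B1
import Pool.Agent.Lib.MP_12eb66_co.B4
import Pool.Agent.Lib.MP_12eb66_co.B5
import Pool.Agent.Lib.MP_12eb66_co.B6
import Pool.Agent.Lib.MP_12eb66_co.E1
import Pool.Agent.Lib.MP_12eb66_co.C1b
import Pool.Agent.Lib.MP_12eb66_co.S2

/-! The case w = 1: the cofactor is a square. -/

set_option linter.unusedSectionVars false

namespace Ry
open AddMonoidAlgebra

theorem rel_of_single {p q w : ℕ} [NeZero q] [NeZero w] {d : ZMod q × ZMod w → ℤ} {m : ℕ} (hm : 0 < m)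
    (t : (ZMod q)ˣ) (e : AA q w)
    (hrel : (m : AA q w) * (pi1 p q w * mu (t : ZMod q) (el d)) = pi1 p q w * (e * el d))
    {g0 : ZMod q × ZMod w} {ε : ℤ} (he : e = (m : AA q w) * single g0 ε) :
    ∀ x y, del p d (x, y) = ε * del p d (t * x - g0.1, y - g0.2) := by
  have h1 : pi1 p q w * mu (t : ZMod q) (el d) = single g0 ε * (pi1 p q w * el d) := by
    apply natCast_mul_cancel (k := m) hm.ne'
    rw [hrel, he]
    ring
  intro x y
  rw [del_eq, del_eq, ← coeff_mu t, map_mul, mu_pi1, h1, single_mul_coeff]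
  rfl

/-- the condition: the only integer functions on ZMod p with autocorrelation m^2 at 0 and 0 elsewhere have one-element support -/
def Triv (p m : ℕ) [NeZero p] : Prop :=
  ∀ e : ZMod p → ℤ, (∀ b, ∑ x, e x * e (x + b) = if b = 0 then (m : ℤ) ^ 2 else 0) → ∃ x0, ∀ x, e x ≠ 0 → x = x0

theorem el_single {p m : ℕ} [NeZero p] (hm : 0 < m) (hT : Triv p m) (e : AA p 1)
    (he : e * bar e = (m : AA p 1) ^ 2) :
    ∃ g0 : ZMod p × ZMod 1, ∃ ε : ℤ, (ε = 1 ∨ ε = -1) ∧ e = (m : AA p 1) * single g0 ε := by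
  have hcor : ∀ g : ZMod p × ZMod 1, ∑ h, e.coeff h * e.coeff (h - g) = if g = 0 then (m : ℤ) ^ 2 else 0 := by
    intro g
    have h1 := congrArg (fun z : AA p 1 => z.coeff g) he
    simp only [coeff_mul_bar] at h1
    rw [h1, ← Nat.cast_pow, coeff_natCast']
    push_cast
    rfl
  have hsing : ∀ y : ZMod 1, y = 0 := fun y => Subsingleton.elim _ _
  obtain ⟨x0, hx0⟩ := hT (fun x => e.coeff (x, 0)) (by
    intro b
    have h1 := hcor (-b, 0)
    rw [Fintype.sum_prod_type] at h1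
    have h2 : ∀ x : ZMod p, ∑ y : ZMod 1, e.coeff (x, y) * e.coeff ((x, y) - (-b, 0)) =
        e.coeff (x, 0) * e.coeff (x + b, 0) := by
      intro x
      rw [Fintype.sum_subsingleton _ (0 : ZMod 1)]
      congr 2
      ext <;> simp
    simp only [h2] at h1
    rw [h1]
    congr 1
    simp [Prod.ext_iff])
  have hsupp : ∀ g, e.coeff g ≠ 0 → g = (x0, 0) := by
    rintro ⟨x, y⟩ hg
    rw [hsing y] at hg ⊢
    rw [hx0 x hg]
  have hc : e.coeff (x0, 0) ^ 2 = (m : ℤ) ^ 2 := by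
    have h1 := hcor 0
    rw [if_pos rfl, Finset.sum_eq_single (x0, 0)] at h1
    · rw [← h1]; simp [sq]
    · intro g _ hg
      by_contra hne
      exact hg (hsupp g (left_ne_zero_of_mul hne))
    · intro h2; exact absurd (Finset.mem_univ _) h2
  have hm0 : (m : ℤ) ≠ 0 := by exact_mod_cast hm.ne'
  have he2 : ∀ ε : ℤ, e.coeff (x0, 0) = m * ε → e = (m : AA p 1) * single (x0, 0) ε := by
    intro ε hε
    apply AA.ext
    intro g
    rw [coeff_natCast_mul, coeff_single']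
    by_cases hg : g = (x0, 0)
    · rw [if_pos hg, hg, hε]
    · rw [if_neg hg, mul_zero]
      by_contra hne
      exact hg (hsupp g hne)
  rcases sq_eq_sq_iff_eq_or_eq_neg.1 hc with h1 | h1
  · exact ⟨(x0, 0), 1, Or.inl rfl, he2 1 (by rw [h1, mul_one])⟩
  · exact ⟨(x0, 0), -1, Or.inr rfl, he2 (-1) (by rw [h1]; ring)⟩

/-- coprime factors of a square -/
theorem isSquare_of_coprime_mul {x y : ℕ} (hxy : x.Coprime y) (h : IsSquare (x * y)) : IsSquare y := by
  obtain ⟨z, hz⟩ := h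
  have h1 : IsUnit (gcd y x) := by
    rw [Nat.isUnit_iff]
    exact hxy.symm
  obtain ⟨c, hc⟩ := exists_associated_pow_of_mul_eq_pow h1 (k := 2) (c := z) (by rw [mul_comm, hz, sq])
  rw [associated_iff_eq] at hc
  exact ⟨c, by rw [← hc, sq]⟩

theorem isSquare_cofactor {p a m : ℕ} (hp : p.Prime) (hpm : ¬ p ∣ m) {z : ℤ}
    (h : z ^ 2 = (p : ℤ) ^ a * m ∨ z ^ 2 = p * ((p : ℤ) ^ a * m)) : IsSquare m := by
  have key : ∀ b : ℕ, z ^ 2 = (p : ℤ) ^ b * m → IsSquare m := by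
    intro b hb
    have h1 : z.natAbs ^ 2 = p ^ b * m := by
      zify
      rw [sq_abs, hb]
    apply isSquare_of_coprime_mul (x := p ^ b)
    · exact Nat.Coprime.pow_left b ((Nat.Prime.coprime_iff_not_dvd hp).2 hpm)
    · exact ⟨z.natAbs, by rw [← h1, sq]⟩
  rcases h with h | h
  · exact key a h
  · exact key (a + 1) (by rw [h, pow_succ]; ring)

/-- the cofactor is a square -/
theorem square_core {p : ℕ} [NeZero p] (hp : p.Prime) (hp2 : p ≠ 2) {d : ZMod p × ZMod 1 → ℤ} {lam n : ℤ}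
    (h : Co d lam n) {a m : ℕ} (hn : n = (p : ℤ) ^ a * m) (hm : 0 < m) (hpm : ¬ p ∣ m) (hT : Triv p m) :
    IsSquare m := by
  have hp1 : ¬ p ∣ 1 := by
    intro h1
    exact hp.one_lt.ne' (Nat.dvd_one.1 h1)
  have hq : p = p ^ 1 := (pow_one p).symm
  obtain ⟨t, ht⟩ := exists_gen hp hp2 hq
  obtain ⟨f, hf0, hf1, hf2, hf3⟩ := exists_f hp one_pos hq h hn t
    (fun g c hc => nt hp one_pos hq hp1 h hn t g hc)
  obtain ⟨e, rfl, he⟩ := exists_e_one hp f hf1 hf2 hf3
  have hrel := rel_D hp one_pos hq h hn t e hf0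
  obtain ⟨g0, ε, hε, he1⟩ := el_single hm hT e he
  have hr := rel_of_single hm t e hrel he1
  obtain ⟨b, hb⟩ := normal hp hp2 one_pos hq ht hr
  have h' := h.translate b
  rcases hε with rfl | rfl
  · obtain ⟨-, h2, -⟩ := sq_pos hp h' ht hb
    exact isSquare_cofactor hp hpm (Or.inl (by rw [h2, hn]))
  · obtain ⟨z, hz⟩ := sq_neg hp h' ht hb
    exact isSquare_cofactor hp hpm (Or.inr (by rw [hz, hn]))

end Ry
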