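import Pool.Agent.Lib.MP_12eb66_co.F1

/-! Cases in which Triv p m holds. -/

set_option linter.unusedSectionVars false

namespace Ry
open AddMonoidAlgebra

theorem triv_large {p m : ℕ} [NeZero p] (hp : p.Prime) (hm : 0 < m) (hpb : 4 ^ (m ^ 2 - 1) < p) : Triv p m := by
  intro e he
  by_cases hex : ∃ x0, e x0 ≠ 0
  swap
  · push Not at hex
    exact ⟨0, fun x hx => absurd (hex x) hx⟩
  obtain ⟨x0, hx0⟩ := hex
  -- the element of the group ring
  have hsing : ∀ y : ZMod 1, y = 0 := fun y => Subsingleton.elim _ _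
  have hE : el (fun g : ZMod p × ZMod 1 => e g.1) * bar (el fun g : ZMod p × ZMod 1 => e g.1) = (m : AA p 1) ^ 2 := by
    apply AA.ext
    intro g
    rw [coeff_mul_bar, ← Nat.cast_pow, coeff_natCast']
    have h1 := he (-g.1)
    simp only [coeff_el]
    rw [Fintype.sum_prod_type]
    simp only [Fintype.sum_subsingleton _ (0 : ZMod 1), sub_eq_add_neg, Prod.fst_add, Prod.fst_neg]
    rw [h1]
    push_cast
    congr 1
    simp [Prod.ext_iff, hsing g.2]
  set S : Finset (ZMod p) := Finset.univ.filter fun x => e x ≠ 0 with hS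
  have hcard : S.card ≤ m ^ 2 := by
    have h1 := he 0
    rw [if_pos rfl] at h1
    have h2 : (S.card : ℤ) ≤ ∑ x, e x * e (x + 0) := by
      rw [hS, Finset.card_filter]
      push_cast
      apply Finset.sum_le_sum
      intro x _
      rw [add_zero]
      split_ifs with h3
      · have : 0 < e x * e x := by
          rw [← sq]
          positivity
        omega
      · exact mul_self_nonneg _
    rw [h1] at h2
    exact_mod_cast h2
  obtain ⟨L, hL, hL2⟩ := dirichlet (s := 1) hp one_pos (pow_one p).symm S (x0 := x0) (by simp [hS, hx0])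
    (lt_of_le_of_lt (Nat.pow_le_pow_right (by norm_num) (by omega)) hpb)
  refine ⟨x0, fun x hx => ?_⟩
  refine psi_single _ hE S ?_ L hL hL2 (1 : AddChar (ZMod 1) ℂ) (x := x) (x' := x0) ?_ ?_
  · intro g hg
    rw [coeff_el] at hg
    simp [hS, hg]
  · rw [Fintype.sum_subsingleton _ (0 : ZMod 1), coeff_el]
    simpa using hx
  · rw [Fintype.sum_subsingleton _ (0 : ZMod 1), coeff_el]
    simpa using hx0

end Ry
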