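import Pool.Agent.Lib.MP_12eb66_co.S3

/-! The final inequality in the case s = 1, eigenvalue 1, kappa >= 2 (proved). -/

set_option linter.unusedSectionVars false

namespace Ry

section
variable {G : Type} [AddCommGroup G] [Fintype G] [DecidableEq G] {d : G → ℤ} {lam n : ℤ}

theorem Co.lam_nonneg (hzo : ∀ g, d g = 0 ∨ d g = 1) (h : Co d lam n) {a : G} (ha : a ≠ 0) : 0 ≤ lam := by
  have h1 := h.corr a
  rw [if_neg ha, add_zero] at h1
  rw [← h1]
  apply Finset.sum_nonneg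
  intro g _
  rcases hzo g with e1 | e1 <;> rcases hzo (g + a) with e2 | e2 <;> rw [e1, e2] <;> norm_num

theorem Co.lam_nonneg' (hzo : ∀ g, d g = 0 ∨ d g = 1) (h : Co d lam n) {a : G} (ha : a ≠ 0) :
    0 ≤ Fintype.card G - lam - 2 * n := by
  refine (h.compl hzo).lam_nonneg ?_ ha
  intro g
  rcases hzo g with e1 | e1 <;> rw [e1] <;> norm_num

/-- v >= 4 n - 1 -/
theorem Co.four_n (hzo : ∀ g, d g = 0 ∨ d g = 1) (h : Co d lam n) {a : G} (ha : a ≠ 0) (hn : 2 ≤ n) :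
    4 * n - 1 ≤ Fintype.card G := by
  have h1 := h.prod hzo
  have h2 := h.lam_nonneg hzo ha
  have h3 := h.lam_nonneg' hzo ha
  by_contra hlt
  have h4 : (Fintype.card G : ℤ) - 2 * n ≤ 2 * n - 2 := by linarith
  nlinarith [sq_nonneg ((Fintype.card G : ℤ) - 2 * n - 2 * lam), h4, h1, h2, h3]

end

section
variable {w : ℕ} [NeZero w]

theorem var_ineq (x b : ZMod w → ℤ) :
    10 * (w * ∑ y, (x y - b y) ^ 2 - (∑ y, (x y - b y)) ^ 2) ≤
      11 * (w * ∑ y, x y ^ 2 - (∑ y, x y) ^ 2) + 110 * (w * ∑ y, b y ^ 2 - (∑ y, b y) ^ 2) := by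
  have h1 : (∑ y : ZMod w, (x y + 10 * b y)) ^ 2 ≤ w * ∑ y, (x y + 10 * b y) ^ 2 := by
    have := sq_sum_le_card_mul_sum_sq (s := (Finset.univ : Finset (ZMod w))) (f := fun y => x y + 10 * b y)
    simpa using this
  have e1 : ∑ y, (x y + 10 * b y) ^ 2 = ∑ y, x y ^ 2 + 20 * ∑ y, x y * b y + 100 * ∑ y, b y ^ 2 := by
    rw [Finset.mul_sum, Finset.mul_sum, ← Finset.sum_add_distrib, ← Finset.sum_add_distrib]
    exact Finset.sum_congr rfl fun y _ => by ring
  have e2 : ∑ y, (x y - b y) ^ 2 = ∑ y, x y ^ 2 - 2 * ∑ y, x y * b y + ∑ y, b y ^ 2 := by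
    rw [Finset.mul_sum, ← Finset.sum_sub_distrib, ← Finset.sum_add_distrib]
    exact Finset.sum_congr rfl fun y _ => by ring
  have e3 : ∑ y, (x y + 10 * b y) = ∑ y, x y + 10 * ∑ y, b y := by
    rw [Finset.mul_sum, ← Finset.sum_add_distrib]
  have e4 : ∑ y, (x y - b y) = ∑ y, x y - ∑ y, b y := by
    rw [← Finset.sum_sub_distrib]
  rw [e1, e3] at h1
  rw [e2, e4]
  linarith

end

section
variable {p w : ℕ} [NeZero p] [NeZero w] {d : ZMod p × ZMod w → ℤ} {lam n : ℤ} {t : (ZMod p)ˣ} {y0 : ZMod w}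

/-- arithmetic of the final contradiction -/
theorem arith_false {p w κ z n k lam θ : ℤ} (hp : 67 ≤ p) (hκ : 2 ≤ κ) (hz : z ^ 2 = n) (hz2 : 2 * p ≤ z)
    (hθ : θ ^ 2 = n) (hk0 : 0 ≤ k) (hk1 : k ≤ p * w) (hw : 0 < w) (h4 : 4 * n - 1 ≤ p * w)
    (hk : k = lam + n) (hsq : k ^ 2 = lam * (p * w) + n)
    (hmain : 10 * (w * (κ * (p - 1) * n) - ((p - 1) * θ) ^ 2) ≤
      11 * ((k + (p - 1) * θ) * (p * w - (k + (p - 1) * θ))) + 110 * (w * (p * lam + n) - k ^ 2)) : False := by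
  have hp1 : 0 < p - 1 := by linarith
  have hz0 : 0 < z := by linarith
  have hn : n = z ^ 2 := hz.symm
  subst hn
  -- bound for the cross term
  have hθz : |θ| = z := by
    have h1 : |θ| ^ 2 = z ^ 2 := by rw [sq_abs, hθ]
    have h2 : 0 ≤ |θ| := abs_nonneg _
    nlinarith
  have hcross : θ * (p * w - 2 * k) ≤ z * (p * w) := by
    have h1 : |p * w - 2 * k| ≤ p * w := by
      rw [abs_le]; constructor <;> linarith
    calc θ * (p * w - 2 * k) ≤ |θ * (p * w - 2 * k)| := le_abs_self _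
      _ = |θ| * |p * w - 2 * k| := abs_mul _ _
      _ ≤ z * (p * w) := by
        rw [hθz]
        exact mul_le_mul_of_nonneg_left h1 hz0.le
  -- rewrite the main inequality
  have e1 : (k + (p - 1) * θ) * (p * w - (k + (p - 1) * θ)) =
      z ^ 2 * (p * w - 1) + (p - 1) * (θ * (p * w - 2 * k)) - (p - 1) ^ 2 * z ^ 2 := by
    have : k * (p * w) - k ^ 2 = z ^ 2 * (p * w - 1) := by rw [hsq, hk]; ring
    linear_combination this - (p - 1) ^ 2 * hθ
  have e2 : w * (p * lam + z ^ 2) - k ^ 2 = z ^ 2 * (w - 1) := by rw [hsq]; ring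
  have e3 : w * (κ * (p - 1) * z ^ 2) - ((p - 1) * θ) ^ 2 = z ^ 2 * ((p - 1) * (κ * w - (p - 1))) := by
    linear_combination -(p - 1) ^ 2 * hθ
  rw [e1, e2, e3] at hmain
  have hm2 : 10 * (z ^ 2 * ((p - 1) * (κ * w - (p - 1)))) ≤
      11 * (z ^ 2 * (p * w) + (p - 1) * (z * (p * w))) + 110 * (z ^ 2 * w) := by
    have h1 : (p - 1) * (θ * (p * w - 2 * k)) ≤ (p - 1) * (z * (p * w)) :=
      mul_le_mul_of_nonneg_left hcross hp1.le
    have h2 : 0 ≤ (p - 1) ^ 2 * z ^ 2 := by positivity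
    have h3 : 0 ≤ z ^ 2 := sq_nonneg z
    linarith
  have hpw : 0 < p * w := by positivity
  have hm3 : 2 * ((p - 1) * (z * (p * w))) ≤ z ^ 2 * (p * w) := by
    have h1 : 2 * (p - 1) * (z * (p * w)) ≤ z * (z * (p * w)) :=
      mul_le_mul_of_nonneg_right (by linarith) (by positivity)
    linarith
  have hm4 : z ^ 2 * (20 * ((p - 1) * (κ * w - (p - 1)))) ≤ z ^ 2 * (33 * (p * w) + 220 * w) := by
    linarith
  have hm5 : 20 * ((p - 1) * (κ * w - (p - 1))) ≤ 33 * (p * w) + 220 * w :=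
    le_of_mul_le_mul_left hm4 (by positivity)
  have hw15 : 15 * p ≤ w := by
    have h1 : 4 * p ^ 2 ≤ z ^ 2 := by nlinarith
    have h2 : p * (15 * p) ≤ p * w := by nlinarith
    exact le_of_mul_le_mul_left h2 (by linarith)
  have hm6 : (p - 1) * (29 * w) ≤ 15 * ((p - 1) * (κ * w - (p - 1))) := by
    have h1 : 29 * w ≤ 15 * (κ * w - (p - 1)) := by nlinarith
    nlinarith
  nlinarith

theorem final_false (hp : p.Prime) (hp67 : 67 ≤ p) (hzo : ∀ g, d g = 0 ∨ d g = 1) (h : Co d lam n)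
    (ht : ∀ u : (ZMod p)ˣ, ∃ i : ℕ, t ^ i = u)
    (hrel : ∀ x y, del p d (x, y) = 1 * del p d (t * x, y - y0)) (hκ : 2 ≤ kap p y0)
    {z : ℤ} (hz : z ^ 2 = n) (hz2 : 2 * p ≤ z) : False := by
  have := Fact.mk hp
  have hp67' : (67 : ℤ) ≤ p := by exact_mod_cast hp67
  have hn2 : 2 ≤ n := by nlinarith
  have hne : ((1 : ZMod p), (0 : ZMod w)) ≠ 0 := by
    intro h1
    have := congrArg Prod.fst h1
    simp at this
  have hcard : (Fintype.card (ZMod p × ZMod w) : ℤ) = p * w := by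
    rw [Fintype.card_prod, ZMod.card, ZMod.card]; push_cast; ring
  obtain ⟨-, hθ, hα⟩ := sq_pos hp h ht hrel
  have hid := (main_id hp h ht hrel).1
  have hsumd := h.sum_d hzo
  have hv := var_ineq (fun y : ZMod w => (p : ℤ) * d (0, y)) (fun y => ∑ x, d (x, y))
  have e1 : ∀ y : ZMod w, (p : ℤ) * d (0, y) - ∑ x, d (x, y) = del p d (0, y) := fun y => (del_one d 0 y).symm
  simp only [e1] at hv
  rw [hid, hα] at hv
  have e2 : ∑ y : ZMod w, ((p : ℤ) * d (0, y)) ^ 2 = p ^ 2 * ∑ y, d (0, y) := by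
    rw [Finset.mul_sum]
    refine Finset.sum_congr rfl fun y _ => ?_
    rcases hzo (0, y) with e | e <;> rw [e] <;> ring
  have e3 : ∑ y : ZMod w, (p : ℤ) * d (0, y) = lam + n + (p - 1) * (∑ y, d (0, y) - ∑ y, d (1, y)) := by
    rw [← Finset.mul_sum, ← hα, row_sum, hsumd]
    ring
  have e4 : ∑ y : ZMod w, (∑ x, d (x, y)) ^ 2 = p * lam + n := by
    have := h.bb 0
    simp only [add_zero, if_true] at this
    rw [← this]
    exact Finset.sum_congr rfl fun y _ => sq _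
  have e5 : ∑ y : ZMod w, ∑ x, d (x, y) = lam + n := by
    rw [← hsumd, Fintype.sum_prod_type_right]
  rw [e2, e4, e5] at hv
  have e6 : w * (p ^ 2 * ∑ y, d (0, y)) - (∑ y : ZMod w, (p : ℤ) * d (0, y)) ^ 2 =
      (∑ y : ZMod w, (p : ℤ) * d (0, y)) * (p * w - (∑ y : ZMod w, (p : ℤ) * d (0, y))) := by
    rw [← Finset.mul_sum]; ring
  rw [e6, e3] at hv
  have hw0 : (0 : ℤ) < w := by
    have := NeZero.pos w
    exact_mod_cast this
  refine arith_false (k := lam + n) (lam := lam) hp67' (κ := kap p y0) (by exact_mod_cast hκ) hz hz2 hθ ?_ ?_ hw0 ?_ rfl ?_ hv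
  · have := h.lam_nonneg hzo hne
    linarith
  · have := h.lam_nonneg' hzo hne
    rw [hcard] at this
    linarith
  · have := h.four_n hzo hne hn2
    rw [hcard] at this
    exact this
  · have := h.sum_sq
    rw [hcard, hsumd] at this
    exact this

end

end Ry
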