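import Pool.Agent.Lib.MP_12eb66_co.S2

/-! Row ry-S5. Proof of neg_false_odd. Iterate hrel w times: del (x,y) = (-1)^w del (t^w x, y - w • y0) = - del (t^w x, y). Hence ∑_x del (x,y)^3 = - ∑_x del (x,y)^3 = 0 for every y (x -> t^w x is a bijection). With b = ∑_x d (x,y), del (x,y) = p d (x,y) - b (del_one) and d^2 = d: ∑_x del^3 = p b (p-b) (p-2b), so
b = 0 or b = p (p odd), and ∑_x del^2 = p b (p - b) = 0. But ∑_g del^2 = p (p-1) n > 0 (Co.del_del_one at a = 0).
Proof of even_square. For w even let σ y = (-1)^(y.val) (or via ZMod.castHom to ZMod 2): σ (y + y') = σ y σ y' , values ±1, ∑_y σ y = 0 (y -> y + 1 changes the sign). z = ∑_g d g σ g.2: z^2 = ∑_a σ a.2 ∑_g d g d (g + a) = ∑_a σ a.2 (lam + [a = 0] n) = n.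
Proof of eps_neg_false. w odd: neg_false_odd. w even: z1^2 = n, and sq_neg: z2^2 = p n = p z1^2; z1 ≠ 0, so z1 ∣ z2 (Int.pow_dvd_pow_iff) and p is a square, contradiction. -/

set_option linter.unusedSectionVars false

namespace Ry

private theorem iter_rel {p w : ℕ} [NeZero p] [NeZero w] {d : ZMod p × ZMod w → ℤ} {t : (ZMod p)ˣ} {y0 : ZMod w}
    (hrel : ∀ x y, del p d (x, y) = (-1) * del p d (t * x, y - y0)) (k : ℕ) :
    ∀ x y, del p d (x, y) = (-1) ^ k * del p d (((t ^ k : (ZMod p)ˣ) : ZMod p) * x, y - k * y0) := by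
  induction k with
  | zero => intro x y; simp
  | succ k ih =>
    intro x y
    rw [ih x y, hrel, pow_succ, mul_assoc, pow_succ']
    congr 3
    ext
    · push_cast
      ring
    · push_cast
      ring

theorem neg_false_odd {p w : ℕ} [NeZero p] [NeZero w] {d : ZMod p × ZMod w → ℤ} {lam n : ℤ} {t : (ZMod p)ˣ} {y0 : ZMod w}
    (hp : p.Prime) (hp2 : p ≠ 2) (hw : Odd w) (hzo : ∀ g, d g = 0 ∨ d g = 1) (h : Co d lam n) (hn : 0 < n)
    (hrel : ∀ x y, del p d (x, y) = (-1) * del p d (t * x, y - y0)) : False := by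
  have hpodd : Odd p := hp.odd_of_ne_two hp2
  have hp0 : (p : ℤ) ≠ 0 := by exact_mod_cast hp.ne_zero
  have h1 : ∀ x y, del p d (x, y) = - del p d (((t ^ w : (ZMod p)ˣ) : ZMod p) * x, y) := by
    intro x y
    have := iter_rel hrel w x y
    rw [hw.neg_one_pow, ZMod.natCast_self, zero_mul, sub_zero] at this
    linarith
  have h2 : ∀ y, ∑ x, del p d (x, y) ^ 3 = 0 := by
    intro y
    have h3 : ∑ x, del p d (x, y) ^ 3 = - ∑ x, del p d (x, y) ^ 3 := by
      calc ∑ x, del p d (x, y) ^ 3 = ∑ x, - del p d (((t ^ w : (ZMod p)ˣ) : ZMod p) * x, y) ^ 3 := by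
            refine Finset.sum_congr rfl fun x _ => ?_
            rw [h1 x y]
            ring
        _ = - ∑ x, del p d (((t ^ w : (ZMod p)ˣ) : ZMod p) * x, y) ^ 3 := Finset.sum_neg_distrib _
        _ = - ∑ x, del p d (x, y) ^ 3 := by
            congr 1
            exact Fintype.sum_equiv (Units.mulLeft (t ^ w)) _ _ fun _ => rfl
    linarith
  have hsq : ∀ g, d g ^ 2 = d g := by
    intro g
    rcases hzo g with hg | hg <;> rw [hg] <;> norm_num
  have h4 : ∀ y, ∑ x, del p d (x, y) ^ 2 = 0 := by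
    intro y
    set b := ∑ x, d (x, y) with hb
    have e3 : ∑ x, del p d (x, y) ^ 3 = p * b * (p - b) * (p - 2 * b) := by
      have : ∀ x, del p d (x, y) ^ 3 = (p ^ 3 - 3 * p ^ 2 * b + 3 * p * b ^ 2) * d (x, y) - b ^ 3 := by
        intro x
        rw [del_one, ← hb]
        linear_combination ((p : ℤ) ^ 3 * (d (x, y) + 1) - 3 * p ^ 2 * b) * hsq (x, y)
      rw [Finset.sum_congr rfl fun x _ => this x, Finset.sum_sub_distrib, ← Finset.mul_sum, ← hb, Finset.sum_const,
        Finset.card_univ, ZMod.card, nsmul_eq_mul]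
      ring
    have e2 : ∑ x, del p d (x, y) ^ 2 = p * b * (p - b) := by
      have : ∀ x, del p d (x, y) ^ 2 = (p ^ 2 - 2 * p * b) * d (x, y) + b ^ 2 := by
        intro x
        rw [del_one, ← hb]
        linear_combination ((p : ℤ) ^ 2) * hsq (x, y)
      rw [Finset.sum_congr rfl fun x _ => this x, Finset.sum_add_distrib, ← Finset.mul_sum, ← hb, Finset.sum_const,
        Finset.card_univ, ZMod.card, nsmul_eq_mul]
      ring
    rw [h2 y] at e3
    rw [e2]
    rcases mul_eq_zero.1 e3.symm with e4 | e4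
    · exact e4
    · exfalso
      obtain ⟨k, hk⟩ := hpodd
      have : (p : ℤ) = 2 * k + 1 := by exact_mod_cast hk
      omega
  have h5 := h.del_del_one hp 0
  rw [Fintype.sum_prod_type_right] at h5
  simp only [add_zero] at h5
  rw [Finset.sum_eq_zero (fun y _ => by
    rw [← h4 y]
    exact Finset.sum_congr rfl fun x _ => by ring)] at h5
  simp only [if_true, Prod.snd_zero] at h5
  have hp1 : (1 : ℤ) < p := by exact_mod_cast hp.one_lt
  have h6 : 0 < (p : ℤ) * (p * n - n) := by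
    have : 0 < (p : ℤ) * ((p - 1) * n) := mul_pos (by linarith) (mul_pos (by linarith) hn)
    linarith
  linarith

theorem even_square {q w : ℕ} [NeZero q] [NeZero w] {d : ZMod q × ZMod w → ℤ} {lam n : ℤ} (hw : Even w)
    (h : Co d lam n) : ∃ z : ℤ, z ^ 2 = n := by
  classical
  set c : ZMod w →+* ZMod 2 := ZMod.castHom hw.two_dvd (ZMod 2) with hc
  set σ : ZMod w → ℤ := fun y => if c y = 0 then 1 else -1 with hσ
  have hadd : ∀ y y', σ (y + y') = σ y * σ y' := by
    intro y y'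
    have key : ∀ a b : ZMod 2, (if a + b = 0 then (1 : ℤ) else -1) = (if a = 0 then 1 else -1) * (if b = 0 then 1 else -1) := by
      decide
    simp only [hσ, map_add]
    exact key _ _
  have hsq : ∀ y, σ y * σ y = 1 := by
    intro y
    simp only [hσ]
    split_ifs <;> norm_num
  have h0 : σ 0 = 1 := by simp [hσ]
  have h1 : σ 1 = -1 := by
    simp only [hσ, map_one]
    rw [if_neg]
    decide
  have hsum : ∑ y, σ y = 0 := by
    have e1 : ∑ y, σ (y + 1) = ∑ y, σ y := Fintype.sum_equiv (Equiv.addRight 1) _ _ fun _ => rfl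
    have e2 : ∑ y, σ (y + 1) = - ∑ y, σ y := by
      rw [← Finset.sum_neg_distrib]
      exact Finset.sum_congr rfl fun y _ => by rw [hadd, h1]; ring
    linarith
  refine ⟨∑ g, d g * σ g.2, ?_⟩
  have e1 : (∑ g, d g * σ g.2) ^ 2 = ∑ a : ZMod q × ZMod w, σ a.2 * ∑ g, d g * d (g + a) := by
    rw [sq, Finset.sum_mul]
    have e2 : ∀ g : ZMod q × ZMod w, d g * σ g.2 * ∑ g', d g' * σ g'.2 = ∑ a : ZMod q × ZMod w, σ a.2 * (d g * d (g + a)) := by
      intro g
      rw [Finset.mul_sum]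
      refine (Fintype.sum_equiv (Equiv.addLeft g) _ _ fun a => ?_).symm
      simp only [Equiv.coe_addLeft, Prod.snd_add, hadd]
      linear_combination (-(d g * d (g + a) * σ a.2)) * hsq g.2
    rw [Finset.sum_congr rfl fun g _ => e2 g, Finset.sum_comm]
    refine Finset.sum_congr rfl fun a _ => ?_
    rw [Finset.mul_sum]
  rw [e1, Finset.sum_congr rfl fun a _ => by rw [h.corr a, mul_add], Finset.sum_add_distrib, ← Finset.sum_mul,
    Fintype.sum_prod_type]
  simp only [hsum, Finset.sum_const_zero, zero_mul, zero_add]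
  rw [Finset.sum_eq_single 0]
  · simp [h0]
  · intro a _ ha
    rw [if_neg ha, mul_zero]
  · intro h; exact absurd (Finset.mem_univ _) h

theorem eps_neg_false {p w : ℕ} [NeZero p] [NeZero w] {d : ZMod p × ZMod w → ℤ} {lam n : ℤ} {t : (ZMod p)ˣ} {y0 : ZMod w}
    (hp : p.Prime) (hp2 : p ≠ 2) (hzo : ∀ g, d g = 0 ∨ d g = 1) (h : Co d lam n) (hn : 0 < n)
    (ht : ∀ u : (ZMod p)ˣ, ∃ i : ℕ, t ^ i = u)
    (hrel : ∀ x y, del p d (x, y) = (-1) * del p d (t * x, y - y0)) : False := by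
  rcases Nat.even_or_odd w with hw | hw
  · obtain ⟨z1, hz1⟩ := even_square hw h
    obtain ⟨z2, hz2⟩ := sq_neg hp h ht hrel
    have hz0 : z1 ≠ 0 := by
      rintro rfl
      rw [← hz1] at hn
      norm_num at hn
    have h1 : z1 ^ 2 ∣ z2 ^ 2 := ⟨p, by rw [hz2, hz1]; ring⟩
    rw [Int.pow_dvd_pow_iff (by norm_num)] at h1
    obtain ⟨c, rfl⟩ := h1
    have h2 : c ^ 2 = p := by
      apply mul_left_cancel₀ (pow_ne_zero 2 hz0)
      linear_combination hz2 + (-p : ℤ) * hz1
    have h3 : IsSquare (p : ℤ) := ⟨c, by rw [← h2]; ring⟩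
    exact (Nat.prime_iff_prime_int.1 hp).irreducible.not_isSquare h3
  · exact neg_false_odd hp hp2 hw hzo h hn hrel

end Ry
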