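import Pool.Agent.Lib.MP_12eb66_co.B10
import Pool.Agent.Lib.MP_12eb66_co.C1
import Pool.Agent.Lib.MP_12eb66_co.C1b
import Pool.Agent.Lib.MP_12eb66_co.C3
import Pool.Agent.Lib.MP_12eb66_co.S4
import Pool.Agent.Lib.MP_12eb66_co.S5

/-! The coprime case. -/

set_option linter.unusedSectionVars false

namespace Ry

theorem coprime_core_one {p w : ℕ} [NeZero p] [NeZero w] (hp : p.Prime) (hp67 : 67 ≤ p)
    {d : ZMod p × ZMod w → ℤ} {lam n : ℤ} (hzo : ∀ g, d g = 0 ∨ d g = 1) (h : Co d lam n) (hn4 : 4 * (p : ℤ) ^ 2 ≤ n)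
    (hodd : Odd n ∨ Odd w) {t : (ZMod p)ˣ} (ht : ∀ u : (ZMod p)ˣ, ∃ i : ℕ, t ^ i = u) {y0 : ZMod w}
    (hrel : ∀ x y, del p d (x, y) = 1 * del p d (t * x, y - y0)) : False := by
  have hp2 : p ≠ 2 := by omega
  have hp0 : (0 : ℤ) < p := by exact_mod_cast hp.pos
  have hn0 : 0 < n := lt_of_lt_of_le (by positivity) hn4
  have hev : Even (kap p y0) := by
    rcases hodd with h1 | h1
    · exact kap_even_of_odd hp hp2 hzo h ht hrel h1
    · exact kap_even_of_odd_w hp hp2 h1 (period hp h hn0 hrel)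
  have hpos := kap_pos hp y0
  have hk2 : 2 ≤ kap p y0 := by
    obtain ⟨r, hr⟩ := hev
    omega
  obtain ⟨-, hθ, -⟩ := sq_pos hp h ht hrel
  refine final_false hp hp67 hzo h ht hrel hk2 (z := |∑ y, d (0, y) - ∑ y, d (1, y)|) ?_ ?_
  · rw [sq_abs, hθ]
  · have h1 : (2 * (p : ℤ)) ^ 2 ≤ |∑ y, d (0, y) - ∑ y, d (1, y)| ^ 2 := by
      rw [sq_abs, hθ]
      linarith
    exact le_of_sq_le_sq h1 (abs_nonneg _)

theorem coprime_core {p s q w : ℕ} [NeZero q] [NeZero w] (hp : p.Prime) (hp67 : 67 ≤ p) (hs : 0 < s) (hq : q = p ^ s)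
    (hpw : ¬ p ∣ w) {d : ZMod q × ZMod w → ℤ} {lam n : ℤ} (hzo : ∀ g, d g = 0 ∨ d g = 1) (h : Co d lam n)
    {a m : ℕ} (hn : n = (p : ℤ) ^ a * m) (hm : 0 < m) (hmw : m.Coprime w) (hpm : ¬ p ∣ m) (hpb : 4 ^ (m ^ 2 - 1) < p)
    (ha : 1 ≤ a) (hm4 : 4 ≤ m) : False := by
  have hp2 : p ≠ 2 := by omega
  have hp0 : (0 : ℤ) < p := by exact_mod_cast hp.pos
  have hm4' : (4 : ℤ) ≤ m := by exact_mod_cast hm4
  have hn2 : 2 ≤ n := by
    have h1 : (1 : ℤ) ≤ (p : ℤ) ^ a := one_le_pow₀ (by linarith)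
    rw [hn]
    nlinarith
  obtain ⟨t, ht⟩ := exists_gen hp hp2 hq
  obtain ⟨ε, hε, x0, y0, hrel⟩ := structure_thm hp hs hq hpw h hn hm hmw hpm hpb t
  obtain ⟨b, hb⟩ := normal hp hp2 hs hq ht hrel
  have h' := h.translate b
  have hzo' : ∀ g, d (g + b) = 0 ∨ d (g + b) = 1 := fun g => hzo _
  rcases Nat.lt_or_ge s 2 with hs2 | hs2
  · have : s = 1 := by omega
    subst this
    rw [pow_one] at hq
    subst hq
    rcases hε with rfl | rfl
    · have hn4 : 4 * (q : ℤ) ^ 2 ≤ n := by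
        obtain ⟨-, hθ, -⟩ := sq_pos hp h' ht hb
        have hpi : Prime (q : ℤ) := Nat.prime_iff_prime_int.1 hp
        have ha2 : 2 ≤ a := by
          by_contra hlt
          have ha1 : a = 1 := by omega
          subst ha1
          rw [pow_one] at hn
          have h1 : (q : ℤ) ∣ ∑ y, d ((0, y) + b) - ∑ y, d ((1, y) + b) := by
            apply hpi.dvd_of_dvd_pow (n := 2)
            rw [hθ, hn]
            exact dvd_mul_right _ _
          obtain ⟨r, hr⟩ := h1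
          rw [hr, hn, mul_pow, sq (q : ℤ), mul_assoc] at hθ
          have h2 := mul_left_cancel₀ hp0.ne' hθ
          apply hpm
          have h3 : (q : ℤ) ∣ m := ⟨r ^ 2, h2.symm⟩
          exact_mod_cast h3
        have h1 : (q : ℤ) ^ 2 ≤ (q : ℤ) ^ a := pow_le_pow_right₀ (by linarith) ha2
        have h2 : 0 < (q : ℤ) ^ 2 := by positivity
        rw [hn]
        nlinarith
      refine coprime_core_one hp hp67 hzo' h' hn4 ?_ ht hb
      by_cases hw : Odd w
      · exact Or.inr hw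
      · left
        have h2w : 2 ∣ w := (Nat.not_odd_iff_even.1 hw).two_dvd
        have hmodd : Odd m := by
          rw [← Nat.not_even_iff_odd]
          intro he
          have : 2 ∣ Nat.gcd m w := Nat.dvd_gcd he.two_dvd h2w
          rw [hmw] at this
          omega
        rw [hn]
        have h3 : Odd (q : ℤ) := by exact_mod_cast hp.odd_of_ne_two hp2
        exact h3.pow.mul (by exact_mod_cast hmodd)
    · exact eps_neg_false hp hp2 hzo' h' (by linarith) ht hb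
  · refine s_two_false hp hp2 hs2 hq hzo' h' hn2 ?_
    intro x y hx
    exact del_zero_of hp hp2 hs hq hpw ht hε hb hx y

end Ry
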