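import Pool.Agent.Lib.MP_12eb66_co.T1
import Pool.Agent.Lib.MP_12eb66_co.F2
import Pool.Agent.Lib.MP_12eb66_co.F3

/-! Transfer to subsets of ZMod v. -/

set_option linter.unusedSectionVars false

namespace Ry

theorem fiber_card {A B : Type} [AddCommGroup A] [Fintype A] [DecidableEq A] [AddCommGroup B] [Fintype B]
    [DecidableEq B] (π : A →+ B) (hπ : Function.Surjective π) :
    ∃ c : ℕ, (∀ x, (Finset.univ.filter fun y => π y = x).card = c) ∧ c * Fintype.card B = Fintype.card A := by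
  have h1 : ∀ x, (Finset.univ.filter fun y => π y = x).card = (Finset.univ.filter fun y => π y = 0).card := by
    intro x
    obtain ⟨a, rfl⟩ := hπ x
    refine Finset.card_nbij' (fun y => y - a) (fun y => y + a) ?_ ?_ ?_ ?_
    · intro y hy
      simp only [Finset.coe_filter, Finset.mem_univ, true_and, Set.mem_setOf_eq] at hy ⊢
      rw [map_sub, hy, sub_self]
    · intro y hy
      simp only [Finset.coe_filter, Finset.mem_univ, true_and, Set.mem_setOf_eq] at hy ⊢
      rw [map_add, hy, zero_add]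
    · intro y _; simp
    · intro y _; simp
  refine ⟨_, h1, ?_⟩
  have h2 := Finset.card_eq_sum_card_fiberwise (f := π) (s := (Finset.univ : Finset A)) (t := (Finset.univ : Finset B))
    (fun _ _ => Finset.mem_coe.2 (Finset.mem_univ _))
  rw [Finset.card_univ, Finset.sum_congr rfl (fun x _ => h1 x), Finset.sum_const, Finset.card_univ, smul_eq_mul] at h2
  rw [h2, mul_comm]

/-- the projection of ZMod v to ZMod p x ZMod r -/
theorem exists_proj {v p r : ℕ} [NeZero v] [NeZero p] [NeZero r] (hpr : p.Coprime r) (h : p * r ∣ v) :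
    ∃ π : ZMod v →+ ZMod p × ZMod r, Function.Surjective π := by
  refine ⟨((ZMod.chineseRemainder hpr).toRingHom.comp (ZMod.castHom h (ZMod (p * r)))).toAddMonoidHom, ?_⟩
  have h1 : Function.Surjective (ZMod.castHom h (ZMod (p * r))) := ZMod.castHom_surjective h
  exact (ZMod.chineseRemainder hpr).surjective.comp h1

theorem exists_Co {v : ℕ} [NeZero v] {D : Finset (ZMod v)} {l : ℕ}
    (hD : ∀ u : ZMod v, u ≠ 0 → ((D ×ˢ D).filter fun r => r.1 - r.2 = u).card = l) {p r : ℕ} [NeZero p] [NeZero r]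
    (hpr : p.Coprime r) (h : p * r ∣ v) :
    ∃ d : ZMod p × ZMod r → ℤ, ∃ lam : ℤ, Co d lam (D.card - l) := by
  obtain ⟨π, hπ⟩ := exists_proj hpr h
  obtain ⟨c, hc, -⟩ := fiber_card π hπ
  exact ⟨_, _, pushforward π hc D hD⟩

theorem exists_Co_zo {v : ℕ} [NeZero v] {D : Finset (ZMod v)} {l : ℕ}
    (hD : ∀ u : ZMod v, u ≠ 0 → ((D ×ˢ D).filter fun r => r.1 - r.2 = u).card = l) {q r : ℕ} [NeZero q] [NeZero r]
    (hpr : q.Coprime r) (h : q * r = v) :
    ∃ d : ZMod q × ZMod r → ℤ, (∀ g, d g = 0 ∨ d g = 1) ∧ ∃ lam : ℤ, Co d lam (D.card - l) := by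
  obtain ⟨π, hπ⟩ := exists_proj hpr (dvd_of_eq h)
  obtain ⟨c, hc, hcc⟩ := fiber_card π hπ
  have hc1 : c = 1 := by
    rw [Fintype.card_prod, ZMod.card, ZMod.card, ZMod.card, h] at hcc
    have hv := NeZero.pos v
    exact Nat.eq_of_mul_eq_mul_right hv (by rw [hcc, one_mul])
  refine ⟨_, ?_, _, pushforward π hc D hD⟩
  intro g
  have h1 : (D.filter fun y => π y = g).card ≤ 1 := by
    rw [← hc1, ← hc g]
    exact Finset.card_le_card (Finset.filter_subset_filter _ (Finset.subset_univ D))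
  have h2 : (D.filter fun y => π y = g).card = 0 ∨ (D.filter fun y => π y = g).card = 1 := by omega
  rcases h2 with h2 | h2 <;> rw [h2] <;> simp

section
variable {v : ℕ} [NeZero v] {D : Finset (ZMod v)} {l : ℕ}

/-- the cofactor is a square -/
theorem main_square (hD : ∀ u : ZMod v, u ≠ 0 → ((D ×ˢ D).filter fun r => r.1 - r.2 = u).card = l) {p a m : ℕ}
    [NeZero p] (hp : p.Prime) (hp2 : p ≠ 2) (hpv : p ∣ v) (hpm : ¬ p ∣ m) (hm : 0 < m) (hcard : D.card = l + p ^ a * m)
    (hT : Triv p m) : IsSquare m := by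
  obtain ⟨d, lam, hd⟩ := exists_Co hD (p := p) (r := 1) (Nat.coprime_one_right p) (by rwa [mul_one])
  refine square_core hp hp2 hd (a := a) ?_ hm hpm hT
  rw [hcard]
  push_cast
  ring

/-- if v is even then n is a square -/
theorem main_even (hD : ∀ u : ZMod v, u ≠ 0 → ((D ×ˢ D).filter fun r => r.1 - r.2 = u).card = l) (hv : 2 ∣ v)
    {n : ℕ} (hcard : D.card = l + n) : IsSquare n := by
  obtain ⟨d, lam, hd⟩ := exists_Co hD (p := 1) (r := 2) (Nat.coprime_one_left 2) (by rwa [one_mul])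
  obtain ⟨z, hz⟩ := even_square even_two hd
  refine ⟨z.natAbs, ?_⟩
  zify
  rw [← sq, sq_abs, hz, hcard]
  push_cast
  ring

/-- the coprime case -/
theorem main_coprime (hD : ∀ u : ZMod v, u ≠ 0 → ((D ×ˢ D).filter fun r => r.1 - r.2 = u).card = l) {p a m : ℕ}
    (hp : p.Prime) (ha : 1 ≤ a) (hpv : p ∣ v) (hpm : ¬ p ∣ m) (hm : 2 ≤ m) (hcard : D.card = l + p ^ a * m)
    (hpb : 4 ^ (m ^ 2 - 1) < p) (hmv : m.Coprime v) : False := by
  have : NeZero p := ⟨hp.ne_zero⟩
  have hm0 : 0 < m := by omega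
  have h64 : 4 ^ 3 ≤ 4 ^ (m ^ 2 - 1) := by
    apply Nat.pow_le_pow_right (by norm_num)
    have : 4 ≤ m ^ 2 := by nlinarith
    omega
  have hp65 : 65 ≤ p := by omega
  have hp67 : 67 ≤ p := by
    by_contra hlt
    have h1 : p = 65 ∨ p = 66 := by omega
    rcases h1 with rfl | rfl <;> revert hp <;> norm_num
  have hp2 : p ≠ 2 := by omega
  have hsqm : IsSquare m := main_square hD hp hp2 hpv hpm hm0 hcard (triv_large hp hm0 hpb)
  obtain ⟨s, w, hpw, hvw⟩ := Nat.exists_eq_pow_mul_and_not_dvd (NeZero.ne v) p hp.ne_one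
  have hs : 0 < s := by
    rcases Nat.eq_zero_or_pos s with h1 | h1
    · subst h1
      rw [pow_zero, one_mul] at hvw
      exact absurd (hvw ▸ hpv) hpw
    · exact h1
  have hw0 : w ≠ 0 := by
    rintro rfl
    exact hpw (dvd_zero p)
  have : NeZero w := ⟨hw0⟩
  have : NeZero (p ^ s) := ⟨pow_ne_zero s hp.ne_zero⟩
  have hcop : (p ^ s).Coprime w := Nat.Coprime.pow_left s ((Nat.Prime.coprime_iff_not_dvd hp).2 hpw)
  obtain ⟨d, hzo, lam, hd⟩ := exists_Co_zo hD hcop hvw.symm
  have hn : ((D.card : ℤ) - l) = (p : ℤ) ^ a * m := by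
    rw [hcard]
    push_cast
    ring
  rw [hn] at hd
  have hmw : m.Coprime w := by
    rw [hvw] at hmv
    exact Nat.Coprime.coprime_mul_left_right hmv
  have hm4 : 4 ≤ m := by
    obtain ⟨r, hr⟩ := hsqm
    have : 2 ≤ r := by
      by_contra hlt
      have h1 : r = 0 ∨ r = 1 := by omega
      rcases h1 with rfl | rfl <;> omega
    nlinarith
  exact coprime_core hp hp67 hs rfl hpw hzo hd rfl hm0 hmw hpm hpb ha hm4

end

end Ry
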