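import Pool.Agent.Lib.MP_12eb66_co.G3

/-! The self-conjugate case: -1 is a power of l mod p (proved). -/

namespace Ry

/-- a symmetric function with trivial autocorrelation is supported at 0 -/
theorem symm_triv {p m : ℕ} [NeZero p] (hp : p.Prime) (hp2 : p ≠ 2) (hm : 0 < m) (hpm : ¬ p ∣ m) {f : ZMod p → ℤ}
    (hf : ∀ b, ∑ x, f x * f (x + b) = if b = 0 then (m : ℤ) ^ 2 else 0) (hs : ∀ x, f (-x) = f x) :
    ∀ x, f x ≠ 0 → x = 0 := by
  classical
  have := Fact.mk hp
  let E : AddChar (ZMod p) ℂ → ℂ := fun ψ => ∑ x, (f x : ℂ) * ψ x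
  have hE2 : ∀ ψ, E ψ ^ 2 = (m : ℂ) ^ 2 := by
    intro ψ
    have h1 : E ψ ^ 2 = ∑ b, ((∑ x, f x * f (x + b) : ℤ) : ℂ) * ψ b := by
      have h0 : E ψ = ∑ x, (f x : ℂ) * ψ (-x) := by
        rw [← Fintype.sum_equiv (Equiv.neg (ZMod p)) _ _ (fun _ => rfl)]
        refine Finset.sum_congr rfl fun x _ => ?_
        simp only [Equiv.neg_apply, hs, neg_neg]
      rw [sq]
      nth_rewrite 1 [h0]
      rw [Finset.sum_mul]
      have h2 : ∀ x, (f x : ℂ) * ψ (-x) * E ψ = ∑ b, ((f x * f (x + b) : ℤ) : ℂ) * ψ b := by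
        intro x
        simp only [E]
        rw [Finset.mul_sum, ← Fintype.sum_equiv (Equiv.addLeft x) _ _ (fun _ => rfl)]
        refine Finset.sum_congr rfl fun b _ => ?_
        simp only [Equiv.coe_addLeft]
        have h3 : ψ b = ψ (-x) * ψ (x + b) := by
          rw [← AddChar.map_add_eq_mul, neg_add_cancel_left]
        rw [h3]
        push_cast
        ring
      rw [Finset.sum_congr rfl (fun x _ => h2 x), Finset.sum_comm]
      refine Finset.sum_congr rfl fun b _ => ?_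
      rw [← Finset.sum_mul, ← Int.cast_sum]
    rw [h1]
    simp only [hf]
    rw [Finset.sum_eq_single 0]
    · simp
    · intro b _ hb
      simp [hb]
    · intro h0
      exact absurd (Finset.mem_univ _) h0
  have hE : ∀ ψ, E ψ = m ∨ E ψ = -m := fun ψ => sq_eq_sq_iff_eq_or_eq_neg.1 (hE2 ψ)
  -- inversion
  have hinv : ∀ x, ∑ ψ, E ψ * ψ (-x) = p * f x := by
    intro x
    have h1 : ∀ ψ, E ψ * ψ (-x) = ∑ y, (f y : ℂ) * ψ (y - x) := by
      intro ψ
      simp only [E]
      rw [Finset.sum_mul]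
      refine Finset.sum_congr rfl fun y _ => ?_
      rw [sub_eq_add_neg, AddChar.map_add_eq_mul]
      ring
    rw [Finset.sum_congr rfl (fun ψ _ => h1 ψ), Finset.sum_comm, Finset.sum_eq_single x]
    · rw [← Finset.mul_sum, AddChar.sum_apply_eq_ite, if_pos (sub_self x), ZMod.card]
      ring
    · intro y _ hy
      rw [← Finset.mul_sum, AddChar.sum_apply_eq_ite, if_neg (sub_ne_zero.2 hy), mul_zero]
    · intro h0
      exact absurd (Finset.mem_univ _) h0
  set N : ℕ := (Finset.univ.filter fun ψ => E ψ ≠ m).card with hN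
  have hEN : ∀ ψ, E ψ = m - 2 * m * (if E ψ ≠ m then 1 else 0) := by
    intro ψ
    rcases hE ψ with h1 | h1
    · rw [if_neg (not_not.2 h1), h1]; ring
    · by_cases h2 : E ψ = m
      · rw [if_neg (not_not.2 h2), h2]; ring
      · rw [if_pos h2, h1]; ring
  have hcardψ : Fintype.card (AddChar (ZMod p) ℂ) = p := by
    rw [AddChar.card_eq, ZMod.card]
  have hNle : N ≤ p := by
    rw [hN]
    exact (Finset.card_le_univ _).trans hcardψ.le
  have h0 := hinv 0
  have h1 : (p : ℂ) * f 0 = m * p - 2 * m * N := by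
    rw [← h0]
    simp only [neg_zero, AddChar.map_zero_eq_one, mul_one]
    rw [Finset.sum_congr rfl (fun ψ _ => hEN ψ), Finset.sum_sub_distrib, Finset.sum_const, Finset.card_univ, hcardψ,
      ← Finset.mul_sum, Finset.sum_boole, nsmul_eq_mul]
    ring
  have h2 : (p : ℤ) * f 0 = m * p - 2 * m * N := by exact_mod_cast h1
  have h3 : p ∣ N := by
    have h4 : (p : ℤ) ∣ ((2 * m * N : ℕ) : ℤ) := ⟨m - f 0, by push_cast; linarith⟩
    have h5 : p ∣ 2 * m * N := by exact_mod_cast h4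
    rcases (Nat.Prime.dvd_mul hp).1 h5 with h6 | h6
    · rcases (Nat.Prime.dvd_mul hp).1 h6 with h7 | h7
      · exact absurd ((Nat.prime_dvd_prime_iff_eq hp Nat.prime_two).1 h7) hp2
      · exact absurd h7 hpm
    · exact h6
  have hconst : ∃ c : ℂ, ∀ ψ, E ψ = c := by
    rcases Nat.eq_zero_or_pos N with h4 | h4
    · refine ⟨m, fun ψ => ?_⟩
      by_contra h5
      have : ψ ∈ Finset.univ.filter fun ψ => E ψ ≠ m := by simp [h5]
      rw [Finset.card_eq_zero.1 h4] at this
      simp at this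
    · have h5 : N = p := le_antisymm hNle (Nat.le_of_dvd h4 h3)
      refine ⟨-m, fun ψ => ?_⟩
      have h6 : (Finset.univ.filter fun ψ => E ψ ≠ m) = Finset.univ := by
        apply Finset.eq_univ_of_card
        rw [← hN, h5, hcardψ]
      have h7 : ψ ∈ Finset.univ.filter fun ψ => E ψ ≠ m := by rw [h6]; exact Finset.mem_univ _
      rcases hE ψ with h8 | h8
      · exact absurd h8 (Finset.mem_filter.1 h7).2
      · exact h8
  obtain ⟨c, hc⟩ := hconst
  intro x hx
  by_contra hne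
  have h4 := hinv x
  simp only [hc] at h4
  rw [← Finset.mul_sum, AddChar.sum_apply_eq_ite, if_neg (neg_ne_zero.2 hne), mul_zero] at h4
  have hp0 : (p : ℂ) ≠ 0 := by exact_mod_cast hp.ne_zero
  have h5 : (f x : ℂ) = 0 := by
    rcases mul_eq_zero.1 h4.symm with h6 | h6
    · exact absurd h6 hp0
    · exact h6
  exact hx (by exact_mod_cast h5)

/-- -1 is a power of l -/
theorem triv_of_neg_one {p l i : ℕ} [NeZero p] (hp : p.Prime) (hp2 : p ≠ 2) (hl : l.Prime) (hlp : l ≠ p)
    (hneg : ∃ j : ℕ, (l : ZMod p) ^ j = -1) {e : ZMod p → ℤ}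
    (he : ∀ b, ∑ x, e x * e (x + b) = if b = 0 then ((l ^ i : ℕ) : ℤ) ^ 2 else 0) :
    ∃ x0, ∀ x, e x ≠ 0 → x = x0 := by
  have := Fact.mk hp
  obtain ⟨j, hj⟩ := hneg
  have hl1 : (l : ZMod p) ≠ 1 := by
    intro h1
    rw [h1, one_pow] at hj
    have h2 : ((2 : ℕ) : ZMod p) = 0 := by
      push_cast
      linear_combination hj
    rw [ZMod.natCast_eq_zero_iff] at h2
    exact hp2 ((Nat.prime_dvd_prime_iff_eq hp Nat.prime_two).1 h2)
  obtain ⟨ξ, hξ⟩ := exists_invariant hp hl hlp hl1 he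
  have hpow : ∀ (k : ℕ) h, e ((l : ZMod p) ^ k * h + ξ) = e (h + ξ) := by
    intro k
    induction k with
    | zero => intro h; rw [pow_zero, one_mul]
    | succ k ih =>
      intro h
      rw [pow_succ', mul_assoc, hξ, ih]
  have hsymm : ∀ x, (fun h => e (h + ξ)) (-x) = (fun h => e (h + ξ)) x := by
    intro x
    have := hpow j x
    rw [hj, neg_one_mul] at this
    exact this
  have hcor : ∀ b, ∑ x, (fun h => e (h + ξ)) x * (fun h => e (h + ξ)) (x + b) =
      if b = 0 then ((l ^ i : ℕ) : ℤ) ^ 2 else 0 := by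
    intro b
    rw [← he b]
    simp only [add_right_comm _ b ξ]
    exact Fintype.sum_equiv (Equiv.addRight ξ) _ _ fun _ => rfl
  have hpm : ¬ p ∣ l ^ i := by
    intro h
    exact hlp ((Nat.prime_dvd_prime_iff_eq hp hl).1 (hp.dvd_of_dvd_pow h)).symm
  have h1 := symm_triv hp hp2 (pow_pos hl.pos i) hpm hcor hsymm
  refine ⟨ξ, fun x hx => ?_⟩
  have h2 := h1 (x - ξ) (by simpa using hx)
  exact sub_eq_zero.1 h2

end Ry
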