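import Pool.Agent.Lib.MP_12eb66_co.F4
import Pool.Agent.Lib.MP_12eb66_co.G4

/-! Orders p^a r^b. -/

set_option linter.unusedSectionVars false

namespace Ry

section
variable {v : ℕ} [NeZero v] {D : Finset (ZMod v)} {l : ℕ}

theorem not_isSquare_odd_pow {r b : ℕ} (hr : r.Prime) (hb : Odd b) : ¬ IsSquare (r ^ b) := by
  obtain ⟨c, rfl⟩ := hb
  rintro ⟨z, hz⟩
  have h1 : IsSquare r := by
    have h2 : r ^ c ∣ z := by
      have h3 : (r ^ c) ^ 2 ∣ z ^ 2 := by
        rw [sq z, ← hz]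
        exact ⟨r, by ring⟩
      exact (Nat.pow_dvd_pow_iff (by norm_num)).1 h3
    obtain ⟨y, hy⟩ := h2
    refine ⟨y, ?_⟩
    have h4 : (r ^ c) ^ 2 * r = (r ^ c) ^ 2 * (y * y) := by
      calc (r ^ c) ^ 2 * r = r ^ (2 * c + 1) := by ring
        _ = z * z := hz
        _ = (r ^ c) ^ 2 * (y * y) := by rw [hy]; ring
    exact Nat.eq_of_mul_eq_mul_left (pow_pos (pow_pos hr.pos c) 2) h4
  exact hr.prime.not_isSquare h1

/-- if p divides v and n = p^a r^b with b odd then the order of r mod p is odd and small -/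
theorem main_two_primes (hD : ∀ u : ZMod v, u ≠ 0 → ((D ×ˢ D).filter fun y => y.1 - y.2 = u).card = l)
    {p r a b : ℕ} (hp : p.Prime) (hr : r.Prime) (hp2 : p ≠ 2) (hpr : p ≠ r) (hb : Odd b) (hpv : p ∣ v)
    (hcard : D.card = l + p ^ a * r ^ b) :
    Odd (orderOf (r : ZMod p)) ∧ 2 * orderOf (r : ZMod p) ≤ r ^ b * (r ^ b + 1) := by
  have := Fact.mk hp
  have hnsq := not_isSquare_odd_pow hr hb
  have hpm : ¬ p ∣ r ^ b := fun h => hpr ((Nat.prime_dvd_prime_iff_eq hp hr).1 (hp.dvd_of_dvd_pow h))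
  have hm : 0 < r ^ b := pow_pos hr.pos b
  constructor
  · rw [← Nat.not_even_iff_odd]
    intro hev
    apply hnsq
    apply main_square hD hp hp2 hpv hpm hm hcard
    intro e he
    apply triv_of_neg_one hp hp2 hr hpr.symm ?_ he
    obtain ⟨c, hc⟩ := hev
    refine ⟨c, ?_⟩
    have hfin : 0 < orderOf (r : ZMod p) := by
      obtain ⟨u, hu⟩ := unit_l hp hr hpr.symm
      rw [← hu, orderOf_units]
      exact orderOf_pos u
    have h1 : ((r : ZMod p) ^ c) ^ 2 = 1 := by
      rw [← pow_mul, mul_two, ← hc]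
      exact pow_orderOf_eq_one _
    rcases (sq_eq_sq_iff_eq_or_eq_neg (b := (1 : ZMod p))).1 (by rw [h1, one_pow]) with h2 | h2
    · exact absurd h2 (pow_ne_one_of_lt_orderOf (by omega) (by omega))
    · exact h2
  · by_contra hlt
    push Not at hlt
    apply hnsq
    apply main_square hD hp hp2 hpv hpm hm hcard
    intro e he
    exact triv_of_order hp hr hpr.symm hlt he

/-- orders 2 p^a -/
theorem main_twice (hD : ∀ u : ZMod v, u ≠ 0 → ((D ×ˢ D).filter fun y => y.1 - y.2 = u).card = l)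
    {p a : ℕ} (hp : p.Prime) (hp2 : p ≠ 2) (hp7 : p ≠ 7) (hcard : D.card = l + 2 * p ^ a) :
    Nat.gcd (2 * p ^ a) v = 1 := by
  have := Fact.mk hp
  have hcop2 : (p ^ a).Coprime 2 := Nat.Coprime.pow_left a ((Nat.coprime_primes hp Nat.prime_two).2 hp2)
  have hv2 : Nat.Coprime 2 v := by
    rw [Nat.prime_two.coprime_iff_not_dvd]
    intro h2
    have h3 := main_even hD h2 hcard
    rw [mul_comm] at h3
    exact Nat.prime_two.prime.not_isSquare (isSquare_of_coprime_mul hcop2 h3)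
  have hpv : Nat.Coprime p v := by
    rw [hp.coprime_iff_not_dvd]
    intro h3
    obtain ⟨h4, h5⟩ := main_two_primes hD hp Nat.prime_two hp2 hp2 odd_one h3 (a := a) (by rw [hcard, pow_one, mul_comm])
    norm_num at h5
    have h6 : orderOf ((2 : ℕ) : ZMod p) = 1 ∨ orderOf ((2 : ℕ) : ZMod p) = 3 := by
      obtain ⟨c, hc⟩ := h4
      have : orderOf ((2 : ℕ) : ZMod p) ≤ 3 := by
        have := h5
        push_cast
        omega
      omega
    have h7 := pow_orderOf_eq_one ((2 : ℕ) : ZMod p)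
    rcases h6 with h6 | h6
    · rw [h6, pow_one] at h7
      have h8 : ((1 : ℕ) : ZMod p) = 0 := by
        push_cast at h7 ⊢
        linear_combination h7
      rw [ZMod.natCast_eq_zero_iff] at h8
      exact hp.one_lt.ne' (Nat.dvd_one.1 h8)
    · rw [h6] at h7
      have h8 : ((7 : ℕ) : ZMod p) = 0 := by
        push_cast at h7 ⊢
        linear_combination h7
      rw [ZMod.natCast_eq_zero_iff] at h8
      exact hp7 ((Nat.prime_dvd_prime_iff_eq hp (by norm_num)).1 h8)
  exact Nat.Coprime.mul_left hv2 (Nat.Coprime.pow_left a hpv)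

/-- orders 3 p^a -/
theorem main_thrice (hD : ∀ u : ZMod v, u ≠ 0 → ((D ×ˢ D).filter fun y => y.1 - y.2 = u).card = l)
    {p a : ℕ} (hp : p.Prime) (hp3 : p ≠ 3) (hp11 : p ≠ 11) (hp13 : p ≠ 13) (hcard : D.card = l + 3 * p ^ a) :
    ¬ p ∣ v := by
  have := Fact.mk hp
  intro h3
  by_cases hp2 : p = 2
  · subst hp2
    have h4 := main_even hD h3 hcard
    rw [mul_comm] at h4
    have hcop : (2 ^ a).Coprime 3 := Nat.Coprime.pow_left a (by norm_num)
    exact Nat.prime_three.prime.not_isSquare (isSquare_of_coprime_mul hcop h4)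
  · obtain ⟨h4, h5⟩ := main_two_primes hD hp Nat.prime_three hp2 hp3 odd_one h3 (a := a) (by rw [hcard, pow_one, mul_comm])
    norm_num at h5
    have h6 : orderOf ((3 : ℕ) : ZMod p) = 1 ∨ orderOf ((3 : ℕ) : ZMod p) = 3 ∨ orderOf ((3 : ℕ) : ZMod p) = 5 := by
      obtain ⟨c, hc⟩ := h4
      have : orderOf ((3 : ℕ) : ZMod p) ≤ 6 := by
        have := h5
        push_cast
        omega
      omega
    have h7 := pow_orderOf_eq_one ((3 : ℕ) : ZMod p)
    have key : ∀ k : ℕ, ((3 ^ k - 1 : ℕ) : ZMod p) = 0 → p ∣ 3 ^ k - 1 := fun k h => (ZMod.natCast_eq_zero_iff _ _).1 h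
    rcases h6 with h6 | h6 | h6
    · rw [h6] at h7
      have h8 : p ∣ 2 := key 1 (by
        push_cast at h7 ⊢
        linear_combination h7)
      exact hp2 ((Nat.prime_dvd_prime_iff_eq hp Nat.prime_two).1 h8)
    · rw [h6] at h7
      have h8 : p ∣ 2 * 13 := key 3 (by
        norm_num
        push_cast at h7
        linear_combination h7)
      rcases (Nat.Prime.dvd_mul hp).1 h8 with h9 | h9
      · exact hp2 ((Nat.prime_dvd_prime_iff_eq hp Nat.prime_two).1 h9)
      · exact hp13 ((Nat.prime_dvd_prime_iff_eq hp (by norm_num)).1 h9)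
    · rw [h6] at h7
      have h8 : p ∣ 2 * 11 ^ 2 := key 5 (by
        norm_num
        push_cast at h7
        linear_combination h7)
      rcases (Nat.Prime.dvd_mul hp).1 h8 with h9 | h9
      · exact hp2 ((Nat.prime_dvd_prime_iff_eq hp Nat.prime_two).1 h9)
      · exact hp11 ((Nat.prime_dvd_prime_iff_eq hp (by norm_num)).1 (hp.dvd_of_dvd_pow h9))

end

end Ry
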