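import Pool.Agent.Lib.MP_12eb66_co.Alg

/-! The Frobenius automorphism at a prime l different from p (proved; adapted from NA1, NA2). -/

open NumberField

namespace Ry

private theorem G1_map_prod {R : Type*} [CommRing R] (σ : R →+* R) (s : Multiset (Ideal R))
    (h : ∀ P ∈ s, Ideal.map σ P ≤ P) : Ideal.map σ s.prod ≤ s.prod := by
  induction s using Multiset.induction_on with
  | empty => simp
  | cons P s ih =>
    rw [Multiset.prod_cons, Ideal.map_mul]
    exact Ideal.mul_mono (h P (Multiset.mem_cons_self P s))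
      (ih fun Q hQ => h Q (Multiset.mem_cons_of_mem hQ))

theorem dvd_frob_mul {R : Type*} [CommRing R] [IsDedekindDomain R] {p a : ℕ} (hp : (p : R) ≠ 0) (σ : R →+* R)
    (hσ : ∀ P : Ideal R, P.IsPrime → (p : R) ∈ P → ∀ x ∈ P, σ x ∈ P) {α β : R} (h : (p : R) ^ a ∣ α * β) :
    (p : R) ^ a ∣ σ α * β := by
  classical
  have hAB : Ideal.span {α, (p : R) ^ a} * Ideal.span {β, (p : R) ^ a} ≤
      Ideal.span {(p : R) ^ a} := by
    rw [Ideal.mul_le]
    intro r hr s hs
    obtain ⟨x, y, rfl⟩ := Ideal.mem_span_pair.1 hr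
    obtain ⟨z, w, rfl⟩ := Ideal.mem_span_pair.1 hs
    obtain ⟨c, hc⟩ := h
    rw [Ideal.mem_span_singleton]
    refine ⟨x * z * c + x * α * w + y * z * β + y * w * (p : R) ^ a, ?_⟩
    linear_combination x * z * hc
  have hA0 : Ideal.span {α, (p : R) ^ a} ≠ ⊥ := by
    intro h0
    have h1 : (p : R) ^ a ∈ Ideal.span {α, (p : R) ^ a} := Ideal.subset_span (by simp)
    rw [h0, Ideal.mem_bot] at h1
    exact pow_ne_zero a hp h1
  have hmap : Ideal.map σ (Ideal.span {α, (p : R) ^ a}) ≤ Ideal.span {α, (p : R) ^ a} := by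
    rw [← Ideal.prod_normalizedFactors_eq_self hA0]
    refine G1_map_prod σ _ fun P hP => ?_
    have hprime : P.IsPrime :=
      Ideal.isPrime_of_prime (UniqueFactorizationMonoid.prime_of_normalized_factor P hP)
    have hle : Ideal.span {α, (p : R) ^ a} ≤ P :=
      Ideal.le_of_dvd (UniqueFactorizationMonoid.dvd_of_mem_normalizedFactors hP)
    have hpP : (p : R) ∈ P :=
      hprime.mem_of_pow_mem a (hle (Ideal.subset_span (by simp)))
    rw [Ideal.map_le_iff_le_comap]
    intro x hx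
    exact hσ P hprime hpP x hx
  have h1 : σ α ∈ Ideal.span {α, (p : R) ^ a} :=
    hmap (Ideal.mem_map_of_mem σ (Ideal.subset_span (by simp)))
  have h2 : β ∈ Ideal.span {β, (p : R) ^ a} := Ideal.subset_span (by simp)
  exact Ideal.mem_span_singleton.1 (hAB (Ideal.mul_mem_mul h1 h2))

theorem exists_frob {p l : ℕ} (hp : p.Prime) (hl : l.Prime) (hlp : l ≠ p) {K : Type} [Field K] [NumberField K]
    [IsCyclotomicExtension {p} ℚ K] {ζ : 𝓞 K} (hζ : IsPrimitiveRoot ζ p) :
    ∃ σ : 𝓞 K →+* 𝓞 K, σ ζ = ζ ^ l ∧ ∀ P : Ideal (𝓞 K), P.IsPrime → (l : 𝓞 K) ∈ P → ∀ x ∈ P, σ x ∈ P := by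
  classical
  have : Fact p.Prime := ⟨hp⟩
  have : NeZero p := ⟨hp.ne_zero⟩
  have hT : l.Coprime p := (Nat.coprime_primes hl hp).2 hlp
  have hζK : IsPrimitiveRoot (ζ : K) p :=
    hζ.map_of_injective (f := algebraMap (𝓞 K) K) RingOfIntegers.coe_injective
  have hcyc : Polynomial.aeval ((ζ : K) ^ l) (minpoly ℚ (hζK.powerBasis ℚ).gen) = 0 := by
    rw [hζK.powerBasis_gen ℚ, ← Polynomial.cyclotomic_eq_minpoly_rat hζK hp.pos, Polynomial.aeval_def,
      Polynomial.eval₂_eq_eval_map, Polynomial.map_cyclotomic]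
    exact (hζK.pow_of_coprime l hT).isRoot_cyclotomic hp.pos
  obtain ⟨φ, hφ⟩ : ∃ φ : K →ₐ[ℚ] K, φ (ζ : K) = (ζ : K) ^ l := by
    refine ⟨(hζK.powerBasis ℚ).lift ((ζ : K) ^ l) hcyc, ?_⟩
    have h := (hζK.powerBasis ℚ).lift_gen _ hcyc
    rwa [hζK.powerBasis_gen ℚ] at h
  have hσ : RingOfIntegers.mapRingHom (φ : K →+* K) ζ = ζ ^ l := by
    apply RingOfIntegers.coe_injective
    rw [map_pow]
    exact hφ
  refine ⟨RingOfIntegers.mapRingHom (φ : K →+* K), hσ, ?_⟩
  generalize RingOfIntegers.mapRingHom (φ : K →+* K) = σ at hσ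
  intro P hP hlP
  have htop : Algebra.adjoin ℤ {ζ} = ⊤ := by
    have h := IsCyclotomicExtension.Rat.adjoin_singleton_eq_top hζK
    have e : hζK.toInteger = ζ := RingOfIntegers.coe_injective rfl
    rwa [e] at h
  have hchar : CharP (𝓞 K ⧸ P) l := by
    rw [CharP.charP_iff_prime_eq_zero hl]
    have h3 := (Ideal.Quotient.eq_zero_iff_mem (I := P)).mpr hlP
    rwa [map_natCast] at h3
  have : Fact l.Prime := ⟨hl⟩
  have key : ∀ x, Ideal.Quotient.mk P (σ x) = (Ideal.Quotient.mk P x) ^ l := by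
    intro x
    have hx : x ∈ Algebra.adjoin ℤ {ζ} := by
      rw [htop]
      exact Algebra.mem_top
    induction hx using Algebra.adjoin_induction with
    | mem y hy =>
      rw [Set.mem_singleton_iff] at hy
      rw [hy, hσ, map_pow]
    | algebraMap r =>
      rw [eq_intCast, map_intCast, map_intCast]
      have h1 : ((r : ZMod l) ^ l : ZMod l) = r := ZMod.pow_card _
      have h2 := congrArg (ZMod.castHom (dvd_refl l) (𝓞 K ⧸ P)) h1
      rw [map_pow, map_intCast] at h2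
      exact h2.symm
    | add a b _ _ ha hb =>
      rw [map_add, map_add, map_add, ha, hb, add_pow_char]
    | mul a b _ _ ha hb =>
      rw [map_mul, map_mul, map_mul, ha, hb, mul_pow]
  intro x hx
  rw [← Ideal.Quotient.eq_zero_iff_mem] at hx ⊢
  rw [key, hx, zero_pow hl.ne_zero]

end Ry
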