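import Pool.Agent.Lib.MP_12eb66_co.Alg

/-! Row ry-NA4. Proof. For fixed y multiply the j-th sum by ξ^((-j * y).val) and sum over j: by orthogonality
(∑ j : ZMod w, ξ^((j * z).val) = w if z = 0, else 0: AddChar.zmodChar, AddChar.sum_mulShift, zmodChar_primitive_of_primitive_root; or directly a geometric
sum) one gets w * ∑ x, F (x, y) η^x.val, which is divisible by p^a; w and p^a are coprime (IsCoprime in 𝓞 K from Nat.Coprime). -/

open NumberField

namespace Ry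

theorem dvd_fiber {p q w : ℕ} [NeZero q] [NeZero w] (hp : p.Prime) (hpw : ¬ p ∣ w) {K : Type} [Field K]
    [NumberField K] {η ξ : 𝓞 K} (hξ : IsPrimitiveRoot ξ w) (a : ℕ) (F : ZMod q × ZMod w → ℤ)
    (h : ∀ j : ZMod w, (p : 𝓞 K) ^ a ∣ ∑ g, (F g : 𝓞 K) * (η ^ g.1.val * ξ ^ (j * g.2).val)) (y : ZMod w) :
    (p : 𝓞 K) ^ a ∣ ∑ x : ZMod q, (F (x, y) : 𝓞 K) * η ^ x.val := by
  classical
  obtain ⟨χ, hχ, hprim⟩ : ∃ χ : AddChar (ZMod w) (𝓞 K), (∀ z, χ z = ξ ^ z.val) ∧ χ.IsPrimitive :=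
    ⟨AddChar.zmodChar w ((IsPrimitiveRoot.iff_def ξ w).mp hξ).left,
      fun z => AddChar.zmodChar_apply _ z, AddChar.zmodChar_primitive_of_primitive_root w hξ⟩
  have horth : ∀ z : ZMod w, ∑ j : ZMod w, χ (j * z) = if z = 0 then (w : 𝓞 K) else 0 := by
    intro z
    rw [AddChar.sum_mulShift z hprim, ZMod.card]
    split_ifs <;> simp
  have hsum : (p : 𝓞 K) ^ a ∣ ∑ j : ZMod w, χ (-(j * y)) *
      ∑ g : ZMod q × ZMod w, (F g : 𝓞 K) * (η ^ g.1.val * ξ ^ (j * g.2).val) :=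
    Finset.dvd_sum fun j _ => Dvd.dvd.mul_left (h j) _
  have hcalc : ∑ j : ZMod w, χ (-(j * y)) *
      ∑ g : ZMod q × ZMod w, (F g : 𝓞 K) * (η ^ g.1.val * ξ ^ (j * g.2).val)
      = (∑ x : ZMod q, (F (x, y) : 𝓞 K) * η ^ x.val) * (w : 𝓞 K) := by
    have e1 : ∀ j : ZMod w, χ (-(j * y)) *
        ∑ g : ZMod q × ZMod w, (F g : 𝓞 K) * (η ^ g.1.val * ξ ^ (j * g.2).val)
        = ∑ g : ZMod q × ZMod w, (F g : 𝓞 K) * η ^ g.1.val * χ (j * (g.2 - y)) := by
      intro j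
      rw [Finset.mul_sum]
      refine Finset.sum_congr rfl fun g _ => ?_
      rw [← hχ, mul_sub, sub_eq_add_neg (j * g.2), AddChar.map_add_eq_mul]
      ring
    rw [Finset.sum_congr rfl fun j _ => e1 j, Finset.sum_comm]
    simp only [← Finset.mul_sum, horth]
    rw [Fintype.sum_prod_type, Finset.sum_mul]
    refine Finset.sum_congr rfl fun x _ => ?_
    rw [Finset.sum_eq_single y]
    · simp
    · intro z _ hz
      rw [if_neg (sub_ne_zero.2 hz), mul_zero]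
    · intro hy
      exact absurd (Finset.mem_univ _) hy
  rw [hcalc] at hsum
  have hcop : IsCoprime ((p : 𝓞 K) ^ a) (w : 𝓞 K) := by
    have h1 : Nat.Coprime (p ^ a) w := Nat.Coprime.pow_left a ((Nat.Prime.coprime_iff_not_dvd hp).2 hpw)
    have h2 : IsCoprime ((p ^ a : ℕ) : ℤ) (w : ℤ) := Nat.isCoprime_iff_coprime.2 h1
    have h3 := h2.map (Int.castRingHom (𝓞 K))
    simpa using h3
  exact hcop.dvd_of_dvd_mul_right hsum

end Ry
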