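import Pool.Agent.Lib.MP_12eb66_co.G1
import Pool.Agent.Lib.MP_12eb66_co.NA4

/-! The correlation of e^(l) and e is divisible by m^2 = l^(2i) (proved). -/

open NumberField

namespace Ry

/-- divisibility of integers in a ring of integers -/
theorem int_dvd_of_dvd {K : Type} [Field K] [NumberField K] {a b : ℤ} (ha : a ≠ 0)
    (h : (a : 𝓞 K) ∣ (b : 𝓞 K)) : a ∣ b := by
  obtain ⟨c, hc⟩ := h
  have h1 : (b : K) = a * (c : K) := by
    have := congrArg (algebraMap (𝓞 K) K) hc
    simpa using this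
  have haK : (a : K) ≠ 0 := by exact_mod_cast ha
  have h2 : (c : K) = algebraMap ℚ K ((b : ℚ) / a) := by
    rw [map_div₀, map_intCast, map_intCast, h1]
    field_simp
  have h3 : IsIntegral ℤ (algebraMap ℚ K ((b : ℚ) / a)) := by
    rw [← h2]
    exact RingOfIntegers.isIntegral_coe c
  have h4 : IsIntegral ℤ ((b : ℚ) / a) :=
    (isIntegral_algebraMap_iff (algebraMap ℚ K).injective).1 h3
  obtain ⟨z, hz⟩ := IsIntegrallyClosed.isIntegral_iff.1 h4
  refine ⟨z, ?_⟩
  have haQ : (a : ℚ) ≠ 0 := by exact_mod_cast ha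
  have h5 : (b : ℚ) = a * z := by
    have : (z : ℚ) = (b : ℚ) / a := by simpa using hz
    rw [this]
    field_simp
  exact_mod_cast h5

theorem frob_corr_dvd {p l k : ℕ} [NeZero p] (hp : p.Prime) (hl : l.Prime) (hlp : l ≠ p) (e : ZMod p → ℤ)
    (he : ∀ b, ∑ x, e x * e (x + b) = if b = 0 then (l : ℤ) ^ k else 0) (x : ZMod p) :
    (l : ℤ) ^ k ∣ ∑ h, e h * e (l * h - x) := by
  have hp1 : 1 < p := hp.one_lt
  let K := CyclotomicField p ℚ
  have : IsCyclotomicExtension {p} ℚ K := CyclotomicField.isCyclotomicExtension _ ℚ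
  have : NumberField K := IsCyclotomicExtension.numberField {p} ℚ K
  obtain ⟨ζ, hζ⟩ : ∃ ζ : 𝓞 K, IsPrimitiveRoot ζ p :=
    ⟨_, (IsCyclotomicExtension.zeta_spec p ℚ K).toInteger_isPrimitiveRoot⟩
  have hsum : (∑ h, e h) * (∑ h, e h) = (l : ℤ) ^ k := by
    have h1 : ∑ b, ∑ x, e x * e (x + b) = (l : ℤ) ^ k := by
      simp only [he]
      simp
    rw [← h1, Finset.sum_comm, Finset.sum_mul]
    refine Finset.sum_congr rfl fun x _ => ?_
    rw [← Finset.mul_sum]
    congr 1
    exact (Fintype.sum_equiv (Equiv.addLeft x) _ _ fun _ => rfl).symm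
  have key : ∀ j : ZMod p, (l : 𝓞 K) ^ k ∣ ∑ g : ZMod 1 × ZMod p,
      ((∑ h, e h * e (l * h - g.2) : ℤ) : 𝓞 K) * ((1 : 𝓞 K) ^ g.1.val * ζ ^ (j * g.2).val) := by
    intro j
    have e1 : ∑ g : ZMod 1 × ZMod p,
        ((∑ h, e h * e (l * h - g.2) : ℤ) : 𝓞 K) * ((1 : 𝓞 K) ^ g.1.val * ζ ^ (j * g.2).val) =
        ∑ x : ZMod p, ((∑ h, e h * e (l * h - x) : ℤ) : 𝓞 K) * ζ ^ (j * x).val := by
      rw [Fintype.sum_prod_type, Fintype.sum_subsingleton _ (0 : ZMod 1)]
      refine Finset.sum_congr rfl fun x _ => ?_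
      rw [one_pow, one_mul]
    rw [e1]
    -- the character
    let φ : AddChar (ZMod p) (𝓞 K) := AddChar.zmodChar p hζ.pow_eq_one
    have hφ : ∀ x, φ x = ζ ^ x.val := fun x => AddChar.zmodChar_apply hζ.pow_eq_one x
    let χ : ZMod p → 𝓞 K := fun x => φ (j * x)
    have hχ : ∀ x y, χ (x + y) = χ x * χ y := by
      intro x y
      simp only [χ, mul_add, AddChar.map_add_eq_mul]
    have hχ0 : χ 0 = 1 := by
      simp only [χ, mul_zero, AddChar.map_zero_eq_one]
    have hrw : ∀ x, ζ ^ (j * x).val = χ x := fun x => (hφ _).symm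
    simp only [hrw]
    -- values
    have hprod : (∑ h, (e h : 𝓞 K) * χ (-h)) * (∑ h, (e h : 𝓞 K) * χ h) = (l : 𝓞 K) ^ k := by
      rw [Finset.sum_mul]
      have h1 : ∀ x, (e x : 𝓞 K) * χ (-x) * ∑ h, (e h : 𝓞 K) * χ h =
          ∑ b, ((e x * e (x + b) : ℤ) : 𝓞 K) * χ b := by
        intro x
        rw [Finset.mul_sum, ← Fintype.sum_equiv (Equiv.addLeft x) _ _ (fun _ => rfl)]
        refine Finset.sum_congr rfl fun b _ => ?_
        simp only [Equiv.coe_addLeft]
        have h2 : χ b = χ (-x) * χ (x + b) := by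
          rw [← hχ, neg_add_cancel_left]
        rw [h2]
        push_cast
        ring
      rw [Finset.sum_congr rfl (fun x _ => h1 x), Finset.sum_comm]
      have h3 : ∀ b, ∑ x, ((e x * e (x + b) : ℤ) : 𝓞 K) * χ b = (if b = 0 then (l : 𝓞 K) ^ k else 0) * χ b := by
        intro b
        rw [← Finset.sum_mul, ← Int.cast_sum, he b]
        split_ifs <;> simp
      rw [Finset.sum_congr rfl (fun b _ => h3 b), Finset.sum_eq_single 0]
      · simp [hχ0]
      · intro b _ hb
        simp [hb]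
      · intro h0
        exact absurd (Finset.mem_univ _) h0
    have hconv : ∀ χ' : ZMod p → 𝓞 K, (∀ x, χ' x = χ (l * x)) →
        (∑ h, (e h : 𝓞 K) * χ' h) * (∑ h, (e h : 𝓞 K) * χ (-h)) =
          ∑ x, ((∑ h, e h * e (l * h - x) : ℤ) : 𝓞 K) * χ x := by
      intro χ' hχ'
      rw [Finset.sum_mul]
      have h1 : ∀ h, (e h : 𝓞 K) * χ' h * ∑ h', (e h' : 𝓞 K) * χ (-h') =
          ∑ x, ((e h * e (l * h - x) : ℤ) : 𝓞 K) * χ x := by
        intro h
        rw [Finset.mul_sum, ← Fintype.sum_equiv (Equiv.subLeft ((l : ZMod p) * h)) _ _ (fun _ => rfl)]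
        refine Finset.sum_congr rfl fun x _ => ?_
        simp only [Equiv.subLeft_apply]
        have h2 : χ x = χ' h * χ (-((l : ZMod p) * h - x)) := by
          rw [hχ', ← hχ]
          congr 1
          ring
        rw [h2]
        push_cast
        ring
      rw [Finset.sum_congr rfl (fun h _ => h1 h), Finset.sum_comm]
      refine Finset.sum_congr rfl fun x _ => ?_
      rw [← Finset.sum_mul, ← Int.cast_sum]
    by_cases hj : j = 0
    · have h1 : ∀ x, χ x = 1 := by
        intro x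
        simp only [χ, hj, zero_mul, AddChar.map_zero_eq_one]
      rw [← hconv (fun _ => 1) (fun x => (h1 _).symm)]
      simp only [h1, mul_one]
      rw [← Int.cast_sum, ← Int.cast_mul, hsum]
      push_cast
      exact dvd_refl _
    · -- ζ ^ j.val is a primitive root
      have hcop : (j.val).Coprime p := by
        rw [Nat.coprime_comm, hp.coprime_iff_not_dvd]
        intro hdvd
        apply hj
        have h1 : ((j.val : ℕ) : ZMod p) = 0 := (ZMod.natCast_eq_zero_iff _ _).2 hdvd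
        rwa [ZMod.natCast_zmod_val] at h1
      have hζj : IsPrimitiveRoot (ζ ^ j.val) p := hζ.pow_of_coprime _ hcop
      obtain ⟨σ, hσ, hσP⟩ := exists_frob hp hl hlp hζj
      have hχj : ∀ x, χ x = (ζ ^ j.val) ^ x.val := by
        intro x
        have h1 : χ x = ζ ^ (j.val * x.val) := by
          have h2 : ((j.val * x.val : ℕ) : ZMod p) = j * x := by
            rw [Nat.cast_mul, ZMod.natCast_zmod_val, ZMod.natCast_zmod_val]
          simp only [χ]
          rw [← h2]
          exact AddChar.zmodChar_apply' hζ.pow_eq_one _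
        rw [h1, pow_mul]
      have hσχ : ∀ x, σ (χ x) = χ (l * x) := by
        intro x
        rw [hχj, map_pow, hσ, ← pow_mul]
        have h1 : χ ((l : ZMod p) * x) = ζ ^ (j.val * (l * x.val)) := by
          have h2 : ((j.val * (l * x.val) : ℕ) : ZMod p) = j * (l * x) := by
            rw [Nat.cast_mul, Nat.cast_mul, ZMod.natCast_zmod_val, ZMod.natCast_zmod_val]
          simp only [χ]
          rw [← h2]
          exact AddChar.zmodChar_apply' hζ.pow_eq_one _
        rw [h1, pow_mul ζ j.val]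
      have hl0 : (l : 𝓞 K) ≠ 0 := by exact_mod_cast hl.ne_zero
      have h1 : (l : 𝓞 K) ^ k ∣ (∑ h, (e h : 𝓞 K) * χ h) * (∑ h, (e h : 𝓞 K) * χ (-h)) := by
        rw [mul_comm, hprod]
      have h2 := dvd_frob_mul hl0 σ hσP h1
      have h3 : σ (∑ h, (e h : 𝓞 K) * χ h) = ∑ h, (e h : 𝓞 K) * σ (χ h) := by
        rw [map_sum]
        refine Finset.sum_congr rfl fun h _ => ?_
        rw [map_mul, map_intCast]
      rw [h3, hconv (fun x => σ (χ x)) hσχ] at h2
      exact h2
  have hlp' : ¬ l ∣ p := by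
    intro h
    exact hlp ((Nat.prime_dvd_prime_iff_eq hl hp).1 h)
  have h4 := dvd_fiber (q := 1) hl hlp' hζ k (fun g : ZMod 1 × ZMod p => ∑ h, e h * e (l * h - g.2)) key x
  rw [Fintype.sum_subsingleton _ (0 : ZMod 1), one_pow, mul_one] at h4
  apply int_dvd_of_dvd (K := K) (pow_ne_zero k (by exact_mod_cast hl.ne_zero))
  push_cast at h4 ⊢
  exact h4

end Ry
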