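import Pool.Agent.Lib.MP_12eb66_co.G2

/-! Integer functions on ZMod p with trivial autocorrelation l^(2i) (proved). -/

namespace Ry

section
variable {p l i : ℕ} [NeZero p]

theorem unit_l (hp : p.Prime) (hl : l.Prime) (hlp : l ≠ p) : IsUnit (l : ZMod p) := by
  rw [ZMod.isUnit_iff_coprime]
  exact (Nat.coprime_primes hl hp).2 hlp

/-- after a translation e is invariant under multiplication by l -/
theorem exists_invariant (hp : p.Prime) (hl : l.Prime) (hlp : l ≠ p) (hl1 : (l : ZMod p) ≠ 1) {e : ZMod p → ℤ}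
    (he : ∀ b, ∑ x, e x * e (x + b) = if b = 0 then ((l ^ i : ℕ) : ℤ) ^ 2 else 0) :
    ∃ ξ : ZMod p, ∀ h, e (l * h + ξ) = e (h + ξ) := by
  have := Fact.mk hp
  set M : ℤ := ((l ^ i : ℕ) : ℤ) ^ 2 with hM
  have hMl : M = (l : ℤ) ^ (2 * i) := by
    rw [hM]; push_cast; rw [← pow_mul, mul_comm]
  have hMpos : 0 < M := by
    rw [hMl]
    exact pow_pos (by exact_mod_cast hl.pos) _
  have hsq : ∑ x, e x ^ 2 = M := by
    have h1 := he 0
    rw [if_pos rfl] at h1
    rw [← h1]
    refine Finset.sum_congr rfl fun x _ => ?_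
    rw [add_zero, sq]
  have hsum : (∑ h, e h) * (∑ h, e h) = M := by
    have h1 : ∑ b, ∑ x, e x * e (x + b) = M := by
      simp only [he]
      simp
    rw [← h1, Finset.sum_comm, Finset.sum_mul]
    refine Finset.sum_congr rfl fun x _ => ?_
    rw [← Finset.mul_sum]
    congr 1
    exact (Fintype.sum_equiv (Equiv.addLeft x) _ _ fun _ => rfl).symm
  obtain ⟨u, hu⟩ := unit_l hp hl hlp
  have hbij : ∀ (f : ZMod p → ℤ) (x : ZMod p), ∑ h, f (l * h - x) = ∑ h, f h := by
    intro f x
    rw [← hu]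
    exact Fintype.sum_equiv ((Units.mulLeft u).trans (Equiv.subRight x)) _ _ fun _ => rfl
  have hdiv : ∀ x, M ∣ ∑ h, e h * e (l * h - x) := by
    intro x
    rw [hMl]
    apply frob_corr_dvd hp hl hlp
    intro b
    rw [he b, hMl]
  have hdiff : ∀ x, ∑ h, (e h - e (l * h - x)) ^ 2 = 2 * M - 2 * ∑ h, e h * e (l * h - x) := by
    intro x
    have h1 := hbij (fun y => e y ^ 2) x
    have h2 : ∑ h, (e h - e (l * h - x)) ^ 2 =
        ∑ h, e h ^ 2 - 2 * ∑ h, e h * e (l * h - x) + ∑ h, e (l * h - x) ^ 2 := by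
      rw [Finset.mul_sum, ← Finset.sum_sub_distrib, ← Finset.sum_add_distrib]
      exact Finset.sum_congr rfl fun y _ => by ring
    rw [h2, h1, hsq]
    ring
  have hle : ∀ x, ∑ h, e h * e (l * h - x) ≤ M := by
    intro x
    have h1 : 0 ≤ ∑ h, (e h - e (l * h - x)) ^ 2 := Finset.sum_nonneg fun _ _ => sq_nonneg _
    rw [hdiff] at h1
    linarith
  have hex : ∃ x1, ∑ h, e h * e (l * h - x1) = M := by
    by_contra hne
    push Not at hne
    have h1 : ∀ x, ∑ h, e h * e (l * h - x) ≤ 0 := by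
      intro x
      obtain ⟨c, hc⟩ := hdiv x
      have h2 := hle x
      have h3 := hne x
      rw [hc] at h2 h3 ⊢
      have h4 : c ≤ 1 := by
        by_contra h5
        nlinarith
      have h5 : c ≠ 1 := by
        rintro rfl
        exact h3 (mul_one M)
      have h6 : c ≤ 0 := by omega
      exact mul_nonpos_of_nonneg_of_nonpos hMpos.le h6
    have h2 : ∑ x, ∑ h, e h * e (l * h - x) = M := by
      rw [Finset.sum_comm, ← hsum, Finset.sum_mul]
      refine Finset.sum_congr rfl fun h _ => ?_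
      rw [← Finset.mul_sum]
      congr 1
      exact Fintype.sum_equiv (Equiv.subLeft ((l : ZMod p) * h)) _ _ fun _ => rfl
    have h3 : ∑ x, ∑ h, e h * e (l * h - x) ≤ 0 := Finset.sum_nonpos fun x _ => h1 x
    linarith
  obtain ⟨x1, hx1⟩ := hex
  have heq : ∀ h, e h = e (l * h - x1) := by
    have h1 := hdiff x1
    rw [hx1, sub_self] at h1
    intro h
    have h2 := (Finset.sum_eq_zero_iff_of_nonneg (fun y _ => sq_nonneg (e y - e (l * y - x1)))).1 h1 h
      (Finset.mem_univ _)
    have h3 := pow_eq_zero_iff (n := 2) (by norm_num) |>.1 h2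
    linarith
  have hl1' : (l : ZMod p) - 1 ≠ 0 := sub_ne_zero.2 hl1
  refine ⟨((l : ZMod p) - 1)⁻¹ * x1, fun h => ?_⟩
  set ξ := ((l : ZMod p) - 1)⁻¹ * x1 with hξ
  have h1 : ((l : ZMod p) - 1) * ξ = x1 := by
    rw [hξ, ← mul_assoc, mul_inv_cancel₀ hl1', one_mul]
  have h2 : (l : ZMod p) * (h + ξ) - x1 = l * h + ξ := by
    rw [← h1]
    ring
  rw [heq (h + ξ), h2]

/-- large order -/
theorem triv_of_order (hp : p.Prime) (hl : l.Prime) (hlp : l ≠ p)
    (hord : l ^ i * (l ^ i + 1) < 2 * orderOf (l : ZMod p)) {e : ZMod p → ℤ}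
    (he : ∀ b, ∑ x, e x * e (x + b) = if b = 0 then ((l ^ i : ℕ) : ℤ) ^ 2 else 0) :
    ∃ x0, ∀ x, e x ≠ 0 → x = x0 := by
  classical
  have := Fact.mk hp
  have hm1 : 1 ≤ l ^ i := Nat.one_le_pow _ _ hl.pos
  have hl1 : (l : ZMod p) ≠ 1 := by
    intro h1
    rw [h1, orderOf_one] at hord
    nlinarith
  obtain ⟨ξ, hξ⟩ := exists_invariant hp hl hlp hl1 he
  set m : ℤ := ((l ^ i : ℕ) : ℤ) with hm
  have hm0 : 0 < m := by rw [hm]; exact_mod_cast hm1
  set f : ZMod p → ℤ := fun h => e (h + ξ) with hf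
  have hfl : ∀ (j : ℕ) h, f ((l : ZMod p) ^ j * h) = f h := by
    intro j
    induction j with
    | zero => intro h; rw [pow_zero, one_mul]
    | succ j ih =>
      intro h
      rw [pow_succ', mul_assoc]
      have := hξ ((l : ZMod p) ^ j * h)
      rw [← ih h]
      exact this
  have hshift : ∀ g : ZMod p → ℤ, ∑ h, g (h + ξ) = ∑ h, g h := fun g =>
    Fintype.sum_equiv (Equiv.addRight ξ) _ _ fun _ => rfl
  have hsq : ∑ x, f x ^ 2 = m ^ 2 := by
    have h1 := he 0
    rw [if_pos rfl] at h1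
    rw [← h1, hf, hshift (fun y => e y ^ 2)]
    refine Finset.sum_congr rfl fun x _ => ?_
    rw [add_zero, sq]
  have hsum : (∑ h, f h) ^ 2 = m ^ 2 := by
    have h1 : ∑ b, ∑ x, e x * e (x + b) = m ^ 2 := by
      simp only [he]
      simp [hm]
    rw [hf, hshift e, ← h1, Finset.sum_comm, sq, Finset.sum_mul]
    refine Finset.sum_congr rfl fun x _ => ?_
    rw [← Finset.mul_sum]
    congr 1
    exact (Fintype.sum_equiv (Equiv.addLeft x) _ _ fun _ => rfl).symm
  have habs : ∑ x, |f x| ≤ m ^ 2 := by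
    rw [← hsq]
    apply Finset.sum_le_sum
    intro x _
    rw [← sq_abs (f x)]
    rcases (abs_nonneg (f x)).lt_or_eq with h2 | h2
    · have h3 : 1 ≤ |f x| := by omega
      nlinarith
    · rw [← h2]; norm_num
  have hsa : |∑ h, f h| = m := by
    have h1 : |∑ h, f h| ^ 2 = m ^ 2 := by rw [sq_abs, hsum]
    have h2 := abs_nonneg (∑ h, f h)
    nlinarith
  have hzero : ∀ h, h ≠ 0 → f h = 0 := by
    intro h hh
    by_contra hc
    -- the sign
    obtain ⟨s, hs1, hs2⟩ : ∃ s : ℤ, (s = 1 ∨ s = -1) ∧ s * f h = |f h| := by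
      rcases abs_choice (f h) with h1 | h1
      · exact ⟨1, Or.inl rfl, by rw [h1, one_mul]⟩
      · exact ⟨-1, Or.inr rfl, by rw [h1]; ring⟩
    have h1 : ∑ x, (|f x| + s * f x) ≤ m ^ 2 + m := by
      rw [Finset.sum_add_distrib, ← Finset.mul_sum]
      have h2 : s * ∑ x, f x ≤ m := by
        rw [← hsa]
        rcases hs1 with rfl | rfl
        · rw [one_mul]; exact le_abs_self _
        · rw [neg_one_mul]; exact neg_le_abs _
      linarith
    have h2 : (2 * orderOf (l : ZMod p) : ℤ) ≤ ∑ x, (|f x| + s * f x) := by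
      have hinj : Set.InjOn (fun j : ℕ => (l : ZMod p) ^ j * h) (Finset.range (orderOf (l : ZMod p))) := by
        intro j hj k hk hjk
        rw [Finset.mem_coe, Finset.mem_range] at hj hk
        have h3 : (l : ZMod p) ^ j = (l : ZMod p) ^ k := mul_right_cancel₀ hh hjk
        exact pow_injOn_Iio_orderOf hj hk h3
      calc (2 * orderOf (l : ZMod p) : ℤ) = ∑ j ∈ Finset.range (orderOf (l : ZMod p)), 2 := by
            rw [Finset.sum_const, Finset.card_range, nsmul_eq_mul, mul_comm]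
        _ ≤ ∑ j ∈ Finset.range (orderOf (l : ZMod p)), (|f ((l : ZMod p) ^ j * h)| + s * f ((l : ZMod p) ^ j * h)) := by
            apply Finset.sum_le_sum
            intro j _
            rw [hfl, hs2]
            have : 0 < |f h| := abs_pos.2 hc
            omega
        _ = ∑ x ∈ (Finset.range (orderOf (l : ZMod p))).image (fun j : ℕ => (l : ZMod p) ^ j * h), (|f x| + s * f x) := by
            rw [Finset.sum_image hinj]
        _ ≤ ∑ x, (|f x| + s * f x) := by
            apply Finset.sum_le_sum_of_subset_of_nonneg (Finset.subset_univ _)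
            intro x _ _
            rcases hs1 with rfl | rfl
            · have := neg_abs_le (f x); linarith
            · have := le_abs_self (f x); linarith
    have h3 : ((l ^ i * (l ^ i + 1) : ℕ) : ℤ) < 2 * orderOf (l : ZMod p) := by exact_mod_cast hord
    have h4 : ((l ^ i * (l ^ i + 1) : ℕ) : ℤ) = m ^ 2 + m := by
      rw [hm]; push_cast; ring
    linarith
  refine ⟨ξ, fun x hx => ?_⟩
  by_contra hne
  have h1 := hzero (x - ξ) (sub_ne_zero.2 hne)
  rw [hf] at h1
  simp only [sub_add_cancel] at h1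
  exact hx h1

end

end Ry
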