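import Pool.Agent.Lib.MP_12eb66_co.Alg

/-! Row ry-NA3. Proof. Let η' be the image of η in K and L = ℚ⟮η'⟯ (IntermediateField.adjoin), a cyclotomic extension {q} of ℚ
(IsPrimitiveRoot.intermediateField_adjoin_isCyclotomicExtension). The element β with ∑ F x η^x.val = p^a β is integral, and lies in L
(it is p^(-a) times a sum of powers of η'), so it is in the integral closure of ℤ in L, which is ℤ[η']
(IsCyclotomicExtension.Rat.isIntegralClosure_adjoin_singleton_of_prime_pow or the general isIntegralClosure_adjoin_singleton; q = p^s). Hence β = aeval η' B for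
some B : ℤ[X]. With Gp = ∑ x, C (F x) * X^x.val: aeval η' (Gp - C (p^a) B) = 0, so cyclotomic q ℤ (= minpoly ℤ η',
cyclotomic_eq_minpoly, minpoly.isIntegrallyClosed_dvd) divides Gp - C (p^a) B. Multiply by X^(p^(s-1)) - 1:
cyclotomic (p^s) * (X^(p^(s-1)) - 1) = X^(p^s) - 1 (cyclotomic_prime_pow_mul_X_pow_sub_one). Apply the ring homomorphism
ℤ[X] -> AddMonoidAlgebra (ZMod (p^a)) (ZMod q), X -> single 1 1 (it kills X^q - 1 and p^a): (∑ x, F x single x)(single p^(s-1) - 1) = 0, that is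
F (x - p^(s-1)) = F x in ZMod (p^a) for all x. Iterate: P1 = multiples of p^(s-1) (P1_eq_image). (a = 0 is trivial.) -/

open NumberField

namespace Ry

theorem na3_aux {q : ℕ} [NeZero q] {L K : Type} [Field L] [CharZero L]
    [IsCyclotomicExtension {q} ℚ L] [Field K] [Algebra L K] {ζ : L} (hζ : IsPrimitiveRoot ζ q)
    {β : K} (hβ : IsIntegral ℤ β) {N : ℤ} (hN : N ≠ 0) (F : ZMod q → ℤ)
    (h : ∑ x : ZMod q, (F x : K) * algebraMap L K ζ ^ x.val = (N : K) * β) :
    ∃ B : Polynomial ℤ, Polynomial.cyclotomic q ℤ ∣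
      ∑ x : ZMod q, Polynomial.C (F x) * Polynomial.X ^ x.val - Polynomial.C N * B := by
  have hNL : (N : L) ≠ 0 := by exact_mod_cast hN
  have hNK : (N : K) ≠ 0 := by
    have := (map_ne_zero (algebraMap L K)).2 hNL
    rwa [map_intCast] at this
  have hb : algebraMap L K ((N : L)⁻¹ * ∑ x : ZMod q, (F x : L) * ζ ^ x.val) = β := by
    rw [map_mul, map_inv₀, map_intCast, map_sum]
    simp only [map_mul, map_pow, map_intCast]
    rw [h, inv_mul_cancel_left₀ hNK]
  have hint : IsIntegral ℤ ((N : L)⁻¹ * ∑ x : ZMod q, (F x : L) * ζ ^ x.val) := by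
    rw [← isIntegral_algebraMap_iff (R := ℤ) (A := L) (B := K)
      (FaithfulSMul.algebraMap_injective _ _), hb]
    exact hβ
  have hcl := IsCyclotomicExtension.Rat.isIntegralClosure_adjoin_singleton hζ
  obtain ⟨⟨y, hy⟩, hy2⟩ := hcl.isIntegral_iff.1 hint
  rw [Algebra.adjoin_singleton_eq_range_aeval] at hy
  obtain ⟨B, hB⟩ := hy
  change y = _ at hy2
  refine ⟨B, ?_⟩
  rw [Polynomial.cyclotomic_eq_minpoly hζ (NeZero.pos q)]
  apply minpoly.isIntegrallyClosed_dvd (hζ.isIntegral (NeZero.pos q))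
  have hB' : Polynomial.aeval ζ B = (N : L)⁻¹ * ∑ x : ZMod q, (F x : L) * ζ ^ x.val := by
    rw [← hy2]
    exact hB
  rw [map_sub, map_mul, hB', map_sum]
  simp only [map_mul, map_pow, Polynomial.aeval_X, eq_intCast, map_intCast]
  rw [mul_inv_cancel_left₀ hNL, sub_self]

/-- a relation in the number field comes from a polynomial identity -/
theorem na3_poly {p q : ℕ} [NeZero q] {K : Type} [Field K]
    [NumberField K] {η : 𝓞 K} (hη : IsPrimitiveRoot η q) (hp : p ≠ 0) (a : ℕ) (F : ZMod q → ℤ)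
    (h : (p : 𝓞 K) ^ a ∣ ∑ x : ZMod q, (F x : 𝓞 K) * η ^ x.val) :
    ∃ B : Polynomial ℤ, Polynomial.cyclotomic q ℤ ∣
      ∑ x : ZMod q, Polynomial.C (F x) * Polynomial.X ^ x.val -
        Polynomial.C ((p : ℤ) ^ a) * B := by
  obtain ⟨β, hβ⟩ := h
  have hη' : IsPrimitiveRoot (algebraMap (𝓞 K) K η) q :=
    hη.map_of_injective RingOfIntegers.coe_injective
  have hζ : IsPrimitiveRoot (IntermediateField.AdjoinSimple.gen ℚ (algebraMap (𝓞 K) K η)) q := by
    apply IsPrimitiveRoot.of_map_of_injective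
      (f := algebraMap (IntermediateField.adjoin ℚ {algebraMap (𝓞 K) K η}) K)
    · rw [IntermediateField.AdjoinSimple.algebraMap_gen]
      exact hη'
    · exact FaithfulSMul.algebraMap_injective _ _
  have : IsCyclotomicExtension {q} ℚ
      (IntermediateField.adjoin ℚ {algebraMap (𝓞 K) K η}) :=
    hη'.intermediateField_adjoin_isCyclotomicExtension ℚ
  apply na3_aux hζ (K := K) (β := algebraMap (𝓞 K) K β) (RingOfIntegers.isIntegral_coe β)
    (pow_ne_zero a (by exact_mod_cast hp)) F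
  rw [IntermediateField.AdjoinSimple.algebraMap_gen]
  have h2 := congrArg (algebraMap (𝓞 K) K) hβ
  rw [map_sum, map_mul, map_pow, map_natCast] at h2
  simp only [map_mul, map_pow, map_intCast] at h2
  rw [h2]
  push_cast
  rfl

theorem coeff_congr {p s q : ℕ} [NeZero q] (hp : p.Prime) (hs : 0 < s) (hq : q = p ^ s) {K : Type} [Field K]
    [NumberField K] {η : 𝓞 K} (hη : IsPrimitiveRoot η q) (a : ℕ) (F : ZMod q → ℤ)
    (h : (p : 𝓞 K) ^ a ∣ ∑ x : ZMod q, (F x : 𝓞 K) * η ^ x.val) (x : ZMod q) {c : ZMod q} (hc : c ∈ P1 p q) :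
    (p : ℤ) ^ a ∣ F (x + c) - F x := by
  obtain ⟨B, Q, hQ⟩ := na3_poly hη hp.ne_zero a F h
  have : Fact p.Prime := ⟨hp⟩
  -- the ring
  let A := AddMonoidAlgebra (ZMod (p ^ a)) (ZMod q)
  let φ : Polynomial ℤ →+* A := Polynomial.eval₂RingHom (Int.castRingHom A)
    (AddMonoidAlgebra.single (1 : ZMod q) (1 : ZMod (p ^ a)))
  have hφX : ∀ n : ℕ, φ (Polynomial.X ^ n) = AddMonoidAlgebra.single (n : ZMod q) 1 := by
    intro n
    change Polynomial.eval₂ _ _ _ = _
    rw [Polynomial.eval₂_X_pow, AddMonoidAlgebra.single_pow, nsmul_one, one_pow]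
  have hφC : ∀ z : ℤ, φ (Polynomial.C z) = (z : A) := by
    intro z
    change Polynomial.eval₂ _ _ _ = _
    rw [Polynomial.eval₂_C]
    rfl
  have hpa : (((p : ℤ) ^ a : ℤ) : A) = 0 := by
    rw [AddMonoidAlgebra.intCast_def]
    have : (((p : ℤ) ^ a : ℤ) : ZMod (p ^ a)) = 0 := by
      rw [ZMod.intCast_zmod_eq_zero_iff_dvd]
      push_cast
      exact dvd_rfl
    rw [this]
    exact AddMonoidAlgebra.single_zero _
  have hkey : AddMonoidAlgebra.single ((p ^ (s - 1) : ℕ) : ZMod q) (1 : ZMod (p ^ a)) *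
      ∑ x : ZMod q, ((F x : ℤ) : A) * AddMonoidAlgebra.single x 1 =
      ∑ x : ZMod q, ((F x : ℤ) : A) * AddMonoidAlgebra.single x 1 := by
    have h1 := congrArg φ (congrArg (fun P => (Polynomial.X ^ p ^ (s - 1) - 1) * P) hQ)
    have h2 : (Polynomial.X ^ p ^ (s - 1) - 1) * (Polynomial.cyclotomic q ℤ * Q) =
        (Polynomial.X ^ q - 1) * Q := by
      obtain ⟨k, rfl⟩ : ∃ k, s = k + 1 := ⟨s - 1, by omega⟩
      rw [← mul_assoc, mul_comm _ (Polynomial.cyclotomic q ℤ), hq, Nat.add_sub_cancel,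
        Polynomial.cyclotomic_prime_pow_mul_X_pow_sub_one]
    beta_reduce at h1
    rw [h2, map_mul, map_mul, map_sub, map_sub, map_sub, map_one, hφX, hφX, map_mul, hφC, hpa,
      zero_mul, sub_zero, map_sum, CharP.cast_eq_zero (ZMod q) q, AddMonoidAlgebra.one_def, sub_self,
      zero_mul, sub_mul, ← AddMonoidAlgebra.one_def, one_mul, sub_eq_zero] at h1
    have h3 : ∀ x : ZMod q, φ (Polynomial.C (F x) * Polynomial.X ^ x.val) =
        ((F x : ℤ) : A) * AddMonoidAlgebra.single x 1 := by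
      intro x
      rw [map_mul, hφC, hφX, ZMod.natCast_zmod_val]
    simp only [h3] at h1
    exact h1
  have hco : ∀ y : ZMod q, AddMonoidAlgebra.coeff (∑ x : ZMod q, ((F x : ℤ) : AddMonoidAlgebra (ZMod (p ^ a)) (ZMod q)) *
      AddMonoidAlgebra.single x 1) y =
      ((F y : ℤ) : ZMod (p ^ a)) := by
    intro y
    rw [AddMonoidAlgebra.coeff_sum, Finsupp.finsetSum_apply, Finset.sum_eq_single y]
    · rw [AddMonoidAlgebra.intCast_def, AddMonoidAlgebra.single_mul_single, zero_add, mul_one,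
        AddMonoidAlgebra.coeff_single, Finsupp.single_eq_same]
    · intro b _ hb
      rw [AddMonoidAlgebra.intCast_def, AddMonoidAlgebra.single_mul_single, zero_add, mul_one,
        AddMonoidAlgebra.coeff_single, Finsupp.single_eq_of_ne (Ne.symm hb)]
    · intro h; exact absurd (Finset.mem_univ _) h
  have hstep : ∀ y : ZMod q, (p : ℤ) ^ a ∣ F (y + ((p ^ (s - 1) : ℕ) : ZMod q)) - F y := by
    intro y
    have h4 := congrArg (fun z : AddMonoidAlgebra (ZMod (p ^ a)) (ZMod q) =>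
      z.coeff (y + ((p ^ (s - 1) : ℕ) : ZMod q))) hkey
    beta_reduce at h4
    rw [AddMonoidAlgebra.coeff_single_mul_apply, one_mul, hco, hco,
      show -((p ^ (s - 1) : ℕ) : ZMod q) + (y + ((p ^ (s - 1) : ℕ) : ZMod q)) = y by abel,
      ZMod.intCast_eq_intCast_iff_dvd_sub] at h4
    exact_mod_cast h4
  rw [P1_eq_image hp hs hq, Finset.mem_image] at hc
  obtain ⟨j, -, rfl⟩ := hc
  induction j with
  | zero => simp
  | succ j ih =>
    have h5 : x + (((j + 1) * p ^ (s - 1) : ℕ) : ZMod q) =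
        (x + ((j * p ^ (s - 1) : ℕ) : ZMod q)) + ((p ^ (s - 1) : ℕ) : ZMod q) := by
      push_cast; ring
    rw [h5]
    have h6 := dvd_add (hstep (x + ((j * p ^ (s - 1) : ℕ) : ZMod q))) ih
    rwa [sub_add_sub_cancel] at h6

end Ry
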