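import Pool.Agent.Lib.MP_12eb66_co.C0

/-! Correlations of the deviation and of the marginals (proved). -/

set_option linter.unusedSectionVars false

namespace Ry

section
variable {p s q w : ℕ} [NeZero q] [NeZero w] {d : ZMod q × ZMod w → ℤ} {lam n : ℤ}

/-- the deviation is orthogonal to the translates of the coset numbers -/
theorem sum_del_bet (hp : p.Prime) (hs : 0 < s) (hq : q = p ^ s) (a : ZMod q × ZMod w) :
    ∑ g, del p d g * bet p d (g + a) = 0 := by
  have h1 : (p : ℤ) * ∑ g, del p d g * bet p d (g + a) = 0 := by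
    have h2 : (p : ℤ) * ∑ g, del p d g * bet p d (g + a) =
        ∑ c ∈ P1 p q, ∑ g, del p d (g + (c, 0)) * bet p d (g + (c, 0) + a) := by
      have h4 : ∀ c ∈ P1 p q, ∑ g, del p d (g + (c, 0)) * bet p d (g + (c, 0) + a) =
          ∑ g, del p d g * bet p d (g + a) := by
        intro c _
        exact sum_shift (fun g => del p d g * bet p d (g + a)) ((c, 0) : ZMod q × ZMod w)
      rw [Finset.sum_congr rfl h4, Finset.sum_const, card_P1 hp hs hq]
      simp
    rw [h2, Finset.sum_comm]
    apply Finset.sum_eq_zero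
    intro g _
    have h3 : ∀ c ∈ P1 p q, del p d (g + (c, 0)) * bet p d (g + (c, 0) + a) =
        del p d (g.1 + c, g.2) * bet p d (g + a) := by
      intro c hc
      have h3 := bet_add (p := p) (d := d) (g + a) hc
      have e1 : (g + (c, 0) : ZMod q × ZMod w) = (g.1 + c, g.2) := by ext <;> simp
      have e2 : (g + (c, 0) + a : ZMod q × ZMod w) = ((g + a).1 + c, (g + a).2) := by
        ext <;> simp; ring
      rw [e2, h3, e1]
    rw [Finset.sum_congr rfl h3, ← Finset.sum_mul, sum_del_coset hp hs hq, zero_mul]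
  rcases mul_eq_zero.1 h1 with h2 | h2
  · exact absurd (by exact_mod_cast h2) hp.ne_zero
  · exact h2

/-- autocorrelation of the deviation -/
theorem Co.del_del (hp : p.Prime) (hs : 0 < s) (hq : q = p ^ s) (h : Co d lam n) (a : ZMod q × ZMod w) :
    ∑ g, del p d g * del p d (g + a) =
      p * ((if a = 0 then p * n else 0) - if a.1 ∈ P1 p q ∧ a.2 = 0 then n else 0) := by
  have h1 : ∀ g, del p d g * del p d (g + a) = p * (del p d g * d (g + a)) - del p d g * bet p d (g + a) := by
    intro g
    conv_lhs => rw [show del p d (g + a) = p * d (g + a) - bet p d (g + a) from rfl]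
    ring
  simp only [h1]
  rw [Finset.sum_sub_distrib, ← Finset.mul_sum, sum_del_bet hp hs hq, sub_zero, h.del_d hp hs hq]

/-- autocorrelation of the second marginal -/
theorem Co.bb (h : Co d lam n) (b : ZMod w) :
    ∑ y, (∑ x, d (x, y)) * (∑ x, d (x, y + b)) = q * lam + if b = 0 then n else 0 := by
  have h1 : ∀ y, (∑ x, d (x, y)) * (∑ x, d (x, y + b)) = ∑ a : ZMod q, ∑ x, d (x, y) * d (x + a, y + b) := by
    intro y
    rw [Finset.sum_comm, Finset.sum_mul]
    refine Finset.sum_congr rfl fun x _ => ?_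
    rw [← Finset.mul_sum]
    congr 1
    exact (Fintype.sum_equiv (Equiv.addLeft x) _ _ fun _ => rfl).symm
  simp only [h1]
  rw [Finset.sum_comm]
  have h2 : ∀ a : ZMod q, ∑ y, ∑ x, d (x, y) * d (x + a, y + b) = lam + if (a, b) = 0 then n else 0 := by
    intro a
    rw [← h.corr (a, b), Fintype.sum_prod_type_right]
    rfl
  simp only [h2]
  rw [Finset.sum_add_distrib]
  simp only [Finset.sum_const, Finset.card_univ, ZMod.card, nsmul_eq_mul]
  congr 1
  by_cases hb : b = 0
  · subst hb
    simp only [Prod.mk_eq_zero, and_true]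
    simp
  · simp [Prod.mk_eq_zero, hb]

/-- autocorrelation of the first marginal -/
theorem Co.aa (h : Co d lam n) (a : ZMod q) :
    ∑ x, (∑ y, d (x, y)) * (∑ y, d (x + a, y)) = w * lam + if a = 0 then n else 0 := by
  have h1 : ∀ x, (∑ y, d (x, y)) * (∑ y, d (x + a, y)) = ∑ b : ZMod w, ∑ y, d (x, y) * d (x + a, y + b) := by
    intro x
    rw [Finset.sum_comm, Finset.sum_mul]
    refine Finset.sum_congr rfl fun y _ => ?_
    rw [← Finset.mul_sum]
    congr 1
    exact (Fintype.sum_equiv (Equiv.addLeft y) _ _ fun _ => rfl).symm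
  simp only [h1]
  rw [Finset.sum_comm]
  have h2 : ∀ b : ZMod w, ∑ x, ∑ y, d (x, y) * d (x + a, y + b) = lam + if (a, b) = 0 then n else 0 := by
    intro b
    rw [← h.corr (a, b), Fintype.sum_prod_type]
    rfl
  simp only [h2]
  rw [Finset.sum_add_distrib]
  simp only [Finset.sum_const, Finset.card_univ, ZMod.card, nsmul_eq_mul]
  congr 1
  by_cases hb : a = 0
  · subst hb
    simp only [Prod.mk_eq_zero, true_and]
    simp
  · simp [Prod.mk_eq_zero, hb]

end

section
variable {p w : ℕ} [NeZero p] [NeZero w] {d : ZMod p × ZMod w → ℤ} {lam n : ℤ}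

theorem P1_self : P1 p p = Finset.univ := by
  ext c
  simp [mem_P1]

theorem bet_one (d : ZMod p × ZMod w → ℤ) (x : ZMod p) (y : ZMod w) : bet p d (x, y) = ∑ x', d (x', y) := by
  unfold bet
  rw [P1_self]
  exact Fintype.sum_equiv (Equiv.addLeft x) _ _ fun _ => rfl

theorem del_one (d : ZMod p × ZMod w → ℤ) (x : ZMod p) (y : ZMod w) :
    del p d (x, y) = p * d (x, y) - ∑ x', d (x', y) := by
  rw [del, bet_one]

theorem sum_del_one (d : ZMod p × ZMod w → ℤ) (y : ZMod w) : ∑ x, del p d (x, y) = 0 := by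
  simp only [del_one]
  rw [Finset.sum_sub_distrib, ← Finset.mul_sum]
  simp

theorem Co.del_del_one (hp : p.Prime) (h : Co d lam n) (a : ZMod p × ZMod w) :
    ∑ g, del p d g * del p d (g + a) = p * ((if a = 0 then p * n else 0) - if a.2 = 0 then n else 0) := by
  rw [h.del_del hp one_pos (pow_one p).symm]
  simp [P1_self]

theorem Co.del_d_one (hp : p.Prime) (h : Co d lam n) (a : ZMod p × ZMod w) :
    ∑ g, del p d g * d (g + a) = (if a = 0 then p * n else 0) - if a.2 = 0 then n else 0 := by
  rw [h.del_d hp one_pos (pow_one p).symm]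
  simp [P1_self]

end

end Ry
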