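import Pool.Agent.Lib.MP_12eb66_co.NA2
import Pool.Agent.Lib.MP_12eb66_co.NA3
import Pool.Agent.Lib.MP_12eb66_co.S1

/-! A function on ZMod p whose autocorrelation is constant, plus a multiple of p² at 0, is constant modulo p. -/

open NumberField

set_option linter.unusedSectionVars false

namespace Ry

/-- the halves of a product with equal multiplicities -/
theorem half_dvd {R : Type*} [CommRing R] [IsDomain R] {π A B : R} (hπ : Prime π)
    (h : ∀ k, π ^ k ∣ A ↔ π ^ k ∣ B) {n : ℕ} (hd : π ^ (2 * n) ∣ A * B) : π ^ n ∣ A := by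
  classical
  by_contra hn
  have hex : ∃ j, ¬ π ^ j ∣ A := ⟨n, hn⟩
  set j := Nat.find hex with hj
  have hj1 : ¬ π ^ j ∣ A := Nat.find_spec hex
  have hj0 : j ≠ 0 := by
    intro h0
    rw [h0, pow_zero] at hj1
    exact hj1 (one_dvd A)
  obtain ⟨i, hi⟩ := Nat.exists_eq_succ_of_ne_zero hj0
  have hi1 : π ^ i ∣ A := by
    by_contra hc
    have := Nat.find_min' hex hc
    omega
  have hjn : j ≤ n := Nat.find_min' hex hn
  obtain ⟨a, ha⟩ := hi1
  obtain ⟨b, hb⟩ := (h i).1 ⟨a, ha⟩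
  have hπa : ¬ π ∣ a := by
    rintro ⟨a', rfl⟩
    apply hj1
    rw [hi, Nat.succ_eq_add_one, pow_succ, ha]
    exact ⟨a', by ring⟩
  have hπb : ¬ π ∣ b := by
    rintro ⟨b', rfl⟩
    apply hj1
    rw [h, hi, Nat.succ_eq_add_one, pow_succ, hb]
    exact ⟨b', by ring⟩
  have h1 : π ^ (2 * i + 1) ∣ A * B := (pow_dvd_pow π (by omega)).trans hd
  have h2 : A * B = π ^ (2 * i) * (a * b) := by
    rw [ha, hb]
    ring
  rw [h2, pow_succ] at h1
  have h3 : π ∣ a * b := by
    obtain ⟨z, hz⟩ := h1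
    refine ⟨z, mul_left_cancel₀ (pow_ne_zero (2 * i) hπ.ne_zero) ?_⟩
    rw [hz]
    ring
  rcases hπ.dvd_or_dvd h3 with h4 | h4
  · exact hπa h4
  · exact hπb h4

theorem dvd_diff {p : ℕ} [NeZero p] (hp : p.Prime) {f : ZMod p → ℤ} {c M : ℤ}
    (hf : Co f c ((p : ℤ) ^ 2 * M)) (x y : ZMod p) : (p : ℤ) ∣ f x - f y := by
  have hpf := Fact.mk hp
  let K := CyclotomicField p ℚ
  have hcyc : IsCyclotomicExtension {p} ℚ K := CyclotomicField.isCyclotomicExtension _ ℚ
  have : NumberField K := IsCyclotomicExtension.numberField {p} ℚ K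
  have hζK := IsCyclotomicExtension.zeta_spec p ℚ K
  set ζ : 𝓞 K := hζK.toInteger with hζdef
  have hζ : IsPrimitiveRoot ζ p := hζK.toInteger_isPrimitiveRoot
  -- the character
  let φ : AddChar (ZMod p) (𝓞 K) := AddChar.zmodChar p hζ.pow_eq_one
  have hφ : ∀ x, φ x = ζ ^ x.val := fun x => AddChar.zmodChar_apply hζ.pow_eq_one x
  have hφs : ∑ b : ZMod p, φ b = 0 := by
    have h1 : (ζ - 1) * ∑ b : ZMod p, φ b = 0 := by
      have h2 : ζ = φ 1 := by
        rw [hφ]
        have : Fact (1 < p) := ⟨hp.one_lt⟩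
        rw [ZMod.val_one, pow_one]
      rw [sub_mul, one_mul, sub_eq_zero, h2, Finset.mul_sum]
      simp only [← AddChar.map_add_eq_mul]
      exact Fintype.sum_equiv (Equiv.addLeft (1 : ZMod p)) _ _ fun _ => rfl
    rcases mul_eq_zero.1 h1 with h2 | h2
    · exact absurd (sub_eq_zero.1 h2) (hζ.ne_one hp.one_lt)
    · exact h2
  set A : 𝓞 K := ∑ h, (f h : 𝓞 K) * φ h with hA
  set B : 𝓞 K := ∑ h, (f h : 𝓞 K) * φ (-h) with hB
  have hprod : B * A = (p : 𝓞 K) ^ 2 * (M : 𝓞 K) := by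
    rw [hA, hB, Finset.sum_mul]
    have h1 : ∀ x, (f x : 𝓞 K) * φ (-x) * ∑ h, (f h : 𝓞 K) * φ h =
        ∑ b, ((f x * f (x + b) : ℤ) : 𝓞 K) * φ b := by
      intro x
      rw [Finset.mul_sum, ← Fintype.sum_equiv (Equiv.addLeft x) _ _ (fun _ => rfl)]
      refine Finset.sum_congr rfl fun b _ => ?_
      simp only [Equiv.coe_addLeft]
      have h2 : φ b = φ (-x) * φ (x + b) := by
        rw [← AddChar.map_add_eq_mul, neg_add_cancel_left]
      rw [h2]
      push_cast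
      ring
    rw [Finset.sum_congr rfl (fun x _ => h1 x), Finset.sum_comm]
    have h3 : ∀ b, ∑ x, ((f x * f (x + b) : ℤ) : 𝓞 K) * φ b =
        (c : 𝓞 K) * φ b + (if b = 0 then ((p : 𝓞 K) ^ 2 * (M : 𝓞 K)) else 0) * φ b := by
      intro b
      rw [← Finset.sum_mul, ← Int.cast_sum, hf.corr b]
      split_ifs
      · push_cast
        ring
      · push_cast
        ring
    rw [Finset.sum_congr rfl (fun b _ => h3 b), Finset.sum_add_distrib, ← Finset.mul_sum, hφs,
      mul_zero, zero_add, Finset.sum_eq_single 0]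
    · simp
    · intro b _ hb
      simp [hb]
    · intro h0
      exact absurd (Finset.mem_univ _) h0
  -- complex conjugation
  obtain ⟨σ, hσ, -⟩ : ∃ σ : 𝓞 K →+* 𝓞 K, σ ζ = ζ ^ (p - 1) ∧
      ∀ P : Ideal (𝓞 K), P.IsPrime → (p : 𝓞 K) ∈ P → ∀ x, σ x - x ∈ P := by
    have h1 : IsCyclotomicExtension {p ^ 1 * 1} ℚ K := by
      rw [pow_one, mul_one]
      exact hcyc
    have h2 : IsPrimitiveRoot ζ (p ^ 1 * 1) := by
      rw [pow_one, mul_one]
      exact hζ
    refine exists_sigma (s := 1) (w := 1) hp one_pos h2 (T := p - 1) ?_ (Nat.modEq_one)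
    rw [pow_one, mul_one]
    have h3 : p = (p - 1) + 1 := by
      have := hp.one_lt
      omega
    conv_rhs => rw [h3]
    exact Nat.coprime_self_add_right.2 (Nat.coprime_one_right _)
  have hpinv : ζ ^ (p - 1) * ζ = 1 := by
    rw [← pow_succ, Nat.sub_add_cancel hp.one_lt.le, hζ.pow_eq_one]
  have hσφ : ∀ x, σ (φ x) = φ (-x) := by
    intro x
    have h1 : φ x * φ (-x) = 1 := by
      rw [← AddChar.map_add_eq_mul, add_neg_cancel, AddChar.map_zero_eq_one]
    have h2 : φ x * σ (φ x) = 1 := by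
      rw [hφ, map_pow, hσ, ← mul_pow, mul_comm ζ, hpinv, one_pow]
    calc σ (φ x) = (φ x * φ (-x)) * σ (φ x) := by rw [h1, one_mul]
      _ = (φ x * σ (φ x)) * φ (-x) := by ring
      _ = φ (-x) := by rw [h2, one_mul]
  have hσA : σ A = B := by
    rw [hA, hB, map_sum]
    refine Finset.sum_congr rfl fun x _ => ?_
    rw [map_mul, map_intCast, hσφ]
  have hσB : σ B = A := by
    rw [hA, hB, map_sum]
    refine Finset.sum_congr rfl fun x _ => ?_
    rw [map_mul, map_intCast, hσφ, neg_neg]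
  have hπ : Prime (ζ - 1) := hζK.zeta_sub_one_prime'
  have hσπ : ζ - 1 ∣ σ (ζ - 1) := by
    refine ⟨-ζ ^ (p - 1), ?_⟩
    rw [map_sub, map_one, hσ]
    linear_combination hpinv
  have hiff : ∀ k, (ζ - 1) ^ k ∣ A ↔ (ζ - 1) ^ k ∣ B := by
    have key : ∀ (X : 𝓞 K) (k : ℕ), (ζ - 1) ^ k ∣ X → (ζ - 1) ^ k ∣ σ X := by
      intro X k hX
      have h1 := map_dvd σ hX
      rw [map_pow] at h1
      exact (pow_dvd_pow_of_dvd hσπ k).trans h1
    intro k
    constructor
    · intro h1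
      rw [← hσA]
      exact key A k h1
    · intro h1
      rw [← hσB]
      exact key B k h1
  have hass : Associated ((ζ - 1) ^ (p - 1)) (p : 𝓞 K) :=
    IsCyclotomicExtension.Rat.associated_zeta_sub_one_pow_prime p hζK
  have hdvd : (ζ - 1) ^ (2 * (p - 1)) ∣ A * B := by
    have h1 : (ζ - 1) ^ (2 * (p - 1)) ∣ (p : 𝓞 K) ^ 2 := by
      rw [mul_comm 2, pow_mul]
      exact pow_dvd_pow_of_dvd hass.dvd 2
    rw [mul_comm A B, hprod]
    exact h1.trans (dvd_mul_right _ _)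
  have h4 : (p : 𝓞 K) ^ 1 ∣ ∑ x : ZMod p, (f x : 𝓞 K) * ζ ^ x.val := by
    rw [pow_one]
    have h5 := hass.symm.dvd.trans (half_dvd hπ hiff hdvd)
    have h6 : A = ∑ x : ZMod p, (f x : 𝓞 K) * ζ ^ x.val := by
      rw [hA]
      refine Finset.sum_congr rfl fun x _ => ?_
      rw [hφ]
    rw [← h6]
    exact h5
  have h5 := coeff_congr hp one_pos (pow_one p).symm hζ 1 f h4 y (c := x - y) (by
    rw [P1_self]
    exact Finset.mem_univ _)
  rw [pow_one, add_sub_cancel] at h5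
  exact h5

end Ry
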