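import Pool.Agent.Lib.MP_12eb66_co.N1
import Pool.Agent.Lib.MP_12eb66_co.C0

/-! Division by an integer, and descent. -/

set_option linter.unusedSectionVars false

namespace Ry

theorem descend_of_dvd {p : ℕ} [NeZero p] (hp : 1 < p) {f : ZMod p → ℤ} {c N k : ℤ} (hk : k ≠ 0)
    (hd : ∀ x y, k ∣ f x - f y) (hf : Co f c N) :
    ∃ (g : ZMod p → ℤ) (c' M : ℤ), N = k ^ 2 * M ∧ Co g c' M := by
  choose g hg using fun x => hd x 0
  have : Fact (1 < p) := ⟨hp⟩
  set S : ℤ := ∑ x, g x with hS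
  have hsum : ∀ b : ZMod p, ∑ x, g (x + b) = S := fun b => sum_shift g b
  have key : ∀ b : ZMod p, k ^ 2 * ∑ x, g x * g (x + b) =
      (c - 2 * k * f 0 * S - p * f 0 ^ 2) + if b = 0 then N else 0 := by
    intro b
    have h1 : ∀ x, f x * f (x + b) =
        k ^ 2 * (g x * g (x + b)) + k * f 0 * g x + k * f 0 * g (x + b) + f 0 ^ 2 := by
      intro x
      have e1 : f x = k * g x + f 0 := by rw [← hg x]; ring
      have e2 : f (x + b) = k * g (x + b) + f 0 := by rw [← hg (x + b)]; ring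
      rw [e1, e2]
      ring
    have h2 := hf.corr b
    rw [Finset.sum_congr rfl (fun x _ => h1 x), Finset.sum_add_distrib, Finset.sum_add_distrib,
      Finset.sum_add_distrib, ← Finset.mul_sum, ← Finset.mul_sum, ← Finset.mul_sum, hsum b, ← hS,
      Finset.sum_const, Finset.card_univ, ZMod.card, nsmul_eq_mul] at h2
    linear_combination h2
  set c' : ℤ := ∑ x, g x * g (x + 1) with hc'
  have hk2 : k ^ 2 ≠ 0 := pow_ne_zero 2 hk
  have h1 := key 1
  rw [if_neg (one_ne_zero), add_zero, ← hc'] at h1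
  set M : ℤ := ∑ x, g x * g (x + 0) - c' with hM
  have h0 := key 0
  rw [if_pos rfl, ← h1] at h0
  refine ⟨g, c', M, ?_, ⟨fun b => ?_⟩⟩
  · rw [hM]
    linear_combination -h0
  · by_cases hb : b = 0
    · rw [hb, if_pos rfl, hM]
      ring
    · rw [if_neg hb, add_zero]
      have h2 := key b
      rw [if_neg hb, add_zero, ← h1] at h2
      exact mul_left_cancel₀ hk2 h2

theorem descend {p : ℕ} [NeZero p] (hp : p.Prime) (b : ℕ) : ∀ {f : ZMod p → ℤ} {c M : ℤ},
    Co f c ((p : ℤ) ^ (2 * b) * M) → ∃ (g : ZMod p → ℤ) (c' : ℤ), Co g c' M := by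
  induction b with
  | zero =>
    intro f c M hf
    rw [mul_zero, pow_zero, one_mul] at hf
    exact ⟨f, c, hf⟩
  | succ b ih =>
    intro f c M hf
    have e1 : (p : ℤ) ^ (2 * (b + 1)) * M = (p : ℤ) ^ 2 * ((p : ℤ) ^ (2 * b) * M) := by ring
    rw [e1] at hf
    obtain ⟨g, c', M', h1, h2⟩ := descend_of_dvd hp.one_lt
      (by exact_mod_cast hp.ne_zero : (p : ℤ) ≠ 0) (dvd_diff hp hf) hf
    have hp2 : (p : ℤ) ^ 2 ≠ 0 := pow_ne_zero 2 (by exact_mod_cast hp.ne_zero)
    have h3 := mul_left_cancel₀ hp2 h1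
    rw [← h3] at h2
    exact ih h2

end Ry
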