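import Pool.Agent.Lib.MP_12eb66_co.N2

/-! The twist by the Legendre symbol. -/

set_option linter.unusedSectionVars false

namespace Ry

/-- the Jacobsthal sum -/
theorem legendre_corr {p : ℕ} [Fact p.Prime] (hp2 : p ≠ 2) (b : ZMod p) :
    ∑ y : ZMod p, quadraticChar (ZMod p) y * quadraticChar (ZMod p) (y + b) =
      if b = 0 then (p : ℤ) - 1 else -1 := by
  classical
  have hchar : ringChar (ZMod p) ≠ 2 := by
    rw [ZMod.ringChar_zmod_n]
    exact hp2
  have hsum : ∑ u : ZMod p, quadraticChar (ZMod p) u = 0 := quadraticChar_sum_zero hchar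
  by_cases hb : b = 0
  · rw [if_pos hb]
    have h1 : ∀ y : ZMod p, quadraticChar (ZMod p) y * quadraticChar (ZMod p) (y + b) =
        1 - if y = 0 then 1 else 0 := by
      intro y
      rw [hb, add_zero]
      by_cases hy : y = 0
      · rw [hy, if_pos rfl]
        simp
      · rw [if_neg hy, sub_zero, ← sq]
        exact quadraticChar_sq_one hy
    rw [Finset.sum_congr rfl (fun y _ => h1 y), Finset.sum_sub_distrib]
    simp
  · rw [if_neg hb]
    have h0 : ∑ y : ZMod p, quadraticChar (ZMod p) y * quadraticChar (ZMod p) (y + b) =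
        ∑ y ∈ Finset.univ.erase (0 : ZMod p),
          quadraticChar (ZMod p) y * quadraticChar (ZMod p) (y + b) := by
      rw [← Finset.add_sum_erase _ _ (Finset.mem_univ (0 : ZMod p))]
      simp
    have h1 : ∑ y ∈ Finset.univ.erase (0 : ZMod p),
          quadraticChar (ZMod p) y * quadraticChar (ZMod p) (y + b) =
        ∑ u ∈ Finset.univ.erase (1 : ZMod p), quadraticChar (ZMod p) u := by
      refine Finset.sum_nbij' (fun y => 1 + b * y⁻¹) (fun u => b * (u - 1)⁻¹) ?_ ?_ ?_ ?_ ?_
      · intro y hy
        rw [Finset.mem_erase] at hy ⊢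
        refine ⟨?_, Finset.mem_univ _⟩
        intro h
        have h2 : b * y⁻¹ = 0 := by linear_combination h
        rcases mul_eq_zero.1 h2 with h3 | h3
        · exact hb h3
        · exact hy.1 (inv_eq_zero.1 h3)
      · intro u hu
        rw [Finset.mem_erase] at hu ⊢
        refine ⟨?_, Finset.mem_univ _⟩
        intro h
        rcases mul_eq_zero.1 h with h3 | h3
        · exact hb h3
        · exact hu.1 (sub_eq_zero.1 (inv_eq_zero.1 h3))
      · intro y hy
        rw [Finset.mem_erase] at hy
        have hy0 := hy.1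
        field_simp
        ring_nf
        field_simp
      · intro u hu
        rw [Finset.mem_erase] at hu
        have hu0 : u - 1 ≠ 0 := sub_ne_zero.2 hu.1
        field_simp
        ring
      · intro y hy
        rw [Finset.mem_erase] at hy
        have hy0 := hy.1
        have h2 : y + b = y * (1 + b * y⁻¹) := by
          field_simp
        rw [h2, map_mul, ← mul_assoc, ← sq, quadraticChar_sq_one hy0, one_mul]
    rw [h0, h1]
    have h2 := Finset.add_sum_erase (Finset.univ : Finset (ZMod p))
      (fun u => quadraticChar (ZMod p) u) (Finset.mem_univ (1 : ZMod p))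
    rw [hsum] at h2
    simp only [map_one] at h2
    linarith

theorem twist {p : ℕ} [NeZero p] (hp : p.Prime) (hp2 : p ≠ 2) {f : ZMod p → ℤ} {c N : ℤ}
    (hf : Co f c N) : ∃ (g : ZMod p → ℤ), Co g (-N) ((p : ℤ) * N) := by
  have := Fact.mk hp
  have hchar : ringChar (ZMod p) ≠ 2 := by
    rw [ZMod.ringChar_zmod_n]
    exact hp2
  have hsum : ∑ u : ZMod p, quadraticChar (ZMod p) u = 0 := quadraticChar_sum_zero hchar
  refine ⟨fun x => ∑ y, quadraticChar (ZMod p) y * f (x - y), ⟨fun b => ?_⟩⟩
  have h1 : ∑ x, (∑ y, quadraticChar (ZMod p) y * f (x - y)) *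
      (∑ z, quadraticChar (ZMod p) z * f (x + b - z)) =
      ∑ y, ∑ z, quadraticChar (ZMod p) y * quadraticChar (ZMod p) z *
        ∑ x, f (x - y) * f (x + b - z) := by
    calc ∑ x, (∑ y, quadraticChar (ZMod p) y * f (x - y)) *
          (∑ z, quadraticChar (ZMod p) z * f (x + b - z))
        = ∑ x, ∑ y, ∑ z, quadraticChar (ZMod p) y * quadraticChar (ZMod p) z *
            (f (x - y) * f (x + b - z)) := by
          refine Finset.sum_congr rfl fun x _ => ?_
          rw [Finset.sum_mul_sum]
          refine Finset.sum_congr rfl fun y _ => Finset.sum_congr rfl fun z _ => ?_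
          ring
      _ = _ := by
          rw [Finset.sum_comm]
          refine Finset.sum_congr rfl fun y _ => ?_
          rw [Finset.sum_comm]
          refine Finset.sum_congr rfl fun z _ => ?_
          rw [Finset.mul_sum]
  have h2 : ∀ y z : ZMod p, ∑ x, f (x - y) * f (x + b - z) =
      c + if z = y + b then N else 0 := by
    intro y z
    have h3 := sum_shift (fun x => f x * f (x + (y + b - z))) (-y)
    have h4 : ∀ x : ZMod p, f (x + -y) * f (x + -y + (y + b - z)) = f (x - y) * f (x + b - z) := by
      intro x
      rw [← sub_eq_add_neg]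
      congr 2
      ring
    simp only [h4] at h3
    rw [h3, hf.corr]
    congr 1
    by_cases hz : z = y + b
    · rw [if_pos hz, if_pos (by rw [hz]; ring)]
    · rw [if_neg hz, if_neg (fun h => hz (by linear_combination -h))]
  rw [h1]
  simp only [h2]
  have h3 : ∀ y : ZMod p, ∑ z, quadraticChar (ZMod p) y * quadraticChar (ZMod p) z *
      (c + if z = y + b then N else 0) =
      quadraticChar (ZMod p) y * c * ∑ z, quadraticChar (ZMod p) z +
        N * (quadraticChar (ZMod p) y * quadraticChar (ZMod p) (y + b)) := by
    intro y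
    have h4 : ∀ z, quadraticChar (ZMod p) y * quadraticChar (ZMod p) z *
        (c + if z = y + b then N else 0) =
        quadraticChar (ZMod p) y * c * quadraticChar (ZMod p) z +
          if z = y + b then N * (quadraticChar (ZMod p) y * quadraticChar (ZMod p) (y + b)) else 0 := by
      intro z
      split_ifs with h5
      · rw [h5]
        ring
      · ring
    rw [Finset.sum_congr rfl (fun z _ => h4 z), Finset.sum_add_distrib, ← Finset.mul_sum,
      Finset.sum_ite_eq' Finset.univ (y + b), if_pos (Finset.mem_univ _)]
  rw [Finset.sum_congr rfl (fun y _ => h3 y), Finset.sum_add_distrib, hsum]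
  simp only [mul_zero, Finset.sum_const_zero, zero_add]
  rw [← Finset.mul_sum, legendre_corr hp2]
  split_ifs
  · ring
  · ring

end Ry
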