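import Pool.Agent.Lib.MP_12eb66_co.N3

/-! Counting. -/

set_option linter.unusedSectionVars false

namespace Ry

theorem normalised {p : ℕ} [NeZero p] (hp : p.Prime) (hp2 : p ≠ 2) {f : ZMod p → ℤ} {c m : ℤ}
    (hf : Co f c m) : ∃ (c' S : ℤ), S ^ 2 = m + c' * p ∧ 2 * |S| < p ∧ |S| ≤ m + c' := by
  set S₀ : ℤ := ∑ x, f x with hS₀
  have hp0 : (0 : ℤ) < p := by exact_mod_cast hp.pos
  have hodd : ¬ (2 : ℤ) ∣ p := by
    intro h
    have h1 : 2 ∣ p := by exact_mod_cast h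
    exact hp2 ((Nat.prime_dvd_prime_iff_eq Nat.prime_two hp).1 h1).symm
  obtain ⟨j, hj⟩ : ∃ j : ℤ, 2 * |S₀ - p * j| < p := by
    have h1 := Int.emod_add_mul_ediv S₀ p
    have h2 := Int.emod_nonneg S₀ hp0.ne'
    have h3 := Int.emod_lt_of_pos S₀ hp0
    by_cases h4 : 2 * (S₀ % p) < p
    · refine ⟨S₀ / p, ?_⟩
      have h5 : S₀ - p * (S₀ / p) = S₀ % p := by linear_combination -h1
      rw [h5, abs_of_nonneg h2]
      exact h4
    · refine ⟨S₀ / p + 1, ?_⟩
      have h5 : S₀ - p * (S₀ / p + 1) = S₀ % p - p := by linear_combination -h1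
      rw [h5, abs_of_nonpos (by linarith)]
      have h6 : 2 * (S₀ % p) ≠ p := fun h => hodd ⟨_, h.symm⟩
      omega
  have hg : Co (fun x => f x - j) (c - 2 * j * S₀ + p * j ^ 2) m := by
    constructor
    intro b
    have h1 : ∀ x, (f x - j) * (f (x + b) - j) = f x * f (x + b) - j * f x - j * f (x + b) + j ^ 2 := by
      intro x
      ring
    have h2 : ∑ x, f (x + b) = S₀ := sum_shift f b
    rw [Finset.sum_congr rfl (fun x _ => h1 x), Finset.sum_add_distrib, Finset.sum_sub_distrib,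
      Finset.sum_sub_distrib, ← Finset.mul_sum, ← Finset.mul_sum, hf.corr b, h2, ← hS₀,
      Finset.sum_const, Finset.card_univ, ZMod.card, nsmul_eq_mul]
    ring
  have hS : ∑ x, (f x - j) = S₀ - p * j := by
    rw [Finset.sum_sub_distrib, ← hS₀, Finset.sum_const, Finset.card_univ, ZMod.card, nsmul_eq_mul]
  have h1 := hg.sum_sq
  have h2 := hg.sum_self
  rw [hS, ZMod.card] at h1
  refine ⟨c - 2 * j * S₀ + p * j ^ 2, S₀ - p * j, by linear_combination h1, hj, ?_⟩
  rw [← hS]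
  calc |∑ x, (f x - j)| ≤ ∑ x, |f x - j| := Finset.abs_sum_le_sum_abs _ _
    _ ≤ ∑ x, (f x - j) ^ 2 := by
        refine Finset.sum_le_sum fun x _ => ?_
        rw [← sq_abs]
        have h3 := abs_nonneg (f x - j)
        rcases h3.eq_or_lt with h4 | h4
        · rw [← h4]
          norm_num
        · nlinarith
    _ = m + (c - 2 * j * S₀ + p * j ^ 2) := by linear_combination h2

theorem square_or_le {p m : ℕ} (hm : 0 < m) {c S : ℤ}
    (h1 : S ^ 2 = m + c * p) (h2 : 2 * |S| < p) (h3 : |S| ≤ m + c) :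
    IsSquare m ∨ p ≤ m ^ 2 + m + 1 := by
  by_contra hcon
  push Not at hcon
  obtain ⟨hsq, hlt⟩ := hcon
  have hp : (m : ℤ) ^ 2 + m + 2 ≤ p := by exact_mod_cast hlt
  have hm1 : (1 : ℤ) ≤ m := by exact_mod_cast hm
  have hS0 : 0 ≤ |S| := abs_nonneg S
  have hS2 : |S| ^ 2 = S ^ 2 := sq_abs S
  -- `c ≥ 0`
  have hc0 : 0 ≤ c := by
    by_contra hc
    have : c ≤ -1 := by omega
    nlinarith [sq_nonneg S]
  have hc1 : c ≠ 0 := by
    rintro rfl
    apply hsq
    refine ⟨S.natAbs, ?_⟩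
    zify
    rw [← sq, hS2, h1]
    ring
  have hc2 : 1 ≤ c := by omega
  have e1 : (m : ℤ) + c * p ≤ (m + c) ^ 2 := by
    rw [← h1, ← hS2]
    exact pow_le_pow_left₀ hS0 h3 2
  have e2 : 4 * c < p := by
    have h4 : 4 * ((m : ℤ) + c * p) < p ^ 2 := by
      rw [← h1, ← hS2]
      nlinarith
    by_contra h5
    push Not at h5
    nlinarith
  have e3 : c < m := by
    by_contra h5
    push Not at h5
    nlinarith
  have e4 : (c - 1) * ((m : ℤ) ^ 2 - m) ≤ c * (c - 2) := by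
    nlinarith
  have h6 : c ≠ 1 := by
    rintro rfl
    norm_num at e4
  have h7 : 2 ≤ c := by omega
  have h8 : (m : ℤ) ^ 2 - m < c := by
    by_contra h9
    push Not at h9
    nlinarith
  nlinarith

end Ry
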