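import Pool.Agent.Lib.MP_12eb66_co.N4
import Pool.Agent.Lib.MP_12eb66_co.B9

/-! A prime r of even order modulo p divides m with an even exponent. -/

set_option linter.unusedSectionVars false

namespace Ry
open AddMonoidAlgebra

section
variable {p r : ℕ} [NeZero p] [Fact r.Prime]

/-- the element of the group ring modulo r -/
noncomputable def yy (r : ℕ) (f : ZMod p → ℤ) : AddMonoidAlgebra (ZMod r) (ZMod p × ZMod 1) :=
  ∑ x : ZMod p, single (x, 0) ((f x : ℤ) : ZMod r)

theorem frob_pow (j : ℕ) (y : AddMonoidAlgebra (ZMod r) (ZMod p × ZMod 1)) :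
    y ^ r ^ j = mapDomainRingHom (ZMod r) (nsmulAddMonoidHom (α := ZMod p × ZMod 1) (r ^ j)) y := by
  induction j with
  | zero =>
    rw [pow_zero, pow_one]
    have h : mapDomainRingHom (ZMod r) (nsmulAddMonoidHom (α := ZMod p × ZMod 1) 1) =
        RingHom.id (AddMonoidAlgebra (ZMod r) (ZMod p × ZMod 1)) := by
      apply AddMonoidAlgebra.ringHom_ext
      · intro a
        simp [mapDomainRingHom_apply, mapDomain_single]
      · intro a
        simp [mapDomainRingHom_apply, mapDomain_single]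
    rw [h, RingHom.id_apply]
  | succ j ih =>
    rw [pow_succ, pow_mul, ih, ← map_pow, b9_frob, ← RingHom.comp_apply]
    have h : (mapDomainRingHom (ZMod r) (nsmulAddMonoidHom (α := ZMod p × ZMod 1) (r ^ j))).comp
        (mapDomainRingHom (ZMod r) (nsmulAddMonoidHom (α := ZMod p × ZMod 1) r)) =
        mapDomainRingHom (ZMod r) (nsmulAddMonoidHom (α := ZMod p × ZMod 1) (r ^ j * r)) := by
      apply AddMonoidAlgebra.ringHom_ext
      · intro a
        simp [mapDomainRingHom_apply, mapDomain_single]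
      · intro a
        simp only [mapDomainRingHom_apply, RingHom.comp_apply, mapDomain_single,
          nsmulAddMonoidHom_apply]
        rw [smul_smul]
    rw [h]

theorem yy_coeff (f : ZMod p → ℤ) (x : ZMod p) :
    (yy r f).coeff (x, 0) = ((f x : ℤ) : ZMod r) := by
  unfold yy
  rw [AddMonoidAlgebra.coeff_sum, Finsupp.finsetSum_apply]
  rw [Finset.sum_eq_single x]
  · rw [AddMonoidAlgebra.coeff_single, Finsupp.single_eq_same]
  · intro b _ hb
    rw [AddMonoidAlgebra.coeff_single, Finsupp.single_apply, if_neg]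
    intro h
    exact hb (congrArg Prod.fst h)
  · intro h
    exact absurd (Finset.mem_univ _) h

theorem single_mul_yy (f : ZMod p → ℤ) :
    single (1, 0) (1 : ZMod r) * yy r f = yy r (fun x => f (x - 1)) := by
  unfold yy
  rw [Finset.mul_sum]
  refine Fintype.sum_equiv (Equiv.addRight (1 : ZMod p)) _ _ fun x => ?_
  rw [AddMonoidAlgebra.single_mul_single, Equiv.coe_addRight, one_mul]
  have e1 : ((1, 0) : ZMod p × ZMod 1) + (x, 0) = (x + 1, 0) := by
    refine Prod.ext ?_ (Subsingleton.elim _ _)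
    exact add_comm _ _
  rw [e1]
  simp only [add_sub_cancel_right]

theorem yy_mul_neg (f : ZMod p → ℤ) {c m : ℤ} (hf : Co f c m) {ν : ZMod p × ZMod 1 →+ ZMod p × ZMod 1}
    (hν : ∀ x, ν x = -x) :
    yy r f * mapDomainRingHom (ZMod r) ν (yy r f) =
      yy r (fun _ => c) + single 0 ((m : ℤ) : ZMod r) := by
  have h1 : mapDomainRingHom (ZMod r) ν (yy r f) =
      ∑ z : ZMod p, single (-z, 0) ((f z : ℤ) : ZMod r) := by
    unfold yy
    rw [map_sum]
    refine Finset.sum_congr rfl fun z _ => ?_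
    rw [mapDomainRingHom_apply, mapDomain_single, hν]
    congr 1
    exact Prod.ext rfl (Subsingleton.elim _ _)
  rw [h1]
  unfold yy
  rw [Finset.sum_mul_sum, Finset.sum_comm]
  have h2 : ∀ z : ZMod p, ∑ x : ZMod p, single (x, (0 : ZMod 1)) ((f x : ℤ) : ZMod r) *
      single (-z, (0 : ZMod 1)) ((f z : ℤ) : ZMod r) =
      ∑ b : ZMod p, single (b, (0 : ZMod 1)) ((f z * f (z + b) : ℤ) : ZMod r) := by
    intro z
    rw [← Fintype.sum_equiv (Equiv.addLeft z) _ _ (fun _ => rfl)]
    refine Finset.sum_congr rfl fun b _ => ?_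
    rw [Equiv.coe_addLeft, AddMonoidAlgebra.single_mul_single]
    have e1 : ((z + b, 0) : ZMod p × ZMod 1) + (-z, 0) = (b, 0) := by
      ext
      · simp
      · simp
    rw [e1]
    congr 1
    push_cast
    ring
  rw [Finset.sum_congr rfl (fun z _ => h2 z), Finset.sum_comm]
  have h3 : ∀ b : ZMod p, ∑ z : ZMod p, single (b, (0 : ZMod 1)) ((f z * f (z + b) : ℤ) : ZMod r) =
      single (b, (0 : ZMod 1)) ((c : ℤ) : ZMod r) +
        if b = 0 then single 0 ((m : ℤ) : ZMod r) else 0 := by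
    intro b
    have e2 : ∑ z : ZMod p, single (b, (0 : ZMod 1)) ((f z * f (z + b) : ℤ) : ZMod r) =
        single (b, (0 : ZMod 1)) ((∑ z : ZMod p, f z * f (z + b) : ℤ) : ZMod r) := by
      rw [Int.cast_sum]
      exact (map_sum (AddMonoidAlgebra.singleAddHom (b, (0 : ZMod 1))) _ _).symm
    rw [e2, hf.corr b]
    split_ifs with hb
    · rw [hb, Int.cast_add, AddMonoidAlgebra.single_add]
      rfl
    · rw [add_zero, add_zero]
  rw [Finset.sum_congr rfl (fun b _ => h3 b), Finset.sum_add_distrib]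
  congr 1
  simp

/-- a prime that is self-conjugate modulo p -/
theorem dvd_diff_of_neg_one (hp : p.Prime) (hrp : r ≠ p) {j : ℕ} (hj : (r : ZMod p) ^ j = -1)
    {f : ZMod p → ℤ} {c m : ℤ} (hm : (r : ℤ) ∣ m) (hf : Co f c m) (x y : ZMod p) :
    (r : ℤ) ∣ f x - f y := by
  have hr : r.Prime := Fact.out
  set Y := yy r f with hY
  set G := single ((1 : ZMod p), (0 : ZMod 1)) (1 : ZMod r) * Y - Y with hG
  have hν : ∀ x : ZMod p × ZMod 1, nsmulAddMonoidHom (α := ZMod p × ZMod 1) (r ^ j) x = -x := by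
    intro x
    rw [nsmulAddMonoidHom_apply]
    refine Prod.ext ?_ (Subsingleton.elim _ _)
    change (r ^ j) • x.1 = -x.1
    rw [nsmul_eq_mul, Nat.cast_pow, hj, neg_one_mul]
  have hm0 : ((m : ℤ) : ZMod r) = 0 := (ZMod.intCast_zmod_eq_zero_iff_dvd m r).2 hm
  have hG0 : G * G ^ r ^ j = 0 := by
    rw [frob_pow]
    set Φ := mapDomainRingHom (ZMod r) (nsmulAddMonoidHom (α := ZMod p × ZMod 1) (r ^ j)) with hΦ
    have e1 : G = (single ((1 : ZMod p), (0 : ZMod 1)) (1 : ZMod r) - 1) * Y := by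
      rw [hG, sub_mul, one_mul]
    rw [e1, map_mul]
    have e2 : (single ((1 : ZMod p), (0 : ZMod 1)) (1 : ZMod r) - 1) * Y *
        (Φ (single ((1 : ZMod p), (0 : ZMod 1)) (1 : ZMod r) - 1) * Φ Y) =
        ((single ((1 : ZMod p), (0 : ZMod 1)) (1 : ZMod r) - 1) * (Y * Φ Y)) *
          Φ (single ((1 : ZMod p), (0 : ZMod 1)) (1 : ZMod r) - 1) := by ring
    rw [e2, yy_mul_neg f hf hν, hm0, AddMonoidAlgebra.single_zero, add_zero, sub_mul, one_mul,
      single_mul_yy, sub_self, zero_mul]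
  have hG1 : G = 0 := by
    refine b9_reduced (l := r) (q := p) (w := 1) ?_ (N := r ^ j + 1) G ?_
    · rw [mul_one]
      exact (Nat.coprime_primes hr hp).2 hrp
    · rw [pow_succ', hG0]
  have hstep : ∀ x : ZMod p, ((f (x - 1) : ℤ) : ZMod r) = ((f x : ℤ) : ZMod r) := by
    intro x
    have h1 := congrArg (fun z => AddMonoidAlgebra.coeff z (x, 0)) hG1
    simp only [hG, hY] at h1
    rw [single_mul_yy, AddMonoidAlgebra.coeff_sub, Finsupp.sub_apply, yy_coeff, yy_coeff] at h1
    exact sub_eq_zero.1 h1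
  have hconst : ∀ k : ℕ, ((f (k : ZMod p) : ℤ) : ZMod r) = ((f 0 : ℤ) : ZMod r) := by
    intro k
    induction k with
    | zero => rw [Nat.cast_zero]
    | succ k ih =>
      rw [← ih, ← hstep ((k + 1 : ℕ) : ZMod p)]
      congr 2
      push_cast
      ring
  have hall : ∀ x : ZMod p, ((f x : ℤ) : ZMod r) = ((f 0 : ℤ) : ZMod r) := by
    intro x
    have h1 := hconst x.val
    rwa [ZMod.natCast_zmod_val] at h1
  rw [← ZMod.intCast_zmod_eq_zero_iff_dvd, Int.cast_sub, hall x, hall y, sub_self]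

end

theorem even_factorization {p r : ℕ} [NeZero p] (hp : p.Prime) (hr : r.Prime) (hrp : r ≠ p)
    (hneg : ∃ j : ℕ, (r : ZMod p) ^ j = -1) : ∀ (m : ℕ), 0 < m → ∀ {f : ZMod p → ℤ} {c : ℤ},
    Co f c (m : ℤ) → Even (m.factorization r) := by
  have := Fact.mk hr
  obtain ⟨j, hj⟩ := hneg
  intro m
  induction m using Nat.strong_induction_on with
  | _ m ih =>
    intro hm f c hf
    by_cases hrm : r ∣ m
    · have h1 := dvd_diff_of_neg_one hp hrp hj (m := (m : ℤ)) (by exact_mod_cast hrm) hf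
      obtain ⟨g, c', M, h2, h3⟩ := descend_of_dvd hp.one_lt
        (by exact_mod_cast hr.ne_zero : (r : ℤ) ≠ 0) h1 hf
      have hM0 : 0 < M := by
        have h4 : (0 : ℤ) < m := by exact_mod_cast hm
        rw [h2] at h4
        have h5 : (0 : ℤ) < (r : ℤ) ^ 2 := by
          have : (0 : ℤ) < r := by exact_mod_cast hr.pos
          positivity
        exact (pos_iff_pos_of_mul_pos h4).1 h5
      obtain ⟨M', rfl⟩ := Int.eq_ofNat_of_zero_le hM0.le
      have hM' : 0 < M' := by exact_mod_cast hM0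
      have h4 : m = r ^ 2 * M' := by exact_mod_cast h2
      have hlt : M' < m := by
        rw [h4]
        have h6 : 2 ≤ r := hr.two_le
        have h7 : 2 * 2 ≤ r * r := Nat.mul_le_mul h6 h6
        have h8 : 4 * M' ≤ r ^ 2 * M' := Nat.mul_le_mul_right _ (by rw [sq]; omega)
        omega
      have h5 := ih M' hlt hM' h3
      rw [h4, Nat.factorization_mul (pow_ne_zero 2 hr.ne_zero) hM'.ne', Finsupp.add_apply,
        hr.factorization_pow, Finsupp.single_eq_same]
      exact even_two.add h5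
    · rw [Nat.factorization_eq_zero_of_not_dvd hrm]
      exact Even.zero

/-- the order is odd -/
theorem odd_order {p r m : ℕ} [NeZero p] (hp : p.Prime) (hr : r.Prime) (hrp : r ≠ p)
    (hm : 0 < m) {f : ZMod p → ℤ} {c : ℤ} (hf : Co f c (m : ℤ)) (hodd : Odd (m.factorization r)) :
    Odd (orderOf (r : ZMod p)) := by
  have := Fact.mk hp
  rw [← Nat.not_even_iff_odd]
  intro hev
  apply Nat.not_even_iff_odd.2 hodd
  refine even_factorization hp hr hrp ?_ m hm hf
  obtain ⟨c, hc⟩ := hev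
  refine ⟨c, ?_⟩
  have hu : IsUnit (r : ZMod p) := by
    rw [ZMod.isUnit_iff_coprime]
    exact (Nat.coprime_primes hr hp).2 hrp
  have hfin : 0 < orderOf (r : ZMod p) := by
    obtain ⟨u, hu⟩ := hu
    rw [← hu, orderOf_units]
    exact orderOf_pos u
  have h1 : ((r : ZMod p) ^ c) ^ 2 = 1 := by
    rw [← pow_mul, mul_two, ← hc]
    exact pow_orderOf_eq_one _
  rcases (sq_eq_sq_iff_eq_or_eq_neg (b := (1 : ZMod p))).1 (by rw [h1, one_pow]) with h2 | h2
  · exact absurd h2 (pow_ne_one_of_lt_orderOf (by omega) (by omega))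
  · exact h2

end Ry
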