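import Pool.Agent.Lib.MP_12eb66_co.N5
import Pool.Agent.Lib.MP_12eb66_co.F4

/-! Orders with a nonsquare cofactor. -/

set_option linter.unusedSectionVars false

namespace Ry

/-- reduction to the cofactor -/
theorem cofactor {p a : ℕ} [NeZero p] (hp : p.Prime) (hp2 : p ≠ 2) {f : ZMod p → ℤ} {c m : ℤ}
    (hf : Co f c ((p : ℤ) ^ a * m)) : ∃ (g : ZMod p → ℤ) (c' : ℤ), Co g c' m := by
  rcases Nat.even_or_odd' a with ⟨b, hb | hb⟩
  · rw [hb] at hf
    exact descend hp b hf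
  · obtain ⟨g, hg⟩ := twist hp hp2 hf
    have e1 : (p : ℤ) * ((p : ℤ) ^ a * m) = (p : ℤ) ^ (2 * (b + 1)) * m := by
      rw [hb]
      ring
    rw [e1] at hg
    exact descend hp (b + 1) hg

section
variable {v : ℕ} [NeZero v] {D : Finset (ZMod v)} {l : ℕ}

/-- the image of a difference set in ZMod p -/
theorem exists_Co_prime (hD : ∀ u : ZMod v, u ≠ 0 → ((D ×ˢ D).filter fun r => r.1 - r.2 = u).card = l)
    {p : ℕ} [NeZero p] (hpv : p ∣ v) : ∃ (f : ZMod p → ℤ) (c : ℤ), Co f c ((D.card : ℤ) - l) := by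
  have hπ : Function.Surjective (ZMod.castHom hpv (ZMod p)).toAddMonoidHom :=
    ZMod.castHom_surjective hpv
  obtain ⟨c, hc, -⟩ := fiber_card (ZMod.castHom hpv (ZMod p)).toAddMonoidHom hπ
  exact ⟨_, _, pushforward _ hc D hD⟩

theorem main_norm (hD : ∀ u : ZMod v, u ≠ 0 → ((D ×ˢ D).filter fun r => r.1 - r.2 = u).card = l)
    {p a m : ℕ} (hp : p.Prime) (hp2 : p ≠ 2) (hcard : D.card = l + p ^ a * m) (hpv : p ∣ v) :
    ∃ c S : ℤ, S ^ 2 = m + c * p ∧ 2 * |S| < p ∧ |S| ≤ m + c := by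
  have : NeZero p := ⟨hp.ne_zero⟩
  obtain ⟨f, c, hf⟩ := exists_Co_prime hD hpv
  have e1 : ((D.card : ℤ) - l) = (p : ℤ) ^ a * (m : ℤ) := by
    rw [hcard]
    push_cast
    ring
  rw [e1] at hf
  obtain ⟨g, c', hg⟩ := cofactor hp hp2 hf
  exact normalised hp hp2 hg

theorem main_cofactor (hD : ∀ u : ZMod v, u ≠ 0 → ((D ×ˢ D).filter fun r => r.1 - r.2 = u).card = l)
    {p a m : ℕ} (hp : p.Prime) (hp2 : p ≠ 2) (hpm : ¬ p ∣ m) (hm : 0 < m)
    (hcard : D.card = l + p ^ a * m) (hpv : p ∣ v) :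
    (IsSquare m ∨ p ≤ m ^ 2 + m + 1) ∧
      ∀ r : ℕ, r.Prime → Odd (m.factorization r) → Odd (orderOf (r : ZMod p)) := by
  have : NeZero p := ⟨hp.ne_zero⟩
  obtain ⟨f, c, hf⟩ := exists_Co_prime hD hpv
  have e1 : ((D.card : ℤ) - l) = (p : ℤ) ^ a * (m : ℤ) := by
    rw [hcard]
    push_cast
    ring
  rw [e1] at hf
  obtain ⟨g, c', hg⟩ := cofactor hp hp2 hf
  refine ⟨?_, fun r hr hodd => ?_⟩
  · obtain ⟨c₁, S, h1, h2, h3⟩ := normalised hp hp2 hg
    exact square_or_le hm h1 h2 h3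
  · refine odd_order hp hr ?_ hm hg hodd
    rintro rfl
    rw [Nat.factorization_eq_zero_of_not_dvd hpm] at hodd
    exact absurd hodd (by decide)

/-- a common prime divisor of n and v divides n twice -/
theorem sq_dvd (hD : ∀ u : ZMod v, u ≠ 0 → ((D ×ˢ D).filter fun r => r.1 - r.2 = u).card = l)
    {r n : ℕ} (hr : r.Prime) (hcard : D.card = l + n) (hrn : r ∣ n) (hrv : r ∣ v) : r ^ 2 ∣ n := by
  have h0 : Function.Surjective (AddMonoidHom.id (ZMod v)) := fun x => ⟨x, rfl⟩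
  have hc : ∀ x : ZMod v, (Finset.univ.filter fun y => AddMonoidHom.id (ZMod v) y = x).card = 1 := by
    intro x
    rw [Finset.card_eq_one]
    refine ⟨x, ?_⟩
    ext y
    simp
  have h1 := pushforward (AddMonoidHom.id (ZMod v)) hc D hD
  have h2 := h1.sum_sq
  have h3 : ∑ x : ZMod v, (((D.filter fun y => AddMonoidHom.id (ZMod v) y = x).card : ℕ) : ℤ) =
      D.card := by
    rw [← Nat.cast_sum]
    congr 1
    exact (Finset.card_eq_sum_card_fiberwise (f := AddMonoidHom.id (ZMod v)) (s := D)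
      (t := (Finset.univ : Finset (ZMod v))) fun _ _ => Finset.mem_coe.2 (Finset.mem_univ _)).symm
  rw [h3, ZMod.card, hcard] at h2
  have h4 : (l + n) ^ 2 = l * v + n := by
    zify
    push_cast at h2
    linear_combination h2
  have h5 : r ∣ l + n := by
    refine hr.dvd_of_dvd_pow (n := 2) ?_
    rw [h4]
    exact dvd_add (hrv.mul_left l) hrn
  have h6 : r ∣ l := (Nat.dvd_add_left hrn).1 h5
  have h7 : r ^ 2 ∣ l * v := by
    rw [sq]
    exact Nat.mul_dvd_mul h6 hrv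
  have h8 : r ^ 2 ∣ l * v + n := by
    rw [← h4]
    exact pow_dvd_pow_of_dvd h5 2
  exact (Nat.dvd_add_right h7).1 h8

theorem main_squarefree (hD : ∀ u : ZMod v, u ≠ 0 → ((D ×ˢ D).filter fun r => r.1 - r.2 = u).card = l)
    {p a m : ℕ} (hp : p.Prime) (hpm : ¬ p ∣ m) (hm : 2 ≤ m) (hsf : Squarefree m)
    (hpb : p = 2 ∨ m ^ 2 + m + 1 < p) (hcard : D.card = l + p ^ a * m) :
    Nat.Coprime (p ^ a * m) v := by
  have hnsq : ¬ IsSquare m := by
    rintro ⟨x, hx⟩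
    have h1 : IsUnit x := hsf x ⟨1, by rw [mul_one]; exact hx⟩
    rw [Nat.isUnit_iff] at h1
    rw [h1] at hx
    omega
  have hcop : (p ^ a).Coprime m :=
    Nat.Coprime.pow_left a ((Nat.Prime.coprime_iff_not_dvd hp).2 hpm)
  rw [Nat.coprime_iff_gcd_eq_one]
  by_contra hne
  obtain ⟨r, hr, hrd⟩ := Nat.exists_prime_and_dvd hne
  have hrn : r ∣ p ^ a * m := hrd.trans (Nat.gcd_dvd_left _ _)
  have hrv : r ∣ v := hrd.trans (Nat.gcd_dvd_right _ _)
  rcases (Nat.Prime.dvd_mul hr).1 hrn with h | h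
  · have hrp : r = p := (Nat.prime_dvd_prime_iff_eq hr hp).1 (hr.dvd_of_dvd_pow h)
    subst hrp
    by_cases h2 : r = 2
    · subst h2
      exact hnsq (isSquare_of_coprime_mul hcop (main_even hD hrv hcard))
    · rcases hpb with h3 | h3
      · exact h2 h3
      · rcases (main_cofactor hD hr h2 hpm (by omega) hcard hrv).1 with h4 | h4
        · exact hnsq h4
        · omega
  · have h1 : r ^ 2 ∣ p ^ a * m := sq_dvd hD hr hcard hrn hrv
    have h2 : (r ^ 2).Coprime (p ^ a) := by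
      refine Nat.Coprime.pow 2 a ?_
      rw [Nat.coprime_primes hr hp]
      rintro rfl
      exact hpm h
    have h3 : r ^ 2 ∣ m := h2.dvd_of_dvd_mul_left h1
    have h4 : IsUnit r := hsf r (by rw [← sq]; exact h3)
    rw [Nat.isUnit_iff] at h4
    exact hr.ne_one h4

end

end Ry
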