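import Pool.Agent.Lib.MP_12eb66_co.Alg

/-! Row ry-NA1. Proof. A = span {α, p^a}, B = span {β, p^a}. A * B <= span {p^a} (products of generators: α β, α p^a, β p^a,
p^a p^a are all divisible by p^a; Ideal.mul_le or Ideal.span_mul_span). A ≠ ⊥ (contains p^a ≠ 0). A is the product of its
normalizedFactors (UniqueFactorizationMonoid; Ideal.prod_normalizedFactors_eq_self); every factor P is prime and contains A (dvd), so
p^a ∈ P and p ∈ P (IsPrime.mem_of_pow_mem). So Ideal.map σ P ≤ P (for x in P: σ x = (σ x - x) + x ∈ P), and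
Ideal.map σ A = product of the Ideal.map σ P ≤ product of the P = A (Multiset induction, Ideal.map_mul, Ideal.mul_mono).
So σ α ∈ A, β ∈ B, σ α * β ∈ A * B ≤ span {p^a}. -/

namespace Ry

private theorem NA1_map_prod {R : Type*} [CommRing R] (σ : R →+* R) (s : Multiset (Ideal R))
    (h : ∀ P ∈ s, Ideal.map σ P ≤ P) : Ideal.map σ s.prod ≤ s.prod := by
  induction s using Multiset.induction_on with
  | empty => simp
  | cons P s ih =>
    rw [Multiset.prod_cons, Ideal.map_mul]
    exact Ideal.mul_mono (h P (Multiset.mem_cons_self P s))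
      (ih fun Q hQ => h Q (Multiset.mem_cons_of_mem hQ))

theorem dvd_sigma_mul {R : Type*} [CommRing R] [IsDedekindDomain R] {p a : ℕ} (hp : (p : R) ≠ 0) (σ : R →+* R)
    (hσ : ∀ P : Ideal R, P.IsPrime → (p : R) ∈ P → ∀ x, σ x - x ∈ P) {α β : R} (h : (p : R) ^ a ∣ α * β) :
    (p : R) ^ a ∣ σ α * β := by
  classical
  have hAB : Ideal.span {α, (p : R) ^ a} * Ideal.span {β, (p : R) ^ a} ≤
      Ideal.span {(p : R) ^ a} := by
    rw [Ideal.mul_le]
    intro r hr s hs
    obtain ⟨x, y, rfl⟩ := Ideal.mem_span_pair.1 hr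
    obtain ⟨z, w, rfl⟩ := Ideal.mem_span_pair.1 hs
    obtain ⟨c, hc⟩ := h
    rw [Ideal.mem_span_singleton]
    refine ⟨x * z * c + x * α * w + y * z * β + y * w * (p : R) ^ a, ?_⟩
    linear_combination x * z * hc
  have hA0 : Ideal.span {α, (p : R) ^ a} ≠ ⊥ := by
    intro h0
    have h1 : (p : R) ^ a ∈ Ideal.span {α, (p : R) ^ a} := Ideal.subset_span (by simp)
    rw [h0, Ideal.mem_bot] at h1
    exact pow_ne_zero a hp h1
  have hmap : Ideal.map σ (Ideal.span {α, (p : R) ^ a}) ≤ Ideal.span {α, (p : R) ^ a} := by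
    rw [← Ideal.prod_normalizedFactors_eq_self hA0]
    refine NA1_map_prod σ _ fun P hP => ?_
    have hprime : P.IsPrime :=
      Ideal.isPrime_of_prime (UniqueFactorizationMonoid.prime_of_normalized_factor P hP)
    have hle : Ideal.span {α, (p : R) ^ a} ≤ P :=
      Ideal.le_of_dvd (UniqueFactorizationMonoid.dvd_of_mem_normalizedFactors hP)
    have hpP : (p : R) ∈ P :=
      hprime.mem_of_pow_mem a (hle (Ideal.subset_span (by simp)))
    rw [Ideal.map_le_iff_le_comap]
    intro x hx
    have h1 := P.add_mem (hσ P hprime hpP x) hx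
    rwa [sub_add_cancel] at h1
  have h1 : σ α ∈ Ideal.span {α, (p : R) ^ a} :=
    hmap (Ideal.mem_map_of_mem σ (Ideal.subset_span (by simp)))
  have h2 : β ∈ Ideal.span {β, (p : R) ^ a} := Ideal.subset_span (by simp)
  exact Ideal.mem_span_singleton.1 (hAB (Ideal.mul_mem_mul h1 h2))

end Ry
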