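import Pool.Agent.Lib.MP_12eb66_co.Alg

/-! Row ry-NA2. Proof. The automorphism of K with ζ -> ζ^T: IsCyclotomicExtension.autEquivPow, or IsPrimitiveRoot.autToPow, or the
power basis (IsPrimitiveRoot.powerBasis) and `IsCyclotomicExtension.fromZetaAut`; any K-automorphism / Q-algebra endomorphism restricts to 𝓞 K
(RingOfIntegers.mapRingHom / mapAlgHom / mapRingEquiv). Second part: 𝓞 K is generated by ζ over ℤ
(IsCyclotomicExtension.Rat.isIntegralClosure_adjoin_singleton, integralPowerBasis, `Algebra.adjoin ℤ {ζ} = ⊤`); the set of x with σ x - x ∈ P is a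
subring (σ (x y) - x y = σ x (σ y - y) + y (σ x - x)); it contains ζ: σ ζ - ζ = ζ (ζ^(T-1) - 1), w ∣ T - 1 (T ≥ 1 as T is coprime to
p^s w; if T = 0 then p^s w = 1 and everything is trivial: ζ = 1), so η = ζ^(T-1) has η^(p^s) = 1 and
(η - 1)^(p^s) = η^(p^s) - 1 mod p (`sub_pow_char_pow` in the ring 𝓞 K / P of characteristic p), so (η - 1)^(p^s) ∈ P and η - 1 ∈ P. -/

open NumberField

namespace Ry

theorem exists_sigma {p s w : ℕ} (hp : p.Prime) (hw : 0 < w) {K : Type} [Field K] [NumberField K]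
    [IsCyclotomicExtension {p ^ s * w} ℚ K] {ζ : 𝓞 K} (hζ : IsPrimitiveRoot ζ (p ^ s * w)) {T : ℕ}
    (hT : T.Coprime (p ^ s * w)) (hTw : T ≡ 1 [MOD w]) :
    ∃ σ : 𝓞 K →+* 𝓞 K, σ ζ = ζ ^ T ∧ ∀ P : Ideal (𝓞 K), P.IsPrime → (p : 𝓞 K) ∈ P → ∀ x, σ x - x ∈ P := by
  classical
  have : Fact p.Prime := ⟨hp⟩
  have hn : 0 < p ^ s * w := Nat.mul_pos (pow_pos hp.pos s) hw
  have : NeZero (p ^ s * w) := ⟨hn.ne'⟩
  have hζK : IsPrimitiveRoot (ζ : K) (p ^ s * w) :=
    hζ.map_of_injective (f := algebraMap (𝓞 K) K) RingOfIntegers.coe_injective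
  have hcyc : Polynomial.aeval ((ζ : K) ^ T) (minpoly ℚ (hζK.powerBasis ℚ).gen) = 0 := by
    rw [hζK.powerBasis_gen ℚ, ← Polynomial.cyclotomic_eq_minpoly_rat hζK hn, Polynomial.aeval_def,
      Polynomial.eval₂_eq_eval_map, Polynomial.map_cyclotomic]
    exact (hζK.pow_of_coprime T hT).isRoot_cyclotomic hn
  obtain ⟨φ, hφ⟩ : ∃ φ : K →ₐ[ℚ] K, φ (ζ : K) = (ζ : K) ^ T := by
    refine ⟨(hζK.powerBasis ℚ).lift ((ζ : K) ^ T) hcyc, ?_⟩
    have h := (hζK.powerBasis ℚ).lift_gen _ hcyc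
    rwa [hζK.powerBasis_gen ℚ] at h
  have hσ : RingOfIntegers.mapRingHom (φ : K →+* K) ζ = ζ ^ T := by
    apply RingOfIntegers.coe_injective
    rw [map_pow]
    exact hφ
  refine ⟨RingOfIntegers.mapRingHom (φ : K →+* K), hσ, ?_⟩
  generalize RingOfIntegers.mapRingHom (φ : K →+* K) = σ at hσ
  intro P hP hpP
  have hζP : ζ ^ T - ζ ∈ P := by
    rcases Nat.eq_zero_or_pos T with h0 | hT1
    · rw [h0] at hT
      have h1 : p ^ s * w = 1 := (Nat.coprime_zero_left _).mp hT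
      rw [h1] at hζ
      have h2 : ζ = 1 := IsPrimitiveRoot.one_right_iff.mp hζ
      rw [h2, one_pow, sub_self]
      exact P.zero_mem
    · obtain ⟨k, hk⟩ := (Nat.modEq_iff_dvd' hT1).mp hTw.symm
      have h1 : (ζ ^ (T - 1)) ^ (p ^ s) = 1 := by
        rw [← pow_mul, hk, show w * k * p ^ s = (p ^ s * w) * k by ring, pow_mul, hζ.pow_eq_one,
          one_pow]
      have h2 : ζ ^ (T - 1) - 1 ∈ P := by
        have : CharP (𝓞 K ⧸ P) p := by
          rw [CharP.charP_iff_prime_eq_zero hp]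
          have h3 := (Ideal.Quotient.eq_zero_iff_mem (I := P)).mpr hpP
          rwa [map_natCast] at h3
        rw [← Ideal.Quotient.eq_zero_iff_mem, map_sub, map_one]
        have h4 := sub_pow_char_pow (R := 𝓞 K ⧸ P) (p := p) (n := s)
          (Ideal.Quotient.mk P (ζ ^ (T - 1))) 1
        rw [← map_pow, h1, map_one, one_pow, sub_self] at h4
        exact eq_zero_of_pow_eq_zero h4
      have h3 : ζ ^ T - ζ = ζ * (ζ ^ (T - 1) - 1) := by
        rw [mul_sub, mul_one, ← pow_succ', Nat.sub_add_cancel hT1]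
      rw [h3]
      exact P.mul_mem_left _ h2
  have htop : Algebra.adjoin ℤ {ζ} = ⊤ := by
    have h := IsCyclotomicExtension.Rat.adjoin_singleton_eq_top hζK
    have e : hζK.toInteger = ζ := RingOfIntegers.coe_injective rfl
    rwa [e] at h
  intro x
  have hx : x ∈ Algebra.adjoin ℤ {ζ} := by
    rw [htop]
    exact Algebra.mem_top
  induction hx using Algebra.adjoin_induction with
  | mem y hy =>
    rw [Set.mem_singleton_iff] at hy
    rw [hy, hσ]
    exact hζP
  | algebraMap r =>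
    rw [eq_intCast, map_intCast, sub_self]
    exact P.zero_mem
  | add a b _ _ ha hb =>
    rw [map_add, add_sub_add_comm]
    exact P.add_mem ha hb
  | mul a b _ _ ha hb =>
    rw [map_mul, show σ a * σ b - a * b = σ a * (σ b - b) + b * (σ a - a) by ring]
    exact P.add_mem (P.mul_mem_left _ hb) (P.mul_mem_left _ ha)

end Ry
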