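import Pool.Agent.Lib.MP_12eb66_co.NA1
import Pool.Agent.Lib.MP_12eb66_co.NA2
import Pool.Agent.Lib.MP_12eb66_co.NA3
import Pool.Agent.Lib.MP_12eb66_co.NA4

/-! Row ry-NA5. Proof. K = CyclotomicField (q * w) ℚ (q = p^s), ζ ∈ 𝓞 K a primitive root of order q w, η = ζ^w (order q), ξ = ζ^q (order w).
For j : ZMod w let χ g = η^g.1.val * ξ^((j * g.2).val) (an additive character of G: χ (g + g') = χ g χ g', since η^q = 1, ξ^w = 1) and let Φ x = ∑ g, x.coeff g * χ g; Φ (x * y) = Φ x * Φ y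
(coeff_mul' and reindexing). α = Φ (el d), β = Φ (bar (el d)). χ is not trivial (χ (1,0) = η ≠ 1 as q > 1), so ∑ g, χ g = 0 and Co.eq gives
α β = n = p^a m. Take T : ℕ with T = t mod q, T = 1 mod w (Nat.chineseRemainder, q and w coprime), T coprime to q w, σ from exists_sigma. σ η = η^T, σ ξ = ξ^T = ξ, so
σ (χ g) = χ (t g.1, g.2) and σ α = Φ (mu t (el d)). dvd_sigma_mul: p^a ∣ σ α * β = Φ (mu t (el d) * bar (el d)). This for all j: dvd_fiber and
coeff_congr with F = coefficients of mu t (el d) * bar (el d). -/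

open NumberField

namespace Ry

section
variable {R : Type*} [CommRing R] {q w : ℕ} [NeZero q] [NeZero w]

/-- the value of an element of the group ring at a function `χ` -/
private noncomputable def ev (χ : ZMod q × ZMod w → R) (x : AA q w) : R :=
  ∑ g, ((x.coeff g : ℤ) : R) * χ g

private theorem ev_mul {χ : ZMod q × ZMod w → R} (hχ : ∀ g g', χ (g + g') = χ g * χ g')
    (x y : AA q w) : ev χ (x * y) = ev χ x * ev χ y := by
  unfold ev
  rw [Finset.sum_mul]
  have h1 : ∀ g, (((x * y).coeff g : ℤ) : R) * χ g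
      = ∑ h, ((x.coeff h : ℤ) : R) * χ h * (((y.coeff (g - h) : ℤ) : R) * χ (g - h)) := by
    intro g
    rw [coeff_mul', Int.cast_sum, Finset.sum_mul]
    refine Finset.sum_congr rfl fun h _ => ?_
    have h2 : χ g = χ h * χ (g - h) := by rw [← hχ, add_sub_cancel]
    rw [h2, Int.cast_mul]
    ring
  rw [Finset.sum_congr rfl fun g _ => h1 g, Finset.sum_comm]
  refine Finset.sum_congr rfl fun h _ => ?_
  rw [← Finset.mul_sum]
  congr 1
  exact Fintype.sum_equiv (Equiv.subRight h) _ _ fun g => rfl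

private theorem ev_co {χ : ZMod q × ZMod w → R} (hχ1 : χ 0 = 1) (hχs : ∑ g, χ g = 0)
    {d : ZMod q × ZMod w → ℤ} {lam n : ℤ} (h : Co d lam n) :
    ev χ (el d * bar (el d)) = (n : R) := by
  rw [h.eq]
  unfold ev
  have h1 : ∀ g : ZMod q × ZMod w, (((((n : AA q w) + (lam : AA q w) * JJ q w).coeff g : ℤ)) : R) * χ g
      = (if g = 0 then (n : R) else 0) * χ g + (lam : R) * χ g := by
    intro g
    rw [coeff_add', coeff_intCast', coeff_intCast_mul, coeff_JJ, mul_one, Int.cast_add, add_mul]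
    congr 2
    split_ifs <;> simp
  rw [Finset.sum_congr rfl fun g _ => h1 g, Finset.sum_add_distrib, ← Finset.mul_sum, hχs,
    mul_zero, add_zero, Finset.sum_eq_single 0]
  · simp [hχ1]
  · intro g _ hg
    simp [hg]
  · intro h0
    exact absurd (Finset.mem_univ _) h0

private theorem ev_mu (χ χ' : ZMod q × ZMod w → R) (t : (ZMod q)ˣ)
    (h : ∀ g : ZMod q × ZMod w, χ' g = χ ((t : ZMod q) * g.1, g.2)) (x : AA q w) :
    ev χ' x = ev χ (mu (t : ZMod q) x) := by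
  unfold ev
  refine Fintype.sum_equiv ((Units.mulLeft t).prodCongr (Equiv.refl (ZMod w))) _ _ fun g => ?_
  show _ = (((mu (t : ZMod q) x).coeff ((t : ZMod q) * g.1, g.2) : ℤ) : R) *
    χ ((t : ZMod q) * g.1, g.2)
  rw [coeff_mu, h]

end

theorem nt {p s q w : ℕ} [NeZero q] [NeZero w] (hp : p.Prime) (hs : 0 < s) (hq : q = p ^ s) (hpw : ¬ p ∣ w)
    {d : ZMod q × ZMod w → ℤ} {lam n : ℤ} (h : Co d lam n) {a m : ℕ} (hn : n = (p : ℤ) ^ a * m) (t : (ZMod q)ˣ)
    (g : ZMod q × ZMod w) {c : ZMod q} (hc : c ∈ P1 p q) :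
    (p : ℤ) ^ a ∣ (mu (t : ZMod q) (el d) * bar (el d)).coeff (g.1 + c, g.2) -
      (mu (t : ZMod q) (el d) * bar (el d)).coeff g := by
  subst hq
  have hw0 : 0 < w := Nat.pos_of_ne_zero (NeZero.ne w)
  have hq1 : 1 < p ^ s := Nat.one_lt_pow hs.ne' hp.one_lt
  have hcop : (p ^ s).Coprime w := Nat.Coprime.pow_left s ((hp.coprime_iff_not_dvd).2 hpw)
  have : NeZero (p ^ s * w) := ⟨Nat.mul_ne_zero (NeZero.ne _) (NeZero.ne _)⟩
  let K := CyclotomicField (p ^ s * w) ℚ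
  have : IsCyclotomicExtension {p ^ s * w} ℚ K := CyclotomicField.isCyclotomicExtension _ ℚ
  have : NumberField K := IsCyclotomicExtension.numberField {p ^ s * w} ℚ K
  obtain ⟨ζ, hζ⟩ : ∃ ζ : 𝓞 K, IsPrimitiveRoot ζ (p ^ s * w) :=
    ⟨_, (IsCyclotomicExtension.zeta_spec (p ^ s * w) ℚ K).toInteger_isPrimitiveRoot⟩
  have hη : IsPrimitiveRoot (ζ ^ w) (p ^ s) :=
    hζ.pow (Nat.pos_of_ne_zero (NeZero.ne _)) (mul_comm _ _)
  have hξ : IsPrimitiveRoot (ζ ^ (p ^ s)) w :=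
    hζ.pow (Nat.pos_of_ne_zero (NeZero.ne _)) rfl
  set η : 𝓞 K := ζ ^ w with hηd
  set ξ : 𝓞 K := ζ ^ (p ^ s) with hξd
  obtain ⟨T, hT1, hT2⟩ := Nat.chineseRemainder hcop (t : ZMod (p ^ s)).val 1
  have hTc : T.Coprime (p ^ s * w) := by
    refine Nat.Coprime.mul_right ?_ ?_
    · show Nat.gcd T (p ^ s) = 1
      rw [hT1.gcd_eq]
      exact ZMod.val_coe_unit_coprime t
    · show Nat.gcd T w = 1
      rw [hT2.gcd_eq]
      exact Nat.gcd_one_left w
  obtain ⟨σ, hσζ, hσ⟩ := exists_sigma hp hw0 hζ hTc hT2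
  have hση : σ η = η ^ T := by
    rw [hηd, map_pow, hσζ]
    exact pow_right_comm ζ T w
  have hσξ : σ ξ = ξ := by
    have h1 : σ ξ = ξ ^ T := by
      rw [hξd, map_pow, hσζ]
      exact pow_right_comm ζ T (p ^ s)
    rw [h1]
    have h2 : T % w = 1 % w := hT2
    rw [pow_eq_pow_mod T hξ.pow_eq_one, h2, ← pow_eq_pow_mod 1 hξ.pow_eq_one, pow_one]
  let ψ : AddChar (ZMod (p ^ s)) (𝓞 K) := AddChar.zmodChar (p ^ s) hη.pow_eq_one
  let φ : AddChar (ZMod w) (𝓞 K) := AddChar.zmodChar w hξ.pow_eq_one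
  have hψ : ∀ x, ψ x = η ^ x.val := fun x => AddChar.zmodChar_apply hη.pow_eq_one x
  have hφ : ∀ x, φ x = ξ ^ x.val := fun x => AddChar.zmodChar_apply hξ.pow_eq_one x
  have hσψ : ∀ x, σ (ψ x) = ψ ((t : ZMod (p ^ s)) * x) := by
    intro x
    have h1 : ψ ((t : ZMod (p ^ s)) * x) = η ^ (T * x.val) := by
      have h2 : ((T * x.val : ℕ) : ZMod (p ^ s)) = (t : ZMod (p ^ s)) * x := by
        rw [Nat.cast_mul, ZMod.natCast_zmod_val, (ZMod.natCast_eq_natCast_iff _ _ _).2 hT1,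
          ZMod.natCast_zmod_val]
      rw [← h2]
      exact AddChar.zmodChar_apply' hη.pow_eq_one _
    rw [h1, hψ, map_pow, hση, ← pow_mul]
  have hσφ : ∀ y, σ (φ y) = φ y := by
    intro y
    rw [hφ, map_pow, hσξ]
  have hψs : ∑ x, ψ x = 0 := by
    rw [AddChar.sum_eq_zero_iff_ne_zero]
    intro h0
    have h1 : ψ 1 = 1 := by rw [h0]; rfl
    rw [hψ] at h1
    have : Fact (1 < p ^ s) := ⟨hq1⟩
    rw [ZMod.val_one, pow_one] at h1
    exact hη.ne_one hq1 h1
  have hp0 : (p : 𝓞 K) ≠ 0 := by exact_mod_cast hp.ne_zero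
  have key : ∀ j : ZMod w, (p : 𝓞 K) ^ a ∣ ∑ g : ZMod (p ^ s) × ZMod w,
      (((mu (t : ZMod (p ^ s)) (el d) * bar (el d)).coeff g : ℤ) : 𝓞 K) *
        (η ^ g.1.val * ξ ^ (j * g.2).val) := by
    intro j
    let χ : ZMod (p ^ s) × ZMod w → 𝓞 K := fun g => ψ g.1 * φ (j * g.2)
    have hχ : ∀ g g', χ (g + g') = χ g * χ g' := by
      intro g g'
      simp only [χ, Prod.fst_add, Prod.snd_add, mul_add, AddChar.map_add_eq_mul]
      ring
    have hχ1 : χ 0 = 1 := by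
      simp only [χ, Prod.fst_zero, Prod.snd_zero, mul_zero, AddChar.map_zero_eq_one, mul_one]
    have hχs : ∑ g, χ g = 0 := by
      simp only [χ]
      rw [Fintype.sum_prod_type]
      simp only [← Finset.mul_sum]
      rw [← Finset.sum_mul, hψs, zero_mul]
    have h1 : (p : 𝓞 K) ^ a ∣ ev χ (el d) * ev χ (bar (el d)) := by
      rw [← ev_mul hχ, ev_co hχ1 hχs h, hn]
      push_cast
      exact dvd_mul_right _ _
    have h2 := dvd_sigma_mul hp0 σ hσ h1
    have h3 : σ (ev χ (el d)) = ev χ (mu (t : ZMod (p ^ s)) (el d)) := by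
      rw [← ev_mu χ (fun g => σ (χ g)) t]
      · unfold ev
        rw [map_sum]
        refine Finset.sum_congr rfl fun g _ => ?_
        rw [map_mul, map_intCast]
      · intro g
        simp only [χ, map_mul, hσψ, hσφ]
    rw [h3, ← ev_mul hχ] at h2
    unfold ev at h2
    simp only [χ, hψ, hφ] at h2
    exact h2
  have h4 := dvd_fiber hp hpw hξ a
    (fun g => (mu (t : ZMod (p ^ s)) (el d) * bar (el d)).coeff g) key g.2
  exact coeff_congr hp hs rfl hη a
    (fun x => (mu (t : ZMod (p ^ s)) (el d) * bar (el d)).coeff (x, g.2)) h4 g.1 hc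


end Ry
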