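import Pool.Agent.Lib.MP_12eb66_co.S2

/-! The case of eigenvalue 1: the number kappa (proved). -/

set_option linter.unusedSectionVars false

namespace Ry

section
variable {p w : ℕ} [NeZero p] [NeZero w] {d : ZMod p × ZMod w → ℤ} {lam n : ℤ} {t : (ZMod p)ˣ} {y0 : ZMod w}

/-- number of i < p - 1 with i y0 = 0 -/
def kap (p : ℕ) {w : ℕ} (y0 : ZMod w) : ℕ := ((Finset.range (p - 1)).filter fun i => i • y0 = 0).card

theorem del_pow (hrel : ∀ x y, del p d (x, y) = 1 * del p d (t * x, y - y0)) (i : ℕ) (x : ZMod p) (y : ZMod w) :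
    del p d (x, y) = del p d (((t ^ i : (ZMod p)ˣ) : ZMod p) * x, y - i • y0) := by
  induction i with
  | zero => simp
  | succ i ih =>
    rw [ih, hrel, one_mul]
    congr 2
    · push_cast
      ring
    · rw [succ_nsmul]
      abel

theorem del_zero_add (hrel : ∀ x y, del p d (x, y) = 1 * del p d (t * x, y - y0)) (i : ℕ) (y : ZMod w) :
    del p d (0, y + i • y0) = del p d (0, y) := by
  have h1 := del_pow hrel i 0 (y + i • y0)
  rw [mul_zero, add_sub_cancel_right] at h1
  exact h1

theorem del_tpow (hrel : ∀ x y, del p d (x, y) = 1 * del p d (t * x, y - y0)) (i : ℕ) (y : ZMod w) :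
    del p d (((t ^ i : (ZMod p)ˣ) : ZMod p), y) = del p d (1, y + i • y0) := by
  have h1 := del_pow hrel i 1 (y + i • y0)
  rw [mul_one, add_sub_cancel_right] at h1
  exact h1.symm

theorem period (hp : p.Prime) (h : Co d lam n) (hn : 0 < n)
    (hrel : ∀ x y, del p d (x, y) = 1 * del p d (t * x, y - y0)) : (p - 1) • y0 = 0 := by
  have := Fact.mk hp
  by_contra hne
  have h1 : ∀ g : ZMod p × ZMod w, del p d (g + (0, (p - 1) • y0)) = del p d g := by
    rintro ⟨x, y⟩
    have h2 := del_pow hrel (p - 1) x (y + (p - 1) • y0)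
    rw [ZMod.units_pow_card_sub_one_eq_one, add_sub_cancel_right] at h2
    simpa using h2
  have h2 := h.del_del_one hp (0, (p - 1) • y0)
  have h3 := h.del_del_one hp 0
  simp only [h1] at h2
  simp only [add_zero] at h3
  rw [h3] at h2
  have h4 : ((0 : ZMod p), (p - 1) • y0) ≠ 0 := by
    intro h5
    exact hne (congrArg Prod.snd h5)
  rw [if_neg h4, if_neg hne] at h2
  simp only [if_true, Prod.snd_zero] at h2
  have hp1 : (1 : ℤ) < p := by exact_mod_cast hp.one_lt
  have h5 : (p : ℤ) * ((p - 1) * n) > 0 := by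
    apply mul_pos (by linarith)
    exact mul_pos (by linarith) hn
  have h6 : (p : ℤ) * (p * n - n) = p * ((p - 1) * n) := by ring
  rw [h6] at h2
  simp at h2
  rcases h2 with h2 | h2 | h2
  · exact hp.ne_zero h2
  · linarith
  · linarith

theorem sum_units (hp : p.Prime) (ht : ∀ u : (ZMod p)ˣ, ∃ i : ℕ, t ^ i = u) (f : ZMod p → ℤ) :
    ∑ x, f x = f 0 + ∑ i ∈ Finset.range (p - 1), f ((t ^ i : (ZMod p)ˣ) : ZMod p) := by
  classical
  have := Fact.mk hp
  have ho : orderOf t = p - 1 := by
    rw [orderOf_eq_card_of_forall_mem_powers (fun u => ht u), Nat.card_eq_fintype_card, ZMod.card_units]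
  rw [← Finset.add_sum_erase _ _ (Finset.mem_univ (0 : ZMod p))]
  congr 1
  symm
  refine Finset.sum_nbij (fun i => ((t ^ i : (ZMod p)ˣ) : ZMod p)) ?_ ?_ ?_ ?_
  · intro i _
    simp only [Finset.mem_erase, Finset.mem_univ, and_true]
    exact (t ^ i).ne_zero
  · intro i hi j hj hij
    rw [Finset.mem_coe, Finset.mem_range] at hi hj
    have h1 : t ^ i = t ^ j := Units.ext hij
    exact pow_injOn_Iio_orderOf (by rw [ho]; exact hi) (by rw [ho]; exact hj) h1
  · intro x hx
    rw [Finset.mem_coe, Finset.mem_erase] at hx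
    obtain ⟨u, rfl⟩ := unit_of_ne hp hx.1
    obtain ⟨i, rfl⟩ := ht u
    refine ⟨i % (p - 1), ?_, ?_⟩
    · rw [Finset.mem_coe, Finset.mem_range]
      apply Nat.mod_lt
      have := hp.one_lt
      omega
    · simp only
      congr 1
      rw [← ho, pow_mod_orderOf]
  · intro i _; rfl

theorem main_id (hp : p.Prime) (h : Co d lam n) (ht : ∀ u : (ZMod p)ˣ, ∃ i : ℕ, t ^ i = u)
    (hrel : ∀ x y, del p d (x, y) = 1 * del p d (t * x, y - y0)) :
    ∑ y, del p d (0, y) ^ 2 = kap p y0 * (p - 1) * n ∧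
      p * ∑ y, (d (1, y) - d (0, y)) ^ 2 = (1 + kap p y0) * n := by
  have hp0 : (p : ℤ) ≠ 0 := by exact_mod_cast hp.ne_zero
  have hp1 : (p : ℤ) - 1 ≠ 0 := by
    have := hp.one_lt
    have h2 : (1 : ℤ) < p := by exact_mod_cast this
    omega
  have hcast : ((p - 1 : ℕ) : ℤ) = p - 1 := by rw [Nat.cast_sub hp.one_lt.le]; simp
  set c0 := ∑ y, del p d (0, y) ^ 2 with hc0
  set c1 := ∑ y, del p d (0, y) * del p d (1, y) with hc1
  set V : ℕ → ℤ := fun i => ∑ y, del p d (1, y) * del p d (1, y + i • y0) with hV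
  -- (4)
  have h4 : ∀ i : ℕ, c0 + (p - 1) * V i = if i • y0 = 0 then p * (p - 1) * n else 0 := by
    intro i
    have e1 := h.del_del_one hp (0, i • y0)
    rw [Fintype.sum_prod_type, sum_units hp ht] at e1
    simp only [Prod.mk_add_mk, add_zero] at e1
    have e2 : ∀ j : ℕ, ∑ y, del p d (((t ^ j : (ZMod p)ˣ) : ZMod p), y) *
        del p d (((t ^ j : (ZMod p)ˣ) : ZMod p), y + i • y0) = V i := by
      intro j
      simp only [del_tpow hrel, hV]
      rw [← sum_shift (fun y => del p d (1, y) * del p d (1, y + i • y0)) (j • y0)]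
      refine Finset.sum_congr rfl fun y _ => ?_
      congr 3
      abel
    have e3 : ∑ y, del p d (0, y) * del p d (0, y + i • y0) = c0 := by
      simp only [del_zero_add hrel, hc0, sq]
    rw [e3, Finset.sum_congr rfl (fun j _ => e2 j), Finset.sum_const, Finset.card_range, nsmul_eq_mul, hcast] at e1
    rw [e1]
    by_cases hi : i • y0 = 0
    · rw [hi]
      simp only [Prod.mk_zero_zero, if_true]
      ring
    · rw [if_neg hi, if_neg hi, if_neg]
      · ring
      · intro h5
        exact hi (congrArg Prod.snd h5)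
  have h5 : (p - 1) * c0 + (p - 1) * ∑ i ∈ Finset.range (p - 1), V i = kap p y0 * (p * (p - 1) * n) := by
    have e1 : ∑ i ∈ Finset.range (p - 1), (c0 + (p - 1) * V i) =
        ∑ i ∈ Finset.range (p - 1), if i • y0 = 0 then p * (p - 1) * n else 0 :=
      Finset.sum_congr rfl fun i _ => h4 i
    rw [Finset.sum_add_distrib, Finset.sum_const, Finset.card_range, nsmul_eq_mul, hcast, ← Finset.mul_sum,
      ← Finset.sum_filter, Finset.sum_const, nsmul_eq_mul] at e1
    exact e1
  -- (5)
  have h6 : ∀ y, del p d (0, y) = -∑ i ∈ Finset.range (p - 1), del p d (1, y + i • y0) := by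
    intro y
    have e1 := sum_del_one d y
    rw [sum_units hp ht] at e1
    simp only [del_tpow hrel] at e1
    linarith
  have h7 : c0 = -((p - 1) * c1) := by
    have e1 : c0 = -∑ i ∈ Finset.range (p - 1), ∑ y, del p d (0, y) * del p d (1, y + i • y0) := by
      rw [hc0, Finset.sum_comm, ← Finset.sum_neg_distrib]
      refine Finset.sum_congr rfl fun y _ => ?_
      rw [← Finset.mul_sum, sq]
      nth_rewrite 2 [h6 y]
      ring
    have e2 : ∀ i : ℕ, ∑ y, del p d (0, y) * del p d (1, y + i • y0) = c1 := by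
      intro i
      rw [hc1, ← sum_shift (fun y => del p d (0, y) * del p d (1, y)) (i • y0)]
      simp only [del_zero_add hrel]
    rw [e1, Finset.sum_congr rfl (fun j _ => e2 j), Finset.sum_const, Finset.card_range, nsmul_eq_mul, hcast]
  have h8 : c1 = -∑ i ∈ Finset.range (p - 1), V i := by
    rw [hc1, hV, Finset.sum_comm, ← Finset.sum_neg_distrib]
    refine Finset.sum_congr rfl fun y _ => ?_
    rw [← Finset.mul_sum, h6 y]
    ring
  have h9 : c0 = kap p y0 * (p - 1) * n := by
    apply mul_left_cancel₀ hp0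
    linear_combination h5 + h7 - (p - 1) * h8
  refine ⟨h9, ?_⟩
  have h10 : c1 = -(kap p y0 * n) := by
    apply mul_left_cancel₀ hp1
    linear_combination h7 - h9
  have h11 : V 0 = p * n - kap p y0 * n := by
    have e1 := h4 0
    rw [zero_smul, if_pos rfl] at e1
    apply mul_left_cancel₀ hp1
    linear_combination e1 - h9
  have h12 : p * (p * ∑ y, (d (1, y) - d (0, y)) ^ 2) = V 0 + c0 - 2 * c1 := by
    rw [hV, hc0, hc1]
    simp only [zero_smul, add_zero]
    rw [← Finset.sum_add_distrib, Finset.mul_sum, Finset.mul_sum, Finset.mul_sum, ← Finset.sum_sub_distrib]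
    refine Finset.sum_congr rfl fun y _ => ?_
    rw [del_one, del_one]
    ring
  apply mul_left_cancel₀ hp0
  rw [h12, h11, h9, h10]
  ring

/-- kappa is even if n is odd -/
theorem kap_even_of_odd (hp : p.Prime) (hp2 : p ≠ 2) (hzo : ∀ g, d g = 0 ∨ d g = 1) (h : Co d lam n)
    (ht : ∀ u : (ZMod p)ˣ, ∃ i : ℕ, t ^ i = u)
    (hrel : ∀ x y, del p d (x, y) = 1 * del p d (t * x, y - y0)) (hn : Odd n) : Even (kap p y0) := by
  have h1 := (main_id hp h ht hrel).2
  have h2 := (sq_pos hp h ht hrel).2.1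
  have hodd : Odd (p : ℤ) := by exact_mod_cast hp.odd_of_ne_two hp2
  have h3 : Odd (∑ y, d (0, y) - ∑ y, d (1, y)) := by
    rw [← h2] at hn
    exact (Int.odd_pow.1 hn).resolve_right (by norm_num)
  have h4 : Even (∑ y, (d (1, y) - d (0, y)) ^ 2 - (∑ y, d (0, y) - ∑ y, d (1, y))) := by
    rw [← Finset.sum_sub_distrib, ← Finset.sum_sub_distrib]
    apply Finset.even_sum
    intro y _
    rcases hzo (0, y) with e1 | e1 <;> rcases hzo (1, y) with e2 | e2 <;> rw [e1, e2] <;> decide
  have h5 : Odd (∑ y, (d (1, y) - d (0, y)) ^ 2) := by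
    have := Even.add_odd h4 h3
    simpa using this
  have h6 : Odd ((1 + kap p y0 : ℤ) * n) := by
    rw [← h1]
    exact hodd.mul h5
  have h7 : Odd (1 + kap p y0 : ℤ) := (Int.odd_mul.1 h6).1
  have h8 : Odd (1 + kap p y0) := by exact_mod_cast h7
  rcases h8 with ⟨j, hj⟩
  exact ⟨j, by omega⟩

/-- kappa is even if w is odd -/
theorem kap_even_of_odd_w (hp : p.Prime) (hp2 : p ≠ 2) (hw : Odd w) (hy0 : (p - 1) • y0 = 0) :
    Even (kap p y0) := by
  obtain ⟨h, hh⟩ := hp.odd_of_ne_two hp2
  have e1 : p - 1 = h + h := by omega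
  have h1 : h • y0 = 0 := by
    rw [e1, ← two_mul, mul_smul, two_smul] at hy0
    have h2 : IsUnit (2 : ZMod w) := by
      have h3 : IsUnit ((2 : ℕ) : ZMod w) := by
        rw [ZMod.isUnit_iff_coprime]
        exact Nat.coprime_two_left.2 hw
      exact_mod_cast h3
    have h3 : (2 : ZMod w) * (h • y0) = 2 * 0 := by
      rw [mul_zero, two_mul]
      exact hy0
    exact h2.mul_left_cancel h3
  unfold kap
  rw [e1, Finset.card_filter, Finset.sum_range_add]
  refine ⟨∑ x ∈ Finset.range h, if x • y0 = 0 then 1 else 0, ?_⟩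
  congr 1
  refine Finset.sum_congr rfl fun x _ => ?_
  rw [add_smul, h1, zero_add]

theorem kap_pos (hp : p.Prime) (y0 : ZMod w) : 0 < kap p y0 := by
  apply Finset.card_pos.2
  refine ⟨0, ?_⟩
  rw [Finset.mem_filter, Finset.mem_range]
  refine ⟨?_, zero_smul _ _⟩
  have := hp.one_lt
  omega

end

end Ry
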