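import Pool.Agent.Lib.MP_12eb66_co.Defs

/-! Row ry-T1. Proof. d' x = number of y ∈ D with π y = x. ∑_x d' x d' (x + a) = number of pairs (y, y') ∈ D x D with π y' - π y = a, that is π (y' - y) = a; group them by u = y' - y: for every u with π u = a, u ≠ 0 there are lam pairs, for u = 0 there are |D| pairs. There are c elements u with π u = a;
for a ≠ 0 none is 0; for a = 0 one of them is 0: total c lam + (|D| - lam). -/

namespace Ry

theorem pushforward {A B : Type} [AddCommGroup A] [Fintype A] [DecidableEq A] [AddCommGroup B] [Fintype B]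
    [DecidableEq B] (π : A →+ B) {c : ℕ} (hc : ∀ x, (Finset.univ.filter fun y => π y = x).card = c) (D : Finset A)
    {l : ℕ} (hD : ∀ u : A, u ≠ 0 → ((D ×ˢ D).filter fun r => r.1 - r.2 = u).card = l) :
    Co (fun x => (((D.filter fun y => π y = x).card : ℕ) : ℤ)) (c * l) (D.card - l) := by
  constructor
  intro a
  obtain ⟨S, hS⟩ : ∃ S : Finset (A × A), S = (D ×ˢ D).filter fun r => π (r.1 - r.2) = a := ⟨_, rfl⟩
  have h1 : S.card = ∑ x, (D.filter fun y => π y = x).card * (D.filter fun y => π y = x + a).card := by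
    rw [Finset.card_eq_sum_card_fiberwise (f := fun r : A × A => π r.2)
      (t := (Finset.univ : Finset B)) fun r _ => Finset.mem_coe.2 (Finset.mem_univ _)]
    refine Finset.sum_congr rfl fun x _ => ?_
    rw [mul_comm, ← Finset.card_product]
    congr 1
    ext r
    simp only [hS, Finset.mem_filter, Finset.mem_product, map_sub]
    constructor
    · rintro ⟨⟨⟨h1, h2⟩, h3⟩, h4⟩
      exact ⟨⟨h1, by rw [← h3, ← h4]; abel⟩, h2, h4⟩
    · rintro ⟨⟨h1, h3⟩, h2, h4⟩
      exact ⟨⟨⟨h1, h2⟩, by rw [h3, h4]; abel⟩, h4⟩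
  have h2 : S.card = ∑ u ∈ Finset.univ.filter (fun u => π u = a),
      ((D ×ˢ D).filter fun r => r.1 - r.2 = u).card := by
    rw [Finset.card_eq_sum_card_fiberwise (f := fun r : A × A => r.1 - r.2)
      (t := Finset.univ.filter (fun u => π u = a)) fun r hr => by
        rw [Finset.mem_coe, hS, Finset.mem_filter] at hr
        exact Finset.mem_coe.2 (Finset.mem_filter.2 ⟨Finset.mem_univ _, hr.2⟩)]
    refine Finset.sum_congr rfl fun u hu => ?_
    congr 1
    ext r
    simp only [hS, Finset.mem_filter]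
    constructor
    · rintro ⟨⟨h1, _⟩, h3⟩
      exact ⟨h1, h3⟩
    · rintro ⟨h1, h3⟩
      exact ⟨⟨h1, by rw [h3]; exact (Finset.mem_filter.1 hu).2⟩, h3⟩
  have h0 : ((D ×ˢ D).filter fun r : A × A => r.1 - r.2 = 0).card = D.card := by
    rw [← Finset.card_image_of_injective D (f := fun y => (y, y)) fun x y h => (Prod.ext_iff.1 h).1]
    congr 1
    ext ⟨x, y⟩
    simp only [Finset.mem_filter, Finset.mem_product, Finset.mem_image, Prod.mk.injEq, sub_eq_zero]
    constructor
    · rintro ⟨⟨h1, _⟩, rfl⟩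
      exact ⟨x, h1, rfl, rfl⟩
    · rintro ⟨z, hz, rfl, rfl⟩
      exact ⟨⟨hz, hz⟩, rfl⟩
  have e1 : ∑ x, (((D.filter fun y => π y = x).card : ℕ) : ℤ) *
      (((D.filter fun y => π y = x + a).card : ℕ) : ℤ) = (S.card : ℤ) := by
    rw [h1]
    push_cast
    rfl
  rw [e1]
  by_cases ha : a = 0
  · subst ha
    rw [if_pos rfl, h2]
    have hm : (0 : A) ∈ Finset.univ.filter (fun u => π u = 0) := by simp
    rw [← Finset.add_sum_erase _ _ hm, h0]
    have h3 : ∑ u ∈ (Finset.univ.filter (fun u => π u = 0)).erase 0,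
        ((D ×ˢ D).filter fun r => r.1 - r.2 = u).card = (c - 1) * l := by
      rw [Finset.sum_congr rfl fun u hu => hD u (Finset.mem_erase.1 hu).1, Finset.sum_const,
        smul_eq_mul, Finset.card_erase_of_mem hm, hc]
    rw [h3]
    have hc1 : 1 ≤ c := by
      rw [← hc 0]
      exact Finset.card_pos.2 ⟨0, hm⟩
    obtain ⟨c', rfl⟩ := Nat.exists_eq_add_of_le hc1
    rw [Nat.add_sub_cancel_left]
    push_cast
    ring
  · rw [if_neg ha, h2, Finset.sum_congr rfl fun u hu => hD u fun h => ha (by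
      rw [← (Finset.mem_filter.1 hu).2, h, map_zero]), Finset.sum_const, smul_eq_mul, hc]
    push_cast
    ring

end Ry
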